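import Pool.Agent.H67.VU.Defs
import Pool.Agent.H67.VT.LsB
import Pool.Agent.H21.BV.Fej

/-!
[H67 VU PV]  The inequality of Pólya and Vinogradov.

Proof.  `VT.lsb_expand` with `s = Ioc m n`, `a = 1`:
`∑_b χ⁻¹(b) ∑_{k ∈ s} e(k b/q) = (∑_{k ∈ s} χ(k)) τ(χ⁻¹)`, `|τ(χ⁻¹)| = √q` (`VT.lsb_gauss` for `χ⁻¹`, which is
primitive: `DirichletCharacter.conductor_inv`).  `χ⁻¹(0) = 0` (`q ≥ 2`), and for `b ≢ 0 (mod q)` the geometric sum
is `≤ 2/|e(b/q) - 1|`; for the representative `b` with `|b| ≤ q/2` this is `≤ 2/(4|b|/q) = q/(2|b|)`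
(`H21.BV.fej_low : |t| ≤ 1/2 → 4|t| ≤ ‖ee t - 1‖`, `ee t = exp(2 π t i)`, see that file).  So
`√q |∑ χ(k)| ≤ 2 ∑_{1 ≤ b ≤ q/2} q/(2b) ≤ q (1 + log q)`.
-/

namespace Pool.Agent.H67.VU

open Finset

private theorem pv_low {q v : ℕ} (h1 : 1 ≤ v) (h2 : v < q) :
    2 / ‖Pool.Agent.H21.BV.ee ((v : ℝ) / q) - 1‖ ≤
      (q : ℝ) / 2 * (1 / (v : ℝ) + 1 / ((q : ℝ) - v)) := by
  have hv : (0 : ℝ) < v := by exact_mod_cast h1
  have hq : (0 : ℝ) < q := by exact_mod_cast (by omega : 0 < q)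
  have hvq : (0 : ℝ) < (q : ℝ) - v := by
    have : (v : ℝ) < q := by exact_mod_cast h2
    linarith
  have h0 : (0 : ℝ) < 1 / (v : ℝ) := by positivity
  have h0' : (0 : ℝ) < 1 / ((q : ℝ) - v) := by positivity
  by_cases hc : 2 * v ≤ q
  · have hc' : 2 * (v : ℝ) ≤ q := by exact_mod_cast hc
    have hlow := Pool.Agent.H21.BV.fej_low ((v : ℝ) / q) (by
      rw [abs_of_pos (by positivity), div_le_div_iff₀ hq (by norm_num)]
      linarith)
    rw [abs_of_pos (by positivity)] at hlow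
    calc 2 / ‖Pool.Agent.H21.BV.ee ((v : ℝ) / q) - 1‖ ≤ 2 / (4 * ((v : ℝ) / q)) :=
          div_le_div_of_nonneg_left (by norm_num) (by positivity) hlow
      _ = (q : ℝ) / 2 * (1 / (v : ℝ)) := by
          field_simp
          norm_num
      _ ≤ _ := by
          apply mul_le_mul_of_nonneg_left _ (by positivity)
          linarith
  · have hc' : (q : ℝ) ≤ 2 * (v : ℝ) := by exact_mod_cast (by omega : q ≤ 2 * v)
    have hneg : (v : ℝ) / q - 1 ≤ 0 := by
      rw [sub_nonpos, div_le_one hq]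
      linarith
    have e1 : Pool.Agent.H21.BV.ee ((v : ℝ) / q) = Pool.Agent.H21.BV.ee ((v : ℝ) / q - 1) := by
      have h3 := Pool.Agent.H21.BV.ee_add ((v : ℝ) / q - 1) 1
      have h4 := Pool.Agent.H21.BV.ee_int 1
      rw [Int.cast_one] at h4
      rw [h4, mul_one, sub_add_cancel] at h3
      exact h3
    have e2 : |(v : ℝ) / q - 1| = ((q : ℝ) - v) / q := by
      rw [abs_of_nonpos hneg]
      field_simp
      ring
    have hlow := Pool.Agent.H21.BV.fej_low ((v : ℝ) / q - 1) (by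
      rw [e2, div_le_div_iff₀ hq (by norm_num)]
      linarith)
    rw [e2] at hlow
    rw [e1]
    calc 2 / ‖Pool.Agent.H21.BV.ee ((v : ℝ) / q - 1) - 1‖ ≤ 2 / (4 * (((q : ℝ) - v) / q)) :=
          div_le_div_of_nonneg_left (by norm_num) (by positivity) hlow
      _ = (q : ℝ) / 2 * (1 / ((q : ℝ) - v)) := by
          field_simp
          norm_num
      _ ≤ _ := by
          apply mul_le_mul_of_nonneg_left _ (by positivity)
          linarith

private theorem pv_geo {q : ℕ} [NeZero q] (b : ZMod q) (hb : b ≠ 0) (m n : ℕ) :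
    ‖∑ k ∈ Ioc m n, ZMod.stdAddChar (N := q) ((k : ZMod q) * b)‖ ≤
      (q : ℝ) / 2 * (1 / (b.val : ℝ) + 1 / ((q : ℝ) - b.val)) := by
  have hv1 : 1 ≤ b.val := by
    rw [Nat.one_le_iff_ne_zero, Ne, ZMod.val_eq_zero]
    exact hb
  have hv2 : b.val < q := ZMod.val_lt b
  have hlow := pv_low hv1 hv2
  obtain ⟨z, hz⟩ : ∃ z : ℂ, z = ZMod.stdAddChar (N := q) b := ⟨_, rfl⟩
  have hze : z = Pool.Agent.H21.BV.ee ((b.val : ℝ) / q) := by
    have h1 : b = ((b.val : ℤ) : ZMod q) := by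
      rw [Int.cast_natCast, ZMod.natCast_zmod_val]
    rw [hz]
    conv_lhs => rw [h1]
    rw [ZMod.stdAddChar_coe]
    unfold Pool.Agent.H21.BV.ee
    congr 1
    push_cast
    ring
  have hz1 : z ≠ 1 := by
    intro h
    have h1 : ZMod.stdAddChar (N := q) b = ZMod.stdAddChar (N := q) 0 := by
      rw [← hz, h, AddChar.map_zero_eq_one]
    exact hb (ZMod.injective_stdAddChar h1)
  rw [← hze] at hlow
  refine le_trans ?_ hlow
  have e1 : ∀ k : ℕ, ZMod.stdAddChar (N := q) ((k : ZMod q) * b) = z ^ k := by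
    intro k
    rw [hz, ← nsmul_eq_mul, AddChar.map_nsmul_eq_pow]
  simp only [e1]
  have hzn : ‖z‖ = 1 := by
    rw [hze]
    exact Pool.Agent.H21.BV.norm_ee _
  have hz0 : 0 < ‖z - 1‖ := by
    rw [norm_pos_iff, sub_ne_zero]
    exact hz1
  rcases le_total m n with hmn | hmn
  · have h2 : Ioc m n = Ico (m + 1) (n + 1) := by
      ext k
      rw [mem_Ioc, mem_Ico]
      omega
    rw [h2, geom_sum_Ico hz1 (by omega), norm_div]
    apply div_le_div_of_nonneg_right _ hz0.le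
    calc ‖z ^ (n + 1) - z ^ (m + 1)‖ ≤ ‖z ^ (n + 1)‖ + ‖z ^ (m + 1)‖ := norm_sub_le _ _
      _ = 2 := by
        rw [norm_pow, norm_pow, hzn]
        norm_num
  · rw [Finset.Ioc_eq_empty_iff.2 (by omega), Finset.sum_empty, norm_zero]
    positivity

private theorem pv_harm (q : ℕ) (hq : 1 ≤ q) :
    ∑ v ∈ Ico 1 q, (1 / (v : ℝ) + 1 / ((q : ℝ) - v)) ≤ 2 * (1 + Real.log q) := by
  rw [Finset.sum_add_distrib]
  have h1 : ∑ v ∈ Ico 1 q, 1 / ((q : ℝ) - v) = ∑ v ∈ Ico 1 q, 1 / (v : ℝ) := by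
    refine Finset.sum_nbij' (fun v => q - v) (fun v => q - v) ?_ ?_ ?_ ?_ ?_
    · intro v hv
      rw [mem_Ico] at hv ⊢
      omega
    · intro v hv
      rw [mem_Ico] at hv ⊢
      omega
    · intro v hv
      rw [mem_Ico] at hv
      omega
    · intro v hv
      rw [mem_Ico] at hv
      omega
    · intro v hv
      rw [mem_Ico] at hv
      rw [Nat.cast_sub (by omega)]
  have h2 : ∑ v ∈ Ico 1 q, 1 / (v : ℝ) ≤ 1 + Real.log q := by
    have h3 := harmonic_le_one_add_log q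
    refine le_trans ?_ h3
    unfold harmonic
    push_cast
    rw [Finset.sum_Ico_eq_sum_range]
    calc ∑ k ∈ range (q - 1), 1 / (((1 + k : ℕ)) : ℝ)
        = ∑ k ∈ range (q - 1), ((k : ℝ) + 1)⁻¹ := by
          refine Finset.sum_congr rfl fun k _ => ?_
          push_cast
          rw [one_div, add_comm]
      _ ≤ ∑ k ∈ range q, ((k : ℝ) + 1)⁻¹ := by
          apply Finset.sum_le_sum_of_subset_of_nonneg
          · exact range_subset_range.2 (by omega)
          · intro k _ _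
            positivity
  rw [h1]
  linarith

theorem pv_bound {q : ℕ} [NeZero q] (χ : DirichletCharacter ℂ q) (hχ : χ.IsPrimitive)
    (hq : 2 ≤ q) (m n : ℕ) : ‖∑ k ∈ Ioc m n, χ (k : ZMod q)‖ ≤ pv q := by
  classical
  have hq0 : (0 : ℝ) < q := by exact_mod_cast (by omega : 0 < q)
  have hp : (χ⁻¹).IsPrimitive := by
    rw [DirichletCharacter.isPrimitive_def] at hχ ⊢
    rw [DirichletCharacter.conductor_inv, hχ]
  have h1 := VT.lsb_expand (Ioc m n) (fun _ => (1 : ℂ)) χ hχ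
  simp only [one_mul] at h1
  have h2 := VT.lsb_gauss χ⁻¹ hp
  rw [Complex.mul_conj'] at h2
  have h3 : ‖gaussSum χ⁻¹ (ZMod.stdAddChar (N := q))‖ = Real.sqrt q := by
    have h4 : ‖gaussSum χ⁻¹ (ZMod.stdAddChar (N := q))‖ ^ 2 = (q : ℝ) := by exact_mod_cast h2
    rw [← h4, Real.sqrt_sq (norm_nonneg _)]
  have h5 : ‖∑ k ∈ Ioc m n, χ (k : ZMod q)‖ * Real.sqrt q ≤ (q : ℝ) * (1 + Real.log q) := by
    rw [← h3, ← norm_mul, ← h1]
    have hz : χ⁻¹ (0 : ZMod q) = 0 := by
      apply MulChar.map_nonunit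
      have : Nontrivial (ZMod q) := ZMod.nontrivial_iff.2 (by omega)
      exact not_isUnit_zero
    have h6 : ∑ b : ZMod q, χ⁻¹ b * ∑ k ∈ Ioc m n, ZMod.stdAddChar (N := q) ((k : ZMod q) * b) =
        ∑ b ∈ univ.erase (0 : ZMod q),
          χ⁻¹ b * ∑ k ∈ Ioc m n, ZMod.stdAddChar (N := q) ((k : ZMod q) * b) := by
      rw [← Finset.add_sum_erase univ _ (mem_univ (0 : ZMod q)), hz, zero_mul, zero_add]
    rw [h6]
    calc ‖∑ b ∈ univ.erase (0 : ZMod q),
          χ⁻¹ b * ∑ k ∈ Ioc m n, ZMod.stdAddChar (N := q) ((k : ZMod q) * b)‖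
        ≤ ∑ b ∈ univ.erase (0 : ZMod q),
          ‖χ⁻¹ b * ∑ k ∈ Ioc m n, ZMod.stdAddChar (N := q) ((k : ZMod q) * b)‖ := norm_sum_le _ _
      _ ≤ ∑ b ∈ univ.erase (0 : ZMod q),
          (q : ℝ) / 2 * (1 / (b.val : ℝ) + 1 / ((q : ℝ) - b.val)) := by
          refine Finset.sum_le_sum fun b hb => ?_
          rw [mem_erase] at hb
          rw [norm_mul]
          calc ‖χ⁻¹ b‖ * ‖∑ k ∈ Ioc m n, ZMod.stdAddChar (N := q) ((k : ZMod q) * b)‖
              ≤ 1 * ‖∑ k ∈ Ioc m n, ZMod.stdAddChar (N := q) ((k : ZMod q) * b)‖ :=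
                mul_le_mul_of_nonneg_right (DirichletCharacter.norm_le_one _ _) (norm_nonneg _)
            _ ≤ _ := by
                rw [one_mul]
                exact pv_geo b hb.1 m n
      _ = ∑ v ∈ Ico 1 q, (q : ℝ) / 2 * (1 / (v : ℝ) + 1 / ((q : ℝ) - v)) := by
          refine Finset.sum_nbij' (fun b => b.val) (fun v => (v : ZMod q)) ?_ ?_ ?_ ?_ ?_
          · intro b hb
            rw [mem_erase] at hb
            rw [mem_Ico]
            refine ⟨?_, ZMod.val_lt b⟩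
            rw [Nat.one_le_iff_ne_zero, Ne, ZMod.val_eq_zero]
            exact hb.1
          · intro v hv
            rw [mem_Ico] at hv
            rw [mem_erase]
            refine ⟨?_, mem_univ _⟩
            intro h
            have := congrArg ZMod.val h
            rw [ZMod.val_cast_of_lt hv.2, ZMod.val_zero] at this
            omega
          · intro b _
            exact ZMod.natCast_zmod_val b
          · intro v hv
            rw [mem_Ico] at hv
            exact ZMod.val_cast_of_lt hv.2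
          · intro b _
            rfl
      _ = (q : ℝ) / 2 * ∑ v ∈ Ico 1 q, (1 / (v : ℝ) + 1 / ((q : ℝ) - v)) := by
          rw [Finset.mul_sum]
      _ ≤ (q : ℝ) / 2 * (2 * (1 + Real.log q)) :=
          mul_le_mul_of_nonneg_left (pv_harm q (by omega)) (by positivity)
      _ = (q : ℝ) * (1 + Real.log q) := by ring
  have hsq : 0 < Real.sqrt q := Real.sqrt_pos.2 hq0
  have h7 : (q : ℝ) * (1 + Real.log q) = pv q * Real.sqrt q := by
    unfold pv
    have h8 := Real.mul_self_sqrt hq0.le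
    calc (q : ℝ) * (1 + Real.log q) = (Real.sqrt q * Real.sqrt q) * (1 + Real.log q) := by rw [h8]
      _ = _ := by ring
  rw [h7] at h5
  exact le_of_mul_le_mul_right h5 hsq

end Pool.Agent.H67.VU
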