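import Pool.Agent.H67.VU.TyC
import Pool.Agent.H67.VU.Pv
import Pool.Agent.H21.MT.Vau
import Pool.Agent.H21.MT.Abel

/-!
[H67 VU TH]  The mean value of the sums over primes, all primitive characters of conductor up to `R`.

Proof.  `H21.MT.vaughan u` with `Y = T`, `F n = χ(n)` for `t < n ≤ T`, else `0` (see `Pool/Agent/H67/VT/Vc.lean`, which has the
same computation for smooth weights; its lemma `vc_nonprime` bounds the prime powers: they contribute at most
`2 √T log T` for each character, so `R^2 * 2 √T log T` in total, `card (PC R) ≤ R^2` is `H21.MT.card_PC`).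
First sum: `0` (`n ≤ u ≤ u^3 ≤ t`).
Second sum: for each `m ≤ u` the inner sum is `χ(m) ∑_{t/m < k ≤ T/m} log k χ(k)`, by Abel summation (`abel_le`, `mono_tv`)
and `pv_bound` at most `2 log T pv(r)`, `pv(r) ≤ √R (1 + log R) ≤ √R (1 + log T)`; total over `m` and characters
`≤ 2 R^2 √R u log T (1 + log T)`.
Third sum, `m ≤ u`: `|c m| ≤ log m ≤ log T`, inner sum `≤ pv(r)`: total `≤ R^2 √R u log T (1 + log T)`.
Third sum, `u < m ≤ u^2`: if `t < m k` then `k > t/u^2 ≥ u`; so it is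
`∑_{m ∈ (u,T]} c'(m) ∑_{k ∈ (u,T/m]} χ(mk) - (the same with t)`, `c' m = c m` for `m ≤ u^2`, else `0`
(`u^2 ≤ t ≤ T`): `ty_cut` twice, `α = log T` (or `1 + log T`), `β = 1`.
Fourth sum: `∑_{m ∈ (u,T]} μ(m) ∑_{k ∈ (u,T/m]} b(k) χ(mk) - (the same with t)`: `ty_cut` twice, `α = 1`, `β = log T`.
(For the difference: `∑_{m ∈ Ioc u T} a m ∑_{k ∈ Ioc u (T/m)} [t < mk] G(m,k)`, and the pairs with `m k ≤ t` are exactly
`m ∈ Ioc u t`, `k ∈ Ioc u (t/m)`.)  `t ≤ T`, so the bound for `t` is at most the one for `T`.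
`(1+log T)^5` absorbs all powers of the logarithm.
-/

namespace Pool.Agent.H67.VU

open Finset Pool.Agent.H21.MT Pool.Agent.H67.VS

/-- prime powers that are not primes -/
private theorem th_nonprime (A B : ℕ) (hB : 1 ≤ B) :
    ∑ n ∈ (Ioc A B).filter (fun n => ¬ n.Prime), ArithmeticFunction.vonMangoldt n ≤
      2 * Real.sqrt B * Real.log B := by
  have hB1 : (1 : ℝ) ≤ B := by exact_mod_cast hB
  refine le_trans ?_ (Chebyshev.psi_sub_theta_le hB1)
  rw [Chebyshev.psi_sub_theta_eq_sum_not_prime, Nat.floor_natCast]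
  apply sum_le_sum_of_subset_of_nonneg
  · apply filter_subset_filter
    exact Ioc_subset_Ioc (Nat.zero_le _) le_rfl
  · intro i _ _
    exact ArithmeticFunction.vonMangoldt_nonneg

/-- the bilinear sum -/
noncomputable def thG (u Y : ℕ) (a b : ℕ → ℝ) {q : ℕ} (χ : DirichletCharacter ℂ q) : ℂ :=
  ∑ m ∈ Ioc u Y, ((a m : ℝ) : ℂ) * ∑ k ∈ Ioc u (Y / m), ((b k : ℝ) : ℂ) *
    χ ((m * k : ℕ) : ZMod q)

/-- the function `F` -/
noncomputable def thF (t : ℕ) {q : ℕ} (χ : DirichletCharacter ℂ q) (n : ℕ) : ℂ :=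
  if t < n then χ (n : ZMod q) else 0

theorem thG_sub (u t T : ℕ) (htT : t ≤ T) (a b : ℕ → ℝ) {q : ℕ} (χ : DirichletCharacter ℂ q) :
    ∑ m ∈ Ioc u T, ((a m : ℝ) : ℂ) * ∑ k ∈ Ioc u (T / m), ((b k : ℝ) : ℂ) * thF t χ (m * k) =
      thG u T a b χ - thG u t a b χ := by
  have h1 : ∀ m ∈ Ioc u T, ∑ k ∈ Ioc u (T / m), ((b k : ℝ) : ℂ) * thF t χ (m * k) =
      ∑ k ∈ Ioc u (T / m), ((b k : ℝ) : ℂ) * χ ((m * k : ℕ) : ZMod q) -
      ∑ k ∈ Ioc u (t / m), ((b k : ℝ) : ℂ) * χ ((m * k : ℕ) : ZMod q) := by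
    intro m hm
    have hm0 : 0 < m := by
      rw [mem_Ioc] at hm
      omega
    have e1 : ∑ k ∈ Ioc u (t / m), ((b k : ℝ) : ℂ) * χ ((m * k : ℕ) : ZMod q) =
        ∑ k ∈ Ioc u (T / m), if k ≤ t / m then ((b k : ℝ) : ℂ) * χ ((m * k : ℕ) : ZMod q)
          else 0 := by
      rw [← sum_filter]
      apply sum_congr _ (fun _ _ => rfl)
      ext k
      rw [mem_filter, mem_Ioc, mem_Ioc]
      have : t / m ≤ T / m := Nat.div_le_div_right htT
      omega
    rw [e1, ← sum_sub_distrib]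
    apply sum_congr rfl
    intro k _
    unfold thF
    by_cases hk : k ≤ t / m
    · have h2 : ¬ t < m * k := by
        rw [Nat.le_div_iff_mul_le hm0] at hk
        rw [not_lt, mul_comm]
        exact hk
      rw [if_neg h2, if_pos hk, mul_zero, sub_self]
    · have h2 : t < m * k := by
        rw [not_le, Nat.div_lt_iff_lt_mul hm0] at hk
        rwa [mul_comm]
      rw [if_pos h2, if_neg hk, sub_zero]
  have h2 : ∑ m ∈ Ioc u T, ((a m : ℝ) : ℂ) * ∑ k ∈ Ioc u (t / m), ((b k : ℝ) : ℂ) *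
      χ ((m * k : ℕ) : ZMod q) = thG u t a b χ := by
    unfold thG
    symm
    apply sum_subset
    · exact Ioc_subset_Ioc le_rfl htT
    · intro m hm hm'
      rw [mem_Ioc] at hm hm'
      have : t / m = 0 := Nat.div_eq_of_lt (by omega)
      rw [this]
      simp
  rw [← h2]
  unfold thG
  rw [← sum_sub_distrib]
  apply sum_congr rfl
  intro m hm
  rw [h1 m hm]
  ring

theorem thF_inner (t T m : ℕ) (hm : 0 < m) (g : ℕ → ℂ) {q : ℕ} (χ : DirichletCharacter ℂ q) :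
    ∑ k ∈ Icc 1 (T / m), g k * thF t χ (m * k) =
      χ (m : ZMod q) * ∑ k ∈ Ioc (t / m) (T / m), χ (k : ZMod q) * g k := by
  rw [mul_sum]
  symm
  have h1 : Ioc (t / m) (T / m) ⊆ Icc 1 (T / m) := by
    intro k hk
    rw [mem_Ioc] at hk
    rw [mem_Icc]
    exact ⟨lt_of_le_of_lt (Nat.zero_le _) hk.1, hk.2⟩
  rw [← sum_subset h1]
  · apply sum_congr rfl
    intro k hk
    rw [mem_Ioc] at hk
    have h2 : t < m * k := by
      have := hk.1
      rw [Nat.div_lt_iff_lt_mul hm] at this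
      rwa [mul_comm]
    unfold thF
    rw [if_pos h2]
    push_cast
    rw [map_mul]
    ring
  · intro k hk hk'
    rw [mem_Icc] at hk
    rw [mem_Ioc] at hk'
    have h3 : k ≤ t / m := by omega
    have h2 : ¬ t < m * k := by
      rw [Nat.le_div_iff_mul_le hm] at h3
      rw [not_lt, mul_comm]
      exact h3
    unfold thF
    rw [if_neg h2, mul_zero]

theorem pv_nonneg (q : ℕ) : 0 ≤ pv q := by
  unfold pv
  have := Real.log_natCast_nonneg q
  positivity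

theorem pv_le {q R T : ℕ} (hq : 2 ≤ q) (hqR : q ≤ R) (hRT : R ≤ T) :
    pv q ≤ Real.sqrt R * (1 + Real.log T) := by
  unfold pv
  have h1 : Real.log q ≤ Real.log T :=
    Real.log_le_log (by exact_mod_cast (by omega : 0 < q)) (by exact_mod_cast hqR.trans hRT)
  have h2 : Real.sqrt q ≤ Real.sqrt R := Real.sqrt_le_sqrt (by exact_mod_cast hqR)
  have h3 := Real.log_natCast_nonneg q
  apply mul_le_mul h2 (by linarith) (by linarith) (Real.sqrt_nonneg _)

/-- the sum with the logarithm, by partial summation -/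
theorem th_log {q : ℕ} [NeZero q] (χ : DirichletCharacter ℂ q) (hχ : χ.IsPrimitive)
    (hq : 2 ≤ q) (m n T : ℕ) (hmn : m ≤ n) (hnT : n ≤ T) (hT : 1 ≤ T) :
    ‖∑ k ∈ Ioc m n, χ (k : ZMod q) * ((Real.log k : ℝ) : ℂ)‖ ≤ pv q * (2 * Real.log T) := by
  obtain ⟨g, hg⟩ : ∃ g : ℕ → ℝ, g = fun k => Real.log ((min k T : ℕ) : ℝ) := ⟨_, rfl⟩
  have hg0 : ∀ k, 0 ≤ g k := by
    intro k
    rw [hg]
    exact Real.log_natCast_nonneg _
  have hgT : ∀ k, g k ≤ Real.log T := by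
    intro k
    rw [hg]
    show Real.log ((min k T : ℕ) : ℝ) ≤ Real.log T
    rcases Nat.eq_zero_or_pos (min k T) with h | h
    · rw [h, Nat.cast_zero, Real.log_zero]
      exact Real.log_natCast_nonneg T
    · apply Real.log_le_log (by exact_mod_cast h)
      exact_mod_cast min_le_right k T
  have hgm : ∀ k, g k ≤ g (k + 1) := by
    intro k
    rw [hg]
    show Real.log ((min k T : ℕ) : ℝ) ≤ Real.log ((min (k + 1) T : ℕ) : ℝ)
    rcases Nat.eq_zero_or_pos (min k T) with h | h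
    · rw [h, Nat.cast_zero, Real.log_zero]
      exact Real.log_natCast_nonneg _
    · apply Real.log_le_log (by exact_mod_cast h)
      exact_mod_cast min_le_min_right T (Nat.le_succ k)
  have e1 : ∑ k ∈ Ioc m n, χ (k : ZMod q) * ((Real.log k : ℝ) : ℂ) =
      ∑ k ∈ Ioc m n, χ (k : ZMod q) * (g k : ℂ) := by
    apply sum_congr rfl
    intro k hk
    rw [mem_Ioc] at hk
    rw [hg]
    show _ = χ (k : ZMod q) * ((Real.log ((min k T : ℕ) : ℝ) : ℝ) : ℂ)
    rw [min_eq_left (hk.2.trans hnT)]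
  rw [e1]
  have h1 := abel_le (fun k => χ (k : ZMod q)) g (pv q) m n
    (fun k _ => pv_bound χ hχ hq m k) (pv_nonneg q) hmn
  refine h1.trans ?_
  have h2 := mono_tv g (Real.log T) hg0 hgT (m + 1) n (fun k _ _ => hgm k)
  rw [← Ioo_eq_Ico] at h2
  have h3 := hgT n
  apply mul_le_mul_of_nonneg_left _ (pv_nonneg q)
  rw [abs_of_nonneg (hg0 n)]
  linarith

theorem th_det {R u t T q : ℕ} [NeZero q] (hu : 1 ≤ u) (hut : u ^ 3 ≤ t) (htT : t ≤ T)
    (hRT : R ≤ T) (χ : DirichletCharacter ℂ q) (hχ : χ.IsPrimitive) (hq : 2 ≤ q) (hqR : q ≤ R)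
    (c b : ℕ → ℝ) (hc : ∀ m, |c m| ≤ Real.log m)
    (hV : ∀ (Y : ℕ) (F : ℕ → ℂ),
    ∑ n ∈ Icc 1 Y, ((ArithmeticFunction.vonMangoldt n : ℝ) : ℂ) * F n =
      ∑ n ∈ (Icc 1 Y).filter (fun n => n ≤ u), ((ArithmeticFunction.vonMangoldt n : ℝ) : ℂ) * F n +
      ∑ m ∈ Icc 1 u, ((ArithmeticFunction.moebius m : ℤ) : ℂ) *
        ∑ k ∈ Icc 1 (Y / m), ((Real.log k : ℝ) : ℂ) * F (m * k) -
      ∑ m ∈ Icc 1 (u * u), ((c m : ℝ) : ℂ) * ∑ k ∈ Icc 1 (Y / m), F (m * k) +
      ∑ m ∈ Ioc u Y, ((ArithmeticFunction.moebius m : ℤ) : ℂ) *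
        ∑ k ∈ Ioc u (Y / m), ((b k : ℝ) : ℂ) * F (m * k)) :
    ‖ThC t T onef χ‖ ≤
      ‖thG u T (fun m => if m ≤ u * u then c m else 0) onef χ‖ +
      ‖thG u t (fun m => if m ≤ u * u then c m else 0) onef χ‖ +
      ‖thG u T (fun m => ((ArithmeticFunction.moebius m : ℤ) : ℝ)) b χ‖ +
      ‖thG u t (fun m => ((ArithmeticFunction.moebius m : ℤ) : ℝ)) b χ‖ +
      (3 * u * Real.sqrt R * (1 + Real.log T) ^ 2 + 2 * Real.sqrt T * Real.log T) := by
  have huu : u * u ≤ u ^ 3 := by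
    have : u ^ 3 = u * u * u := by ring
    rw [this]
    exact Nat.le_mul_of_pos_right _ hu
  have hu1 : u ≤ u * u := Nat.le_mul_of_pos_right _ hu
  have hT1 : 1 ≤ T := by omega
  have huT : u ≤ T := by omega
  have hlT : 0 ≤ Real.log T := Real.log_natCast_nonneg T
  have hpv := pv_le hq hqR hRT
  have hpv0 := pv_nonneg q
  have hR0 : 0 ≤ Real.sqrt R := Real.sqrt_nonneg _
  have hn1 : ∀ x : ZMod q, ‖χ x‖ ≤ 1 := fun x => DirichletCharacter.norm_le_one χ x
  have hmu : ∀ m : ℕ, ‖((ArithmeticFunction.moebius m : ℤ) : ℂ)‖ ≤ 1 := by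
    intro m
    rw [Complex.norm_intCast]
    exact_mod_cast ArithmeticFunction.abs_moebius_le_one
  obtain ⟨F, hF⟩ : ∃ F : ℕ → ℂ, F = thF t χ := ⟨_, rfl⟩
  have h1 := hV T F
  have h2 : ∑ n ∈ (Icc 1 T).filter (fun n => n ≤ u),
      ((ArithmeticFunction.vonMangoldt n : ℝ) : ℂ) * F n = 0 := by
    apply sum_eq_zero
    intro n hn
    rw [mem_filter] at hn
    rw [hF]
    unfold thF
    rw [if_neg (by omega), mul_zero]
  -- type I, with logarithm
  have h3 : ‖∑ m ∈ Icc 1 u, ((ArithmeticFunction.moebius m : ℤ) : ℂ) *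
        ∑ k ∈ Icc 1 (T / m), ((Real.log k : ℝ) : ℂ) * F (m * k)‖ ≤
      2 * u * Real.sqrt R * (1 + Real.log T) ^ 2 := by
    have h4 : ∀ m ∈ Icc 1 u, ‖((ArithmeticFunction.moebius m : ℤ) : ℂ) *
        ∑ k ∈ Icc 1 (T / m), ((Real.log k : ℝ) : ℂ) * F (m * k)‖ ≤
        2 * Real.sqrt R * (1 + Real.log T) ^ 2 := by
      intro m hm
      rw [mem_Icc] at hm
      rw [hF, thF_inner t T m hm.1 (fun k => ((Real.log k : ℝ) : ℂ)) χ, norm_mul, norm_mul]
      have e1 := th_log χ hχ hq (t / m) (T / m) T (Nat.div_le_div_right htT)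
        (Nat.div_le_self T m) hT1
      calc ‖((ArithmeticFunction.moebius m : ℤ) : ℂ)‖ * (‖χ (m : ZMod q)‖ *
            ‖∑ k ∈ Ioc (t / m) (T / m), χ (k : ZMod q) * ((Real.log k : ℝ) : ℂ)‖)
          ≤ 1 * (1 * (pv q * (2 * Real.log T))) := by
            gcongr
            · exact hmu m
            · exact hn1 _
        _ = pv q * (2 * Real.log T) := by ring
        _ ≤ (Real.sqrt R * (1 + Real.log T)) * (2 * (1 + Real.log T)) := by
            gcongr
            linarith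
        _ = _ := by ring
    refine (norm_sum_le _ _).trans ((sum_le_sum h4).trans (le_of_eq ?_))
    rw [sum_const, Nat.card_Icc, Nat.add_sub_cancel, nsmul_eq_mul]
    ring
  -- type I, small `m`
  have h5 : ‖∑ m ∈ Icc 1 u, ((c m : ℝ) : ℂ) * ∑ k ∈ Icc 1 (T / m), F (m * k)‖ ≤
      u * Real.sqrt R * (1 + Real.log T) ^ 2 := by
    have h4 : ∀ m ∈ Icc 1 u, ‖((c m : ℝ) : ℂ) * ∑ k ∈ Icc 1 (T / m), F (m * k)‖ ≤
        Real.sqrt R * (1 + Real.log T) ^ 2 := by
      intro m hm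
      rw [mem_Icc] at hm
      have hm1 : (1 : ℝ) ≤ m := by exact_mod_cast hm.1
      have hm2 : (m : ℝ) ≤ T := by exact_mod_cast hm.2.trans huT
      have e0 : ∑ k ∈ Icc 1 (T / m), F (m * k) = ∑ k ∈ Icc 1 (T / m), (1 : ℂ) * F (m * k) := by
        apply sum_congr rfl
        intro k _
        rw [one_mul]
      rw [e0, hF, thF_inner t T m hm.1 (fun _ => 1) χ, norm_mul, norm_mul, Complex.norm_real,
        Real.norm_eq_abs]
      have e1 : ‖∑ k ∈ Ioc (t / m) (T / m), χ (k : ZMod q) * (1 : ℂ)‖ ≤ pv q := by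
        have e2 := pv_bound χ hχ hq (t / m) (T / m)
        simpa using e2
      have e3 : |c m| ≤ Real.log T := (hc m).trans (Real.log_le_log (by linarith) hm2)
      calc |c m| * (‖χ (m : ZMod q)‖ * ‖∑ k ∈ Ioc (t / m) (T / m), χ (k : ZMod q) * (1 : ℂ)‖)
          ≤ Real.log T * (1 * pv q) := by
            gcongr
            exact hn1 _
        _ = Real.log T * pv q := by ring
        _ ≤ (1 + Real.log T) * (Real.sqrt R * (1 + Real.log T)) := by
            gcongr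
            linarith
        _ = _ := by ring
    refine (norm_sum_le _ _).trans ((sum_le_sum h4).trans (le_of_eq ?_))
    rw [sum_const, Nat.card_Icc, Nat.add_sub_cancel, nsmul_eq_mul]
    ring
  -- type II, from the third sum
  have h6 : ∑ m ∈ Ioc u (u * u), ((c m : ℝ) : ℂ) * ∑ k ∈ Icc 1 (T / m), F (m * k) =
      thG u T (fun m => if m ≤ u * u then c m else 0) onef χ -
      thG u t (fun m => if m ≤ u * u then c m else 0) onef χ := by
    rw [← thG_sub u t T htT]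
    have hsub : Ioc u (u * u) ⊆ Ioc u T := Ioc_subset_Ioc le_rfl (by omega)
    rw [← sum_subset hsub]
    · apply sum_congr rfl
      intro m hm
      rw [mem_Ioc] at hm
      rw [if_pos hm.2]
      congr 1
      symm
      have hsub2 : Ioc u (T / m) ⊆ Icc 1 (T / m) := by
        intro k hk
        rw [mem_Ioc] at hk
        rw [mem_Icc]
        omega
      rw [← sum_subset hsub2]
      · apply sum_congr rfl
        intro k _
        rw [hF]
        unfold onef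
        rw [Complex.ofReal_one, one_mul]
      · intro k hk hk'
        rw [mem_Icc] at hk
        rw [mem_Ioc] at hk'
        have hku : k ≤ u := by omega
        have : m * k ≤ u * u * u := Nat.mul_le_mul hm.2 hku
        have e : u ^ 3 = u * u * u := by ring
        rw [hF]
        unfold thF
        rw [if_neg (by omega)]
    · intro m hm hm'
      rw [mem_Ioc] at hm hm'
      rw [if_neg (by omega), Complex.ofReal_zero, zero_mul]
  have h6' : ∑ m ∈ Icc 1 (u * u), ((c m : ℝ) : ℂ) * ∑ k ∈ Icc 1 (T / m), F (m * k) =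
      ∑ m ∈ Icc 1 u, ((c m : ℝ) : ℂ) * ∑ k ∈ Icc 1 (T / m), F (m * k) +
      ∑ m ∈ Ioc u (u * u), ((c m : ℝ) : ℂ) * ∑ k ∈ Icc 1 (T / m), F (m * k) := by
    rw [← sum_union]
    · apply sum_congr _ (fun _ _ => rfl)
      ext k
      rw [mem_union, mem_Icc, mem_Icc, mem_Ioc]
      omega
    · rw [disjoint_left]
      intro k hk hk'
      rw [mem_Icc] at hk
      rw [mem_Ioc] at hk'
      omega
  -- type II, fourth sum
  have h7 : ∑ m ∈ Ioc u T, ((ArithmeticFunction.moebius m : ℤ) : ℂ) *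
        ∑ k ∈ Ioc u (T / m), ((b k : ℝ) : ℂ) * F (m * k) =
      thG u T (fun m => ((ArithmeticFunction.moebius m : ℤ) : ℝ)) b χ -
      thG u t (fun m => ((ArithmeticFunction.moebius m : ℤ) : ℝ)) b χ := by
    rw [← thG_sub u t T htT, hF]
    apply sum_congr rfl
    intro m _
    push_cast
    rfl
  -- the sum over primes
  have h8 : ThC t T onef χ =
      ∑ n ∈ Icc 1 T, ((ArithmeticFunction.vonMangoldt n : ℝ) : ℂ) * F n -
      ∑ n ∈ (Ioc t T).filter (fun n => ¬ n.Prime),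
        ((ArithmeticFunction.vonMangoldt n : ℝ) : ℂ) * F n := by
    have e1 : ∑ n ∈ Icc 1 T, ((ArithmeticFunction.vonMangoldt n : ℝ) : ℂ) * F n =
        ∑ n ∈ Ioc t T, ((ArithmeticFunction.vonMangoldt n : ℝ) : ℂ) * F n := by
      symm
      apply sum_subset
      · intro n hn
        rw [mem_Ioc] at hn
        rw [mem_Icc]
        omega
      · intro n hn hn'
        rw [mem_Icc] at hn
        rw [mem_Ioc] at hn'
        rw [hF]
        unfold thF
        rw [if_neg (by omega), mul_zero]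
    rw [e1, sum_filter, ← sum_sub_distrib]
    unfold ThC
    apply sum_congr rfl
    intro n hn
    rw [mem_Ioc] at hn
    have hFn : F n = χ (n : ZMod q) := by
      rw [hF]
      unfold thF
      rw [if_pos hn.1]
    unfold pl onef
    by_cases hp : n.Prime
    · rw [if_pos hp, if_neg (not_not.2 hp), sub_zero, hFn,
        ArithmeticFunction.vonMangoldt_apply_prime hp, one_mul]
    · rw [if_neg hp, if_pos hp, mul_zero]
      simp
  have h9 : ‖∑ n ∈ (Ioc t T).filter (fun n => ¬ n.Prime),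
        ((ArithmeticFunction.vonMangoldt n : ℝ) : ℂ) * F n‖ ≤ 2 * Real.sqrt T * Real.log T := by
    refine (norm_sum_le _ _).trans (le_trans (sum_le_sum ?_) (th_nonprime t T hT1))
    intro n _
    rw [norm_mul, Complex.norm_real, Real.norm_of_nonneg ArithmeticFunction.vonMangoldt_nonneg, hF]
    have e1 : ‖thF t χ n‖ ≤ 1 := by
      unfold thF
      split_ifs
      · exact hn1 _
      · rw [norm_zero]
        exact zero_le_one
    calc ArithmeticFunction.vonMangoldt n * ‖thF t χ n‖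
        ≤ ArithmeticFunction.vonMangoldt n * 1 :=
          mul_le_mul_of_nonneg_left e1 ArithmeticFunction.vonMangoldt_nonneg
      _ = _ := by ring
  rw [h8, h1, h2, zero_add, h7, h6', h6]
  obtain ⟨T1, hT1⟩ : ∃ T', T' = ∑ m ∈ Icc 1 u, ((ArithmeticFunction.moebius m : ℤ) : ℂ) *
        ∑ k ∈ Icc 1 (T / m), ((Real.log k : ℝ) : ℂ) * F (m * k) := ⟨_, rfl⟩
  obtain ⟨T2, hT2⟩ : ∃ T', T' = ∑ m ∈ Icc 1 u, ((c m : ℝ) : ℂ) *
    ∑ k ∈ Icc 1 (T / m), F (m * k) := ⟨_, rfl⟩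
  obtain ⟨T4, hT4⟩ : ∃ T', T' = ∑ n ∈ (Ioc t T).filter (fun n => ¬ n.Prime),
        ((ArithmeticFunction.vonMangoldt n : ℝ) : ℂ) * F n := ⟨_, rfl⟩
  obtain ⟨G1, hG1⟩ : ∃ T', T' = thG u T (fun m => if m ≤ u * u then c m else 0) onef χ := ⟨_, rfl⟩
  obtain ⟨G2, hG2⟩ : ∃ T', T' = thG u t (fun m => if m ≤ u * u then c m else 0) onef χ := ⟨_, rfl⟩
  obtain ⟨G3, hG3⟩ : ∃ T', T' = thG u T (fun m => ((ArithmeticFunction.moebius m : ℤ) : ℝ)) b χ :=
    ⟨_, rfl⟩
  obtain ⟨G4, hG4⟩ : ∃ T', T' = thG u t (fun m => ((ArithmeticFunction.moebius m : ℤ) : ℝ)) b χ :=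
    ⟨_, rfl⟩
  rw [← hT1] at h3 ⊢
  rw [← hT2] at h5 ⊢
  rw [← hT4] at h9 ⊢
  rw [← hG1, ← hG2, ← hG3, ← hG4]
  have e1 := norm_sub_le (T1 - (T2 + (G1 - G2)) + (G3 - G4)) T4
  have e2 := norm_add_le (T1 - (T2 + (G1 - G2))) (G3 - G4)
  have e3 := norm_sub_le T1 (T2 + (G1 - G2))
  have e4 := norm_add_le T2 (G1 - G2)
  have e5 := norm_sub_le G1 G2
  have e6 := norm_sub_le G3 G4
  linarith

theorem th_mean : ∃ C : ℝ, 0 < C ∧ ∀ (R u t T : ℕ), 1 ≤ u → u ^ 3 ≤ t → t ≤ T → R ≤ T →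
    ∑ c ∈ PC R, ‖ThC t T onef c.2‖ ≤ C * (1 + Real.log T) ^ 5 *
      (T + R * T / Real.sqrt u + (R : ℝ) ^ 2 * Real.sqrt T + (R : ℝ) ^ 2 * Real.sqrt R * u) := by
  classical
  obtain ⟨C1, hC1, hty⟩ := ty_cut
  refine ⟨4 * C1 + 5, by linarith, ?_⟩
  intro R u t T hu hut htT hRT
  obtain ⟨c', b, hc', hb, hV⟩ := vaughan u hu
  have hu3 : 1 ≤ u ^ 3 := Nat.one_le_pow _ _ hu
  have ht1 : 1 ≤ t := by omega
  have hT1 : 1 ≤ T := by omega
  have hTr : (1 : ℝ) ≤ T := by exact_mod_cast hT1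
  have htr : (1 : ℝ) ≤ t := by exact_mod_cast ht1
  have hur : (1 : ℝ) ≤ u := by exact_mod_cast hu
  have hlT : 0 ≤ Real.log T := Real.log_natCast_nonneg T
  have hlt : Real.log t ≤ Real.log T :=
    Real.log_le_log (by linarith) (by exact_mod_cast htT)
  have hlt0 : 0 ≤ Real.log t := Real.log_natCast_nonneg t
  obtain ⟨lg, hlg⟩ : ∃ lg, lg = 1 + Real.log T := ⟨_, rfl⟩
  have hlg1 : 1 ≤ lg := by linarith
  obtain ⟨E, hE⟩ : ∃ E : ℝ, E = T + R * T / Real.sqrt u + (R : ℝ) ^ 2 * Real.sqrt T := ⟨_, rfl⟩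
  have hE0 : 0 ≤ E := by
    rw [hE]
    positivity
  have hloglg : ∀ m : ℕ, m ≤ T → Real.log m ≤ lg := by
    intro m hm
    rcases Nat.eq_zero_or_pos m with h | h
    · rw [h, Nat.cast_zero, Real.log_zero]
      linarith
    · have : Real.log m ≤ Real.log T :=
        Real.log_le_log (by exact_mod_cast h) (by exact_mod_cast hm)
      linarith
  -- the bilinear sums for `Y ≤ T`
  have hbil : ∀ (Y : ℕ), 1 ≤ Y → Y ≤ T → ∀ (a' b' : ℕ → ℝ) (α β : ℝ),
      (∀ m, u < m → m ≤ T → |a' m| ≤ α) → (∀ k, u < k → k ≤ T → |b' k| ≤ β) → 0 ≤ α → 0 ≤ β →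
      α * β = lg → ∑ c ∈ PC R, ‖thG u Y a' b' c.2‖ ≤ C1 * lg ^ 3 * E := by
    intro Y hY1 hYT a' b' α β ha hb' hα hβ hαβ
    have h1 := hty R u Y hu hY1 a' b' α β (fun m h1 h2 => ha m h1 (h2.trans hYT))
      (fun k h1 h2 => hb' k h1 (h2.trans hYT)) hα hβ
    refine h1.trans ?_
    have hYr : (1 : ℝ) ≤ Y := by exact_mod_cast hY1
    have hYTr : (Y : ℝ) ≤ T := by exact_mod_cast hYT
    have hlY : Real.log Y ≤ Real.log T := Real.log_le_log (by linarith) hYTr
    have hlY0 : 0 ≤ Real.log Y := Real.log_natCast_nonneg Y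
    have e1 : (1 + Real.log Y) ^ 2 ≤ lg ^ 2 := by
      rw [hlg]
      gcongr
    have e2 : (Y : ℝ) + R * Y / Real.sqrt u + (R : ℝ) ^ 2 * Real.sqrt Y ≤ E := by
      rw [hE]
      gcongr
    have e3 : 0 ≤ (Y : ℝ) + R * Y / Real.sqrt u + (R : ℝ) ^ 2 * Real.sqrt Y := by positivity
    calc C1 * α * β * (1 + Real.log Y) ^ 2 *
          ((Y : ℝ) + R * Y / Real.sqrt u + (R : ℝ) ^ 2 * Real.sqrt Y)
        = C1 * (α * β) * (1 + Real.log Y) ^ 2 *
          ((Y : ℝ) + R * Y / Real.sqrt u + (R : ℝ) ^ 2 * Real.sqrt Y) := by ring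
      _ ≤ C1 * lg * lg ^ 2 * E := by
          rw [hαβ]
          gcongr
      _ = C1 * lg ^ 3 * E := by ring
  have hdet : ∀ c ∈ PC R, ‖ThC t T onef c.2‖ ≤
      ‖thG u T (fun m => if m ≤ u * u then c' m else 0) onef c.2‖ +
      ‖thG u t (fun m => if m ≤ u * u then c' m else 0) onef c.2‖ +
      ‖thG u T (fun m => ((ArithmeticFunction.moebius m : ℤ) : ℝ)) b c.2‖ +
      ‖thG u t (fun m => ((ArithmeticFunction.moebius m : ℤ) : ℝ)) b c.2‖ +
      (3 * u * Real.sqrt R * lg ^ 2 + 2 * Real.sqrt T * Real.log T) := by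
    intro c hc
    rw [hlg]
    unfold PC at hc
    rw [mem_filter] at hc
    obtain ⟨_, hp, h2⟩ := hc
    have hlt := c.1.isLt
    exact th_det hu hut htT hRT c.2 hp h2 (by unfold Ch.md at h2; omega) c' b hc' hV
  have hca : ∀ m, u < m → m ≤ T → |(if m ≤ u * u then c' m else 0)| ≤ lg := by
    intro m _ hm
    split_ifs
    · exact (hc' m).trans (hloglg m hm)
    · rw [abs_zero]
      linarith
  have hone : ∀ k, u < k → k ≤ T → |onef k| ≤ 1 := by
    intro k _ _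
    unfold onef
    rw [abs_one]
  have hmu : ∀ m : ℕ, u < m → m ≤ T → |((ArithmeticFunction.moebius m : ℤ) : ℝ)| ≤ 1 := by
    intro m _ _
    exact_mod_cast ArithmeticFunction.abs_moebius_le_one
  have hbb : ∀ k, u < k → k ≤ T → |b k| ≤ lg := by
    intro k _ hk
    exact (hb k).trans (hloglg k hk)
  have b1 := hbil T hT1 le_rfl _ onef lg 1 hca hone (by linarith) zero_le_one (by ring)
  have b2 := hbil t ht1 htT _ onef lg 1 hca hone (by linarith) zero_le_one (by ring)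
  have b3 := hbil T hT1 le_rfl _ b 1 lg hmu hbb zero_le_one (by linarith) (by ring)
  have b4 := hbil t ht1 htT _ b 1 lg hmu hbb zero_le_one (by linarith) (by ring)
  have hsum := sum_le_sum hdet
  rw [sum_add_distrib, sum_add_distrib, sum_add_distrib, sum_add_distrib, sum_const,
    nsmul_eq_mul] at hsum
  have hcard : ((PC R).card : ℝ) * (3 * u * Real.sqrt R * lg ^ 2 + 2 * Real.sqrt T * Real.log T) ≤
      (R : ℝ) ^ 2 * (3 * u * Real.sqrt R * lg ^ 2 + 2 * Real.sqrt T * Real.log T) :=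
    mul_le_mul_of_nonneg_right (card_PC R) (by positivity)
  have htot : ∑ c ∈ PC R, ‖ThC t T onef c.2‖ ≤ 4 * (C1 * lg ^ 3 * E) +
      (R : ℝ) ^ 2 * (3 * u * Real.sqrt R * lg ^ 2 + 2 * Real.sqrt T * Real.log T) := by
    linarith
  refine htot.trans ?_
  rw [← hlg, ← hE]
  obtain ⟨W, hW⟩ : ∃ W : ℝ, W = (R : ℝ) ^ 2 * Real.sqrt R * u := ⟨_, rfl⟩
  have hW0 : 0 ≤ W := by
    rw [hW]
    positivity
  rw [← hW]
  have p3 : lg ^ 3 ≤ lg ^ 5 := pow_le_pow_right₀ hlg1 (by norm_num)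
  have p2 : lg ^ 2 ≤ lg ^ 5 := pow_le_pow_right₀ hlg1 (by norm_num)
  have p1 : Real.log T ≤ lg ^ 5 := by
    have : lg ≤ lg ^ 5 := by
      calc lg = lg ^ 1 := (pow_one lg).symm
        _ ≤ lg ^ 5 := pow_le_pow_right₀ hlg1 (by norm_num)
    linarith
  have hRE : (R : ℝ) ^ 2 * Real.sqrt T ≤ E := by
    rw [hE]
    have : 0 ≤ (T : ℝ) + R * T / Real.sqrt u := by positivity
    linarith
  have hRE0 : 0 ≤ (R : ℝ) ^ 2 * Real.sqrt T := by positivity
  have q1 : 4 * (C1 * lg ^ 3 * E) ≤ 4 * (C1 * lg ^ 5 * E) := by gcongr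
  have q2 : (R : ℝ) ^ 2 * (3 * u * Real.sqrt R * lg ^ 2) ≤ 3 * (lg ^ 5 * W) := by
    have e : (R : ℝ) ^ 2 * (3 * u * Real.sqrt R * lg ^ 2) = 3 * (lg ^ 2 * W) := by
      rw [hW]
      ring
    rw [e]
    gcongr
  have q3 : (R : ℝ) ^ 2 * (2 * Real.sqrt T * Real.log T) ≤ 2 * (lg ^ 5 * E) := by
    have e : (R : ℝ) ^ 2 * (2 * Real.sqrt T * Real.log T) =
        2 * (Real.log T * ((R : ℝ) ^ 2 * Real.sqrt T)) := by ring
    rw [e]
    have : Real.log T * ((R : ℝ) ^ 2 * Real.sqrt T) ≤ lg ^ 5 * E :=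
      mul_le_mul p1 hRE hRE0 (by positivity)
    linarith
  have q4 : 0 ≤ lg ^ 5 * E := by positivity
  have q5 : 0 ≤ lg ^ 5 * W := by positivity
  have q6 : 0 ≤ C1 * (lg ^ 5 * W) := by positivity
  have e : (4 * C1 + 5) * lg ^ 5 * (E + W) = 4 * (C1 * lg ^ 5 * E) + 5 * (lg ^ 5 * E) +
      4 * (C1 * (lg ^ 5 * W)) + 5 * (lg ^ 5 * W) := by ring
  rw [e, mul_add]
  linarith

end Pool.Agent.H67.VU
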