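import Pool.Agent.H67.VT.Defs
import Pool.Agent.H21.MT.Ch

/-!
[H67 VU DEFS]  MP_31d0eb_nt: the variance of the number of primes in intervals of length
H ≤ X^θ, θ < 1/3, from below, without hypothesis (the full range of Goldston's theorem under GRH).

Exponents: `θ` (length of the intervals), `κ` (a small number), `d` (divisors up to `X^d`, large primes
above `X^(θ+4κ)`), related by `Par`.  Test function: `bq (rv D) D Q` of `Pool/Agent/H67/VT/Defs.lean`.
All sums over `n` are over `Ioc X (2X)` with sharp cut-off, `X` a natural number.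
The new point compared with `H67/VT`: only sums of characters over initial segments
`∑_{k<m, (k,f)=1} χ(k)` occur (pairs `(h,h')` with given maximum `m`), which are
`≤ τ(f) min(m, √r (1+log r))` (Pólya-Vinogradov), and the mean value of the sums over primes over
all primitive characters of conductor `≤ R` is used.
-/

namespace Pool.Agent.H67.VU

open Finset Pool.Agent.H21.MT Pool.Agent.H67.VS Pool.Agent.H67.VT

/-- admissible exponents -/
structure Par (θ κ d : ℝ) : Prop where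
  θ0 : 0 < θ
  κ0 : 0 < κ
  low : θ + 10 * κ ≤ d
  up : d ≤ 1 / 3 - 4 * κ ∨ (θ ≤ 1 / 6 - 2 * κ ∧ d ≤ 1 / 2 - θ - 4 * κ)

/-- bound of the divisors -/
noncomputable def Dw (d X : ℝ) : ℕ := ⌊X ^ d⌋₊
/-- lower bound of the large primes -/
noncomputable def Zw (θ κ X : ℝ) : ℕ := ⌊X ^ (θ + 4 * κ)⌋₊
/-- the large primes -/
noncomputable def Qw (θ κ d X : ℝ) : Finset ℕ := (Ioc (Zw θ κ X) (Dw d X)).filter Nat.Prime
/-- the sum `S` of the final choice -/
noncomputable def Sw (θ κ d X : ℝ) : ℝ := SS (sv (Dw d X)) (Qw θ κ d X)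

/-- the constant weight -/
def onef : ℕ → ℝ := fun _ => 1

/-- character sum over an initial segment with a coprimality condition -/
noncomputable def KS (m f : ℕ) {q : ℕ} (χ : DirichletCharacter ℂ q) : ℂ :=
  ∑ k ∈ Ico 1 m, if k.Coprime f then χ (k : ZMod q) else 0

/-- the bound of Pólya and Vinogradov -/
noncomputable def pv (q : ℕ) : ℝ := Real.sqrt q * (1 + Real.log q)

/-- data of the weighted sums: lengths `H n ≤ G` on `[U,V]`, weight `lam`, and numbers `om h` with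
`lam n ≤ om h` as soon as `h ≤ H n` -/
structure FW (U V G : ℕ) (H : ℕ → ℕ) (lam om : ℕ → ℝ) : Prop where
  UV : U ≤ V
  mono : MonotoneOn H (Set.Icc U V)
  HG : ∀ n ∈ Set.Icc U V, H n ≤ G
  lam0 : ∀ n ∈ Set.Icc U V, 0 ≤ lam n
  anti : AntitoneOn lam (Set.Icc U V)
  om0 : ∀ h ∈ Icc 1 G, 0 < om h
  lo : ∀ n ∈ Ioc U V, ∀ h ∈ Icc 1 G, h ≤ H n → lam n ≤ om h

/-- the normalised weight belonging to `h` -/
noncomputable def wl (U V : ℕ) (H : ℕ → ℕ) (lam om : ℕ → ℝ) (h n : ℕ) : ℝ :=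
  if n ∈ Ioc U V ∧ h ≤ H n then lam n / om h else 0

/-- `∑_{h ≤ G} om h` -/
noncomputable def O0 (G : ℕ) (om : ℕ → ℝ) : ℝ := ∑ h ∈ Icc 1 G, om h
/-- `∑_{h ≤ G} 2 h om h` -/
noncomputable def O1 (G : ℕ) (om : ℕ → ℝ) : ℝ := ∑ h ∈ Icc 1 G, 2 * h * om h
/-- `∑_{h ≤ G} 2 h (om h)^2` -/
noncomputable def O2 (G : ℕ) (om : ℕ → ℝ) : ℝ := ∑ h ∈ Icc 1 G, 2 * h * om h ^ 2

end Pool.Agent.H67.VU
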