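import Pool.Agent.H67.VT.FinA
import Pool.Agent.H67.VU.Defs

/-!
[H67 VU PNT3]  The prime number theorem for the main terms.

Proof.  `Pool.Agent.H5.PNT.theta_tendsto` : `θ(x)/x → 1` (used in `VT/FinA.lean`, `theta_total2`).  So for every `δ > 0` and all large `X`:
for all natural `t ∈ [X,2X]`: `∑_{n ∈ Ioc t (2X)} pl n = θ(2X) - θ(t) ≥ 2X - t - δ X`.
* `pntA`: `t = X`.
* `pntB`: `G = H(2X)`, `H n = ∑_{h ≤ G} [h ≤ H n]` on `Ioc X (2X)`; `{n ∈ Ioc X (2X) : h ≤ H n} = Ioc t_h (2X)` with some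
  `t_h ∈ [X,2X]` (`H` monotone).  So `∑ H n pl n ≥ ∑_h (2X - t_h - δX) = ∑ H n - δ X G ≥ (1 - δ K) ∑ H n`;
  choose `δ = η/(|K|+1)` (`∑ H n ≥ 0`).
-/

namespace Pool.Agent.H67.VU

open Finset Filter Pool.Agent.H67.VS

theorem pnt3_theta (a b : ℕ) (hab : a ≤ b) :
    Chebyshev.theta (b : ℝ) - Chebyshev.theta (a : ℝ) = ∑ n ∈ Ioc a b, pl n := by
  have h1 : ∀ n : ℕ, Chebyshev.theta (n : ℝ) = ∑ n ∈ Ioc 0 n, pl n := by
    intro n
    unfold Chebyshev.theta pl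
    rw [Nat.floor_natCast, sum_filter]
  rw [h1, h1, ← sum_Ioc_consecutive _ (Nat.zero_le a) hab]
  ring

theorem pnt3_unif (δ : ℝ) (hδ : 0 < δ) : ∀ᶠ X : ℕ in atTop, ∀ t : ℕ, X ≤ t → t ≤ 2 * X →
    2 * (X : ℝ) - t - δ * X ≤ ∑ n ∈ Ioc t (2 * X), pl n := by
  have h1 := Pool.Agent.H5.PNT.theta_tendsto
  have h2 : ∀ᶠ x : ℝ in atTop, |Chebyshev.theta x / x - 1| < δ / 4 := by
    have h3 := Metric.tendsto_nhds.1 h1 (δ / 4) (by positivity)
    filter_upwards [h3] with x hx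
    rwa [Real.dist_eq] at hx
  obtain ⟨x0, hx0⟩ := eventually_atTop.1 h2
  have hnat := tendsto_natCast_atTop_atTop (R := ℝ)
  filter_upwards [hnat.eventually (eventually_ge_atTop (max x0 1))] with X hX t ht1 ht2
  have hX0 : x0 ≤ (X : ℝ) := (le_max_left _ _).trans hX
  have hX1 : (1 : ℝ) ≤ X := (le_max_right _ _).trans hX
  have htX : (X : ℝ) ≤ t := by exact_mod_cast ht1
  have ht2X : (t : ℝ) ≤ 2 * X := by exact_mod_cast ht2
  have hb : ∀ y : ℝ, x0 ≤ y → 0 < y → |Chebyshev.theta y - y| ≤ δ / 4 * y := by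
    intro y hy hy0
    have h3 := (hx0 y hy).le
    have h4 : Chebyshev.theta y - y = (Chebyshev.theta y / y - 1) * y := by
      field_simp
    rw [h4, abs_mul, abs_of_pos hy0]
    exact mul_le_mul_of_nonneg_right h3 hy0.le
  have h5 := (abs_le.1 (hb (2 * X) (by linarith) (by linarith))).1
  have h6 := (abs_le.1 (hb t (by linarith) (by linarith))).2
  have h7 := pnt3_theta t (2 * X) ht2
  have h8 : ((2 * X : ℕ) : ℝ) = 2 * (X : ℝ) := by push_cast; ring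
  rw [h8] at h7
  rw [← h7]
  nlinarith

theorem pnt3_thr (X : ℕ) (H : ℕ → ℕ) (hH : MonotoneOn H (Set.Icc X (2 * X))) (h : ℕ) :
    ∃ t : ℕ, X ≤ t ∧ t ≤ 2 * X ∧ (Ioc X (2 * X)).filter (fun n => h ≤ H n) = Ioc t (2 * X) := by
  classical
  have hP : (fun n => n ≤ X ∨ H n < h) X := Or.inl le_rfl
  have hX2 : X ≤ 2 * X := by omega
  refine ⟨Nat.findGreatest (fun n => n ≤ X ∨ H n < h) (2 * X), Nat.le_findGreatest hX2 hP,
    Nat.findGreatest_le _, ?_⟩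
  have hle : X ≤ Nat.findGreatest (fun n => n ≤ X ∨ H n < h) (2 * X) := Nat.le_findGreatest hX2 hP
  have hsp : (fun n => n ≤ X ∨ H n < h) (Nat.findGreatest (fun n => n ≤ X ∨ H n < h) (2 * X)) :=
    Nat.findGreatest_spec (P := fun n => n ≤ X ∨ H n < h) hX2 hP
  have hgr := fun (k : ℕ) (hk : Nat.findGreatest (fun n => n ≤ X ∨ H n < h) (2 * X) < k)
    (hkb : k ≤ 2 * X) => Nat.findGreatest_is_greatest hk hkb
  have hle2 : Nat.findGreatest (fun n => n ≤ X ∨ H n < h) (2 * X) ≤ 2 * X := Nat.findGreatest_le _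
  generalize Nat.findGreatest (fun n => n ≤ X ∨ H n < h) (2 * X) = t at hle hsp hgr hle2
  ext n
  rw [mem_filter, mem_Ioc, mem_Ioc]
  constructor
  · rintro ⟨⟨h1, h2⟩, h3⟩
    refine ⟨?_, h2⟩
    by_contra hnt
    push Not at hnt
    rcases hsp with h4 | h4
    · omega
    · have h5 := hH ⟨h1.le, h2⟩ ⟨by omega, hle2⟩ hnt
      omega
  · rintro ⟨h1, h2⟩
    have h3 := hgr n h1 h2
    push Not at h3
    exact ⟨⟨h3.1, h2⟩, h3.2⟩

theorem pnt3_layer (X G : ℕ) (H : ℕ → ℕ) (hHG : ∀ n ∈ Ioc X (2 * X), H n ≤ G) (g : ℕ → ℝ) :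
    ∑ n ∈ Ioc X (2 * X), (H n : ℝ) * g n =
      ∑ h ∈ Icc 1 G, ∑ n ∈ (Ioc X (2 * X)).filter (fun n => h ≤ H n), g n := by
  have h1 : ∀ h ∈ Icc 1 G, ∑ n ∈ (Ioc X (2 * X)).filter (fun n => h ≤ H n), g n =
      ∑ n ∈ Ioc X (2 * X), if h ≤ H n then g n else 0 := fun h _ => sum_filter _ _
  rw [sum_congr rfl h1, sum_comm]
  refine sum_congr rfl fun n hn => ?_
  rw [← sum_filter, sum_const, nsmul_eq_mul]
  congr 1
  have h2 : (Icc 1 G).filter (fun h => h ≤ H n) = Icc 1 (H n) := by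
    ext h
    rw [mem_filter, mem_Icc, mem_Icc]
    have := hHG n hn
    omega
  rw [h2, Nat.card_Icc]
  simp

theorem pntA (η : ℝ) (hη : 0 < η) : ∀ᶠ X : ℕ in atTop,
    (1 - η) * X ≤ ∑ n ∈ Ioc X (2 * X), pl n := by
  filter_upwards [pnt3_unif η hη] with X hX
  have := hX X le_rfl (by omega)
  linarith

theorem pntB (η K : ℝ) (hη : 0 < η) : ∀ᶠ X : ℕ in atTop, ∀ H : ℕ → ℕ,
    MonotoneOn H (Set.Icc X (2 * X)) →
    (X : ℝ) * H (2 * X) ≤ K * ∑ n ∈ Ioc X (2 * X), (H n : ℝ) →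
    (1 - η) * ∑ n ∈ Ioc X (2 * X), (H n : ℝ) ≤ ∑ n ∈ Ioc X (2 * X), (H n : ℝ) * pl n := by
  set δ : ℝ := η / (|K| + 1) with hδ
  have hK0 : 0 < |K| + 1 := by positivity
  have hδ0 : 0 < δ := by positivity
  have hδK : δ * K ≤ η := by
    have h1 : δ * (|K| + 1) = η := by
      rw [hδ]
      field_simp
    have h2 : K ≤ |K| + 1 := (le_abs_self K).trans (by linarith)
    calc δ * K ≤ δ * (|K| + 1) := mul_le_mul_of_nonneg_left h2 hδ0.le
      _ = η := h1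
  filter_upwards [pnt3_unif δ hδ0] with X hX H hH hKH
  have hHG : ∀ n ∈ Ioc X (2 * X), H n ≤ H (2 * X) := by
    intro n hn
    rw [mem_Ioc] at hn
    exact hH ⟨hn.1.le, hn.2⟩ ⟨by omega, le_rfl⟩ hn.2
  have e1 := pnt3_layer X (H (2 * X)) H hHG pl
  have e2 := pnt3_layer X (H (2 * X)) H hHG (fun _ => 1)
  have hS0 : 0 ≤ ∑ n ∈ Ioc X (2 * X), (H n : ℝ) := sum_nonneg fun n _ => Nat.cast_nonneg _
  have e2' : ∑ n ∈ Ioc X (2 * X), (H n : ℝ) = ∑ h ∈ Icc 1 (H (2 * X)),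
      ∑ _n ∈ (Ioc X (2 * X)).filter (fun n => h ≤ H n), (1 : ℝ) := by
    rw [← e2]
    exact sum_congr rfl fun n _ => (mul_one _).symm
  have hterm : ∀ h ∈ Icc 1 (H (2 * X)),
      (∑ _n ∈ (Ioc X (2 * X)).filter (fun n => h ≤ H n), (1 : ℝ)) - δ * X ≤
        ∑ n ∈ (Ioc X (2 * X)).filter (fun n => h ≤ H n), pl n := by
    intro h _
    obtain ⟨t, ht1, ht2, ht⟩ := pnt3_thr X H hH h
    rw [ht, sum_const, Nat.card_Ioc, nsmul_eq_mul, mul_one, Nat.cast_sub ht2]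
    have := hX t ht1 ht2
    push_cast
    linarith
  have hsum := sum_le_sum hterm
  rw [sum_sub_distrib, sum_const, Nat.card_Icc, nsmul_eq_mul, ← e2', ← e1] at hsum
  simp only [Nat.add_sub_cancel] at hsum
  have h3 : (H (2 * X) : ℝ) * (δ * X) = δ * (X * H (2 * X)) := by ring
  rw [h3] at hsum
  have h4 : δ * (X * H (2 * X)) ≤ δ * (K * ∑ n ∈ Ioc X (2 * X), (H n : ℝ)) :=
    mul_le_mul_of_nonneg_left hKH hδ0.le
  have h5 : δ * (K * ∑ n ∈ Ioc X (2 * X), (H n : ℝ)) ≤ η * ∑ n ∈ Ioc X (2 * X), (H n : ℝ) := by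
    rw [← mul_assoc]
    exact mul_le_mul_of_nonneg_right hδK hS0
  linarith

end Pool.Agent.H67.VU
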