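import Mathlib

/-!
[H67 VU BIT]  `a < b` as a sum over binary digits.

Proof.  If `(a/2^i) % 2 = 0` and `b/2^i = a/2^i + 1` then `a < b` (monotonicity of division), and `i` is the
largest index where the digits of `a` and `b` differ (`a/2^(i+1) = b/2^(i+1)`), so at most one `i` contributes:
for `j > i` one has `a/2^j = b/2^j`.  Conversely if `a < b < 2^s` let `i` be the largest index with
`a/2^i ≠ b/2^i` (`i < s` as `a/2^s = b/2^s = 0`, and `i = 0` is such an index); then `a/2^(i+1) = b/2^(i+1)` and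
`a/2^i < b/2^i`, so `b/2^i = a/2^i + 1` and `a/2^i` is even.
-/

namespace Pool.Agent.H67.VU

open Finset

/-- recursion on the number of digits, stated for natural numbers -/
theorem bit_sum_nat (s : ℕ) : ∀ a b : ℕ, b < 2 ^ s →
    (if a < b then (1 : ℕ) else 0) =
      ∑ i ∈ range s, if (a / 2 ^ i) % 2 = 0 ∧ b / 2 ^ i = a / 2 ^ i + 1 then (1 : ℕ) else 0 := by
  induction s with
  | zero =>
    intro a b hb
    have : b = 0 := by simpa using hb
    subst this
    simp
  | succ s ih =>
    intro a b hb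
    rw [Finset.sum_range_succ']
    have h2 : b / 2 < 2 ^ s := by
      rw [pow_succ] at hb
      omega
    have e : ∀ i ∈ range s,
        (if (a / 2 ^ (i + 1)) % 2 = 0 ∧ b / 2 ^ (i + 1) = a / 2 ^ (i + 1) + 1 then (1 : ℕ) else 0)
        = if ((a / 2) / 2 ^ i) % 2 = 0 ∧ (b / 2) / 2 ^ i = (a / 2) / 2 ^ i + 1 then (1 : ℕ) else 0 := by
      intro i _
      rw [pow_succ', Nat.div_div_eq_div_mul, Nat.div_div_eq_div_mul]
    rw [Finset.sum_congr rfl e, ← ih (a / 2) (b / 2) h2]
    simp only [pow_zero, Nat.div_one]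
    split_ifs <;> omega

theorem bit_sum (a b s : ℕ) (hb : b < 2 ^ s) :
    (if a < b then (1 : ℂ) else 0) =
      ∑ i ∈ range s, if (a / 2 ^ i) % 2 = 0 ∧ b / 2 ^ i = a / 2 ^ i + 1 then (1 : ℂ) else 0 := by
  have h := bit_sum_nat s a b hb
  have h' := congrArg (fun n : ℕ => (n : ℂ)) h
  simpa using h'

end Pool.Agent.H67.VU
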