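import Pool.Agent.H67.VT.CharB
import Pool.Agent.H67.VT.LsB
import Pool.Agent.H67.VU.Defs

/-!
[H67 VU CHARB3]  The characters behind the relative discrepancies `EE(k) + EE(-k)`, summed over `k < m`.

Proof.  As `VT.char_bound2` in `Pool/Agent/H67/VT/CharB.lean`; `VT.charb_EE2` with `H = m` and the pairs
`p = (1, k+1)` (`EE(k)`) and `p = (k+1, 1)` (`EE(-k)`), `1 ≤ k < m`:
`φ(dq) (EE(k) + EE(-k)) = ∑_{χ ∈ T} (χ⁻¹(-k) + χ⁻¹(k)) ThC χ`, and
`|∑_k (χ⁻¹(-k) + χ⁻¹(k))| ≤ 2 |∑_{k<m} χ(k)|`.  The characters are lifts of primitive ones of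
conductor divisible by `q`; for `k < m ≤ q` one has `(k, dq) = 1` iff `(k,d) = 1`.
-/

namespace Pool.Agent.H67.VU

open Finset Pool.Agent.H21.MT Pool.Agent.H67.VS Pool.Agent.H67.VT

/-- the short sum of a lifted character -/
theorem char3_KS (d q m : ℕ) [NeZero (d * q)] (hq : q.Prime) (hmq : m ≤ q) {r : ℕ}
    (hr : r ∣ d * q) (ψ : DirichletCharacter ℂ r) :
    ∑ k ∈ Ico 1 m, (DirichletCharacter.changeLevel hr ψ) (k : ZMod (d * q)) = KS m d ψ := by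
  unfold KS
  refine Finset.sum_congr rfl fun k hk => ?_
  rw [Finset.mem_Ico] at hk
  have hkq : k.Coprime q := ((Nat.Prime.coprime_iff_not_dvd hq).2 (fun h => by
    have := Nat.le_of_dvd (by omega) h
    omega)).symm
  by_cases hc : k.Coprime d
  · rw [if_pos hc, charb_lift hr ψ k (Nat.Coprime.mul_right hc hkq)]
  · rw [if_neg hc, charb_lift_zero hr ψ k (fun h => hc (Nat.Coprime.coprime_mul_right_right h))]

/-- the two short sums together -/
theorem char3_pair (N m : ℕ) [NeZero N] (χ : DirichletCharacter ℂ N) :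
    ‖∑ k ∈ Ico 1 m, (χ⁻¹ (((-(k : ℤ)) : ℤ) : ZMod N) + χ⁻¹ (((k : ℤ) : ℤ) : ZMod N))‖ ≤
      2 * ‖∑ k ∈ Ico 1 m, χ (k : ZMod N)‖ := by
  have h1 : ∑ k ∈ Ico 1 m, χ⁻¹ (((k : ℤ) : ℤ) : ZMod N) =
      (starRingEnd ℂ) (∑ k ∈ Ico 1 m, χ (k : ZMod N)) := by
    rw [map_sum]
    refine Finset.sum_congr rfl fun k _ => ?_
    rw [lsb_conj, Int.cast_natCast]
  have h2 : ∑ k ∈ Ico 1 m, χ⁻¹ (((-(k : ℤ)) : ℤ) : ZMod N) =
      χ⁻¹ (-1 : ZMod N) * ∑ k ∈ Ico 1 m, χ⁻¹ (((k : ℤ) : ℤ) : ZMod N) := by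
    rw [Finset.mul_sum]
    refine Finset.sum_congr rfl fun k _ => ?_
    rw [← map_mul]
    congr 1
    push_cast
    ring
  rw [Finset.sum_add_distrib, h2]
  have h3 : ‖∑ k ∈ Ico 1 m, χ⁻¹ (((k : ℤ) : ℤ) : ZMod N)‖ = ‖∑ k ∈ Ico 1 m, χ (k : ZMod N)‖ := by
    rw [h1, Complex.norm_conj]
  refine (norm_add_le _ _).trans ?_
  rw [norm_mul, h3]
  have h4 : ‖χ⁻¹ (-1 : ZMod N)‖ ≤ 1 := DirichletCharacter.norm_le_one _ _
  have h5 := norm_nonneg (∑ k ∈ Ico 1 m, χ (k : ZMod N))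
  nlinarith

open Classical in
theorem char_bound3 {A B : ℕ} {w : ℕ → ℝ} (d q R m : ℕ) (hd : 1 ≤ d) (hdq : Nat.Coprime d q)
    (hq : q.Prime) (hmq : m ≤ q) (hR : d * q ≤ R) (hA : d * q ≤ A) :
    |∑ k ∈ Ico 1 m, (EE A B w d q (k : ℤ) + EE A B w d q (-(k : ℤ)))| ≤
      2 / ((d * q).totient : ℝ) * ∑ c ∈ (PC R).filter (fun c => c.md ∣ d * q ∧ q ∣ c.md),
        ‖ThC A B w c.2‖ * ‖KS m d c.2‖ := by
  have hN : 0 < d * q := Nat.mul_pos hd hq.pos
  have hN0 : NeZero (d * q) := ⟨hN.ne'⟩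
  have hdN : d ∣ d * q := dvd_mul_right d q
  set T := (univ : Finset (DirichletCharacter ℂ (d * q))).filter
        (fun χ => ∀ ψ : DirichletCharacter ℂ d,
          DirichletCharacter.changeLevel (dvd_mul_right d q) ψ ≠ χ) with hT
  set S := (PC R).filter (fun c => c.md ∣ d * q ∧ q ∣ c.md) with hS
  set g : DirichletCharacter ℂ (d * q) → ℝ := fun χ =>
    (2 * ‖∑ k ∈ Ico 1 m, χ (k : ZMod (d * q))‖) * ‖ThC A B w χ‖ with hg
  have hg0 : ∀ χ, 0 ≤ g χ := fun χ => by rw [hg]; positivity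
  -- first step
  have h1 : ((d * q).totient : ℝ) * |∑ k ∈ Ico 1 m, (EE A B w d q (k : ℤ) + EE A B w d q (-(k : ℤ)))| ≤
      ∑ χ ∈ T, g χ := by
    have h2 : ((d * q).totient : ℂ) *
        ((∑ k ∈ Ico 1 m, (EE A B w d q (k : ℤ) + EE A B w d q (-(k : ℤ))) : ℝ) : ℂ) =
        ∑ χ ∈ T, (∑ k ∈ Ico 1 m, (χ⁻¹ (((-(k : ℤ)) : ℤ) : ZMod (d * q)) +
          χ⁻¹ (((k : ℤ) : ℤ) : ZMod (d * q)))) * ThC A B w χ := by
      rw [Complex.ofReal_sum, Finset.mul_sum]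
      simp_rw [Finset.sum_mul]
      rw [Finset.sum_comm]
      refine Finset.sum_congr rfl fun k hk => ?_
      rw [mem_Ico] at hk
      have hp1 : (1, k + 1) ∈ offd m := by
        unfold offd
        rw [mem_filter, mem_product, mem_Icc, mem_Icc]
        refine ⟨⟨⟨?_, ?_⟩, ?_, ?_⟩, ?_⟩ <;> simp only [ne_eq] <;> omega
      have hp2 : (k + 1, 1) ∈ offd m := by
        unfold offd
        rw [mem_filter, mem_product, mem_Icc, mem_Icc]
        refine ⟨⟨⟨?_, ?_⟩, ?_, ?_⟩, ?_⟩ <;> simp only [ne_eq] <;> omega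
      have e1 := charb_EE2 (A := A) (B := B) (w := w) d q m hd hdq hq hmq hA (1, k + 1) hp1
      have e2 := charb_EE2 (A := A) (B := B) (w := w) d q m hd hdq hq hmq hA (k + 1, 1) hp2
      have a1 : (((k + 1 : ℕ) : ℤ) - ((1 : ℕ) : ℤ)) = (k : ℤ) := by push_cast; ring
      have a2 : (((1 : ℕ) : ℤ) - ((k + 1 : ℕ) : ℤ)) = -(k : ℤ) := by push_cast; ring
      simp only [a1, a2] at e1 e2
      rw [Complex.ofReal_add, mul_add, e1, e2, ← Finset.sum_add_distrib]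
      refine Finset.sum_congr rfl fun χ _ => ?_
      ring
    have h3 : ((d * q).totient : ℝ) * |∑ k ∈ Ico 1 m, (EE A B w d q (k : ℤ) + EE A B w d q (-(k : ℤ)))| =
        ‖((d * q).totient : ℂ) *
        ((∑ k ∈ Ico 1 m, (EE A B w d q (k : ℤ) + EE A B w d q (-(k : ℤ))) : ℝ) : ℂ)‖ := by
      rw [norm_mul, Complex.norm_natCast, Complex.norm_real, Real.norm_eq_abs]
    rw [h3, h2]
    refine (norm_sum_le _ _).trans (Finset.sum_le_sum fun χ _ => ?_)
    rw [norm_mul]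
    exact mul_le_mul_of_nonneg_right (char3_pair (d * q) m χ) (norm_nonneg _)
  -- second step
  let f : Ch R → DirichletCharacter ℂ (d * q) := fun c =>
    if h : c.md ∣ d * q then DirichletCharacter.changeLevel h c.2 else 1
  have hsub : T ⊆ S.image f := by
    intro χ hχ
    rw [mem_image]
    have key : ∀ r (hr : r ∣ d * q) (χ' : DirichletCharacter ℂ r), χ'.IsPrimitive → q ∣ r →
        DirichletCharacter.changeLevel hr χ' = χ →
        ∃ c ∈ S, f c = χ := by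
      intro r hr χ' hp h2 hch
      have hr0 : 0 < r := Nat.pos_of_dvd_of_pos hr hN
      have hqr := Nat.le_of_dvd hr0 h2
      have hq2 := hq.two_le
      obtain ⟨m, rfl⟩ : ∃ m, r = m + 1 := ⟨r - 1, by omega⟩
      have hmR : m < R := by
        have := Nat.le_of_dvd hN hr
        omega
      refine ⟨⟨⟨m, hmR⟩, χ'⟩, ?_, ?_⟩
      · rw [hS, mem_filter, PC, mem_filter]
        refine ⟨⟨mem_univ _, hp, ?_⟩, hr, h2⟩
        show 2 ≤ m + 1
        omega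
      · show (if h : (Ch.md (⟨⟨m, hmR⟩, χ'⟩ : Ch R)) ∣ d * q then
          DirichletCharacter.changeLevel h χ' else 1) = χ
        rw [dif_pos (show (Ch.md (⟨⟨m, hmR⟩, χ'⟩ : Ch R)) ∣ d * q from hr)]
        exact hch
    refine key χ.conductor χ.conductor_dvd_level χ.primitiveCharacter
      χ.primitiveCharacter_isPrimitive ?_ χ.changeLevel_primitiveCharacter
    by_contra hqc
    rw [hT, mem_filter] at hχ
    have hc : Nat.Coprime χ.conductor q := ((Nat.Prime.coprime_iff_not_dvd hq).2 hqc).symm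
    have hcd : χ.conductor ∣ d := hc.dvd_of_dvd_mul_right χ.conductor_dvd_level
    apply hχ.2 (DirichletCharacter.changeLevel hcd χ.primitiveCharacter)
    rw [← DirichletCharacter.changeLevel_trans]
    exact χ.changeLevel_primitiveCharacter
  have h4 : ∑ χ ∈ T, g χ ≤ ∑ c ∈ S, g (f c) :=
    (sum_le_sum_of_subset_of_nonneg hsub fun _ _ _ => hg0 _).trans
      (sum_image_le_of_nonneg fun _ _ => hg0 _)
  have h5 : ∑ c ∈ S, g (f c) = 2 * ∑ c ∈ S, ‖ThC A B w c.2‖ * ‖KS m d c.2‖ := by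
    rw [Finset.mul_sum]
    refine Finset.sum_congr rfl fun c hc => ?_
    rw [hS, mem_filter] at hc
    have hfc : f c = DirichletCharacter.changeLevel hc.2.1 c.2 := dif_pos hc.2.1
    have e1 : ∑ k ∈ Ico 1 m, (DirichletCharacter.changeLevel hc.2.1 c.2) (k : ZMod (d * q)) =
        KS m d c.2 := char3_KS d q m hq hmq hc.2.1 c.2
    have e2 : ThC A B w (DirichletCharacter.changeLevel hc.2.1 c.2) = ThC A B w c.2 :=
      charb_ThC (A := A) (B := B) (w := w) hc.2.1 hN hA c.2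
    rw [hfc]
    have e3 : g (DirichletCharacter.changeLevel hc.2.1 c.2) =
        (2 * ‖KS m d c.2‖) * ‖ThC A B w c.2‖ := by
      rw [← e1, ← e2]
    rw [e3, mul_assoc, mul_comm ‖KS m d c.2‖]
  have hq1 : (0 : ℝ) < ((d * q).totient : ℝ) := by
    exact_mod_cast Nat.totient_pos.mpr hN
  have h8 : ((d * q).totient : ℝ) * |∑ k ∈ Ico 1 m, (EE A B w d q (k : ℤ) + EE A B w d q (-(k : ℤ)))| ≤
      2 * ∑ c ∈ S, ‖ThC A B w c.2‖ * ‖KS m d c.2‖ := by
    calc ((d * q).totient : ℝ) * |∑ k ∈ Ico 1 m, (EE A B w d q (k : ℤ) + EE A B w d q (-(k : ℤ)))|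
        ≤ _ := h1
      _ ≤ _ := h4
      _ = _ := h5
  rw [div_mul_eq_mul_div, le_div_iff₀ hq1, mul_comm]
  exact h8

end Pool.Agent.H67.VU
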