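import Pool.Agent.H67.VU.Defs
import Pool.Agent.H21.MT.Abel

/-!
[H67 VU WL]  The weights `wl`.

Proofs.
* `wl_wt`: values in `[0,1]` by `FW.lam0`, `FW.lo`; on the integers the function `wl .. h` is `0` up to a
  point, then (on `{n ∈ (U,V] : h ≤ H n}`, which is of the form `(t,V]` because `H` is monotone on `[U,V]`)
  it is nonincreasing with values in `[0,1]`, then `0`: variation `≤ 2` (`H21.MT.tv_unimodal`, `mono_tv`,
  `anti_tv`, or directly).
* `fw_sq`: `lam^2` is antitone (nonnegative values), `lam n ≤ om h` gives `lam n^2 ≤ om h^2`.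
* `wl_sum`: for `n ∈ Ioc U V` and `h ∈ Icc 1 G`: `om h * wl .. h n = lam n` if `h ≤ H n`, else `0`;
  `Icc 1 (H n) = (Icc 1 G).filter (· ≤ H n)`.  `wl_sum2`: the same with `max h h' ≤ H n`.
* `wl_one`: special case `g = 1` of `wl_sum`.
-/

namespace Pool.Agent.H67.VU

open Finset Pool.Agent.H67.VS

theorem wl_nonneg {U V G : ℕ} {H : ℕ → ℕ} {lam om : ℕ → ℝ} (hF : FW U V G H lam om) (h : ℕ)
    (hh : h ∈ Icc 1 G) (n : ℕ) : 0 ≤ wl U V H lam om h n := by
  unfold wl
  split_ifs with hn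
  · have h1 := hF.lam0 n (by
      have := mem_Ioc.1 hn.1
      exact ⟨this.1.le, this.2⟩)
    exact div_nonneg h1 (hF.om0 h hh).le
  · exact le_rfl

theorem wl_le_one {U V G : ℕ} {H : ℕ → ℕ} {lam om : ℕ → ℝ} (hF : FW U V G H lam om) (h : ℕ)
    (hh : h ∈ Icc 1 G) (n : ℕ) : wl U V H lam om h n ≤ 1 := by
  unfold wl
  split_ifs with hn
  · rw [div_le_one (hF.om0 h hh)]
    exact hF.lo n hn.1 h hh hn.2
  · exact zero_le_one

theorem wl_wt {U V G : ℕ} {H : ℕ → ℕ} {lam om : ℕ → ℝ} (hF : FW U V G H lam om) (h : ℕ)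
    (hh : h ∈ Icc 1 G) : Wt U V (wl U V H lam om h) := by
  classical
  refine ⟨wl_nonneg hF h hh, wl_le_one hF h hh, ?_, ?_⟩
  · intro n hn
    unfold wl
    rw [if_neg (fun h' => hn h'.1)]
  · intro m n
    -- the first point of the support
    by_cases hex : ∃ t, t ∈ Ioc U V ∧ h ≤ H t
    · obtain ⟨t, ⟨ht1, ht2⟩, hmin⟩ : ∃ t, (t ∈ Ioc U V ∧ h ≤ H t) ∧
          ∀ k, (k ∈ Ioc U V ∧ h ≤ H k) → t ≤ k :=
        ⟨Nat.find hex, Nat.find_spec hex, fun k hk => Nat.find_min' hex hk⟩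
      have ht := mem_Ioc.1 ht1
      have hsupp : ∀ k, t ≤ k → k ≤ V → (k ∈ Ioc U V ∧ h ≤ H k) := by
        intro k hk1 hk2
        refine ⟨mem_Ioc.2 ⟨by omega, hk2⟩, ht2.trans ?_⟩
        exact hF.mono ⟨by omega, ht.2⟩ ⟨by omega, hk2⟩ hk1
      have hz1 : ∀ k, k < t → wl U V H lam om h k = 0 := by
        intro k hk
        unfold wl
        rw [if_neg (fun h' => by have := hmin k h'; omega)]
      have hz2 : ∀ k, V < k → wl U V H lam om h k = 0 := by
        intro k hk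
        unfold wl
        rw [if_neg (fun h' => by have := (mem_Ioc.1 h'.1).2; omega)]
      have hanti : ∀ k, t ≤ k → wl U V H lam om h (k + 1) ≤ wl U V H lam om h k := by
        intro k hk
        rcases Nat.lt_or_ge V (k + 1) with h1 | h1
        · rw [hz2 (k + 1) h1]
          exact wl_nonneg hF h hh k
        · have a1 := hsupp k hk (by omega)
          have a2 := hsupp (k + 1) (by omega) h1
          unfold wl
          rw [if_pos a1, if_pos a2]
          refine div_le_div_of_nonneg_right ?_ (hF.om0 h hh).le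
          refine hF.anti ⟨by omega, by omega⟩ ⟨by omega, h1⟩ (Nat.le_succ k)
      -- split the sum
      have hA := Pool.Agent.H21.MT.mono_tv (wl U V H lam om h) 1 (wl_nonneg hF h hh)
        (wl_le_one hF h hh) m (min t n) (fun k hk hk' => by
          rw [hz1 k (by omega)]
          exact wl_nonneg hF h hh _)
      have hB := Pool.Agent.H21.MT.anti_tv (wl U V H lam om h) 1 (wl_nonneg hF h hh)
        (wl_le_one hF h hh) (max m t) n (fun k hk hk' => hanti k (by omega))
      have hS : ∑ k ∈ Ico m n, |wl U V H lam om h (k + 1) - wl U V H lam om h k| ≤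
          ∑ k ∈ Ico m (min t n), |wl U V H lam om h (k + 1) - wl U V H lam om h k| +
          ∑ k ∈ Ico (max m t) n, |wl U V H lam om h (k + 1) - wl U V H lam om h k| := by
        have hsub : Ico m n ⊆ Ico m (min t n) ∪ Ico (max m t) n := by
          intro k hk
          rw [mem_Ico] at hk
          rw [mem_union, mem_Ico, mem_Ico]
          omega
        have hdis : Disjoint (Ico m (min t n)) (Ico (max m t) n) := by
          rw [disjoint_left]
          intro k hk hk'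
          rw [mem_Ico] at hk hk'
          omega
        rw [← sum_union hdis]
        exact sum_le_sum_of_subset_of_nonneg hsub fun _ _ _ => abs_nonneg _
      linarith
    · have hz : ∀ k, wl U V H lam om h k = 0 := by
        intro k
        unfold wl
        rw [if_neg (fun h' => hex ⟨k, h'⟩)]
      simp only [hz, sub_self, abs_zero, sum_const_zero]
      norm_num

theorem fw_sq {U V G : ℕ} {H : ℕ → ℕ} {lam om : ℕ → ℝ} (hF : FW U V G H lam om) :
    FW U V G H (fun n => lam n ^ 2) (fun h => om h ^ 2) := by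
  refine ⟨hF.UV, hF.mono, hF.HG, fun n _ => sq_nonneg _, ?_, fun h hh => ?_, ?_⟩
  · intro a ha b hb hab
    exact pow_le_pow_left₀ (hF.lam0 b hb) (hF.anti ha hb hab) 2
  · have := hF.om0 h hh
    positivity
  · intro n hn h hh hle
    have hn' := mem_Ioc.1 hn
    exact pow_le_pow_left₀ (hF.lam0 n ⟨hn'.1.le, hn'.2⟩) (hF.lo n hn h hh hle) 2

theorem wl_om {U V G : ℕ} {H : ℕ → ℕ} {lam om : ℕ → ℝ} (hF : FW U V G H lam om) (h : ℕ)
    (hh : h ∈ Icc 1 G) (n : ℕ) (hn : n ∈ Ioc U V) :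
    om h * wl U V H lam om h n = if h ≤ H n then lam n else 0 := by
  unfold wl
  have h0 := (hF.om0 h hh).ne'
  by_cases hle : h ≤ H n
  · rw [if_pos ⟨hn, hle⟩, if_pos hle]
    field_simp
  · rw [if_neg (fun h' => hle h'.2), if_neg hle, mul_zero]

theorem wl_sum {U V G : ℕ} {H : ℕ → ℕ} {lam om : ℕ → ℝ} (hF : FW U V G H lam om)
    (g : ℕ → ℕ → ℝ) :
    ∑ n ∈ Ioc U V, lam n * ∑ h ∈ Icc 1 (H n), g h n =
      ∑ h ∈ Icc 1 G, om h * ∑ n ∈ Ioc U V, wl U V H lam om h n * g h n := by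
  have h1 : ∀ h ∈ Icc 1 G, om h * ∑ n ∈ Ioc U V, wl U V H lam om h n * g h n =
      ∑ n ∈ Ioc U V, (if h ≤ H n then lam n else 0) * g h n := by
    intro h hh
    rw [mul_sum]
    refine sum_congr rfl fun n hn => ?_
    rw [← mul_assoc, wl_om hF h hh n hn]
  rw [sum_congr rfl h1, sum_comm]
  refine sum_congr rfl fun n hn => ?_
  have hn' := mem_Ioc.1 hn
  have h2 : Icc 1 (H n) = (Icc 1 G).filter (fun h => h ≤ H n) := by
    have := hF.HG n ⟨hn'.1.le, hn'.2⟩
    ext h
    rw [mem_Icc, mem_filter, mem_Icc]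
    omega
  rw [h2, sum_filter, mul_sum]
  refine sum_congr rfl fun h _ => ?_
  split_ifs
  · rfl
  · rw [mul_zero, zero_mul]

theorem wl_sum2 {U V G : ℕ} {H : ℕ → ℕ} {lam om : ℕ → ℝ} (hF : FW U V G H lam om)
    (g : ℕ → ℕ → ℕ → ℝ) :
    ∑ n ∈ Ioc U V, lam n * ∑ h ∈ Icc 1 (H n), ∑ h' ∈ Icc 1 (H n), g h h' n =
      ∑ h ∈ Icc 1 G, ∑ h' ∈ Icc 1 G, om (max h h') *
        ∑ n ∈ Ioc U V, wl U V H lam om (max h h') n * g h h' n := by
  have h1 : ∀ h ∈ Icc 1 G, ∀ h' ∈ Icc 1 G, om (max h h') *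
      ∑ n ∈ Ioc U V, wl U V H lam om (max h h') n * g h h' n =
      ∑ n ∈ Ioc U V, (if max h h' ≤ H n then lam n else 0) * g h h' n := by
    intro h hh h' hh'
    rw [mul_sum]
    refine sum_congr rfl fun n hn => ?_
    have hm : max h h' ∈ Icc 1 G := by
      rw [mem_Icc] at hh hh' ⊢
      omega
    rw [← mul_assoc, wl_om hF _ hm n hn]
  rw [sum_congr rfl fun h hh => sum_congr rfl fun h' hh' => h1 h hh h' hh']
  have h3 : ∀ h ∈ Icc 1 G, ∑ h' ∈ Icc 1 G, ∑ n ∈ Ioc U V,
      (if max h h' ≤ H n then lam n else 0) * g h h' n =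
      ∑ n ∈ Ioc U V, ∑ h' ∈ Icc 1 G, (if max h h' ≤ H n then lam n else 0) * g h h' n :=
    fun h _ => sum_comm
  rw [sum_congr rfl h3, sum_comm]
  refine sum_congr rfl fun n hn => ?_
  have hn' := mem_Ioc.1 hn
  have h2 : Icc 1 (H n) = (Icc 1 G).filter (fun h => h ≤ H n) := by
    have := hF.HG n ⟨hn'.1.le, hn'.2⟩
    ext h
    rw [mem_Icc, mem_filter, mem_Icc]
    omega
  rw [h2, sum_filter, mul_sum]
  refine sum_congr rfl fun h _ => ?_
  split_ifs with ha
  · rw [sum_filter, mul_sum]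
    refine sum_congr rfl fun h' _ => ?_
    by_cases hb : h' ≤ H n
    · rw [if_pos hb, if_pos (max_le ha hb)]
    · rw [if_neg hb, if_neg (fun hc => hb ((le_max_right _ _).trans hc)), mul_zero, zero_mul]
  · rw [mul_zero]
    symm
    refine sum_eq_zero fun h' _ => ?_
    rw [if_neg (fun hc => ha ((le_max_left _ _).trans hc)), zero_mul]

theorem wl_one {U V G : ℕ} {H : ℕ → ℕ} {lam om : ℕ → ℝ} (hF : FW U V G H lam om) :
    ∑ h ∈ Icc 1 G, om h * mass U V (wl U V H lam om h) = ∑ n ∈ Ioc U V, lam n * H n := by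
  have h1 := wl_sum hF (fun _ _ => 1)
  unfold mass
  simp only [mul_one, sum_const, Nat.card_Icc, Nat.add_sub_cancel, nsmul_eq_mul] at h1
  rw [← h1]

end Pool.Agent.H67.VU
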