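import Pool.Agent.H67.VT.Cov
import Pool.Agent.H67.VU.Wl

/-!
[H67 VU COV3]  The covariance for variable lengths: diagonal term, shifts, pairs with given maximum.

Proof.  `PH (H n) n * gg ρ D Q (H n) n = ∑_{h,h' ≤ H n} pl(n+h) bq(n,h')`, so by `wl_sum2` the left sum is
`∑_{h,h' ≤ G} om (max h h') ∑_n w (pl (n+h) bq n h')`, `w = wl .. (max h h')`, `Wt U V w` (`wl_wt`).
`VT.cov_one2` (with `H = G`) replaces the inner sum by `∑_n w n pl n bq n (h'-h)`, error
`3 G (log(V+G) (K LL))`; `∑_{h,h' ≤ G} om (max h h') ≤ ∑_m 2 m om m = O1` (there are `2m-1` pairs with maximum `m`).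
The pairs with maximum `m`: `h = h' = m` gives `∑_n w n pl n bq n 0 = SS ∑ w pl` (`VT.cov_diag2`, `theta`), and
`∑_m om m ∑_n wl m n pl n = ∑_n lam n H n pl n` (`wl_sum` with `g h n = pl n`); `(h,h') = (m, m-k)` and `(m-k, m)`, `1 ≤ k < m`,
give `bq n (-k)` and `bq n k`.
-/

namespace Pool.Agent.H67.VU

open Finset Pool.Agent.H67.VS Pool.Agent.H67.VT

/-- sum over pairs, ordered by the maximum -/
theorem cov3_max (F : ℕ → ℕ → ℝ) (G : ℕ) :
    ∑ h ∈ Icc 1 G, ∑ h' ∈ Icc 1 G, F h h' =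
      ∑ m ∈ Icc 1 G, (F m m + ∑ k ∈ Ico 1 m, (F (m - k) m + F m (m - k))) := by
  induction G with
  | zero => simp
  | succ G ih =>
    have hI : Icc 1 (G + 1) = insert (G + 1) (Icc 1 G) := by
      ext k
      rw [mem_insert, mem_Icc, mem_Icc]
      omega
    have hn : G + 1 ∉ Icc 1 G := by
      rw [mem_Icc]
      omega
    have hr : ∀ f : ℕ → ℝ, ∑ k ∈ Ico 1 (G + 1), f (G + 1 - k) = ∑ h ∈ Icc 1 G, f h := by
      intro f
      refine sum_nbij' (fun k => G + 1 - k) (fun h => G + 1 - h) ?_ ?_ ?_ ?_ ?_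
      · intro k hk
        rw [mem_Ico] at hk
        rw [mem_Icc]
        omega
      · intro k hk
        rw [mem_Icc] at hk
        rw [mem_Ico]
        omega
      · intro k hk
        rw [mem_Ico] at hk
        show G + 1 - (G + 1 - k) = k
        omega
      · intro k hk
        rw [mem_Icc] at hk
        show G + 1 - (G + 1 - k) = k
        omega
      · intro k _
        rfl
    rw [hI, sum_insert hn, sum_insert hn, sum_insert hn, ← ih]
    have h1 : ∀ h ∈ Icc 1 G, ∑ h' ∈ insert (G + 1) (Icc 1 G), F h h' =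
        F h (G + 1) + ∑ h' ∈ Icc 1 G, F h h' := fun h _ => sum_insert hn
    rw [sum_congr rfl h1, sum_add_distrib, sum_add_distrib, hr (fun h => F h (G + 1)),
      hr (fun h => F (G + 1) h)]
    ring

theorem cov3 {U V G D : ℕ} {H : ℕ → ℕ} {lam om : ℕ → ℝ} {ρ : ℕ → ℕ → ℝ} {s : ℕ → ℝ} {K : ℝ}
    {Q : Finset ℕ} (hF : FW U V G H lam om) (hU : 1 ≤ U) (hDU : D ≤ U) (hGU : G ≤ U) (hK : 0 ≤ K)
    (hρ : ∀ q ∈ Q, SV (D / q) q K (s q) (ρ q)) (hQ : ∀ q ∈ Q, q.Prime ∧ q ≤ D) :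
    |∑ n ∈ Ioc U V, lam n * (PH (H n) n * gg ρ D Q (H n) n) -
      (SS s Q * ∑ n ∈ Ioc U V, lam n * (H n * pl n) +
        ∑ m ∈ Icc 1 G, om m * ∑ k ∈ Ico 1 m, ∑ n ∈ Ioc U V, wl U V H lam om m n *
          (pl n * (bq ρ D Q n (k : ℤ) + bq ρ D Q n (-(k : ℤ)))))| ≤
      3 * G * (Real.log (V + G) * (K * LL D Q)) * O1 G om := by
  have hQ' : ∀ q ∈ Q, q.Prime := fun q hq => (hQ q hq).1
  obtain ⟨E, hE⟩ : ∃ E : ℝ, E = 3 * G * (Real.log (V + G) * (K * LL D Q)) := ⟨_, rfl⟩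
  have e1 : ∑ n ∈ Ioc U V, lam n * (PH (H n) n * gg ρ D Q (H n) n) =
      ∑ h ∈ Icc 1 G, ∑ h' ∈ Icc 1 G, om (max h h') *
        ∑ n ∈ Ioc U V, wl U V H lam om (max h h') n * (pl (n + h) * bq ρ D Q n (h' : ℤ)) := by
    rw [← wl_sum2 hF (fun h h' n => pl (n + h) * bq ρ D Q n (h' : ℤ))]
    refine sum_congr rfl fun n _ => ?_
    unfold PH gg
    rw [sum_mul_sum]
  -- the shifted sums
  obtain ⟨B, hB⟩ : ∃ B : ℕ → ℕ → ℝ, B = fun h h' => om (max h h') *
      ∑ n ∈ Ioc U V, wl U V H lam om (max h h') n * pl n * bq ρ D Q n ((h' : ℤ) - (h : ℤ)) :=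
    ⟨_, rfl⟩
  have e2 : SS s Q * ∑ n ∈ Ioc U V, lam n * (H n * pl n) +
        ∑ m ∈ Icc 1 G, om m * ∑ k ∈ Ico 1 m, ∑ n ∈ Ioc U V, wl U V H lam om m n *
          (pl n * (bq ρ D Q n (k : ℤ) + bq ρ D Q n (-(k : ℤ)))) =
      ∑ h ∈ Icc 1 G, ∑ h' ∈ Icc 1 G, B h h' := by
    rw [cov3_max, sum_add_distrib]
    congr 1
    · have a1 : ∀ m ∈ Icc 1 G, B m m = SS s Q * (om m * ∑ n ∈ Ioc U V,
          wl U V H lam om m n * pl n) := by
        intro m hm
        have a2 := cov_diag2 (A := U) (B := V) (w := wl U V H lam om m) (K := K) hU hDU hρ hQ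
        rw [hB]
        simp only [max_self, sub_self]
        rw [a2]
        unfold theta
        ring
      rw [sum_congr rfl a1, ← mul_sum, ← wl_sum hF (fun _ n => pl n)]
      congr 1
      refine sum_congr rfl fun n _ => ?_
      rw [sum_const, Nat.card_Icc, Nat.add_sub_cancel, nsmul_eq_mul]
    · refine sum_congr rfl fun m hm => ?_
      rw [mul_sum]
      refine sum_congr rfl fun k hk => ?_
      rw [mem_Ico] at hk
      have m1 : max (m - k) m = m := max_eq_right (Nat.sub_le _ _)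
      have m2 : max m (m - k) = m := max_eq_left (Nat.sub_le _ _)
      have c1 : (m : ℤ) - ((m - k : ℕ) : ℤ) = (k : ℤ) := by
        rw [Nat.cast_sub hk.2.le]
        ring
      have c2 : ((m - k : ℕ) : ℤ) - (m : ℤ) = -(k : ℤ) := by
        rw [Nat.cast_sub hk.2.le]
        ring
      rw [hB]
      simp only [m1, m2, c1, c2]
      rw [← mul_add, ← sum_add_distrib]
      congr 1
      refine sum_congr rfl fun n _ => ?_
      ring
  rw [e1, e2, ← sum_sub_distrib]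
  have h1 : ∀ h ∈ Icc 1 G, ∀ h' ∈ Icc 1 G, |om (max h h') *
      ∑ n ∈ Ioc U V, wl U V H lam om (max h h') n * (pl (n + h) * bq ρ D Q n (h' : ℤ)) -
      B h h'| ≤ om (max h h') * E := by
    intro h hh h' hh'
    have hm : max h h' ∈ Icc 1 G := by
      rw [mem_Icc] at hh hh' ⊢
      omega
    rw [hB]
    simp only
    rw [← mul_sub, abs_mul, abs_of_pos (hF.om0 _ hm), hE]
    refine mul_le_mul_of_nonneg_left ?_ (hF.om0 _ hm).le
    exact cov_one2 (wl_wt hF _ hm) hK hρ hGU hQ' h hh (h' : ℤ)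
  have h2 : |∑ h ∈ Icc 1 G, (∑ h' ∈ Icc 1 G, om (max h h') *
      ∑ n ∈ Ioc U V, wl U V H lam om (max h h') n * (pl (n + h) * bq ρ D Q n (h' : ℤ)) -
      ∑ h' ∈ Icc 1 G, B h h')| ≤ ∑ h ∈ Icc 1 G, ∑ h' ∈ Icc 1 G, om (max h h') * E := by
    refine (abs_sum_le_sum_abs _ _).trans (sum_le_sum fun h hh => ?_)
    rw [← sum_sub_distrib]
    exact (abs_sum_le_sum_abs _ _).trans (sum_le_sum fun h' hh' => h1 h hh h' hh')
  refine h2.trans ?_
  rw [cov3_max, ← hE]
  have hE0 : 0 ≤ E ∨ Icc 1 G = ∅ := by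
    rcases Nat.eq_zero_or_pos G with h | h
    · right
      rw [h]
      rfl
    · left
      have hVG : (1 : ℝ) ≤ (V : ℝ) + G := by
        have : (1 : ℝ) ≤ G := by exact_mod_cast h
        have h0 : (0 : ℝ) ≤ V := Nat.cast_nonneg V
        linarith
      have := Real.log_nonneg hVG
      have hLL := cov_LL_nonneg D Q
      rw [hE]
      positivity
  rcases hE0 with hE0 | hE0
  · unfold O1
    rw [mul_sum]
    refine sum_le_sum fun m hm => ?_
    have hm' := mem_Icc.1 hm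
    have a1 : ∀ k ∈ Ico 1 m, om (max (m - k) m) * E + om (max m (m - k)) * E = 2 * (om m * E) := by
      intro k hk
      have m1 : max (m - k) m = m := max_eq_right (Nat.sub_le _ _)
      have m2 : max m (m - k) = m := max_eq_left (Nat.sub_le _ _)
      rw [m1, m2]
      ring
    rw [sum_congr rfl a1, sum_const, Nat.card_Ico, nsmul_eq_mul, max_self, Nat.cast_sub hm'.1]
    have a2 : 0 ≤ om m * E := mul_nonneg (hF.om0 m hm).le hE0
    push_cast
    nlinarith
  · unfold O1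
    rw [hE0]
    simp

end Pool.Agent.H67.VU
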