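import Pool.Agent.H67.VU.Bit
import Pool.Agent.H67.VT.LsC

/-!
[H67 VU CUT]  The bilinear large sieve with a hyperbolic cut-off, losing only a logarithm.

Proof.  `c = ls_mult`'s constant.  For `k ≤ N2` and `m ≥ 1`: `m k ≤ t` iff `k < β m`, `β m = min (t/m) N2 + 1 < 2^s`.
(`m ≥ 1` because `m > M1`.)  `bit_sum` with `a = k`, `b = β m`: the inner double sum is
`∑_{i<s} ∑_{p ≤ N2, p even} (∑_{m : β m / 2^i = p+1} a m c(m)) (∑_{k : k/2^i = p} b k c(k))`.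
For fixed `i`, the sets `A_p = {m : β m/2^i = p+1}` are disjoint, and so are `B_p = {k : k/2^i = p}`.  Cauchy-Schwarz for the
sum over all pairs `(c,p)`, then `ls_mult` for the coefficients `a 1_{A_p}` on `Ioc M1 M2` and `b 1_{B_p}` on `Ioc N1 N2`:
`∑_c ∑_p ‖∑_{m ∈ A_p} a m c(m)‖^2 ≤ C (M2 - M1 + R^2) ∑_p ∑_{m ∈ A_p} ‖a m‖^2 ≤ C (M2 - M1 + R^2) ∑ ‖a m‖^2`.
Sum over `i < s`.
-/

namespace Pool.Agent.H67.VU

open Finset Pool.Agent.H21.MT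

theorem cut_ls {C : ℝ} (hls : ∀ (R M N : ℕ) (a : ℕ → ℂ),
      ∑ c ∈ PC R, ‖∑ n ∈ Ioc M (M + N), a n * c.2 (n : ZMod (c.1.val + 1))‖ ^ 2 ≤
        C * ((N : ℝ) + (R : ℝ) ^ 2) * ∑ n ∈ Ioc M (M + N), ‖a n‖ ^ 2) (hC : 0 < C)
    (R M1 M2 : ℕ) (h : M1 ≤ M2) (a : ℕ → ℂ) (f g : ℕ → ℕ) (hg : Function.Injective g)
    (P : Finset ℕ) :
    ∑ c ∈ PC R, ∑ p ∈ P, ‖∑ m ∈ Ioc M1 M2, (if f m = g p then a m else 0) *
        c.2 (m : ZMod (c.1.val + 1))‖ ^ 2 ≤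
      C * ((M2 : ℝ) - M1 + (R : ℝ) ^ 2) * ∑ m ∈ Ioc M1 M2, ‖a m‖ ^ 2 := by
  obtain ⟨N, rfl⟩ := Nat.exists_eq_add_of_le h
  have e1 : ((M1 + N : ℕ) : ℝ) - M1 = N := by push_cast; ring
  rw [e1, Finset.sum_comm]
  refine (Finset.sum_le_sum fun p _ => hls R M1 N (fun m => if f m = g p then a m else 0)).trans ?_
  rw [← Finset.mul_sum]
  refine mul_le_mul_of_nonneg_left ?_ (by positivity)
  rw [Finset.sum_comm]
  refine Finset.sum_le_sum fun m _ => ?_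
  by_cases hm : ∃ p ∈ P, f m = g p
  · obtain ⟨p, hp, hfp⟩ := hm
    rw [Finset.sum_eq_single_of_mem p hp]
    · rw [if_pos hfp]
    · intro q _ hq
      rw [if_neg, norm_zero]
      · ring
      · intro h2
        exact hq (hg (h2.symm.trans hfp))
  · push Not at hm
    rw [Finset.sum_eq_zero]
    · positivity
    · intro p hp
      rw [if_neg (hm p hp), norm_zero]
      ring

theorem cut_bil {C : ℝ} (hls : ∀ (R M N : ℕ) (a : ℕ → ℂ),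
      ∑ c ∈ PC R, ‖∑ n ∈ Ioc M (M + N), a n * c.2 (n : ZMod (c.1.val + 1))‖ ^ 2 ≤
        C * ((N : ℝ) + (R : ℝ) ^ 2) * ∑ n ∈ Ioc M (M + N), ‖a n‖ ^ 2) (hC : 0 < C)
    (R M1 M2 N1 N2 : ℕ) (hM : M1 ≤ M2) (hN : N1 ≤ N2) (a b : ℕ → ℂ)
    (f g f' g' : ℕ → ℕ) (hg : Function.Injective g) (hg' : Function.Injective g')
    (P : Finset ℕ) :
    ∑ c ∈ PC R, ‖∑ p ∈ P, (∑ m ∈ Ioc M1 M2, (if f m = g p then a m else 0) *
        c.2 (m : ZMod (c.1.val + 1))) * (∑ k ∈ Ioc N1 N2, (if f' k = g' p then b k else 0) *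
        c.2 (k : ZMod (c.1.val + 1)))‖ ≤
      C * (Real.sqrt (((M2 : ℝ) - M1 + (R : ℝ) ^ 2) * ∑ m ∈ Ioc M1 M2, ‖a m‖ ^ 2) *
        Real.sqrt (((N2 : ℝ) - N1 + (R : ℝ) ^ 2) * ∑ k ∈ Ioc N1 N2, ‖b k‖ ^ 2)) := by
  have hM' : (M1 : ℝ) ≤ M2 := by exact_mod_cast hM
  have hN' : (N1 : ℝ) ≤ N2 := by exact_mod_cast hN
  have h1 : ∑ c ∈ PC R, ‖∑ p ∈ P, (∑ m ∈ Ioc M1 M2, (if f m = g p then a m else 0) *
        c.2 (m : ZMod (c.1.val + 1))) * (∑ k ∈ Ioc N1 N2, (if f' k = g' p then b k else 0) *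
        c.2 (k : ZMod (c.1.val + 1)))‖ ≤
      ∑ x ∈ PC R ×ˢ P, ‖∑ m ∈ Ioc M1 M2, (if f m = g x.2 then a m else 0) *
        x.1.2 (m : ZMod (x.1.1.val + 1))‖ * ‖∑ k ∈ Ioc N1 N2, (if f' k = g' x.2 then b k else 0) *
        x.1.2 (k : ZMod (x.1.1.val + 1))‖ := by
    rw [Finset.sum_product]
    refine Finset.sum_le_sum fun c _ => ?_
    refine (norm_sum_le _ _).trans (Finset.sum_le_sum fun p _ => ?_)
    rw [norm_mul]
  refine h1.trans ((Real.sum_mul_le_sqrt_mul_sqrt _ _ _).trans ?_)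
  rw [Finset.sum_product, Finset.sum_product]
  have h2 := cut_ls hls hC R M1 M2 hM a f g hg P
  have h3 := cut_ls hls hC R N1 N2 hN b f' g' hg' P
  have h4 : Real.sqrt (C * ((M2 : ℝ) - M1 + (R : ℝ) ^ 2) * ∑ m ∈ Ioc M1 M2, ‖a m‖ ^ 2) *
      Real.sqrt (C * ((N2 : ℝ) - N1 + (R : ℝ) ^ 2) * ∑ k ∈ Ioc N1 N2, ‖b k‖ ^ 2) =
      C * (Real.sqrt (((M2 : ℝ) - M1 + (R : ℝ) ^ 2) * ∑ m ∈ Ioc M1 M2, ‖a m‖ ^ 2) *
        Real.sqrt (((N2 : ℝ) - N1 + (R : ℝ) ^ 2) * ∑ k ∈ Ioc N1 N2, ‖b k‖ ^ 2)) := by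
    rw [mul_assoc C, mul_assoc C, Real.sqrt_mul hC.le, Real.sqrt_mul hC.le]
    have h5 := Real.mul_self_sqrt hC.le
    generalize Real.sqrt (((M2 : ℝ) - M1 + (R : ℝ) ^ 2) * ∑ m ∈ Ioc M1 M2, ‖a m‖ ^ 2) = x
    generalize Real.sqrt (((N2 : ℝ) - N1 + (R : ℝ) ^ 2) * ∑ k ∈ Ioc N1 N2, ‖b k‖ ^ 2) = y
    calc Real.sqrt C * x * (Real.sqrt C * y) = (Real.sqrt C * Real.sqrt C) * (x * y) := by ring
      _ = C * (x * y) := by rw [h5]
  rw [← h4]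
  exact mul_le_mul (Real.sqrt_le_sqrt h2) (Real.sqrt_le_sqrt h3) (Real.sqrt_nonneg _)
    (Real.sqrt_nonneg _)

theorem bil_cut : ∃ C : ℝ, 0 < C ∧ ∀ (R M1 M2 N1 N2 t s : ℕ), M1 ≤ M2 → N1 ≤ N2 → N2 + 1 < 2 ^ s →
    ∀ (a b : ℕ → ℂ),
    ∑ c ∈ PC R, ‖∑ m ∈ Ioc M1 M2, ∑ k ∈ Ioc N1 N2,
        if m * k ≤ t then a m * b k * c.2 ((m * k : ℕ) : ZMod (c.1.val + 1)) else 0‖ ≤
      C * s * (Real.sqrt (((M2 : ℝ) - M1 + (R : ℝ) ^ 2) * ∑ m ∈ Ioc M1 M2, ‖a m‖ ^ 2) *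
        Real.sqrt (((N2 : ℝ) - N1 + (R : ℝ) ^ 2) * ∑ k ∈ Ioc N1 N2, ‖b k‖ ^ 2)) := by
  obtain ⟨C, hC, hls⟩ := Pool.Agent.H67.VT.ls_mult
  refine ⟨C, hC, fun R M1 M2 N1 N2 t s hM hN hs a b => ?_⟩
  have hM' : (M1 : ℝ) ≤ M2 := by exact_mod_cast hM
  have hN' : (N1 : ℝ) ≤ N2 := by exact_mod_cast hN
  let β : ℕ → ℕ := fun m => min (t / m) N2 + 1
  have hβ : ∀ m, β m < 2 ^ s := fun m =>
    lt_of_le_of_lt (Nat.add_le_add_right (Nat.min_le_right _ _) 1) hs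
  have key : ∀ c : Ch R, (∑ m ∈ Ioc M1 M2, ∑ k ∈ Ioc N1 N2,
        if m * k ≤ t then a m * b k * c.2 ((m * k : ℕ) : ZMod (c.1.val + 1)) else 0) =
      ∑ i ∈ range s, ∑ p ∈ range (N2 + 1),
        (∑ m ∈ Ioc M1 M2, (if β m / 2 ^ i = p + 1 then a m else 0) *
          c.2 (m : ZMod (c.1.val + 1))) *
        (∑ k ∈ Ioc N1 N2, (if k / 2 ^ i = p then (if (k / 2 ^ i) % 2 = 0 then b k else 0) else 0) *
          c.2 (k : ZMod (c.1.val + 1))) := by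
    intro c
    have e1 : ∀ m ∈ Ioc M1 M2, ∀ k ∈ Ioc N1 N2,
        (if m * k ≤ t then a m * b k * c.2 ((m * k : ℕ) : ZMod (c.1.val + 1)) else 0) =
        ∑ i ∈ range s, ∑ p ∈ range (N2 + 1),
          ((if β m / 2 ^ i = p + 1 then a m else 0) * c.2 (m : ZMod (c.1.val + 1))) *
          ((if k / 2 ^ i = p then (if (k / 2 ^ i) % 2 = 0 then b k else 0) else 0) *
            c.2 (k : ZMod (c.1.val + 1))) := by
      intro m hm k hk
      rw [mem_Ioc] at hm hk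
      have hm0 : 0 < m := by omega
      have e2 : m * k ≤ t ↔ k < β m := by
        have : k < β m ↔ k ≤ t / m := by
          simp only [β]
          rw [Nat.lt_succ_iff, Nat.le_min]
          exact ⟨fun h => h.1, fun h => ⟨h, hk.2⟩⟩
        rw [this, Nat.le_div_iff_mul_le hm0, mul_comm]
      have e3 : (if m * k ≤ t then a m * b k * c.2 ((m * k : ℕ) : ZMod (c.1.val + 1)) else 0) =
          (if k < β m then (1 : ℂ) else 0) *
            (a m * b k * c.2 ((m * k : ℕ) : ZMod (c.1.val + 1))) := by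
        by_cases h : m * k ≤ t
        · rw [if_pos h, if_pos (e2.1 h), one_mul]
        · rw [if_neg h, if_neg (fun h' => h (e2.2 h')), zero_mul]
      rw [e3, bit_sum k (β m) s (hβ m), Finset.sum_mul]
      refine Finset.sum_congr rfl fun i _ => ?_
      have hp : k / 2 ^ i ∈ range (N2 + 1) := by
        rw [mem_range]
        have := Nat.div_le_self k (2 ^ i)
        omega
      rw [Finset.sum_eq_single_of_mem (k / 2 ^ i) hp]
      · rw [if_pos rfl, Nat.cast_mul, map_mul]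
        by_cases h1 : (k / 2 ^ i) % 2 = 0
        · by_cases h2 : β m / 2 ^ i = k / 2 ^ i + 1
          · rw [if_pos ⟨h1, h2⟩, if_pos h2, if_pos h1]
            ring
          · rw [if_neg (fun h => h2 h.2), if_neg h2]
            ring
        · rw [if_neg (fun h => h1 h.1), if_neg h1]
          ring
      · intro p _ hpk
        rw [if_neg (Ne.symm hpk)]
        ring
    rw [Finset.sum_congr rfl fun m hm => Finset.sum_congr rfl fun k hk => e1 m hm k hk]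
    have e4 : ∀ (F : ℕ → ℕ → ℕ → ℕ → ℂ), ∑ m ∈ Ioc M1 M2, ∑ k ∈ Ioc N1 N2, ∑ i ∈ range s,
        ∑ p ∈ range (N2 + 1), F m k i p = ∑ i ∈ range s, ∑ p ∈ range (N2 + 1),
        ∑ m ∈ Ioc M1 M2, ∑ k ∈ Ioc N1 N2, F m k i p := by
      intro F
      calc _ = ∑ m ∈ Ioc M1 M2, ∑ i ∈ range s, ∑ k ∈ Ioc N1 N2,
            ∑ p ∈ range (N2 + 1), F m k i p :=
            Finset.sum_congr rfl fun m _ => Finset.sum_comm
        _ = ∑ i ∈ range s, ∑ m ∈ Ioc M1 M2, ∑ k ∈ Ioc N1 N2,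
            ∑ p ∈ range (N2 + 1), F m k i p := Finset.sum_comm
        _ = ∑ i ∈ range s, ∑ m ∈ Ioc M1 M2, ∑ p ∈ range (N2 + 1),
            ∑ k ∈ Ioc N1 N2, F m k i p :=
            Finset.sum_congr rfl fun i _ => Finset.sum_congr rfl fun m _ => Finset.sum_comm
        _ = _ := Finset.sum_congr rfl fun i _ => Finset.sum_comm
    rw [e4]
    refine Finset.sum_congr rfl fun i _ => Finset.sum_congr rfl fun p _ => ?_
    rw [Finset.sum_mul_sum]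
  have hstep : ∑ c ∈ PC R, ‖∑ m ∈ Ioc M1 M2, ∑ k ∈ Ioc N1 N2,
        if m * k ≤ t then a m * b k * c.2 ((m * k : ℕ) : ZMod (c.1.val + 1)) else 0‖ ≤
      ∑ i ∈ range s, ∑ c ∈ PC R, ‖∑ p ∈ range (N2 + 1),
        (∑ m ∈ Ioc M1 M2, (if β m / 2 ^ i = p + 1 then a m else 0) *
          c.2 (m : ZMod (c.1.val + 1))) *
        (∑ k ∈ Ioc N1 N2, (if k / 2 ^ i = p then (if (k / 2 ^ i) % 2 = 0 then b k else 0) else 0) *
          c.2 (k : ZMod (c.1.val + 1)))‖ := by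
    rw [Finset.sum_comm]
    refine Finset.sum_le_sum fun c _ => ?_
    rw [key c]
    exact norm_sum_le _ _
  refine hstep.trans ?_
  have hone : ∀ i ∈ range s, ∑ c ∈ PC R, ‖∑ p ∈ range (N2 + 1),
        (∑ m ∈ Ioc M1 M2, (if β m / 2 ^ i = p + 1 then a m else 0) *
          c.2 (m : ZMod (c.1.val + 1))) *
        (∑ k ∈ Ioc N1 N2, (if k / 2 ^ i = p then (if (k / 2 ^ i) % 2 = 0 then b k else 0) else 0) *
          c.2 (k : ZMod (c.1.val + 1)))‖ ≤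
      C * (Real.sqrt (((M2 : ℝ) - M1 + (R : ℝ) ^ 2) * ∑ m ∈ Ioc M1 M2, ‖a m‖ ^ 2) *
        Real.sqrt (((N2 : ℝ) - N1 + (R : ℝ) ^ 2) * ∑ k ∈ Ioc N1 N2, ‖b k‖ ^ 2)) := by
    intro i _
    have h1 := cut_bil hls hC R M1 M2 N1 N2 hM hN a
      (fun k => if (k / 2 ^ i) % 2 = 0 then b k else 0) (fun m => β m / 2 ^ i) (fun p => p + 1)
      (fun k => k / 2 ^ i) (fun p => p) (fun x y h => Nat.succ_injective h) (fun x y h => h)
      (range (N2 + 1))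
    refine h1.trans ?_
    refine mul_le_mul_of_nonneg_left ?_ hC.le
    refine mul_le_mul_of_nonneg_left ?_ (Real.sqrt_nonneg _)
    apply Real.sqrt_le_sqrt
    refine mul_le_mul_of_nonneg_left ?_ (by
      have : (0 : ℝ) ≤ (N2 : ℝ) - N1 := by linarith
      positivity)
    refine Finset.sum_le_sum fun k _ => ?_
    beta_reduce
    split_ifs
    · exact le_rfl
    · rw [norm_zero, zero_pow two_ne_zero]
      positivity
  refine (Finset.sum_le_sum hone).trans ?_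
  rw [Finset.sum_const, card_range, nsmul_eq_mul]
  apply le_of_eq
  ring

end Pool.Agent.H67.VU
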