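import Pool.Agent.H67.VT.Phi

/-!
[H67 VU DIVS]  A divisor sum.

Proof.  `1/φ(f) ≤ (2 + 2 log f)/f ≤ (2 + 2 log D)/f` (`VT.phi_low`), `∑_{f ≤ D} τ(f)/f ≤ (∑_{a ≤ D} 1/a)^2 ≤ (1 + log D)^2`
(`f = a b`; `harmonic_le_one_add_log`).
-/

namespace Pool.Agent.H67.VU

open Finset

private theorem divs_harm (D : ℕ) : ∑ a ∈ Icc 1 D, (1 : ℝ) / (a : ℝ) ≤ 1 + Real.log D := by
  have h := harmonic_le_one_add_log D
  rw [harmonic_eq_sum_Icc] at h
  push_cast at h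
  simpa [one_div] using h

private theorem divs_tau (D : ℕ) :
    ∑ f ∈ Icc 1 D, (f.divisors.card : ℝ) / (f : ℝ) ≤ (∑ a ∈ Icc 1 D, (1 : ℝ) / (a : ℝ)) ^ 2 := by
  classical
  have h1 : ∑ f ∈ Icc 1 D, (f.divisors.card : ℝ) / (f : ℝ) =
      ∑ x ∈ (Icc 1 D).sigma fun f => f.divisorsAntidiagonal,
        (1 : ℝ) / (x.2.1 : ℝ) * (1 / (x.2.2 : ℝ)) := by
    rw [sum_sigma]
    refine sum_congr rfl fun f hf => ?_
    have h2 : ∀ x ∈ f.divisorsAntidiagonal,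
        (1 : ℝ) / (x.1 : ℝ) * (1 / (x.2 : ℝ)) = 1 / (f : ℝ) := by
      intro x hx
      have h3 := (Nat.mem_divisorsAntidiagonal.1 hx).1
      rw [one_div_mul_one_div, ← Nat.cast_mul, h3]
    rw [sum_congr rfl h2, sum_const, nsmul_eq_mul, ← Nat.map_div_right_divisors, card_map]
    ring
  have hinj : Set.InjOn (fun x : (Σ _ : ℕ, ℕ × ℕ) => x.2)
      (((Icc 1 D).sigma fun f => f.divisorsAntidiagonal : Finset (Σ _ : ℕ, ℕ × ℕ)) :
        Set (Σ _ : ℕ, ℕ × ℕ)) := by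
    rintro ⟨f, x⟩ hx ⟨g, y⟩ hy hxy
    have hx1 := (Nat.mem_divisorsAntidiagonal.1 (mem_sigma.1 (mem_coe.1 hx)).2).1
    have hy1 := (Nat.mem_divisorsAntidiagonal.1 (mem_sigma.1 (mem_coe.1 hy)).2).1
    simp only at hxy hx1 hy1
    subst hxy
    rw [hx1] at hy1
    subst hy1
    rfl
  rw [h1, sq, sum_mul_sum, ← sum_product',
    ← sum_image (f := fun x : ℕ × ℕ => (1 : ℝ) / (x.1 : ℝ) * (1 / (x.2 : ℝ))) hinj]
  refine sum_le_sum_of_subset_of_nonneg ?_ fun x _ _ => by positivity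
  intro x hx
  obtain ⟨⟨f, y⟩, hy, rfl⟩ := mem_image.1 hx
  obtain ⟨hf, hy1⟩ := mem_sigma.1 hy
  obtain ⟨h2, h3⟩ := Nat.mem_divisorsAntidiagonal.1 hy1
  obtain ⟨h4, h5⟩ := mem_Icc.1 hf
  simp only at h2 h3 h4 h5
  have h6 : 1 ≤ y.1 := Nat.one_le_iff_ne_zero.2 (by rintro h; rw [h, zero_mul] at h2; omega)
  have h7 : 1 ≤ y.2 := Nat.one_le_iff_ne_zero.2 (by rintro h; rw [h, mul_zero] at h2; omega)
  have h8 : y.1 ≤ f := by rw [← h2]; exact Nat.le_mul_of_pos_right _ h7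
  have h9 : y.2 ≤ f := by rw [← h2]; exact Nat.le_mul_of_pos_left _ h6
  exact mem_product.2 ⟨mem_Icc.2 ⟨h6, h8.trans h5⟩, mem_Icc.2 ⟨h7, h9.trans h5⟩⟩

theorem div_sum (D : ℕ) (hD : 1 ≤ D) :
    ∑ f ∈ Icc 1 D, (f.divisors.card : ℝ) / (f.totient : ℝ) ≤ (2 + 2 * Real.log D) ^ 3 := by
  have hL : 0 ≤ Real.log D := Real.log_nonneg (by exact_mod_cast hD)
  have h1 : ∀ f ∈ Icc 1 D, (f.divisors.card : ℝ) / (f.totient : ℝ) ≤
      (2 + 2 * Real.log D) * ((f.divisors.card : ℝ) / (f : ℝ)) := by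
    intro f hf
    rw [mem_Icc] at hf
    have h2 := VT.phi_low f hf.1
    have hf0 : (0 : ℝ) < f := by exact_mod_cast hf.1
    have ht : (0 : ℝ) < f.totient := by exact_mod_cast Nat.totient_pos.2 hf.1
    have h3 : Real.log f ≤ Real.log D := Real.log_le_log hf0 (by exact_mod_cast hf.2)
    have h4 : (f : ℝ) ≤ (2 + 2 * Real.log D) * f.totient := by
      refine h2.trans (mul_le_mul_of_nonneg_right ?_ ht.le)
      linarith
    rw [← mul_div_assoc, div_le_div_iff₀ ht hf0]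
    calc (f.divisors.card : ℝ) * f ≤ f.divisors.card * ((2 + 2 * Real.log D) * f.totient) :=
          mul_le_mul_of_nonneg_left h4 (Nat.cast_nonneg _)
      _ = (2 + 2 * Real.log D) * f.divisors.card * f.totient := by ring
  have h5 : 0 ≤ ∑ a ∈ Icc 1 D, (1 : ℝ) / (a : ℝ) := sum_nonneg fun a _ => by positivity
  have h6 : (∑ a ∈ Icc 1 D, (1 : ℝ) / (a : ℝ)) ^ 2 ≤ (2 + 2 * Real.log D) ^ 2 := by
    refine pow_le_pow_left₀ h5 ((divs_harm D).trans ?_) 2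
    linarith
  calc ∑ f ∈ Icc 1 D, (f.divisors.card : ℝ) / (f.totient : ℝ)
      ≤ ∑ f ∈ Icc 1 D, (2 + 2 * Real.log D) * ((f.divisors.card : ℝ) / (f : ℝ)) :=
        sum_le_sum h1
    _ = (2 + 2 * Real.log D) * ∑ f ∈ Icc 1 D, (f.divisors.card : ℝ) / (f : ℝ) := by
        rw [mul_sum]
    _ ≤ (2 + 2 * Real.log D) * (2 + 2 * Real.log D) ^ 2 :=
        mul_le_mul_of_nonneg_left ((divs_tau D).trans h6) (by linarith)
    _ = (2 + 2 * Real.log D) ^ 3 := by ring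

end Pool.Agent.H67.VU
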