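import Pool.Agent.H67.VU.Num3
import Pool.Agent.H67.VU.Th
import Pool.Agent.H67.VT.Phi

/-!
[H67 VU DY3]  Dyadic decomposition of the conductors.

Proof.  (See `Pool/Agent/H67/VT/Dy.lean` for the same procedure.)  `D = Dw d X`, `Z = Zw θ κ X ≥ 1`.  Cover `(Z, D]` by
`(R/2, R]`, `R = 2^(i+1) Z`, `i < I`, `2^I ≤ 2D`, so `2Z ≤ R ≤ 2D`, `I ≤ 2 (1 + log X)`.  For `c ∈ PC D` with `R/2 < c.md ≤ R`:
`1/φ(c.md) ≤ (2 + 2 log D)/c.md ≤ 2 (2 + 2 log D)/R` (`VT.phi_low`), `pv(c.md) ≤ √R (1 + log R)`, so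
`min G (pv c.md) ≤ (1 + log R) min G √R`.  The characters of `PC D` of modulus `≤ R` are the characters of `PC R`
(embedding `Fin`; or use `PC R` with `R ≤ D` only, and for the last block `R := D`: any such device; `VT.Dy` has it).
`th_mean` with `u = ⌊(min G √R)^2 X^(2κ)⌋₊`, `t = X` and `num3` (with the real numbers `R`, `G`; `T ≤ 2X`; the bracket of
`th_mean` is increasing in `T`): the block contributes at most
`2 (2 + 2 log D) (1 + log R) C (1 + log T)^5 30 X^(1-κ)`.  All powers of `log X` are `≤ X^(κ/5)`.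
-/

namespace Pool.Agent.H67.VU

open Finset Filter Pool.Agent.H21.MT Pool.Agent.H67.VS

private theorem dy3_transport (R R' : ℕ) (f : (q : ℕ) → DirichletCharacter ℂ q → ℝ)
    (hf : ∀ q χ, 0 ≤ f q χ) (s : Finset (Ch R)) (hs : ∀ c ∈ s, c ∈ PC R ∧ c.md ≤ R') :
    ∑ c ∈ s, f (c.1.val + 1) c.2 ≤ ∑ c ∈ PC R', f (c.1.val + 1) c.2 := by
  classical
  have hlt : ∀ c : {x // x ∈ s}, c.1.1.val < R' := fun c => (hs c.1 c.2).2
  let g : {x // x ∈ s} → Ch R' := fun c => ⟨⟨c.1.1.val, hlt c⟩, c.1.2⟩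
  have hg : ∀ x ∈ s.attach, ∀ y ∈ s.attach, g x = g y → x = y := by
    rintro ⟨⟨⟨r, hr⟩, χ⟩, hx⟩ _ ⟨⟨⟨r', hr'⟩, χ'⟩, hy⟩ _ h
    have h1 : (⟨⟨r, hlt ⟨⟨⟨r, hr⟩, χ⟩, hx⟩⟩, χ⟩ : Ch R') =
        ⟨⟨r', hlt ⟨⟨⟨r', hr'⟩, χ'⟩, hy⟩⟩, χ'⟩ := h
    have h2 := congrArg (fun c : Ch R' => c.1.val) h1
    simp only at h2
    subst h2
    have h3 : χ = χ' := by
      have := (Sigma.mk.inj_iff.1 h1).2
      exact eq_of_heq this
    subst h3
    rfl
  calc ∑ c ∈ s, f (c.1.val + 1) c.2 = ∑ c ∈ s.attach, f (c.1.1.val + 1) c.1.2 :=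
        (sum_attach s fun c => f (c.1.val + 1) c.2).symm
    _ = ∑ c ∈ s.attach.image g, f (c.1.val + 1) c.2 := by
        rw [sum_image hg]
    _ ≤ ∑ c ∈ PC R', f (c.1.val + 1) c.2 := by
        refine sum_le_sum_of_subset_of_nonneg ?_ fun c _ _ => hf _ _
        intro c hc
        rw [mem_image] at hc
        obtain ⟨x, _, rfl⟩ := hc
        have h1 := (hs x.1 x.2).1
        rw [PC, mem_filter] at h1 ⊢
        exact ⟨mem_univ _, h1.2.1, h1.2.2⟩

private theorem dy3_ev (κ C : ℝ) (hκ : 0 < κ) (hC : 0 < C) : ∀ᶠ X : ℝ in atTop,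
    (2 * Real.log X + 1) * (2 * (2 + 2 * Real.log X) * (1 + Real.log X) *
      (C * (1 + Real.log (2 * X)) ^ 5) * 30) ≤ X ^ (κ / 5) := by
  have h1 := (isLittleO_log_rpow_atTop (show (0 : ℝ) < κ / 45 by positivity)).bound
    (show (0 : ℝ) < 1 by norm_num)
  have h2 := (tendsto_rpow_atTop (show (0 : ℝ) < κ / 45 by positivity)).eventually_ge_atTop
    (349920 * C)
  filter_upwards [h1, h2, eventually_ge_atTop (Real.exp 1)] with X hX1 hX2 hX3
  have hX0 : 0 < X := lt_of_lt_of_le (Real.exp_pos 1) hX3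
  have hL : 1 ≤ Real.log X := by
    rw [Real.le_log_iff_exp_le hX0]
    exact hX3
  have h3 : Real.log X ≤ X ^ (κ / 45) := by
    rw [one_mul, Real.norm_of_nonneg (by linarith),
      Real.norm_of_nonneg (Real.rpow_nonneg hX0.le _)] at hX1
    exact hX1
  have hl2 : Real.log (2 * X) ≤ 1 + Real.log X := by
    rw [Real.log_mul (by norm_num) hX0.ne']
    have := Real.log_two_lt_d9
    linarith
  have hl20 : 0 ≤ Real.log (2 * X) := by
    rw [Real.log_mul (by norm_num) hX0.ne']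
    have := Real.log_two_gt_d9
    linarith
  have e : X ^ (κ / 5) = X ^ (κ / 45) * (X ^ (κ / 45)) ^ 8 := by
    rw [← Real.rpow_natCast (X ^ (κ / 45)) 8, ← Real.rpow_mul hX0.le, ← Real.rpow_add hX0]
    congr 1
    push_cast
    ring
  rw [e]
  generalize X ^ (κ / 45) = a at *
  generalize Real.log (2 * X) = M at *
  generalize Real.log X = L at *
  have ha0 : 0 ≤ a := by linarith
  calc (2 * L + 1) * (2 * (2 + 2 * L) * (1 + L) * (C * (1 + M) ^ 5) * 30)
      ≤ (3 * L) * (2 * (4 * L) * (2 * L) * (C * (3 * L) ^ 5) * 30) := by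
        gcongr
        · linarith
        · linarith
        · linarith
        · linarith
    _ = (349920 * C) * L ^ 8 := by ring
    _ ≤ a * a ^ 8 := by gcongr

theorem dyad3 {θ κ d : ℝ} (hP : Par θ κ d) : ∀ᶠ X : ℕ in atTop, ∀ T G : ℕ,
    X ≤ T → T ≤ 2 * X → 1 ≤ G → (G : ℝ) ≤ (X : ℝ) ^ θ →
    ∑ c ∈ (PC (Dw d X)).filter (fun c => Zw θ κ X < c.md), 1 / (c.md.totient : ℝ) *
        (‖ThC X T onef c.2‖ * min (G : ℝ) (pv c.md)) ≤ (X : ℝ) ^ (1 - 4 / 5 * κ) := by
  obtain ⟨C, hC, hth⟩ := th_mean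
  have hd1 : d ≤ 1 / 2 := by
    have := hP.θ0
    have := hP.κ0
    rcases hP.up with h | ⟨h1, h2⟩ <;> linarith
  have ev : ∀ᶠ X : ℝ in atTop, _ :=
    ((num3 hP).and (dy3_ev κ C hP.κ0 hC)).and (eventually_ge_atTop (1 : ℝ))
  filter_upwards [tendsto_natCast_atTop_atTop.eventually ev] with Xn hXn
  obtain ⟨⟨hnum, hev⟩, hX1⟩ := hXn
  intro T G hT1 hT2 hG1 hGX
  obtain ⟨X, hXdef⟩ : ∃ X : ℝ, X = (Xn : ℝ) := ⟨_, rfl⟩
  rw [← hXdef] at hnum hev hX1 hGX
  rw [← hXdef]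
  have hX0 : 0 < X := by linarith
  have hL0 : 0 ≤ Real.log X := Real.log_nonneg hX1
  have hTX : (T : ℝ) ≤ 2 * X := by
    rw [hXdef]
    exact_mod_cast hT2
  have hTX1 : X ≤ (T : ℝ) := by
    rw [hXdef]
    exact_mod_cast hT1
  have hG1' : (1 : ℝ) ≤ (G : ℝ) := by exact_mod_cast hG1
  set D := Dw d X with hD
  set Z := Zw θ κ X with hZ
  have hDX : (D : ℝ) ≤ X ^ d := Nat.floor_le (Real.rpow_nonneg hX0.le _)
  have hDX' : (D : ℝ) ≤ X := by
    refine hDX.trans ?_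
    calc X ^ d ≤ X ^ (1 : ℝ) :=
          Real.rpow_le_rpow_of_exponent_le hX1 (by linarith)
      _ = X := Real.rpow_one X
  have hZX : X ^ (θ + 4 * κ) ≤ (Z : ℝ) + 1 := (Nat.lt_floor_add_one _).le
  set s := (PC D).filter (fun c => Z < c.md) with hs
  set idx : Ch D → ℕ := fun c => Nat.log 2 (c.md / (Z + 1)) with hidx
  set I : ℕ := ⌊2 * Real.log X⌋₊ + 1 with hI
  have hmdD : ∀ c : Ch D, c.md ≤ D := fun c => c.1.2
  have hq : ∀ c ∈ s, 2 ^ idx c * (Z + 1) ≤ c.md ∧ c.md < 2 ^ (idx c + 1) * (Z + 1) := by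
    intro c hc
    have h1 : Z < c.md := (mem_filter.1 hc).2
    have h2 : 0 < c.md / (Z + 1) := Nat.div_pos h1 (Nat.succ_pos Z)
    constructor
    · rw [← Nat.le_div_iff_mul_le (Nat.succ_pos Z)]
      exact Nat.pow_log_le_self 2 h2.ne'
    · rw [← Nat.div_lt_iff_lt_mul (Nat.succ_pos Z)]
      exact Nat.lt_pow_succ_log_self (by norm_num) _
  have hmaps : ∀ c ∈ s, idx c ∈ range I := by
    intro c hc
    have h1 := (hq c hc).1
    have h2 : 2 ^ idx c ≤ D := by
      calc 2 ^ idx c = 2 ^ idx c * 1 := (mul_one _).symm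
        _ ≤ 2 ^ idx c * (Z + 1) := Nat.mul_le_mul_left _ (Nat.succ_pos Z)
        _ ≤ c.md := h1
        _ ≤ D := hmdD c
    have h3 : ((2 : ℝ)) ^ idx c ≤ X := by
      calc ((2 : ℝ)) ^ idx c = ((2 ^ idx c : ℕ) : ℝ) := by push_cast; rfl
        _ ≤ (D : ℝ) := by exact_mod_cast h2
        _ ≤ X := hDX'
    have h4 : (idx c : ℝ) * Real.log 2 ≤ Real.log X := by
      rw [← Real.log_pow]
      exact Real.log_le_log (by positivity) h3
    have h5 : (idx c : ℝ) ≤ 2 * Real.log X := by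
      have := Real.log_two_gt_d9
      have h6 : (0 : ℝ) ≤ (idx c : ℝ) := Nat.cast_nonneg _
      nlinarith
    rw [mem_range, hI]
    exact Nat.lt_succ_of_le (Nat.le_floor h5)
  have hfib : ∀ i ∈ range I, ∑ c ∈ s.filter (fun c => idx c = i), 1 / (c.md.totient : ℝ) *
      (‖ThC Xn T onef c.2‖ * min (G : ℝ) (pv c.md)) ≤
      2 * (2 + 2 * Real.log X) * (1 + Real.log X) *
        (C * (1 + Real.log (2 * X)) ^ 5) * 30 * X ^ (1 - κ) := by
    intro i _
    have hlog2 : 0 ≤ Real.log (2 * X) := Real.log_nonneg (by linarith)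
    rcases (s.filter (fun c => idx c = i)).eq_empty_or_nonempty with he | ⟨c0, hc0⟩
    · rw [he, sum_empty]
      positivity
    set Ri : ℕ := 2 ^ i * (Z + 1) with hRi
    have hRi0 : 0 < Ri := by positivity
    have hRiD : Ri ≤ D := by
      have h1 := (mem_filter.1 hc0)
      have h2 := (hq c0 h1.1).1
      rw [h1.2] at h2
      exact h2.trans (hmdD c0)
    have hRi1 : (0 : ℝ) < Ri := by exact_mod_cast hRi0
    have hZRi : X ^ (θ + 4 * κ) ≤ (Ri : ℝ) := by
      refine hZX.trans ?_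
      have h1 : Z + 1 ≤ Ri := Nat.le_mul_of_pos_left _ (by positivity)
      exact_mod_cast h1
    obtain ⟨R, hRdef⟩ : ∃ R : ℝ, R = ((2 * Ri : ℕ) : ℝ) := ⟨_, rfl⟩
    have hR2 : R = 2 * (Ri : ℝ) := by rw [hRdef]; push_cast; ring
    have hR0 : 0 < R := by rw [hR2]; positivity
    have hpX : 0 < X ^ (θ + 4 * κ) := Real.rpow_pos_of_pos hX0 _
    obtain ⟨n1, n2, n3, n4, n5⟩ := hnum R (G : ℝ) (by rw [hR2]; linarith) (by
      rw [hR2]
      have : (Ri : ℝ) ≤ D := by exact_mod_cast hRiD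
      linarith) hG1' hGX
    obtain ⟨u, hu⟩ : ∃ u : ℕ, u = ⌊min (G : ℝ) (Real.sqrt R) ^ 2 * X ^ (2 * κ)⌋₊ := ⟨_, rfl⟩
    rw [← hu] at n3 n4 n5
    obtain ⟨lam, hlam⟩ : ∃ lam : ℝ, lam = min (G : ℝ) (Real.sqrt R) := ⟨_, rfl⟩
    rw [← hlam] at n5
    have hlam0 : 0 ≤ lam := by
      rw [hlam]
      exact le_min (by linarith) (Real.sqrt_nonneg _)
    have hphi : ∀ c ∈ s.filter (fun c => idx c = i),
        1 / (c.md.totient : ℝ) ≤ 2 * (2 + 2 * Real.log X) / R ∧
        min (G : ℝ) (pv c.md) ≤ (1 + Real.log X) * lam := by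
      intro c hc
      have h1 := mem_filter.1 hc
      have h2 := (hq c h1.1).1
      have h22 := (hq c h1.1).2
      rw [h1.2] at h2 h22
      have h3 : 1 ≤ c.md := Nat.succ_pos _
      have h4 := VT.phi_low c.md h3
      have h5 : (0 : ℝ) < c.md.totient := by
        exact_mod_cast Nat.totient_pos.2 h3
      have h6 : (c.md : ℝ) ≤ X := by
        calc (c.md : ℝ) ≤ (D : ℝ) := by exact_mod_cast hmdD c
          _ ≤ X := hDX'
      have h7 : Real.log c.md ≤ Real.log X :=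
        Real.log_le_log (by exact_mod_cast h3) h6
      have h70 : 0 ≤ Real.log c.md := Real.log_nonneg (by exact_mod_cast h3)
      have h8 : (Ri : ℝ) ≤ c.md := by exact_mod_cast h2
      have h9 : (c.md : ℝ) ≤ R := by
        rw [hRdef]
        have h3 : 2 ^ (i + 1) * (Z + 1) = 2 * (2 ^ i * (Z + 1)) := by ring
        have h10 : c.md ≤ 2 * Ri := by omega
        exact_mod_cast h10
      constructor
      · rw [div_le_div_iff₀ h5 hR0, one_mul, hR2]
        calc 2 * (Ri : ℝ) ≤ 2 * c.md := by linarith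
          _ ≤ 2 * ((2 + 2 * Real.log c.md) * c.md.totient) := by linarith
          _ ≤ 2 * ((2 + 2 * Real.log X) * c.md.totient) := by gcongr
          _ = _ := by ring
      · rw [hlam, mul_min_of_nonneg _ _ (by linarith)]
        apply min_le_min
        · nlinarith
        · unfold pv
          calc Real.sqrt c.md * (1 + Real.log c.md) ≤ Real.sqrt R * (1 + Real.log X) := by
                gcongr
            _ = _ := mul_comm _ _
    obtain ⟨f, hfdef⟩ : ∃ f : (q : ℕ) → DirichletCharacter ℂ q → ℝ,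
        f = fun q χ => ‖ThC Xn T onef χ‖ := ⟨_, rfl⟩
    have hf : ∀ q χ, 0 ≤ f q χ := by
      intro q χ
      rw [hfdef]
      exact norm_nonneg _
    have htr := dy3_transport D (2 * Ri) f hf (s.filter (fun c => idx c = i)) (by
      intro c hc
      have h1 := mem_filter.1 hc
      have h2 := (hq c h1.1).2
      rw [h1.2] at h2
      refine ⟨(mem_filter.1 h1.1).1, ?_⟩
      rw [hRi]
      have h3 : 2 ^ (i + 1) * (Z + 1) = 2 * (2 ^ i * (Z + 1)) := by ring
      omega)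
    have hl := hth (2 * Ri) u Xn T n3 (by
      have h1 : ((u ^ 3 : ℕ) : ℝ) ≤ (Xn : ℝ) := by
        push_cast
        rw [← hXdef]
        exact n4
      exact_mod_cast h1) hT1 (by
      have h1 : ((2 * Ri : ℕ) : ℝ) ≤ (T : ℝ) := by
        rw [← hRdef]
        linarith
      exact_mod_cast h1)
    have hl' : ∑ c ∈ PC (2 * Ri), f (c.1.val + 1) c.2 ≤ C * (1 + Real.log T) ^ 5 *
      (T + ((2 * Ri : ℕ) : ℝ) * T / Real.sqrt u + ((2 * Ri : ℕ) : ℝ) ^ 2 * Real.sqrt T +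
        ((2 * Ri : ℕ) : ℝ) ^ 2 * Real.sqrt ((2 * Ri : ℕ) : ℝ) * u) := by
      rw [hfdef]
      exact hl
    rw [← hRdef] at hl'
    have hT0 : (1 : ℝ) ≤ (T : ℝ) := by linarith
    have hlogT : 0 ≤ Real.log T := Real.log_nonneg hT0
    have hl2 : ∑ c ∈ PC (2 * Ri), f (c.1.val + 1) c.2 ≤ C * (1 + Real.log (2 * X)) ^ 5 *
      (2 * X + R * (2 * X) / Real.sqrt u + R ^ 2 * Real.sqrt (2 * X) +
        R ^ 2 * Real.sqrt R * u) := by
      refine hl'.trans ?_
      have hlogTX : Real.log T ≤ Real.log (2 * X) := Real.log_le_log (by linarith) hTX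
      gcongr
    calc ∑ c ∈ s.filter (fun c => idx c = i), 1 / (c.md.totient : ℝ) *
          (‖ThC Xn T onef c.2‖ * min (G : ℝ) (pv c.md))
        ≤ ∑ c ∈ s.filter (fun c => idx c = i),
          (2 * (2 + 2 * Real.log X) / R * ((1 + Real.log X) * lam)) *
          f (c.1.val + 1) c.2 := by
          refine sum_le_sum fun c hc => ?_
          obtain ⟨p1, p2⟩ := hphi c hc
          have h1 : f (c.1.val + 1) c.2 = ‖ThC Xn T onef c.2‖ := by rw [hfdef]
          rw [h1]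
          have hpv : 0 ≤ min (G : ℝ) (pv c.md) := by
            refine le_min (by linarith) ?_
            unfold pv
            have h3 : 1 ≤ c.md := Nat.succ_pos _
            have h70 : 0 ≤ Real.log c.md := Real.log_nonneg (by exact_mod_cast h3)
            positivity
          calc 1 / (c.md.totient : ℝ) * (‖ThC Xn T onef c.2‖ * min (G : ℝ) (pv c.md))
              ≤ 2 * (2 + 2 * Real.log X) / R * (‖ThC Xn T onef c.2‖ *
                ((1 + Real.log X) * lam)) := by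
                apply mul_le_mul p1 _ (by positivity) (by positivity)
                exact mul_le_mul_of_nonneg_left p2 (norm_nonneg _)
            _ = _ := by ring
      _ = (2 * (2 + 2 * Real.log X) / R * ((1 + Real.log X) * lam)) *
          ∑ c ∈ s.filter (fun c => idx c = i), f (c.1.val + 1) c.2 := by rw [mul_sum]
      _ ≤ (2 * (2 + 2 * Real.log X) / R * ((1 + Real.log X) * lam)) *
          (C * (1 + Real.log (2 * X)) ^ 5 *
      (2 * X + R * (2 * X) / Real.sqrt u + R ^ 2 * Real.sqrt (2 * X) +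
        R ^ 2 * Real.sqrt R * u)) := by
          refine mul_le_mul_of_nonneg_left (htr.trans hl2) (by positivity)
      _ = 2 * (2 + 2 * Real.log X) * (1 + Real.log X) *
        (C * (1 + Real.log (2 * X)) ^ 5) * (lam / R * (2 * X + R * (2 * X) / Real.sqrt u +
          R ^ 2 * Real.sqrt (2 * X) + R ^ 2 * Real.sqrt R * u)) := by ring
      _ ≤ 2 * (2 + 2 * Real.log X) * (1 + Real.log X) *
        (C * (1 + Real.log (2 * X)) ^ 5) * (30 * X ^ (1 - κ)) := by
          refine mul_le_mul_of_nonneg_left n5 (by positivity)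
      _ = _ := by ring
  have e1 : ∑ c ∈ s, 1 / (c.md.totient : ℝ) *
      (‖ThC Xn T onef c.2‖ * min (G : ℝ) (pv c.md)) =
      ∑ i ∈ range I, ∑ c ∈ s.filter (fun c => idx c = i), 1 / (c.md.totient : ℝ) *
      (‖ThC Xn T onef c.2‖ * min (G : ℝ) (pv c.md)) :=
    (sum_fiberwise_of_maps_to hmaps _).symm
  rw [e1]
  have e2 : X ^ (1 - 4 / 5 * κ) = X ^ (κ / 5) * X ^ (1 - κ) := by
    rw [← Real.rpow_add hX0]
    congr 1
    ring
  have hI2 : (I : ℝ) ≤ 2 * Real.log X + 1 := by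
    rw [hI]
    push_cast
    have := Nat.floor_le (show 0 ≤ 2 * Real.log X by positivity)
    linarith
  have hlog2 : 0 ≤ Real.log (2 * X) := Real.log_nonneg (by linarith)
  calc ∑ i ∈ range I, ∑ c ∈ s.filter (fun c => idx c = i), 1 / (c.md.totient : ℝ) *
        (‖ThC Xn T onef c.2‖ * min (G : ℝ) (pv c.md))
      ≤ ∑ i ∈ range I, 2 * (2 + 2 * Real.log X) * (1 + Real.log X) *
        (C * (1 + Real.log (2 * X)) ^ 5) * 30 * X ^ (1 - κ) := sum_le_sum hfib
    _ = I * (2 * (2 + 2 * Real.log X) * (1 + Real.log X) *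
        (C * (1 + Real.log (2 * X)) ^ 5) * 30 * X ^ (1 - κ)) := by
        rw [sum_const, card_range, nsmul_eq_mul]
    _ ≤ (2 * Real.log X + 1) * (2 * (2 + 2 * Real.log X) * (1 + Real.log X) *
        (C * (1 + Real.log (2 * X)) ^ 5) * 30 * X ^ (1 - κ)) := by
        gcongr
    _ = (2 * Real.log X + 1) * (2 * (2 + 2 * Real.log X) * (1 + Real.log X) *
        (C * (1 + Real.log (2 * X)) ^ 5) * 30) * X ^ (1 - κ) := by ring
    _ ≤ X ^ (κ / 5) * X ^ (1 - κ) := by gcongr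
    _ = X ^ (1 - 4 / 5 * κ) := e2.symm

end Pool.Agent.H67.VU
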