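import Pool.Agent.H67.VT.FinA
import Pool.Agent.H67.VU.Defs

/-!
[H67 VU FINT]  From primes with logarithmic weight to `π`, and the function `f`.

Proof.  Given `M` let `cl n = max X (min n (2X))`, `clip t = max 0 (min t G)`, `f n = log(cl n) * clip (M (cl n))` (as in
`Pool/Agent/H67/VT/Fin.lean`; its private lemmas `fin2_clip`, `fin2_term`, `fin2_mono_tv`, `fin2_log` can be copied).
* `|f| ≤ G log(2X) ≤ X^(θ+κ/8)`;  variation: `VT.clip_tv` (`T = X^(1/2)`) and `VT.prod_tv`: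
  `≤ log(2X) (G + X^(1/2)) + G log(2X) ≤ X^(1/2+κ/4)` (`G ≤ X^(1/3)`).
* termwise: with `π = #primes in (n,n+h]`, `h ≤ G ≤ X^θ`, `X < n ≤ 2X`: `0 ≤ PH h n - π log n ≤ h * h/n ≤ X^(2θ-1) ≤ X^(-1/3)`
  (`log(n+h) - log n ≤ h/n`), `|π - clip M| ≤ |π - M|` (`0 ≤ π ≤ h ≤ G`); `(a+b)^2 ≤ (1+1/η) a^2 + (1+η) b^2`:
  `(PH h n - f n)^2 ≤ (1+1/η) X^(-2/3) + (1+η) log(2X)^2 (π - M n)^2 ≤ 1 + (1+η)^2 (log X)^2 (π - M n)^2` for large `X`.
Sum over `n`.
-/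

namespace Pool.Agent.H67.VU

open Finset Filter Pool.Agent.H67.VS Pool.Agent.H67.VT

private theorem finT_log (k a κ : ℝ) (hk : 1 ≤ k) (ha : 0 < a) (hκ : 0 < κ) :
    ∀ᶠ x : ℝ in atTop, Real.log (k * x) ≤ κ * x ^ a := by
  have h1 := (isLittleO_log_rpow_atTop ha).bound (show (0 : ℝ) < κ / 2 by positivity)
  have h2 := (tendsto_rpow_atTop ha).eventually_ge_atTop (2 * Real.log k / κ)
  filter_upwards [h1, h2, eventually_ge_atTop (1 : ℝ)] with x h1 h2 hx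
  have hx0 : 0 < x := by linarith
  rw [Real.norm_eq_abs, Real.norm_eq_abs, abs_of_nonneg (Real.log_nonneg hx),
    abs_of_nonneg (Real.rpow_nonneg hx0.le _)] at h1
  rw [div_le_iff₀ hκ] at h2
  rw [Real.log_mul (by linarith) hx0.ne']
  linarith

private theorem finT_clip (p q t : ℝ) (hp0 : 0 ≤ p) (hp : p ≤ q) :
    |p - max 0 (min t q)| ≤ |p - t| := by
  rcases le_total t 0 with h | h
  · have h1 : min t q = t := min_eq_left (h.trans (hp0.trans hp))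
    rw [h1, max_eq_left h, sub_zero, abs_of_nonneg hp0, abs_of_nonneg (by linarith)]
    linarith
  · rcases le_total t q with h2 | h2
    · rw [min_eq_left h2, max_eq_right h]
    · rw [min_eq_right h2, max_eq_right (hp0.trans hp),
        abs_of_nonpos (by linarith), abs_of_nonpos (by linarith)]
      linarith

private theorem finT_mono_tv (f : ℕ → ℝ) (F : ℝ) (hf : Monotone f) (hf0 : ∀ n, 0 ≤ f n)
    (hF : ∀ n, f n ≤ F) (m n : ℕ) : ∑ k ∈ Ico m n, |f (k + 1) - f k| ≤ F := by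
  rcases Nat.lt_or_ge n m with hnm | hmn
  · rw [Ico_eq_empty_of_le hnm.le, sum_empty]
    exact (hf0 0).trans (hF 0)
  have h1 : ∑ k ∈ Ico m n, |f (k + 1) - f k| = ∑ k ∈ Ico m n, (f (k + 1) - f k) := by
    refine Finset.sum_congr rfl fun k _ => ?_
    exact abs_of_nonneg (sub_nonneg.2 (hf (Nat.le_succ k)))
  rw [h1, Finset.sum_Ico_sub f hmn]
  linarith [hf0 m, hF n]


private theorem finT_term {θ η x G : ℝ} {n h : ℕ} {Mn fn : ℝ} (hη0 : 0 < η) (hx1 : 1 ≤ x)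
    (hXn : x < n) (hn2 : (n : ℝ) ≤ 2 * x) (hhG : (h : ℝ) ≤ G) (hG : G ≤ x ^ θ)
    (hx4 : (1 + 1 / η) * x ^ (4 * θ) ≤ x ^ 2) (hfn : fn = Real.log n * max 0 (min Mn G)) :
    (PH h n - fn) ^ 2 ≤ 1 + (1 + η) * Real.log (2 * x) ^ 2 *
      ((((Finset.Ioc n (n + h)).filter Nat.Prime).card : ℝ) - Mn) ^ 2 := by
  have hx0 : 0 < x := by linarith
  have hn0 : (0 : ℝ) < n := by linarith
  have hn1 : 1 ≤ n := by
    have : 0 < n := by exact_mod_cast hn0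
    exact this
  have hlog2x : 0 ≤ Real.log (2 * x) := Real.log_nonneg (by linarith)
  obtain ⟨π, hπ⟩ : ∃ π : ℝ, π = (((Finset.Ioc n (n + h)).filter Nat.Prime).card : ℝ) :=
    ⟨_, rfl⟩
  rw [← hπ]
  have hπ0 : 0 ≤ π := by
    rw [hπ]
    exact Nat.cast_nonneg _
  have hπH : π ≤ G := by
    have h1 : ((Finset.Ioc n (n + h)).filter Nat.Prime).card ≤ h := by
      refine (Finset.card_filter_le _ _).trans ?_
      rw [Nat.card_Ioc]
      omega
    rw [hπ]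
    refine le_trans ?_ hhG
    exact_mod_cast h1
  have h1 := PH_near h n hn1
  rw [← hπ] at h1
  have h2 := finT_clip π G Mn hπ0 hπH
  have hlogn0 : 0 ≤ Real.log n := Real.log_nonneg (by linarith)
  have hlogn : Real.log n ≤ Real.log (2 * x) := Real.log_le_log hn0 hn2
  have h3 : |PH h n - fn| ≤ (h : ℝ) ^ 2 / n + Real.log (2 * x) * |π - Mn| := by
    have e : PH h n - fn = (PH h n - Real.log n * π) +
        Real.log n * (π - max 0 (min Mn G)) := by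
      rw [hfn]; ring
    rw [e]
    refine (abs_add_le _ _).trans ?_
    rw [abs_mul, abs_of_nonneg hlogn0]
    refine add_le_add h1 ?_
    exact mul_le_mul hlogn h2 (abs_nonneg _) hlog2x
  have h4 : (1 + 1 / η) * ((h : ℝ) ^ 2 / n) ^ 2 ≤ 1 := by
    have h5 : (h : ℝ) ≤ x ^ θ := hhG.trans hG
    have h6 : (h : ℝ) ^ 4 ≤ x ^ (4 * θ) := by
      calc (h : ℝ) ^ 4 ≤ (x ^ θ) ^ 4 :=
            pow_le_pow_left₀ (Nat.cast_nonneg _) h5 4
        _ = x ^ (4 * θ) := by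
            rw [← Real.rpow_natCast, ← Real.rpow_mul hx0.le]
            congr 1
            push_cast
            ring
    have h7 : (1 + 1 / η) * ((h : ℝ) ^ 2 / n) ^ 2 =
        (1 + 1 / η) * (h : ℝ) ^ 4 / (n : ℝ) ^ 2 := by
      rw [div_pow]; ring
    rw [h7, div_le_one (by positivity)]
    have h8 : x ^ 2 ≤ (n : ℝ) ^ 2 := pow_le_pow_left₀ hx0.le hXn.le 2
    have h9 : (1 + 1 / η) * (h : ℝ) ^ 4 ≤ x ^ 2 :=
      (mul_le_mul_of_nonneg_left h6 (by positivity)).trans hx4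
    linarith
  obtain ⟨a, ha⟩ : ∃ a : ℝ, a = (h : ℝ) ^ 2 / n := ⟨_, rfl⟩
  obtain ⟨b, hb⟩ : ∃ b : ℝ, b = Real.log (2 * x) * |π - Mn| := ⟨_, rfl⟩
  rw [← ha] at h3 h4
  rw [← hb] at h3
  have h5 : (PH h n - fn) ^ 2 ≤ (a + b) ^ 2 := by
    rw [← sq_abs]
    exact pow_le_pow_left₀ (abs_nonneg _) h3 2
  have h6 : (a + b) ^ 2 ≤ (1 + 1 / η) * a ^ 2 + (1 + η) * b ^ 2 := by
    have h7 : (1 + 1 / η) * a ^ 2 + (1 + η) * b ^ 2 - (a + b) ^ 2 =
        (a - η * b) ^ 2 / η := by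
      field_simp
      ring
    have h8 : 0 ≤ (a - η * b) ^ 2 / η := by positivity
    linarith
  have h7 : b ^ 2 = Real.log (2 * x) ^ 2 * (π - Mn) ^ 2 := by
    rw [hb, mul_pow, sq_abs]
  rw [h7] at h6
  linarith

private theorem finT_num (θ κ : ℝ) (hθ2 : θ < 1 / 3) (hκ : 0 < κ) :
    ∀ᶠ x : ℝ in atTop, ∀ h : ℝ, 0 ≤ h → h ≤ x ^ θ →
    Real.log (2 * x) * h ≤ x ^ (θ + κ / 8) ∧
      Real.log (2 * x) * (h + x ^ (1 / 2 : ℝ)) + h * Real.log (2 * x) ≤ x ^ (1 / 2 + κ / 4) := by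
  have h1 := finT_log 2 (κ / 8) 1 (by norm_num) (by positivity) (by norm_num)
  have h1' := finT_log 2 (κ / 4) (1 / 3) (by norm_num) (by positivity) (by norm_num)
  filter_upwards [h1, h1', eventually_ge_atTop 1] with x h1 h1' hx1
  intro h hh0 hh
  have hx0 : 0 < x := by linarith
  have hmono : ∀ a b : ℝ, a ≤ b → x ^ a ≤ x ^ b := fun a b hab =>
    Real.rpow_le_rpow_of_exponent_le hx1 hab
  have hl0 : 0 ≤ Real.log (2 * x) := Real.log_nonneg (by linarith)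
  have h4 : h ≤ x ^ (1 / 2 : ℝ) := hh.trans (hmono _ _ (by linarith))
  constructor
  · calc Real.log (2 * x) * h ≤ (1 * x ^ (κ / 8)) * x ^ θ :=
          mul_le_mul h1 hh hh0 (by positivity)
      _ = x ^ (θ + κ / 8) := by
          rw [one_mul, Real.rpow_add hx0]
          ring
  · calc Real.log (2 * x) * (h + x ^ (1 / 2 : ℝ)) + h * Real.log (2 * x)
        = Real.log (2 * x) * (2 * h + x ^ (1 / 2 : ℝ)) := by ring
      _ ≤ (1 / 3 * x ^ (κ / 4)) * (3 * x ^ (1 / 2 : ℝ)) := by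
          refine mul_le_mul h1' (by linarith) (by positivity) (by positivity)
      _ = x ^ (1 / 2 + κ / 4) := by
          rw [Real.rpow_add hx0]
          ring

private theorem finT_num3 (θ η : ℝ) (hθ2 : θ < 1 / 3) (hη : 0 < η) (hη1 : η ≤ 1) :
    ∀ᶠ x : ℝ in atTop, 1 ≤ Real.log x ∧ Real.log (2 * x) ^ 2 ≤ (1 + η) * Real.log x ^ 2 ∧
      (1 + 1 / η) * x ^ (4 * θ) ≤ x ^ 2 := by
  have h1 := Real.tendsto_log_atTop.eventually_ge_atTop (3 * Real.log 2 / η)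
  have h2 := (tendsto_rpow_atTop (show (0 : ℝ) < 1 / 2 by norm_num)).eventually_ge_atTop
    (1 + 1 / η)
  have h3 := Real.tendsto_log_atTop.eventually_ge_atTop 1
  filter_upwards [h1, h2, h3, eventually_ge_atTop 1] with x h1 h2 h3 hx1
  have hx0 : 0 < x := by linarith
  refine ⟨h3, ?_, ?_⟩
  · rw [div_le_iff₀ hη] at h1
    rw [Real.log_mul (by norm_num) hx0.ne']
    have hl2 : 0 ≤ Real.log 2 := Real.log_nonneg (by norm_num)
    have h5 : Real.log 2 + Real.log x ≤ (1 + η / 3) * Real.log x := by linarith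
    calc (Real.log 2 + Real.log x) ^ 2 ≤ ((1 + η / 3) * Real.log x) ^ 2 :=
          pow_le_pow_left₀ (by linarith) h5 2
      _ = (1 + η / 3) ^ 2 * Real.log x ^ 2 := by ring
      _ ≤ (1 + η) * Real.log x ^ 2 := by
          refine mul_le_mul_of_nonneg_right ?_ (sq_nonneg _)
          nlinarith
  · have h5 : x ^ (4 * θ) ≤ x ^ (3 / 2 : ℝ) :=
      Real.rpow_le_rpow_of_exponent_le hx1 (by linarith)
    calc (1 + 1 / η) * x ^ (4 * θ) ≤ x ^ (1 / 2 : ℝ) * x ^ (3 / 2 : ℝ) :=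
          mul_le_mul h2 h5 (by positivity) (by positivity)
      _ = x ^ 2 := by
          rw [← Real.rpow_add hx0, ← Real.rpow_natCast]
          congr 1
          norm_num

theorem fin_f {θ κ η : ℝ} (hθ : 0 < θ) (hθ2 : θ < 1 / 3) (hκ : 0 < κ) (hη : 0 < η) (hη1 : η ≤ 1) :
    ∀ᶠ X : ℕ in atTop, ∀ H : ℕ → ℕ, MonotoneOn H (Set.Icc X (2 * X)) →
    (H (2 * X) : ℝ) ≤ (X : ℝ) ^ θ → ∀ M : ℕ → ℝ,
    (MonotoneOn M (Set.Icc X (2 * X)) ∨ AntitoneOn M (Set.Icc X (2 * X)) ∨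
      ∑ n ∈ Ico X (2 * X), |M (n + 1) - M n| ≤ (X : ℝ) ^ (1 / 2 : ℝ)) →
    ∃ f : ℕ → ℝ, (∀ n, |f n| ≤ (X : ℝ) ^ (θ + κ / 8)) ∧
      (∀ m n : ℕ, ∑ k ∈ Ico m n, |f (k + 1) - f k| ≤ (X : ℝ) ^ (1 / 2 + κ / 4)) ∧
      ∑ n ∈ Ioc X (2 * X), (PH (H n) n - f n) ^ 2 ≤ X + (1 + η) ^ 2 * Real.log X ^ 2 *
        ∑ n ∈ Ioc X (2 * X), ((((Ioc n (n + H n)).filter Nat.Prime).card : ℝ) - M n) ^ 2 := by
  have _h := hθ
  have hnat := tendsto_natCast_atTop_atTop (R := ℝ)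
  filter_upwards [hnat.eventually (finT_num θ κ hθ2 hκ), hnat.eventually (finT_num3 θ η hθ2 hη hη1),
    eventually_ge_atTop 10] with X hn2X hn3X hX10
  intro H hH hH3 M hM
  obtain ⟨x, hx⟩ : ∃ x : ℝ, x = (X : ℝ) := ⟨_, rfl⟩
  rw [← hx] at hn2X hn3X
  have hx10 : (10 : ℝ) ≤ x := by rw [hx]; exact_mod_cast hX10
  have hx0 : 0 < x := by linarith
  obtain ⟨hlogpos, hlog2, hx4⟩ := hn3X
  -- the clipped function
  obtain ⟨G, hG⟩ : ∃ G : ℝ, G = (H (2 * X) : ℝ) := ⟨_, rfl⟩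
  rw [← hG] at hH3
  have hG0 : 0 ≤ G := by
    rw [hG]
    exact Nat.cast_nonneg _
  rw [← hx] at hH3
  have hclmem : ∀ n : ℕ, max X (min n (2 * X)) ∈ Set.Icc X (2 * X) := by
    intro n
    refine ⟨le_max_left _ _, max_le (by omega) (min_le_right _ _)⟩
  have hclid : ∀ n ∈ Ioc X (2 * X), max X (min n (2 * X)) = n := by
    intro n hn
    rw [mem_Ioc] at hn
    rw [min_eq_left hn.2, max_eq_right hn.1.le]
  obtain ⟨fl, hfl⟩ : ∃ fl : ℕ → ℝ, ∀ n, fl n =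
      Real.log ((max X (min n (2 * X)) : ℕ) : ℝ) := ⟨_, fun _ => rfl⟩
  obtain ⟨fg, hfg⟩ : ∃ fg : ℕ → ℝ, ∀ n, fg n =
      max 0 (min (M (max X (min n (2 * X)))) G) := ⟨_, fun _ => rfl⟩
  have hclx : ∀ n : ℕ, x ≤ ((max X (min n (2 * X)) : ℕ) : ℝ) ∧
      ((max X (min n (2 * X)) : ℕ) : ℝ) ≤ 2 * x := by
    intro n
    obtain ⟨h1, h2⟩ := hclmem n
    constructor
    · rw [hx]; exact_mod_cast h1
    · rw [hx]; exact_mod_cast h2
  have hflmono : Monotone fl := by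
    intro m n hmn
    rw [hfl, hfl]
    apply Real.log_le_log
    · exact lt_of_lt_of_le hx0 (hclx m).1
    · have h1 : max X (min m (2 * X)) ≤ max X (min n (2 * X)) :=
        max_le_max le_rfl (min_le_min hmn le_rfl)
      exact_mod_cast h1
  have hfl0 : ∀ n, 0 ≤ fl n := fun n => by
    rw [hfl]
    exact Real.log_nonneg (by linarith [(hclx n).1])
  have hflF : ∀ n, fl n ≤ Real.log (2 * x) := fun n => by
    rw [hfl]
    exact Real.log_le_log (lt_of_lt_of_le hx0 (hclx n).1) (hclx n).2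
  have hfg0 : ∀ n, 0 ≤ fg n := fun n => by
    rw [hfg]
    exact le_max_left _ _
  have hfgG : ∀ n, fg n ≤ G := fun n => by
    rw [hfg]
    exact max_le hG0 (min_le_right _ _)
  have hlog2x : 0 ≤ Real.log (2 * x) := Real.log_nonneg (by linarith)
  obtain ⟨hFG1, hFG2⟩ := hn2X G hG0 hH3
  obtain ⟨f, hf⟩ : ∃ f : ℕ → ℝ, ∀ n, f n = fl n * fg n := ⟨_, fun _ => rfl⟩
  have hfbd : ∀ n, |f n| ≤ x ^ (θ + κ / 8) := by
    intro n
    rw [hf, abs_of_nonneg (mul_nonneg (hfl0 n) (hfg0 n))]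
    exact (mul_le_mul (hflF n) (hfgG n) (hfg0 n) hlog2x).trans hFG1
  have hftv : ∀ m n : ℕ, ∑ k ∈ Ico m n, |f (k + 1) - f k| ≤ x ^ (1 / 2 + κ / 4) := by
    intro m n
    have h1 := finT_mono_tv fl (Real.log (2 * x)) hflmono hfl0 hflF m n
    have hT : 0 ≤ (X : ℝ) ^ (1 / 2 : ℝ) := by positivity
    have h2 := clip_tv X M G ((X : ℝ) ^ (1 / 2 : ℝ)) hG0 hT hM m n
    have h3 : ∑ k ∈ Ico m n, |fg (k + 1) - fg k| ≤ G + x ^ (1 / 2 : ℝ) := by
      rw [hx]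
      refine le_trans (le_of_eq ?_) h2
      refine Finset.sum_congr rfl fun k _ => ?_
      rw [hfg, hfg]
    have h4 := prod_tv fl fg (Real.log (2 * x)) G (Real.log (2 * x)) (G + x ^ (1 / 2 : ℝ))
      (fun n => by rw [abs_of_nonneg (hfl0 n)]; exact hflF n)
      (fun n => by rw [abs_of_nonneg (hfg0 n)]; exact hfgG n) m n h1 h3
    refine le_trans (le_of_eq ?_) (h4.trans hFG2)
    refine Finset.sum_congr rfl fun k _ => ?_
    rw [hf, hf]
  rw [← hx]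
  refine ⟨f, hfbd, hftv, ?_⟩
  obtain ⟨S, hS⟩ : ∃ S : ℝ, S = ∑ n ∈ Finset.Ioc X (2 * X),
      ((((Finset.Ioc n (n + H n)).filter Nat.Prime).card : ℝ) - M n) ^ 2 := ⟨_, rfl⟩
  rw [← hS]
  obtain ⟨u, hu⟩ : ∃ u : ℝ, u = Real.log x := ⟨_, rfl⟩
  rw [← hu] at hlogpos hlog2 ⊢
  have hterm : ∀ n ∈ Ioc X (2 * X), (PH (H n) n - f n) ^ 2 ≤
      1 + (1 + η) * Real.log (2 * x) ^ 2 *
        ((((Finset.Ioc n (n + H n)).filter Nat.Prime).card : ℝ) - M n) ^ 2 := by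
    intro n hn
    have hn' := mem_Ioc.1 hn
    have hXn : x < n := by rw [hx]; exact_mod_cast hn'.1
    have hn2 : (n : ℝ) ≤ 2 * x := by rw [hx]; exact_mod_cast hn'.2
    have hnIcc : n ∈ Set.Icc X (2 * X) := ⟨hn'.1.le, hn'.2⟩
    have hHn : H n ≤ H (2 * X) := hH hnIcc ⟨by omega, le_rfl⟩ hn'.2
    have hfn : f n = Real.log n * max 0 (min (M n) G) := by
      rw [hf, hfl, hfg, hclid n hn]
    refine finT_term hη (by linarith) hXn hn2 ?_ hH3 hx4 hfn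
    rw [hG]
    exact_mod_cast hHn
  have hT3 : ∑ n ∈ Ioc X (2 * X), (PH (H n) n - f n) ^ 2 ≤
      x + (1 + η) * Real.log (2 * x) ^ 2 * S := by
    rw [hS]
    refine (Finset.sum_le_sum hterm).trans ?_
    rw [Finset.sum_add_distrib, Finset.sum_const, Nat.card_Ioc, nsmul_eq_mul, ← Finset.mul_sum]
    have h1 : ((2 * X - X : ℕ) : ℝ) * 1 = x := by
      have : 2 * X - X = X := by omega
      rw [this, ← hx, mul_one]
    rw [h1]
  have hS0' : 0 ≤ S := by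
    rw [hS]
    exact Finset.sum_nonneg fun n _ => sq_nonneg _
  have h1 : (1 + η) * Real.log (2 * x) ^ 2 * S ≤ (1 + η) * ((1 + η) * u ^ 2) * S := by
    refine mul_le_mul_of_nonneg_right ?_ hS0'
    exact mul_le_mul_of_nonneg_left hlog2 (by linarith)
  calc _ ≤ _ := hT3
    _ ≤ x + (1 + η) * ((1 + η) * u ^ 2) * S := by linarith
    _ = _ := by ring

end Pool.Agent.H67.VU
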