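import Pool.Agent.H67.VT.SumB
import Pool.Agent.H67.VU.Defs

/-!
[H67 VU SUMC]  The main constant.

Proofs.  (The private lemmas `smb_log_ge`, `smb_log_le` of `Pool/Agent/H67/VT/SumB.lean` can be copied.)
* `Sw_small`: `VT.sum_lower` (constant `C0`) with `Z = ⌊X^(θ+4κ)⌋`, `D = ⌊X^d⌋`, `κ = θ/10`, `d = 1/2 - 14θ/10`:
  `Sw ≥ d log X - log 2 - C0 (14/10) θ log X ≥ (1/2 - (2 + 2 C0) θ) log X` for large `X`.
* `Sw_pos`: for a prime `q` in `(X^(θ+5κ), X^(θ+6κ)]` (a subset of `Qw`: `θ + 6κ ≤ d`) every squarefree `m ≤ X^κ` lies in `MM D q`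
  (`m q ≤ X^(θ+7κ) ≤ D` for large `X`, `p ≤ m ≤ X^κ < q`), so `sv D q ≥ ∑_{m ≤ X^κ squarefree} 1/φ(m) ≥ log ⌊X^κ⌋ ≥ (κ/2) log X`
  (`VS.sel_log`, as in `VT/SumB.lean`), and `∑_{X^(θ+5κ) < q ≤ X^(θ+6κ)} 1/(q-1) ≥ c1 > 0` for large `X`: by Mertens' first theorem
  `∑_{a < p ≤ b} log p/p ≥ log(b/a) - 2C` (see `VS.sq_lower` in `Pool/Agent/H67/VS/Sqb.lean`, or `smb_primes` in `VT/SumB.lean` and the
  sources used there), so `∑ 1/q ≥ (κ log X - 2C)/((θ+6κ) log X) ≥ κ/(2(θ+6κ))`.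
-/

namespace Pool.Agent.H67.VU

open Finset Filter Pool.Agent.H67.VS Pool.Agent.H67.VT

private theorem smc_log_ge (X a : ℝ) (hX : 1 ≤ X) (ha : 0 ≤ a) :
    a * Real.log X - Real.log 2 ≤ Real.log (⌊X ^ a⌋₊ : ℝ) := by
  have hX0 : 0 < X := by linarith
  have h1 : 1 ≤ X ^ a := Real.one_le_rpow hX ha
  have h2 : X ^ a / 2 ≤ (⌊X ^ a⌋₊ : ℝ) := by
    have h3 := Nat.lt_floor_add_one (X ^ a)
    have h4 : (1 : ℝ) ≤ (⌊X ^ a⌋₊ : ℝ) := by exact_mod_cast Nat.le_floor (by simpa using h1)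
    linarith
  have h4 : a * Real.log X - Real.log 2 = Real.log (X ^ a / 2) := by
    rw [Real.log_div (by positivity) (by norm_num), Real.log_rpow hX0]
  rw [h4]
  exact Real.log_le_log (by positivity) h2

private theorem smc_log_le (X a : ℝ) (hX : 1 ≤ X) (ha : 0 ≤ a) :
    Real.log (⌊X ^ a⌋₊ : ℝ) ≤ a * Real.log X := by
  have hX0 : 0 < X := by linarith
  have h1 : 1 ≤ X ^ a := Real.one_le_rpow hX ha
  rw [← Real.log_rpow hX0]
  have h2 : (1 : ℝ) ≤ (⌊X ^ a⌋₊ : ℝ) := by exact_mod_cast Nat.le_floor (by simpa using h1)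
  exact Real.log_le_log (by linarith) (Nat.floor_le (by positivity))

private theorem smc_primes (X a κ : ℝ) (hX : 1 ≤ X) (ha : 0 < a) (hκ : 0 < κ)
    (hL : 16 ≤ κ * Real.log X) :
    κ / (2 * (a + κ)) ≤ ∑ q ∈ (Ioc ⌊X ^ a⌋₊ ⌊X ^ (a + κ)⌋₊).filter Nat.Prime,
      1 / ((q : ℝ) - 1) := by
  have hla := smc_log_le X a hX ha.le
  have hlb := smc_log_le X (a + κ) hX (by positivity)
  have hlb' := smc_log_ge X (a + κ) hX (by positivity)
  have hpa : 1 ≤ X ^ a := Real.one_le_rpow hX ha.le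
  have hab' : X ^ a ≤ X ^ (a + κ) :=
    Real.rpow_le_rpow_of_exponent_le hX (by linarith)
  have ha1 : 1 ≤ ⌊X ^ a⌋₊ := Nat.le_floor (by simpa using hpa)
  have hab : ⌊X ^ a⌋₊ ≤ ⌊X ^ (a + κ)⌋₊ := Nat.floor_le_floor hab'
  have hsum := sqb_sum _ _ ha1 hab
  obtain ⟨u, hu⟩ : ∃ u : ℕ, u = ⌊X ^ a⌋₊ := ⟨_, rfl⟩
  obtain ⟨v, hv⟩ : ∃ v : ℕ, v = ⌊X ^ (a + κ)⌋₊ := ⟨_, rfl⟩
  rw [← hu] at hla ha1 hab hsum ⊢
  rw [← hv] at hlb hlb' hab hsum ⊢
  have hL0 : 0 < Real.log X := by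
    by_contra hcon
    have : κ * Real.log X ≤ 0 := mul_nonpos_of_nonneg_of_nonpos hκ.le (by linarith)
    linarith
  have hlog2 : Real.log 2 < 1 := by
    have := Real.log_two_lt_d9
    linarith
  have hlog4 : Real.log 4 < 2 := by
    have h1 : (4 : ℝ) = 2 ^ 2 := by norm_num
    rw [h1, Real.log_pow]
    push_cast
    linarith
  have haL : 0 < a * Real.log X := by positivity
  have hlbpos : 0 < Real.log v := by
    have h1 : (a + κ) * Real.log X = a * Real.log X + κ * Real.log X := by ring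
    linarith
  have hterm : ∀ q ∈ (Ioc u v).filter Nat.Prime,
      Real.log q / q / Real.log v ≤ 1 / ((q : ℝ) - 1) := by
    intro q hq
    rw [Finset.mem_filter, Finset.mem_Ioc] at hq
    have hq2 : (2 : ℝ) ≤ q := by exact_mod_cast hq.2.two_le
    have hqb : Real.log q ≤ Real.log v :=
      Real.log_le_log (by linarith) (by exact_mod_cast hq.1.2)
    rw [div_div, div_le_div_iff₀ (by positivity) (by linarith)]
    have hlq : 0 ≤ Real.log q := Real.log_nonneg (by linarith)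
    nlinarith
  have h1 : (∑ q ∈ (Ioc u v).filter Nat.Prime, Real.log q / q) / Real.log v ≤
      ∑ q ∈ (Ioc u v).filter Nat.Prime, 1 / ((q : ℝ) - 1) := by
    rw [Finset.sum_div]
    exact Finset.sum_le_sum hterm
  refine le_trans ?_ h1
  rw [le_div_iff₀ hlbpos]
  refine le_trans ?_ hsum
  have h2 : κ / (2 * (a + κ)) * Real.log v ≤ κ / (2 * (a + κ)) * ((a + κ) * Real.log X) :=
    mul_le_mul_of_nonneg_left hlb (by positivity)
  have h3 : κ / (2 * (a + κ)) * ((a + κ) * Real.log X) = κ * Real.log X / 2 := by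
    field_simp
  have h4 : (a + κ) * Real.log X = a * Real.log X + κ * Real.log X := by ring
  linarith

private theorem smc_sv (X θ κ d : ℝ) (hP : Par θ κ d) (hX : 1 ≤ X)
    (hL : 16 ≤ κ * Real.log X) (q : ℕ)
    (hq : q ∈ (Ioc ⌊X ^ (θ + 5 * κ)⌋₊ ⌊X ^ (θ + 5 * κ + κ)⌋₊).filter Nat.Prime) :
    κ / 2 * Real.log X ≤ sv (Dw d X) q := by
  have hXpos : 0 < X := by linarith
  have hκ := hP.κ0
  have hθ := hP.θ0
  have hlow := hP.low
  have hlog2 : Real.log 2 < 1 := by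
    have := Real.log_two_lt_d9
    linarith
  rw [mem_filter, mem_Ioc] at hq
  have h1 := smc_log_ge X κ hX hκ.le
  obtain ⟨L, hLd⟩ : ∃ L : ℕ, L = ⌊X ^ κ⌋₊ := ⟨_, rfl⟩
  rw [← hLd] at h1
  have hL2 : 2 ≤ L := by
    by_contra hcon
    have h2 : (L : ℝ) ≤ 1 := by exact_mod_cast (by omega : L ≤ 1)
    have h3 : Real.log L ≤ 0 := Real.log_nonpos (by positivity) h2
    linarith
  have h2 := sel_log L hL2
  have h3 : ∑ m ∈ Icc 1 L, sel_g m ≤ sv (Dw d X) q := by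
    unfold sv
    have h4 : ∑ m ∈ Icc 1 L, sel_g m = ∑ m ∈ (Icc 1 L).filter (fun m => Squarefree m),
        1 / (m.totient : ℝ) := by
      rw [Finset.sum_filter]
      rfl
    rw [h4]
    refine Finset.sum_le_sum_of_subset_of_nonneg (fun m hm => ?_) fun m _ _ => by positivity
    rw [mem_filter, mem_Icc] at hm
    unfold MM DD
    rw [mem_filter, mem_filter, mem_Icc]
    have hmL : (m : ℝ) ≤ X ^ κ := by
      have h5 : (m : ℝ) ≤ L := by exact_mod_cast hm.1.2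
      rw [hLd] at h5
      exact h5.trans (Nat.floor_le (by positivity))
    have hqX : (q : ℝ) ≤ X ^ (θ + 5 * κ + κ) := by
      have h5 : (q : ℝ) ≤ (⌊X ^ (θ + 5 * κ + κ)⌋₊ : ℝ) := by exact_mod_cast hq.1.2
      exact h5.trans (Nat.floor_le (by positivity))
    refine ⟨⟨⟨hm.1.1, ?_⟩, fun p hp => ?_⟩, hm.2⟩
    · rw [Nat.le_div_iff_mul_le hq.2.pos]
      unfold Dw
      apply Nat.le_floor
      push_cast
      calc (m : ℝ) * q ≤ X ^ κ * X ^ (θ + 5 * κ + κ) :=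
            mul_le_mul hmL hqX (by positivity) (by positivity)
        _ = X ^ (κ + (θ + 5 * κ + κ)) := (Real.rpow_add hXpos _ _).symm
        _ ≤ X ^ d := Real.rpow_le_rpow_of_exponent_le hX (by linarith)
    · have h5 : p ≤ m := Nat.le_of_mem_primeFactors hp
      have h6 : L ≤ ⌊X ^ (θ + 5 * κ)⌋₊ := by
        rw [hLd]
        exact Nat.floor_le_floor (Real.rpow_le_rpow_of_exponent_le hX (by linarith))
      exact lt_of_le_of_lt ((h5.trans hm.1.2).trans h6) hq.1.1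
  linarith

theorem Sw_pos {θ κ d : ℝ} (hP : Par θ κ d) :
    ∃ c : ℝ, 0 < c ∧ ∀ᶠ X : ℝ in atTop, c * Real.log X ≤ Sw θ κ d X := by
  have hκ := hP.κ0
  have hθ := hP.θ0
  have hlow := hP.low
  have ha : 0 < θ + 5 * κ := by positivity
  refine ⟨κ / 2 * (κ / (2 * (θ + 5 * κ + κ))), by positivity, ?_⟩
  filter_upwards [eventually_ge_atTop (1 : ℝ),
    (Real.tendsto_log_atTop.const_mul_atTop hκ).eventually_ge_atTop 16] with X hX1 hL
  have hX0 : 0 < X := by linarith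
  have hlog0 : 0 ≤ Real.log X := Real.log_nonneg hX1
  have hsub : (Ioc ⌊X ^ (θ + 5 * κ)⌋₊ ⌊X ^ (θ + 5 * κ + κ)⌋₊).filter Nat.Prime ⊆
      Qw θ κ d X := by
    intro q hq
    rw [mem_filter, mem_Ioc] at hq
    unfold Qw
    rw [mem_filter, mem_Ioc]
    refine ⟨⟨lt_of_le_of_lt ?_ hq.1.1, hq.1.2.trans ?_⟩, hq.2⟩
    · unfold Zw
      exact Nat.floor_le_floor (Real.rpow_le_rpow_of_exponent_le hX1 (by linarith))
    · unfold Dw
      exact Nat.floor_le_floor (Real.rpow_le_rpow_of_exponent_le hX1 (by linarith))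
  have hnn : ∀ q ∈ Qw θ κ d X, 0 ≤ sv (Dw d X) q / ((q : ℝ) - 1) := by
    intro q hq
    unfold Qw at hq
    rw [mem_filter] at hq
    have h2 : (2 : ℝ) ≤ q := by exact_mod_cast hq.2.two_le
    refine div_nonneg (Finset.sum_nonneg fun m _ => by positivity) (by linarith)
  calc κ / 2 * (κ / (2 * (θ + 5 * κ + κ))) * Real.log X
      = (κ / 2 * Real.log X) * (κ / (2 * (θ + 5 * κ + κ))) := by ring
    _ ≤ (κ / 2 * Real.log X) *
        ∑ q ∈ (Ioc ⌊X ^ (θ + 5 * κ)⌋₊ ⌊X ^ (θ + 5 * κ + κ)⌋₊).filter Nat.Prime,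
          1 / ((q : ℝ) - 1) :=
        mul_le_mul_of_nonneg_left (smc_primes X (θ + 5 * κ) κ hX1 ha hκ hL) (by positivity)
    _ = ∑ q ∈ (Ioc ⌊X ^ (θ + 5 * κ)⌋₊ ⌊X ^ (θ + 5 * κ + κ)⌋₊).filter Nat.Prime,
          (κ / 2 * Real.log X) / ((q : ℝ) - 1) := by
        rw [Finset.mul_sum]
        exact Finset.sum_congr rfl fun q _ => by rw [mul_one_div]
    _ ≤ ∑ q ∈ (Ioc ⌊X ^ (θ + 5 * κ)⌋₊ ⌊X ^ (θ + 5 * κ + κ)⌋₊).filter Nat.Prime,
          sv (Dw d X) q / ((q : ℝ) - 1) := by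
        refine Finset.sum_le_sum fun q hq => ?_
        have h2 : (2 : ℝ) ≤ q := by exact_mod_cast (mem_filter.1 hq).2.two_le
        exact div_le_div_of_nonneg_right (smc_sv X θ κ d hP hX1 hL q hq) (by linarith)
    _ ≤ Sw θ κ d X := Finset.sum_le_sum_of_subset_of_nonneg hsub fun q hq _ => hnn q hq

theorem Sw_small : ∃ C : ℝ, 0 < C ∧ ∀ θ : ℝ, 0 < θ → θ ≤ 1 / 20 →
    ∀ᶠ X : ℝ in atTop, (1 / 2 - C * θ) * Real.log X ≤
      Sw θ (θ / 10) (1 / 2 - θ - 4 * (θ / 10)) X := by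
  obtain ⟨C0, hC0, hsum⟩ := sum_lower
  refine ⟨2 + 2 * C0, by positivity, fun θ hθ hθ2 => ?_⟩
  have hZt : Tendsto (fun X : ℝ => X ^ (θ + 4 * (θ / 10))) atTop atTop :=
    tendsto_rpow_atTop (by positivity)
  filter_upwards [eventually_ge_atTop (1 : ℝ), hZt.eventually_ge_atTop 2,
    (Real.tendsto_log_atTop.const_mul_atTop hθ).eventually_ge_atTop (2 * Real.log 2)]
    with X hX1 hX2 hX3
  have hX0 : 0 < X := by linarith
  have hlog0 : 0 ≤ Real.log X := Real.log_nonneg hX1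
  have hZ2 : 2 ≤ Zw θ (θ / 10) X := by
    unfold Zw
    exact Nat.le_floor (by exact_mod_cast hX2)
  have hZD : Zw θ (θ / 10) X ≤ Dw (1 / 2 - θ - 4 * (θ / 10)) X := by
    unfold Zw Dw
    exact Nat.floor_le_floor (Real.rpow_le_rpow_of_exponent_le hX1 (by linarith))
  have h1 := hsum (Zw θ (θ / 10) X) (Dw (1 / 2 - θ - 4 * (θ / 10)) X) hZ2 hZD
  have h2 : (1 / 2 - θ - 4 * (θ / 10)) * Real.log X - Real.log 2 ≤
      Real.log (Dw (1 / 2 - θ - 4 * (θ / 10)) X) :=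
    smc_log_ge X _ hX1 (by linarith)
  have h3 : Real.log (Zw θ (θ / 10) X) ≤ (θ + 4 * (θ / 10)) * Real.log X :=
    smc_log_le X _ hX1 (by linarith)
  have h4 : C0 * Real.log (Zw θ (θ / 10) X) ≤ C0 * ((θ + 4 * (θ / 10)) * Real.log X) :=
    mul_le_mul_of_nonneg_left h3 hC0.le
  have h5 : Sw θ (θ / 10) (1 / 2 - θ - 4 * (θ / 10)) X =
    SS (sv (Dw (1 / 2 - θ - 4 * (θ / 10)) X))
      ((Ioc (Zw θ (θ / 10) X) (Dw (1 / 2 - θ - 4 * (θ / 10)) X)).filter Nat.Prime) := rfl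
  rw [h5]
  refine le_trans ?_ h1
  have h6 : 0 ≤ θ * Real.log X := by positivity
  have h7 : 0 ≤ C0 * (θ * Real.log X) := by positivity
  have e1 : (1 / 2 - (2 + 2 * C0) * θ) * Real.log X =
    1 / 2 * Real.log X - 2 * (θ * Real.log X) - 2 * (C0 * (θ * Real.log X)) := by ring
  have e2 : (1 / 2 - θ - 4 * (θ / 10)) * Real.log X =
    1 / 2 * Real.log X - 14 / 10 * (θ * Real.log X) := by ring
  have e3 : C0 * ((θ + 4 * (θ / 10)) * Real.log X) = 14 / 10 * (C0 * (θ * Real.log X)) := by ring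
  rw [e1]
  rw [e2] at h2
  rw [e3] at h4
  linarith

end Pool.Agent.H67.VU
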