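import Pool.Agent.H67.VU.Main3
import Pool.Agent.H67.VU.SumC
import Pool.Agent.H67.VU.Pnt3
import Pool.Agent.H67.VU.FinT

/-!
[H67 VU FIN3]  Final assembly.

Proof of `fin3a`.  Let `X` be large, `S = Sw θ κ d X ≥ c1 log X`, `Vp = ∑ (π - M)^2`, `f` from `fin_f`, `V = ∑ (PH - f)^2 ≤ X + (1+η)^2 (log X)^2 Vp`.
Let `(lam, om, Y, M0)` be `(lamA H X, omA H X, H X, X * H X)` resp. `(1, 1, H (2X), ∑ H n)`.  In both cases `FW` (`fwA`, `fwB`), the bounds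
of `O0`, `O1`, `O2` needed in `main3` hold (`log G ≤ log X`), `∑ lam (H pl) ≥ (1-η) M0` (`lamA_one`, `pntA`; `pntB`), `∑ lam^2 H ≤ M0` (`lamA_two`;
equality), and `Y X^(1-κ/4) ≤ η S M0` (as `Y X ≤ M0` resp. `≤ K M0`, `S ≥ 1`).  So `main3` gives
`(1-2η)^2 S^2 M0^2 ≤ V (1+3η) S M0`, i.e. `V ≥ (1 - 7η) S M0` (`η ≤ 1/20`; `M0 > 0`).  `X ≤ M0 ≤ η S M0`.
Hence `(1+η)^2 (log X)^2 Vp ≥ (1 - 8η) S M0 ≥ (1-8η) c1 log X M0`, and `(1-8η)/(1+η)^2 ≥ 1 - 12η`.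
Proof of `final3`.  `C1` from `Sw_small`, `C = max 10 (C1 + 1)`.  Given `Θ`: `κ = (1/3-Θ)/20`, `d = 1/3 - 4κ` satisfy `Par Θ κ d`, `Sw_pos`
gives `c1`, `c = c1/2` (`η = 1/24` in `fin3a`); the hypothesis `H(2X) ≤ X^θ` implies `H(2X) ≤ X^Θ`.  If `θ ≤ 1/20` and `1/2 - Cθ > 0` then
`Par θ (θ/10) (1/2 - θ - 4(θ/10))` holds (`θ + 10κ = 2θ`, `θ ≤ 1/6 - θ/5`), `fin3a` with `c1 = 1/2 - C1 θ`, `η = θ/100`:
`(1 - 12η)(1/2 - C1 θ) ≥ 1/2 - C θ`.  If `θ > 1/20` then `1/2 - Cθ < 0`.  `max`: both inequalities hold for large `X`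
(the right sides are the same, `M0/log X ≥ 0`).
-/

namespace Pool.Agent.H67.VU

open Finset Filter Pool.Agent.H67.VS Pool.Agent.H67.VT

private theorem fin3_core {x L S η M0 E Vp V A1 A2 c1 : ℝ} (hη : 0 < η) (hη1 : η ≤ 1 / 20)
    (hL : 0 < L) (hc1 : 0 < c1) (hS : 0 < S) (hM0 : 0 < M0) (hV : 0 ≤ V)
    (hmain : (max 0 (S * A1 - E)) ^ 2 ≤ V * ((1 + 2 * η) * (S * A2) + E))
    (hA1 : (1 - η) * M0 ≤ A1) (hA2 : A2 ≤ M0) (hE : E ≤ η * (S * M0))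
    (hVx : V ≤ x + (1 + η) ^ 2 * L ^ 2 * Vp) (hx : x ≤ η * (S * M0)) (hcS : c1 * L ≤ S) :
    (1 - 12 * η) * c1 * M0 / L ≤ Vp := by
  have hSM : 0 < S * M0 := mul_pos hS hM0
  have h1 : (1 - 2 * η) * (S * M0) ≤ max 0 (S * A1 - E) := by
    refine le_trans ?_ (le_max_right _ _)
    have := mul_le_mul_of_nonneg_left hA1 hS.le
    nlinarith
  have h2 : ((1 - 2 * η) * (S * M0)) ^ 2 ≤ V * ((1 + 3 * η) * (S * M0)) := by
    calc ((1 - 2 * η) * (S * M0)) ^ 2 ≤ (max 0 (S * A1 - E)) ^ 2 :=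
          pow_le_pow_left₀ (mul_nonneg (by linarith) hSM.le) h1 2
      _ ≤ V * ((1 + 2 * η) * (S * A2) + E) := hmain
      _ ≤ V * ((1 + 3 * η) * (S * M0)) := by
          refine mul_le_mul_of_nonneg_left ?_ hV
          have h3 : (1 + 2 * η) * (S * A2) ≤ (1 + 2 * η) * (S * M0) :=
            mul_le_mul_of_nonneg_left (mul_le_mul_of_nonneg_left hA2 hS.le) (by linarith)
          linarith
  have h3 : (1 - 2 * η) ^ 2 * (S * M0) ≤ (1 + 3 * η) * V := by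
    refine le_of_mul_le_mul_right ?_ hSM
    calc (1 - 2 * η) ^ 2 * (S * M0) * (S * M0) = ((1 - 2 * η) * (S * M0)) ^ 2 := by ring
      _ ≤ _ := h2
      _ = _ := by ring
  have h4 : (1 - 7 * η) * (S * M0) ≤ V := by
    have h5 : (1 + 3 * η) * ((1 - 7 * η) * (S * M0)) ≤ (1 + 3 * η) * V := by
      refine le_trans ?_ h3
      have : (1 + 3 * η) * (1 - 7 * η) ≤ (1 - 2 * η) ^ 2 := by nlinarith
      calc (1 + 3 * η) * ((1 - 7 * η) * (S * M0)) = ((1 + 3 * η) * (1 - 7 * η)) * (S * M0) := by ring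
        _ ≤ _ := mul_le_mul_of_nonneg_right this hSM.le
    exact le_of_mul_le_mul_left h5 (by linarith)
  have h5 : (1 - 8 * η) * (S * M0) ≤ (1 + η) ^ 2 * L ^ 2 * Vp := by linarith
  have h6 : (1 - 8 * η) * (c1 * L * M0) ≤ (1 + η) ^ 2 * L ^ 2 * Vp := by
    refine le_trans ?_ h5
    exact mul_le_mul_of_nonneg_left (mul_le_mul_of_nonneg_right hcS hM0.le) (by linarith)
  have h7 : (1 - 12 * η) * (1 + η) ^ 2 ≤ 1 - 8 * η := by
    have : 0 ≤ η ^ 3 := by positivity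
    nlinarith [sq_nonneg η]
  have h8 : 0 ≤ c1 * L * M0 := by positivity
  have h9 : (L * (1 + η) ^ 2) * ((1 - 12 * η) * c1 * M0) ≤ (L * (1 + η) ^ 2) * (Vp * L) := by
    calc (L * (1 + η) ^ 2) * ((1 - 12 * η) * c1 * M0)
        = ((1 - 12 * η) * (1 + η) ^ 2) * (c1 * L * M0) := by ring
      _ ≤ (1 - 8 * η) * (c1 * L * M0) := mul_le_mul_of_nonneg_right h7 h8
      _ ≤ _ := h6
      _ = _ := by ring
  rw [div_le_iff₀ hL]
  exact le_of_mul_le_mul_left h9 (by positivity)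

theorem fin3a {θ κ d η c1 K : ℝ} (hP : Par θ κ d) (hη : 0 < η) (hη1 : η ≤ 1 / 20) (hc1 : 0 < c1)
    (hS : ∀ᶠ X : ℝ in atTop, c1 * Real.log X ≤ Sw θ κ d X) :
    ∀ᶠ X : ℕ in atTop, ∀ H : ℕ → ℕ, MonotoneOn H (Set.Icc X (2 * X)) → 1 ≤ H X →
    (H (2 * X) : ℝ) ≤ (X : ℝ) ^ θ → ∀ M : ℕ → ℝ,
    (MonotoneOn M (Set.Icc X (2 * X)) ∨ AntitoneOn M (Set.Icc X (2 * X)) ∨
      ∑ n ∈ Ico X (2 * X), |M (n + 1) - M n| ≤ (X : ℝ) ^ (1 / 2 : ℝ)) →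
    (1 - 12 * η) * c1 * ((X : ℝ) * H X) / Real.log X ≤ ∑ n ∈ Ioc X (2 * X),
      ((((Ioc n (n + H n)).filter Nat.Prime).card : ℝ) - M n) ^ 2 ∧
    ((X : ℝ) * H (2 * X) ≤ K * ∑ n ∈ Ioc X (2 * X), (H n : ℝ) →
      (1 - 12 * η) * c1 * (∑ n ∈ Ioc X (2 * X), (H n : ℝ)) / Real.log X ≤
        ∑ n ∈ Ioc X (2 * X), ((((Ioc n (n + H n)).filter Nat.Prime).card : ℝ) - M n) ^ 2) := by
  have hθ0 := hP.θ0
  have hκ0 := hP.κ0
  have hθ3 : θ < 1 / 3 := by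
    have h1 := hP.low
    rcases hP.up with h2 | ⟨h2, h3⟩
    · linarith
    · linarith
  obtain ⟨Kp, hKp⟩ : ∃ Kp : ℝ, Kp = max 1 |K| := ⟨_, rfl⟩
  have hKp1 : 1 ≤ Kp := by
    rw [hKp]
    exact le_max_left _ _
  have hKpK : K ≤ Kp := by
    rw [hKp]
    exact (le_abs_self K).trans (le_max_right _ _)
  have hnat := tendsto_natCast_atTop_atTop (R := ℝ)
  have e1 : ∀ᶠ X : ℝ in atTop, Kp * X ^ (-(κ / 4)) ≤ η := by
    have h1 := (tendsto_rpow_neg_atTop (by positivity : 0 < κ / 4)).const_mul Kp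
    rw [mul_zero] at h1
    filter_upwards [h1.eventually (gt_mem_nhds hη)] with X hX
    exact hX.le
  have e2 : ∀ᶠ X : ℝ in atTop, 1 ≤ η * (c1 * Real.log X) := by
    have h1 : Tendsto (fun X : ℝ => η * (c1 * Real.log X)) atTop atTop :=
      (Real.tendsto_log_atTop.const_mul_atTop hc1).const_mul_atTop hη
    exact h1.eventually_ge_atTop 1
  filter_upwards [main3 hP hη (by linarith), fin_f hθ0 hθ3 hκ0 hη (by linarith), pntA η hη,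
    pntB η K hη, hnat.eventually hS, hnat.eventually e1, hnat.eventually e2,
    eventually_ge_atTop 3] with X hmain hf hpA hpB hSX he1 he2 hX3
  intro H hH hH1 hHθ M hM
  obtain ⟨f, hf1, hf2, hf3⟩ := hf H hH hHθ M hM
  have hmain2 := hmain H hH hH1 hHθ f hf1 hf2
  have hXpos : (0 : ℝ) < X := by
    have : 0 < X := by omega
    exact_mod_cast this
  have hX1 : (1 : ℝ) ≤ X := by
    have : 1 ≤ X := by omega
    exact_mod_cast this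
  have hL : 0 < Real.log X := by
    have : (1 : ℝ) < X := by
      have : 1 < X := by omega
      exact_mod_cast this
    exact Real.log_pos this
  have hUV : X ≤ 2 * X := by omega
  have hG1 : 1 ≤ H (2 * X) := hH1.trans (hH ⟨le_rfl, hUV⟩ ⟨hUV, le_rfl⟩ hUV)
  have hGR : (1 : ℝ) ≤ (H (2 * X) : ℝ) := by exact_mod_cast hG1
  have hHXR : (1 : ℝ) ≤ (H X : ℝ) := by exact_mod_cast hH1
  have hlogG : Real.log (H (2 * X)) ≤ Real.log X := by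
    refine Real.log_le_log (by linarith) (hHθ.trans ?_)
    calc (X : ℝ) ^ θ ≤ (X : ℝ) ^ (1 : ℝ) := Real.rpow_le_rpow_of_exponent_le hX1 (by linarith)
      _ = X := Real.rpow_one _
  have hS1 : 0 < Sw θ κ d X := lt_of_lt_of_le (by positivity) hSX
  have hηS : 1 ≤ η * Sw θ κ d X := he2.trans (mul_le_mul_of_nonneg_left hSX hη.le)
  have hS2 : 1 ≤ Sw θ κ d X := by
    have : η * Sw θ κ d X ≤ 1 * Sw θ κ d X := mul_le_mul_of_nonneg_right (by linarith) hS1.le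
    linarith
  obtain ⟨V, hV⟩ : ∃ V : ℝ, V = ∑ n ∈ Ioc X (2 * X), (PH (H n) n - f n) ^ 2 := ⟨_, rfl⟩
  have hV0 : 0 ≤ V := by
    rw [hV]
    exact sum_nonneg fun n _ => sq_nonneg _
  rw [← hV] at hf3
  have hErr : ∀ Y M0 : ℝ, 0 ≤ Y → 0 < M0 → Y * X ≤ Kp * M0 →
      Y * (X : ℝ) ^ (1 - κ / 4) ≤ η * (Sw θ κ d X * M0) := by
    intro Y M0 hY hM0 hYM
    have h1 : Y * (X : ℝ) ^ (1 - κ / 4) = (Y * X) * (X : ℝ) ^ (-(κ / 4)) := by
      rw [show (1 - κ / 4 : ℝ) = 1 + -(κ / 4) by ring, Real.rpow_add hXpos, Real.rpow_one]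
      ring
    have hp : 0 ≤ (X : ℝ) ^ (-(κ / 4)) := Real.rpow_nonneg hXpos.le _
    calc Y * (X : ℝ) ^ (1 - κ / 4) = (Y * X) * (X : ℝ) ^ (-(κ / 4)) := h1
      _ ≤ (Kp * M0) * (X : ℝ) ^ (-(κ / 4)) := mul_le_mul_of_nonneg_right hYM hp
      _ = M0 * (Kp * (X : ℝ) ^ (-(κ / 4))) := by ring
      _ ≤ M0 * η := mul_le_mul_of_nonneg_left he1 hM0.le
      _ = η * (1 * M0) := by ring
      _ ≤ η * (Sw θ κ d X * M0) :=
          mul_le_mul_of_nonneg_left (mul_le_mul_of_nonneg_right hS2 hM0.le) hη.le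
  have hxM : ∀ M0 : ℝ, (X : ℝ) ≤ M0 → (X : ℝ) ≤ η * (Sw θ κ d X * M0) := by
    intro M0 hM0
    have h1 : 1 * M0 ≤ (η * Sw θ κ d X) * M0 := mul_le_mul_of_nonneg_right hηS (by linarith)
    calc (X : ℝ) ≤ M0 := hM0
      _ = 1 * M0 := (one_mul _).symm
      _ ≤ (η * Sw θ κ d X) * M0 := h1
      _ = _ := by ring
  constructor
  · have hM0 : (X : ℝ) ≤ (X : ℝ) * H X := le_mul_of_one_le_right hXpos.le hHXR
    have hM0p : 0 < (X : ℝ) * H X := by positivity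
    have hm := hmain2 (lamA H X) (omA H X) (H X) (fwA hUV hH hH1) (by positivity)
      ((O0A H X _ hG1).trans (mul_le_mul_of_nonneg_left (by linarith) (by positivity)))
      (O1A H X _) (O2A H X _)
    rw [← hV] at hm
    refine fin3_core hη hη1 hL hc1 hS1 hM0p hV0 hm ?_ ?_
      (hErr _ _ (by positivity) hM0p ?_) hf3 (hxM _ hM0) hSX
    · rw [lamA_one hUV hH hH1]
      calc (1 - η) * ((X : ℝ) * H X) = H X * ((1 - η) * X) := by ring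
        _ ≤ _ := mul_le_mul_of_nonneg_left hpA (by positivity)
    · refine (lamA_two hUV hH hH1).trans (le_of_eq ?_)
      push_cast
      ring
    · rw [mul_comm (H X : ℝ)]
      exact le_mul_of_one_le_left hM0p.le hKp1
  · intro hK
    have hHn : ∀ n ∈ Ioc X (2 * X), (1 : ℝ) ≤ H n := by
      intro n hn
      obtain ⟨h1, h2⟩ := mem_Ioc.1 hn
      have h3 : H X ≤ H n := hH ⟨le_rfl, hUV⟩ ⟨h1.le, h2⟩ h1.le
      exact_mod_cast hH1.trans h3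
    have hM0 : (X : ℝ) ≤ ∑ n ∈ Ioc X (2 * X), (H n : ℝ) := by
      calc (X : ℝ) = ∑ n ∈ Ioc X (2 * X), (1 : ℝ) := by
            rw [sum_const, Nat.card_Ioc, nsmul_eq_mul, mul_one]
            congr 1
            omega
        _ ≤ _ := sum_le_sum hHn
    have hM0p : 0 < ∑ n ∈ Ioc X (2 * X), (H n : ℝ) := by linarith
    have hm := hmain2 (fun _ => 1) (fun _ => 1) (H (2 * X)) (fwB hUV hH) (by positivity)
      (by
        rw [O0B]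
        exact le_mul_of_one_le_right (by positivity) (by linarith))
      (O1B _) (O2B _)
    rw [← hV] at hm
    refine fin3_core hη hη1 hL hc1 hS1 hM0p hV0 hm ?_ ?_
      (hErr _ _ (by positivity) hM0p ?_) hf3 (hxM _ hM0) hSX
    · refine (hpB H hH hK).trans (le_of_eq ?_)
      refine sum_congr rfl fun n _ => ?_
      rw [one_mul]
    · apply le_of_eq
      refine sum_congr rfl fun n _ => ?_
      ring
    · rw [mul_comm (H (2 * X) : ℝ)]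
      exact hK.trans (mul_le_mul_of_nonneg_right hKpK hM0p.le)

/-- the statement for one `X` -/
private def fin3P (c K θ : ℝ) (X : ℕ) : Prop :=
  ∀ H : ℕ → ℕ, MonotoneOn H (Set.Icc X (2 * X)) → 1 ≤ H X →
    (H (2 * X) : ℝ) ≤ (X : ℝ) ^ θ → ∀ M : ℕ → ℝ,
    (MonotoneOn M (Set.Icc X (2 * X)) ∨ AntitoneOn M (Set.Icc X (2 * X)) ∨
      ∑ n ∈ Ico X (2 * X), |M (n + 1) - M n| ≤ (X : ℝ) ^ (1 / 2 : ℝ)) →
    c * ((X : ℝ) * H X) / Real.log X ≤ ∑ n ∈ Ioc X (2 * X),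
      ((((Ioc n (n + H n)).filter Nat.Prime).card : ℝ) - M n) ^ 2 ∧
    ((X : ℝ) * H (2 * X) ≤ K * ∑ n ∈ Ioc X (2 * X), (H n : ℝ) →
      c * (∑ n ∈ Ioc X (2 * X), (H n : ℝ)) / Real.log X ≤
        ∑ n ∈ Ioc X (2 * X), ((((Ioc n (n + H n)).filter Nat.Prime).card : ℝ) - M n) ^ 2)

private theorem fin3P_mono {c c' K θ θ' : ℝ} {X : ℕ} (hX : 1 ≤ X) (h : fin3P c K θ X)
    (hc : c' ≤ c) (hθ : θ' ≤ θ) : fin3P c' K θ' X := by
  intro H hH hH1 hHθ M hM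
  have hX1 : (1 : ℝ) ≤ X := by exact_mod_cast hX
  have hL : 0 ≤ Real.log X := Real.log_nonneg hX1
  obtain ⟨h1, h2⟩ := h H hH hH1 (hHθ.trans (Real.rpow_le_rpow_of_exponent_le hX1 hθ)) M hM
  refine ⟨le_trans ?_ h1, fun hK => le_trans ?_ (h2 hK)⟩
  · exact div_le_div_of_nonneg_right (mul_le_mul_of_nonneg_right hc (by positivity)) hL
  · exact div_le_div_of_nonneg_right (mul_le_mul_of_nonneg_right hc
      (sum_nonneg fun n _ => Nat.cast_nonneg _)) hL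

private theorem fin3P_max {c c' K θ : ℝ} {X : ℕ} (h : fin3P c K θ X) (h' : fin3P c' K θ X) :
    fin3P (max c c') K θ X := by
  rcases max_choice c c' with h1 | h1
  · rw [h1]
    exact h
  · rw [h1]
    exact h'

theorem final3 : ∃ C : ℝ, 0 < C ∧ ∀ Θ : ℝ, 0 < Θ → Θ < 1 / 3 → ∃ c : ℝ, 0 < c ∧
    ∀ θ : ℝ, 0 < θ → θ ≤ Θ → ∀ K : ℝ, ∃ X₀ : ℕ, ∀ X : ℕ, X₀ ≤ X → ∀ H : ℕ → ℕ,
    MonotoneOn H (Set.Icc X (2 * X)) → 1 ≤ H X → (H (2 * X) : ℝ) ≤ (X : ℝ) ^ θ → ∀ M : ℕ → ℝ,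
    (MonotoneOn M (Set.Icc X (2 * X)) ∨ AntitoneOn M (Set.Icc X (2 * X)) ∨
      ∑ n ∈ Ico X (2 * X), |M (n + 1) - M n| ≤ (X : ℝ) ^ (1 / 2 : ℝ)) →
    max c (1 / 2 - C * θ) * ((X : ℝ) * H X) / Real.log X ≤ ∑ n ∈ Ioc X (2 * X),
      ((((Ioc n (n + H n)).filter Nat.Prime).card : ℝ) - M n) ^ 2 ∧
    ((X : ℝ) * H (2 * X) ≤ K * ∑ n ∈ Ioc X (2 * X), (H n : ℝ) →
      max c (1 / 2 - C * θ) * (∑ n ∈ Ioc X (2 * X), (H n : ℝ)) / Real.log X ≤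
        ∑ n ∈ Ioc X (2 * X), ((((Ioc n (n + H n)).filter Nat.Prime).card : ℝ) - M n) ^ 2) := by
  obtain ⟨C1, hC1, hsm⟩ := Sw_small
  refine ⟨max 10 (C1 + 1), lt_of_lt_of_le (by norm_num) (le_max_left _ _), ?_⟩
  intro Θ hΘ hΘ3
  obtain ⟨κ, hκ⟩ : ∃ κ : ℝ, κ = (1 / 3 - Θ) / 20 := ⟨_, rfl⟩
  have hPar : Par Θ κ (1 / 3 - 4 * κ) := by
    refine ⟨hΘ, by rw [hκ]; linarith, by rw [hκ]; linarith, Or.inl le_rfl⟩
  obtain ⟨c1, hc1, hSw⟩ := Sw_pos hPar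
  refine ⟨c1 / 2, by positivity, ?_⟩
  intro θ hθ hθΘ K
  obtain ⟨C, hC⟩ : ∃ C : ℝ, C = max 10 (C1 + 1) := ⟨_, rfl⟩
  rw [← hC]
  have hC10 : 10 ≤ C := by
    rw [hC]
    exact le_max_left _ _
  have hCC1 : C1 + 1 ≤ C := by
    rw [hC]
    exact le_max_right _ _
  have h1 := fin3a (η := 1 / 24) (K := K) hPar (by norm_num) (by norm_num) hc1 hSw
  have h2 : ∀ᶠ X : ℕ in atTop, fin3P (c1 / 2) K θ X := by
    filter_upwards [h1, eventually_ge_atTop 1] with X hX hX1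
    have h3 : fin3P ((1 - 12 * (1 / 24)) * c1) K Θ X := hX
    exact fin3P_mono hX1 h3 (by linarith) hθΘ
  have h4 : ∀ᶠ X : ℕ in atTop, fin3P (max (c1 / 2) (1 / 2 - C * θ)) K θ X := by
    by_cases ht : 1 / 2 - C * θ ≤ 0
    · rw [max_eq_left (ht.trans (by positivity))]
      exact h2
    · push Not at ht
      have hθ20 : θ ≤ 1 / 20 := by nlinarith
      have hpos : 0 < 1 / 2 - C1 * θ := by nlinarith
      have hPar2 : Par θ (θ / 10) (1 / 2 - θ - 4 * (θ / 10)) :=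
        ⟨hθ, by positivity, by linarith, Or.inr ⟨by linarith, le_rfl⟩⟩
      have h5 := fin3a (η := θ / 100) (K := K) hPar2 (by positivity) (by linarith) hpos
        (hsm θ hθ hθ20)
      filter_upwards [h2, h5, eventually_ge_atTop 1] with X hX hX5 hX1
      refine fin3P_max hX ?_
      have h6 : fin3P ((1 - 12 * (θ / 100)) * (1 / 2 - C1 * θ)) K θ X := hX5
      refine fin3P_mono hX1 h6 ?_ le_rfl
      have h7 : 0 ≤ C1 * θ ^ 2 := by positivity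
      have h8 : (C1 + 1) * θ ≤ C * θ := mul_le_mul_of_nonneg_right hCC1 hθ.le
      nlinarith
  obtain ⟨X₀, hX₀⟩ := eventually_atTop.1 h4
  exact ⟨X₀, hX₀⟩

end Pool.Agent.H67.VU
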