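import Pool.Agent.H67.VT.Fp
import Pool.Agent.H67.VT.FinA
import Pool.Agent.H67.VU.Wl

/-!
[H67 VU FP3]  Functions of bounded variation do not see the test function, variable lengths.

Proof.  `gg ρ D Q (H n) n = ∑_{h ≤ H n} bq n h`; `wl_sum`: the sum is `∑_{h ≤ G} om h ∑_n (w h n f n) bq n h`, `w h = wl .. h`.
Abel summation (`H21.MT.abel_le`): `|∑_{n ∈ Ioc U t} bq n h| ≤ 3 K LL` for all `t` (private lemma `fp_partial` of
`Pool/Agent/H67/VT/Fp.lean` without the sum over `h`; copy), and `v = w h * f` has `|v V| ≤ F`, variation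
`≤ F * 3 + 1 * T` on `Ico U V` (`VT.prod_tv`, `Wt.tv`).  So the inner sum is `≤ 3 K LL (4 F + T)`.
-/

namespace Pool.Agent.H67.VU

open Finset Pool.Agent.H67.VS Pool.Agent.H67.VT

private theorem fp3_count (A t m h : ℕ) (hm : 0 < m) :
    |(∑ x ∈ Ioc A t, if (m : ℤ) ∣ (x : ℤ) + (h : ℤ) then (1 : ℝ) else 0) -
      ((Ioc A t).card : ℝ) / m| ≤ 1 := by
  have h1 := Pool.Agent.H21.MT.ap_count A t m ((m - 1) * h) hm
  have h2 : (∑ x ∈ Ioc A t, if (m : ℤ) ∣ (x : ℤ) + (h : ℤ) then (1 : ℝ) else 0) =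
      (((Ioc A t).filter (fun j => j % m = ((m - 1) * h) % m)).card : ℝ) := by
    rw [← sum_filter, sum_const, nsmul_eq_mul, mul_one]
    congr 2
    ext x
    rw [mem_filter, mem_filter]
    refine and_congr_right fun _ => ?_
    have h3 : (m : ℤ) ∣ (x : ℤ) + (h : ℤ) ↔ m ∣ x + h := by
      rw [← Nat.cast_add]
      exact Int.natCast_dvd_natCast
    rw [h3]
    have h4 : (m - 1) * h + h = m * h := by
      obtain ⟨m', rfl⟩ := Nat.exists_eq_succ_of_ne_zero hm.ne'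
      simp
      ring
    constructor
    · intro h5
      have h6 : x + h ≡ (m - 1) * h + h [MOD m] := by
        rw [h4]
        exact ((Nat.modEq_zero_iff_dvd.2 h5).trans
          (Nat.modEq_zero_iff_dvd.2 (Dvd.intro _ rfl)).symm)
      exact Nat.ModEq.add_right_cancel' h h6
    · intro h5
      have h6 : x + h ≡ (m - 1) * h + h [MOD m] := Nat.ModEq.add_right h h5
      rw [h4] at h6
      exact Nat.modEq_zero_iff_dvd.1 (h6.trans (Nat.modEq_zero_iff_dvd.2 (Dvd.intro _ rfl)))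
  rw [h2]
  exact h1

private theorem fp3_inner (A t h d q : ℕ) (hd : 0 < d) (hq : 2 ≤ q) :
    |∑ x ∈ Ioc A t, ((if (d : ℤ) ∣ (x : ℤ) + (h : ℤ) then (1 : ℝ) else 0) -
        (q : ℝ) * (if ((d * q : ℕ) : ℤ) ∣ (x : ℤ) + (h : ℤ) then (1 : ℝ) else 0))| ≤
      3 * ((q : ℝ) - 1) := by
  have hq0 : 0 < q := by omega
  have h1 := fp3_count A t d h hd
  have h2 := fp3_count A t (d * q) h (Nat.mul_pos hd hq0)
  have hq' : (2 : ℝ) ≤ q := by exact_mod_cast hq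
  have hd' : (0 : ℝ) < d := by exact_mod_cast hd
  rw [sum_sub_distrib, ← mul_sum]
  obtain ⟨N₁, hN₁⟩ : ∃ N : ℝ, N = ∑ x ∈ Ioc A t, if (d : ℤ) ∣ (x : ℤ) + (h : ℤ) then (1 : ℝ) else 0 :=
    ⟨_, rfl⟩
  obtain ⟨N₂, hN₂⟩ : ∃ N : ℝ, N = ∑ x ∈ Ioc A t,
    if ((d * q : ℕ) : ℤ) ∣ (x : ℤ) + (h : ℤ) then (1 : ℝ) else 0 := ⟨_, rfl⟩
  rw [← hN₁] at h1 ⊢
  rw [← hN₂] at h2 ⊢
  obtain ⟨c, hc⟩ : ∃ c : ℝ, c = ((Ioc A t).card : ℝ) / d := ⟨_, rfl⟩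
  have h3 : ((Ioc A t).card : ℝ) / ((d * q : ℕ) : ℝ) = c / q := by
    rw [hc]
    push_cast
    rw [div_div]
  rw [h3] at h2
  rw [← hc] at h1
  have h4 : N₁ - q * N₂ = (N₁ - c) - q * (N₂ - c / q) := by
    have : (q : ℝ) ≠ 0 := by linarith
    field_simp
    ring
  rw [h4]
  rw [abs_le] at h1 h2 ⊢
  constructor <;> nlinarith [h1.1, h1.2, h2.1, h2.2]

private theorem fp3_dvd {d q : ℕ} (hcop : Nat.Coprime d q) (m : ℤ) :
    (((d * q : ℕ) : ℤ) ∣ m) ↔ ((d : ℤ) ∣ m ∧ (q : ℤ) ∣ m) := by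
  constructor
  · intro h
    rw [Nat.cast_mul] at h
    exact ⟨(Dvd.intro _ rfl).trans h, (Dvd.intro_left _ rfl).trans h⟩
  · rintro ⟨h1, h2⟩
    rw [Nat.cast_mul]
    exact IsCoprime.mul_dvd (Nat.isCoprime_iff_coprime.2 hcop) h1 h2

private theorem fp3_gk {L q : ℕ} {K s : ℝ} {ρ : ℕ → ℝ} (hρ : SV L q K s ρ) (hq : q.Prime)
    (n : ℕ) (k : ℤ) :
    gk ρ L q n k = ∑ d ∈ Icc 1 L, ρ d / ((q : ℝ) - 1) *
      ((if (d : ℤ) ∣ (n : ℤ) + k then (1 : ℝ) else 0) -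
        (q : ℝ) * (if ((d * q : ℕ) : ℤ) ∣ (n : ℤ) + k then (1 : ℝ) else 0)) := by
  unfold gk FF
  rw [sum_mul]
  refine sum_congr rfl fun d hd => ?_
  rw [mem_Icc] at hd
  by_cases h0 : ρ d = 0
  · rw [h0]
    simp
  have hcop : Nat.Coprime d q := by
    rw [Nat.coprime_comm, Nat.Prime.coprime_iff_not_dvd hq]
    intro h
    have h2 := hρ.small d h0 q (Nat.mem_primeFactors.2 ⟨hq, h, by omega⟩)
    omega
  have h1 := fp3_dvd hcop ((n : ℤ) + k)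
  by_cases hA : (d : ℤ) ∣ (n : ℤ) + k
  · by_cases hB : (q : ℤ) ∣ (n : ℤ) + k
    · rw [if_pos hA, if_pos hB, if_pos hA, if_pos (h1.2 ⟨hA, hB⟩)]
      ring
    · rw [if_pos hA, if_neg hB, if_pos hA, if_neg (fun h => hB (h1.1 h).2)]
      ring
  · rw [if_neg hA, if_neg hA, if_neg (fun h => hA (h1.1 h).1)]
    ring

private theorem fp3_partial {D : ℕ} {ρ : ℕ → ℕ → ℝ} {s : ℕ → ℝ} {K : ℝ} {Q : Finset ℕ}
    (A t h : ℕ) (hK : 0 ≤ K) (hρ : ∀ q ∈ Q, SV (D / q) q K (s q) (ρ q))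
    (hQ : ∀ q ∈ Q, q.Prime) :
    |∑ x ∈ Ioc A t, bq ρ D Q x (h : ℤ)| ≤ 3 * K * LL D Q := by
  have h1 : ∑ x ∈ Ioc A t, bq ρ D Q x (h : ℤ) = ∑ q ∈ Q, ∑ d ∈ Icc 1 (D / q),
      ρ q d / ((q : ℝ) - 1) * ∑ x ∈ Ioc A t, ((if (d : ℤ) ∣ (x : ℤ) + (h : ℤ) then (1 : ℝ) else 0) -
        (q : ℝ) * (if ((d * q : ℕ) : ℤ) ∣ (x : ℤ) + (h : ℤ) then (1 : ℝ) else 0)) := by
    unfold bq
    rw [sum_comm]
    refine sum_congr rfl fun q hq => ?_
    rw [sum_congr rfl (fun x _ => fp3_gk (hρ q hq) (hQ q hq) x (h : ℤ)), sum_comm]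
    refine sum_congr rfl fun d _ => ?_
    rw [mul_sum]
  rw [h1]
  refine (abs_sum_le_sum_abs _ _).trans ?_
  have h3 : ∀ q ∈ Q, |∑ d ∈ Icc 1 (D / q),
    ρ q d / ((q : ℝ) - 1) * ∑ x ∈ Ioc A t, ((if (d : ℤ) ∣ (x : ℤ) + (h : ℤ) then (1 : ℝ) else 0) -
      (q : ℝ) * (if ((d * q : ℕ) : ℤ) ∣ (x : ℤ) + (h : ℤ) then (1 : ℝ) else 0))| ≤
    3 * K * ((D / q : ℕ) : ℝ) := by
    intro q hq
    refine (abs_sum_le_sum_abs _ _).trans ?_
    have hq2 : 2 ≤ q := (hQ q hq).two_le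
    have hq' : (2 : ℝ) ≤ q := by exact_mod_cast hq2
    have hq1 : (0 : ℝ) < (q : ℝ) - 1 := by linarith
    have h4 : ∀ d ∈ Icc 1 (D / q), |ρ q d / ((q : ℝ) - 1) *
        ∑ x ∈ Ioc A t, ((if (d : ℤ) ∣ (x : ℤ) + (h : ℤ) then (1 : ℝ) else 0) -
      (q : ℝ) * (if ((d * q : ℕ) : ℤ) ∣ (x : ℤ) + (h : ℤ) then (1 : ℝ) else 0))| ≤ 3 * K := by
      intro d hd
      have hd1 : 0 < d := (mem_Icc.1 hd).1
      rw [abs_mul, abs_div, abs_of_pos hq1]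
      have h5 := fp3_inner A t h d q hd1 hq2
      calc |ρ q d| / ((q : ℝ) - 1) * _ ≤ |ρ q d| / ((q : ℝ) - 1) * (3 * ((q : ℝ) - 1)) :=
            mul_le_mul_of_nonneg_left h5 (by positivity)
        _ = 3 * |ρ q d| := by field_simp
        _ ≤ 3 * K := mul_le_mul_of_nonneg_left ((hρ q hq).bd d) (by norm_num)
    refine (sum_le_sum h4).trans ?_
    rw [sum_const, Nat.card_Icc, nsmul_eq_mul, Nat.add_sub_cancel]
    exact le_of_eq (by ring)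
  refine (sum_le_sum h3).trans ?_
  unfold LL
  rw [mul_sum]

theorem fp3 {U V G D : ℕ} {H : ℕ → ℕ} {lam om : ℕ → ℝ} {ρ : ℕ → ℕ → ℝ} {s : ℕ → ℝ} {K F T : ℝ}
    {Q : Finset ℕ} (hF : FW U V G H lam om) (hK : 0 ≤ K)
    (hρ : ∀ q ∈ Q, SV (D / q) q K (s q) (ρ q)) (hQ : ∀ q ∈ Q, q.Prime)
    (f : ℕ → ℝ) (hf : ∀ n, |f n| ≤ F) (hT : ∀ m n : ℕ, ∑ k ∈ Ico m n, |f (k + 1) - f k| ≤ T) :
    |∑ n ∈ Ioc U V, lam n * (f n * gg ρ D Q (H n) n)| ≤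
      3 * K * LL D Q * (4 * F + T) * O0 G om := by
  have hLL : 0 ≤ LL D Q := sum_nonneg fun q _ => Nat.cast_nonneg _
  have e1 : ∑ n ∈ Ioc U V, lam n * (f n * gg ρ D Q (H n) n) =
      ∑ h ∈ Icc 1 G, om h * ∑ n ∈ Ioc U V, wl U V H lam om h n * (f n * bq ρ D Q n (h : ℤ)) := by
    rw [← wl_sum hF (fun h n => f n * bq ρ D Q n (h : ℤ))]
    refine sum_congr rfl fun n _ => ?_
    unfold gg
    rw [mul_sum]
  rw [e1]
  refine (abs_sum_le_sum_abs _ _).trans ?_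
  unfold O0
  rw [mul_sum]
  refine sum_le_sum fun h hh => ?_
  rw [abs_mul, abs_of_pos (hF.om0 h hh), mul_comm (om h)]
  refine mul_le_mul_of_nonneg_right ?_ (hF.om0 h hh).le
  have hw := wl_wt hF h hh
  obtain ⟨v, hv⟩ : ∃ v : ℕ → ℝ, v = fun n => wl U V H lam om h n * f n := ⟨_, rfl⟩
  have e2 : ∑ n ∈ Ioc U V, wl U V H lam om h n * (f n * bq ρ D Q n (h : ℤ)) =
      ∑ n ∈ Ioc U V, v n * bq ρ D Q n (h : ℤ) := by
    refine sum_congr rfl fun n _ => ?_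
    rw [hv]
    ring
  rw [e2]
  have hF0 : 0 ≤ F := (abs_nonneg _).trans (hf 0)
  have h1 := Pool.Agent.H21.MT.abel_le (fun x => ((bq ρ D Q x (h : ℤ) : ℝ) : ℂ)) v
    (3 * K * LL D Q) U V ?_ (by positivity) hF.UV
  · have h2 : ∑ k ∈ Ioc U V, ((bq ρ D Q k (h : ℤ) : ℝ) : ℂ) * (v k : ℂ) =
        ((∑ x ∈ Ioc U V, v x * bq ρ D Q x (h : ℤ) : ℝ) : ℂ) := by
      push_cast
      exact sum_congr rfl fun x _ => mul_comm _ _
    rw [h2, Complex.norm_real, Real.norm_eq_abs] at h1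
    refine h1.trans ?_
    refine mul_le_mul_of_nonneg_left ?_ (by positivity)
    have h3 : |v V| ≤ F := by
      rw [hv]
      simp only
      rw [abs_mul, abs_of_nonneg (hw.nonneg V)]
      calc wl U V H lam om h V * |f V| ≤ 1 * F :=
            mul_le_mul (hw.le_one V) (hf V) (abs_nonneg _) zero_le_one
        _ = F := one_mul _
    have h4 : ∑ k ∈ Ioo U V, |v (k + 1) - v k| ≤ ∑ k ∈ Ico U V, |v (k + 1) - v k| := by
      refine sum_le_sum_of_subset_of_nonneg ?_ fun _ _ _ => abs_nonneg _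
      intro k hk
      rw [mem_Ioo] at hk
      rw [mem_Ico]
      omega
    have h5 : ∑ k ∈ Ico U V, |v (k + 1) - v k| ≤ 1 * T + F * 3 := by
      rw [hv]
      refine prod_tv (wl U V H lam om h) f 1 F 3 T ?_ hf U V (hw.tv U V) (hT U V)
      intro n
      rw [abs_of_nonneg (hw.nonneg n)]
      exact hw.le_one n
    linarith
  · intro k _
    rw [← Complex.ofReal_sum, Complex.norm_real, Real.norm_eq_abs]
    exact fp3_partial U k h hK hρ hQ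

end Pool.Agent.H67.VU
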