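import Pool.Agent.H67.VT.GsqA
import Pool.Agent.H67.VU.Defs

/-!
[H67 VU GSQA3]  Orthogonality of different primes, for a single pair of shifts.

Proof.  As `VT.gz_orth2` in `Pool/Agent/H67/VT/GsqA.lean`, without the sum over `h, h'` (there: `gsqA2_inner`, `gsqA2_expand`,
`gsqA2_sum2`): by symmetry `q' < q`; expand `FF`, for `ρ d ≠ 0`, `ρ' e ≠ 0` the inner sum is at most `4 (1+q)(1+q')`,
`(1+q)/(q-1) ≤ 3`, `∑_{d,e} |ρ d| |ρ' e| ≤ (L K)(L' K)`.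
-/

namespace Pool.Agent.H67.VU

open Finset Pool.Agent.H67.VS Pool.Agent.H67.VT

private theorem gk3_expand (ρ : ℕ → ℝ) (L q x : ℕ) (h : ℤ) :
    gk ρ L q x h = ∑ d ∈ Icc 1 L, ρ d / ((q : ℝ) - 1) *
      ((if (d : ℤ) ∣ (x : ℤ) + h then (1 : ℝ) else 0) *
        (1 - if (q : ℤ) ∣ (x : ℤ) + h then (q : ℝ) else 0)) := by
  unfold gk
  rw [FF, Finset.sum_mul]
  refine Finset.sum_congr rfl (fun d _ => ?_)
  by_cases hd : (d : ℤ) ∣ (x : ℤ) + h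
  · rw [if_pos hd, if_pos hd]
    ring
  · rw [if_neg hd, if_neg hd]
    ring

private theorem gk3_orth {A B L L' q q' : ℕ} {w ρ ρ' : ℕ → ℝ} {K s s' : ℝ} (hw : Wt A B w)
    (hAB : A ≤ B) (hρ : SV L q K s ρ) (hρ' : SV L' q' K s' ρ') (hq : q.Prime) (hq' : q'.Prime)
    (hne : q' < q) (h h' : ℤ) :
    |∑ x ∈ Ioc A B, w x * (gk ρ L q x h * gk ρ' L' q' x h')| ≤
      36 * ((L : ℝ) * K) * ((L' : ℝ) * K) := by
  have hq2 : (2 : ℝ) ≤ q := by exact_mod_cast hq.two_le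
  have hq2' : (2 : ℝ) ≤ q' := by exact_mod_cast hq'.two_le
  have hexp : ∑ x ∈ Ioc A B, w x * (gk ρ L q x h * gk ρ' L' q' x h') =
      ∑ d ∈ Icc 1 L, ∑ e ∈ Icc 1 L',
        (ρ d / ((q : ℝ) - 1)) * (ρ' e / ((q' : ℝ) - 1)) *
        ∑ x ∈ Ioc A B, w x * ((if (d : ℤ) ∣ (x : ℤ) + h then (1 : ℝ) else 0) *
        (1 - if (q : ℤ) ∣ (x : ℤ) + h then (q : ℝ) else 0)) *
        ((if (e : ℤ) ∣ (x : ℤ) + h' then (1 : ℝ) else 0) *
        (1 - if (q' : ℤ) ∣ (x : ℤ) + h' then (q' : ℝ) else 0)) := by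
    have e1 : ∀ x ∈ Ioc A B, w x * (gk ρ L q x h * gk ρ' L' q' x h') =
        ∑ d ∈ Icc 1 L, ∑ e ∈ Icc 1 L',
        (ρ d / ((q : ℝ) - 1)) * (ρ' e / ((q' : ℝ) - 1)) *
        (w x * ((if (d : ℤ) ∣ (x : ℤ) + h then (1 : ℝ) else 0) *
        (1 - if (q : ℤ) ∣ (x : ℤ) + h then (q : ℝ) else 0)) *
        ((if (e : ℤ) ∣ (x : ℤ) + h' then (1 : ℝ) else 0) *
        (1 - if (q' : ℤ) ∣ (x : ℤ) + h' then (q' : ℝ) else 0))) := by
      intro x _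
      rw [gk3_expand, gk3_expand, Finset.sum_mul_sum, Finset.mul_sum]
      refine Finset.sum_congr rfl (fun d _ => ?_)
      rw [Finset.mul_sum]
      refine Finset.sum_congr rfl (fun e _ => ?_)
      ring
    rw [Finset.sum_congr rfl e1, Finset.sum_comm]
    refine Finset.sum_congr rfl (fun d _ => ?_)
    rw [Finset.sum_comm]
    refine Finset.sum_congr rfl (fun e _ => ?_)
    rw [Finset.mul_sum]
  rw [hexp]
  have h5 := gsqA2_sum2 hρ hρ'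
  have h6 : ∀ d ∈ Icc 1 L, ∀ e ∈ Icc 1 L', |(ρ d / ((q : ℝ) - 1)) * (ρ' e / ((q' : ℝ) - 1)) *
      ∑ x ∈ Ioc A B, w x * ((if (d : ℤ) ∣ (x : ℤ) + h then (1 : ℝ) else 0) *
      (1 - if (q : ℤ) ∣ (x : ℤ) + h then (q : ℝ) else 0)) *
      ((if (e : ℤ) ∣ (x : ℤ) + h' then (1 : ℝ) else 0) *
      (1 - if (q' : ℤ) ∣ (x : ℤ) + h' then (q' : ℝ) else 0))| ≤
        36 * (|ρ d| * |ρ' e|) := by
    intro d hd e he
    rw [Finset.mem_Icc] at hd he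
    by_cases hd0 : ρ d = 0
    · rw [hd0]
      simp
    by_cases he0 : ρ' e = 0
    · rw [he0]
      simp
    have h7 := gsqA2_inner hw hAB hq hq' hd.1 he.1 (gsqA2_cop hρ hq le_rfl hd.1 hd0)
      (gsqA2_cop hρ' hq hne.le he.1 he0) ((Nat.coprime_primes hq hq').2 hne.ne')
      (gsqA2_cop hρ' hq' le_rfl he.1 he0).symm h h'
    rw [abs_mul, abs_mul, abs_div, abs_div, abs_of_pos (show (0 : ℝ) < (q : ℝ) - 1 by linarith),
      abs_of_pos (show (0 : ℝ) < (q' : ℝ) - 1 by linarith)]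
    have h8 : 0 ≤ |ρ d| / ((q : ℝ) - 1) * (|ρ' e| / ((q' : ℝ) - 1)) := by
      apply mul_nonneg <;> apply div_nonneg (abs_nonneg _) <;> linarith
    refine (mul_le_mul_of_nonneg_left h7 h8).trans ?_
    have h9 : |ρ d| / ((q : ℝ) - 1) * (|ρ' e| / ((q' : ℝ) - 1)) * (4 * ((1 + q) * (1 + q'))) =
        4 * (|ρ d| * |ρ' e|) * (((1 + q) / ((q : ℝ) - 1)) * ((1 + q') / ((q' : ℝ) - 1))) := by
      ring
    rw [h9]
    have h10 : (1 + (q : ℝ)) / ((q : ℝ) - 1) ≤ 3 := by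
      rw [div_le_iff₀ (by linarith)]
      linarith
    have h11 : (1 + (q' : ℝ)) / ((q' : ℝ) - 1) ≤ 3 := by
      rw [div_le_iff₀ (by linarith)]
      linarith
    have h12 : ((1 + (q : ℝ)) / ((q : ℝ) - 1)) * ((1 + (q' : ℝ)) / ((q' : ℝ) - 1)) ≤ 3 * 3 := by
      refine mul_le_mul h10 h11 ?_ (by norm_num)
      apply div_nonneg <;> linarith
    have h13 : 0 ≤ 4 * (|ρ d| * |ρ' e|) := by positivity
    have := mul_le_mul_of_nonneg_left h12 h13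
    linarith
  refine (Finset.abs_sum_le_sum_abs _ _).trans ?_
  refine (Finset.sum_le_sum (fun d hd => (Finset.abs_sum_le_sum_abs _ _).trans
    (Finset.sum_le_sum (fun e he => h6 d hd e he)))).trans ?_
  calc ∑ d ∈ Icc 1 L, ∑ e ∈ Icc 1 L', 36 * (|ρ d| * |ρ' e|)
      = 36 * ∑ d ∈ Icc 1 L, ∑ e ∈ Icc 1 L', |ρ d| * |ρ' e| := by
        simp only [Finset.mul_sum]
    _ ≤ 36 * ((L : ℝ) * K) * ((L' : ℝ) * K) := by linarith

theorem gk_orth3 {A B L L' q q' : ℕ} {w ρ ρ' : ℕ → ℝ} {K s s' : ℝ} (hw : Wt A B w)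
    (hAB : A ≤ B) (hρ : SV L q K s ρ) (hρ' : SV L' q' K s' ρ') (hq : q.Prime) (hq' : q'.Prime)
    (hne : q ≠ q') (h h' : ℤ) :
    |∑ x ∈ Ioc A B, w x * (gk ρ L q x h * gk ρ' L' q' x h')| ≤
      36 * ((L : ℝ) * K) * ((L' : ℝ) * K) := by
  rcases Nat.lt_or_gt_of_ne hne with hlt | hlt
  · have h1 := gk3_orth hw hAB hρ' hρ hq' hq hlt h' h
    have h2 : ∑ x ∈ Ioc A B, w x * (gk ρ L q x h * gk ρ' L' q' x h') =
        ∑ x ∈ Ioc A B, w x * (gk ρ' L' q' x h' * gk ρ L q x h) :=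
      Finset.sum_congr rfl fun x _ => by ring
    rw [h2]
    refine h1.trans (le_of_eq (by ring))
  · exact gk3_orth hw hAB hρ hρ' hq hq' hlt h h'

end Pool.Agent.H67.VU
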