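import Pool.Agent.H67.VT.Gsq
import Pool.Agent.H67.VU.GsqA3
import Pool.Agent.H67.VU.Cov3

/-!
[H67 VU GSQ3]  The mean square of the test function, variable lengths, sharp constant.

Proof.  (Compare `VT.g_sq2` in `Pool/Agent/H67/VT/Gsq.lean`.)  `lam2 = lam^2`, `om2 = om^2`, `FW U V G H lam2 om2` (`fw_sq`),
`w h = wl U V H lam2 om2 h`, `Wt U V (w h)` (`wl_wt`).  `gg = ∑_q gz q` (`VT.gg_eq`).
Pairs `q ≠ q'`: `gz q gz q' = ∑_{h,h' ≤ H n} gk q n h gk q' n h'`; `wl_sum2` (for `lam2`, `om2`) and `gk_orth3`: absolute value at most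
`∑_{h,h' ≤ G} om2 (max h h') 36 (L_q K)(L_q' K) ≤ 36 (L_q K)(L_q' K) O2`.
Diagonal: pointwise bound (private lemma `gsq2_pt` of `VT/Gsq.lean`, copy it; `H n < q`, and use `H n ≤ G` in its first term):
`gz^2 ≤ 1/(q-1)^2 ((1+1/η) G ∑_{h ≤ H n} F(n+h)^2 + (1+η) q^2 ∑_{h ≤ H n} [q ∣ n+h] F(n+h)^2)`.  `wl_sum` and
`VT.F_sq2`, `VT.F_sq_q2` for the weight `w h`: with `M = ∑_h om2 h mass(w h) = ∑_n lam n^2 H n` (`wl_one`), `E = 4 (L_q K)^2`,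
`Ω = ∑_{h ≤ G} om2 h ≤ O2`:
`∑_n lam^2 gz^2 ≤ 1/(q-1)^2 ((1+1/η) G (s M + E Ω) + (1+η) q^2 (s M/q + E Ω))
  = (s M/(q-1)) ((1+1/η) G/(q-1) + (1+η) q/(q-1)) + E Ω ((1+1/η) G/(q-1)^2 + (1+η) q^2/(q-1)^2)`.
By hypothesis `(1+1/η) G/(q-1) ≤ η/2`, and `G ≥ 1` gives `q-1 ≥ 4/η`: first bracket `≤ 1 + 2η`, second `≤ 5`.
Total: `(1+2η) M SS + 20 K^2 O2 ∑_q L_q^2 + 36 K^2 O2 LL^2 ≤ (1+2η) M SS + 100 (K LL)^2 O2`.
-/

namespace Pool.Agent.H67.VU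

open Finset Pool.Agent.H67.VS Pool.Agent.H67.VT

/-- pointwise bound for `gz` -/
private theorem gsq3_pt (ρ : ℕ → ℝ) (L H q x : ℕ) {η : ℝ} (hη : 0 < η) (hq : 2 ≤ q) (hHq : H < q) :
    gz ρ L H q x ^ 2 ≤ 1 / ((q : ℝ) - 1) ^ 2 *
      ((1 + 1 / η) * (H * ∑ h ∈ Icc 1 H, FF ρ L x (h : ℤ) ^ 2) +
      (1 + η) * ((q : ℝ) ^ 2 * ∑ h ∈ Icc 1 H,
        (if (q : ℤ) ∣ (x : ℤ) + (h : ℤ) then FF ρ L x (h : ℤ) ^ 2 else 0))) := by
  have hq2 : (2 : ℝ) ≤ q := by exact_mod_cast hq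
  have hq1 : (0 : ℝ) < (q : ℝ) - 1 := by linarith
  set Φ : ℝ := ∑ h ∈ Icc 1 H, FF ρ L x (h : ℤ) with hΦ
  set Φq : ℝ := ∑ h ∈ Icc 1 H, (if (q : ℤ) ∣ (x : ℤ) + (h : ℤ) then FF ρ L x (h : ℤ) else 0)
    with hΦq
  have e1 : gz ρ L H q x = (Φ - q * Φq) / ((q : ℝ) - 1) := by
    unfold gz gk
    rw [hΦ, hΦq, mul_sum, ← sum_sub_distrib, sum_div]
    refine sum_congr rfl fun h _ => ?_
    split_ifs
    · field_simp
    · rw [sub_zero, mul_zero, sub_zero, mul_one_div]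
  have e2 : Φ ^ 2 ≤ H * ∑ h ∈ Icc 1 H, FF ρ L x (h : ℤ) ^ 2 := by
    have := sq_sum_le_card_mul_sum_sq (s := Icc 1 H) (f := fun h : ℕ => FF ρ L x (h : ℤ))
    rw [Nat.card_Icc, Nat.add_sub_cancel] at this
    exact this
  have e3 : Φq ^ 2 = ∑ h ∈ Icc 1 H,
      (if (q : ℤ) ∣ (x : ℤ) + (h : ℤ) then FF ρ L x (h : ℤ) ^ 2 else 0) := by
    by_cases hex : ∃ h₀ ∈ Icc 1 H, (q : ℤ) ∣ (x : ℤ) + (h₀ : ℤ)
    · obtain ⟨h₀, hh₀, hd₀⟩ := hex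
      have huniq : ∀ h ∈ Icc 1 H, h ≠ h₀ → ¬ (q : ℤ) ∣ (x : ℤ) + (h : ℤ) := by
        intro h hh hne hd
        have h1 : (q : ℤ) ∣ (h : ℤ) - (h₀ : ℤ) := by
          have := dvd_sub hd hd₀
          have e : (x : ℤ) + (h : ℤ) - ((x : ℤ) + (h₀ : ℤ)) = (h : ℤ) - (h₀ : ℤ) := by ring
          rwa [e] at this
        rw [mem_Icc] at hh hh₀
        have h2 : (h : ℤ) - (h₀ : ℤ) = 0 := by
          apply Int.eq_zero_of_abs_lt_dvd h1
          rw [abs_lt]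
          constructor <;> omega
        apply hne
        omega
      rw [hΦq, sum_eq_single h₀, sum_eq_single h₀]
      · rw [if_pos hd₀, if_pos hd₀]
      · intro h hh hne
        rw [if_neg (huniq h hh hne)]
      · intro hh
        exact absurd hh₀ hh
      · intro h hh hne
        rw [if_neg (huniq h hh hne)]
      · intro hh
        exact absurd hh₀ hh
    · push Not at hex
      rw [hΦq, sum_eq_zero, sum_eq_zero]
      · norm_num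
      · intro h hh
        rw [if_neg (hex h hh)]
      · intro h hh
        rw [if_neg (hex h hh)]
  rw [e1, div_pow, ← e3, one_div_mul_eq_div]
  refine div_le_div_of_nonneg_right ?_ (by positivity)
  have e4 : (Φ - q * Φq) ^ 2 ≤ (1 + 1 / η) * Φ ^ 2 + (1 + η) * ((q : ℝ) ^ 2 * Φq ^ 2) := by
    have h5 : (1 + 1 / η) * Φ ^ 2 + (1 + η) * ((q : ℝ) ^ 2 * Φq ^ 2) - (Φ - q * Φq) ^ 2 =
        1 / η * (Φ + η * (q * Φq)) ^ 2 := by
      field_simp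
      ring
    have h6 : 0 ≤ 1 / η * (Φ + η * (q * Φq)) ^ 2 := by positivity
    linarith
  have h7 : 0 ≤ 1 + 1 / η := by positivity
  have h8 := mul_le_mul_of_nonneg_left e2 h7
  linarith

private theorem gsq3_om {G : ℕ} {om : ℕ → ℝ} (hom : ∀ h ∈ Icc 1 G, 0 < om h) (E : ℝ) (hE : 0 ≤ E) :
    ∑ h ∈ Icc 1 G, ∑ h' ∈ Icc 1 G, om (max h h') ^ 2 * E ≤ E * O2 G om := by
  rw [cov3_max]
  unfold O2
  rw [mul_sum]
  refine sum_le_sum fun m hm => ?_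
  have hm' := mem_Icc.1 hm
  have a1 : ∀ k ∈ Ico 1 m, om (max (m - k) m) ^ 2 * E + om (max m (m - k)) ^ 2 * E =
      2 * (om m ^ 2 * E) := by
    intro k hk
    have m1 : max (m - k) m = m := max_eq_right (Nat.sub_le _ _)
    have m2 : max m (m - k) = m := max_eq_left (Nat.sub_le _ _)
    rw [m1, m2]
    ring
  rw [sum_congr rfl a1, sum_const, Nat.card_Ico, nsmul_eq_mul, max_self, Nat.cast_sub hm'.1]
  have a2 : 0 ≤ om m ^ 2 * E := by positivity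
  push_cast
  nlinarith

private theorem gsq3_om1 {G : ℕ} {om : ℕ → ℝ} : ∑ h ∈ Icc 1 G, om h ^ 2 ≤ O2 G om := by
  unfold O2
  refine sum_le_sum fun m hm => ?_
  have hm' := mem_Icc.1 hm
  have h1 : (1 : ℝ) ≤ m := by exact_mod_cast hm'.1
  have h2 : 0 ≤ om m ^ 2 := sq_nonneg _
  nlinarith

/-- diagonal terms -/
private theorem gsq3_diag {U V G L q : ℕ} {H : ℕ → ℕ} {lam om ρ : ℕ → ℝ} {K s η : ℝ}
    (hF : FW U V G H lam om) (hρ : SV L q K s ρ) (hG : 1 ≤ G) (hη : 0 < η) (hη1 : η ≤ 1)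
    (hq : q.Prime) (hGq : G < q) (hb : 2 * (1 + 1 / η) * G ≤ η * ((q : ℝ) - 1)) :
    ∑ n ∈ Ioc U V, lam n ^ 2 * gz ρ L (H n) q n ^ 2 ≤
      (1 + 2 * η) * (s / ((q : ℝ) - 1) * ∑ n ∈ Ioc U V, lam n ^ 2 * H n) +
        20 * ((L : ℝ) * K) ^ 2 * O2 G om := by
  have hF2 := fw_sq hF
  have hq2 : (2 : ℝ) ≤ q := by exact_mod_cast hq.two_le
  have hq1 : (0 : ℝ) < (q : ℝ) - 1 := by linarith
  have hG1 : (1 : ℝ) ≤ G := by exact_mod_cast hG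
  have hs : 0 ≤ s := hρ.nn
  have hη' : 0 < 1 / η := by positivity
  have hη1' : 1 ≤ 1 / η := by rw [le_div_iff₀ hη]; linarith
  obtain ⟨M, hM⟩ : ∃ M : ℝ, M = ∑ n ∈ Ioc U V, lam n ^ 2 * H n := ⟨_, rfl⟩
  have hM0 : 0 ≤ M := by
    rw [hM]
    exact sum_nonneg fun n _ => by positivity
  obtain ⟨Ω, hΩ⟩ : ∃ Ω : ℝ, Ω = ∑ h ∈ Icc 1 G, om h ^ 2 := ⟨_, rfl⟩
  have hΩ0 : 0 ≤ Ω := by
    rw [hΩ]
    exact sum_nonneg fun n _ => sq_nonneg _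
  have hΩ2 : Ω ≤ O2 G om := hΩ.trans_le gsq3_om1
  have hmass : ∑ h ∈ Icc 1 G, om h ^ 2 *
      mass U V (wl U V H (fun n => lam n ^ 2) (fun h => om h ^ 2) h) = M := by
    rw [hM]
    exact wl_one hF2
  have h1 : ∑ n ∈ Ioc U V, lam n ^ 2 * gz ρ L (H n) q n ^ 2 ≤
      1 / ((q : ℝ) - 1) ^ 2 *
        ((1 + 1 / η) * (G * ∑ n ∈ Ioc U V, lam n ^ 2 * ∑ h ∈ Icc 1 (H n),
          FF ρ L n (h : ℤ) ^ 2) +
        (1 + η) * ((q : ℝ) ^ 2 * ∑ n ∈ Ioc U V, lam n ^ 2 * ∑ h ∈ Icc 1 (H n),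
        (if (q : ℤ) ∣ (n : ℤ) + (h : ℤ) then FF ρ L n (h : ℤ) ^ 2 else 0))) := by
    rw [mul_sum, mul_sum, mul_sum, mul_sum, ← sum_add_distrib, mul_sum]
    refine sum_le_sum fun n hn => ?_
    have hn' := mem_Ioc.1 hn
    have hHG : H n ≤ G := hF.HG n ⟨hn'.1.le, hn'.2⟩
    have hHGr : (H n : ℝ) ≤ G := by exact_mod_cast hHG
    have h2 := gsq3_pt ρ L (H n) q n hη hq.two_le (lt_of_le_of_lt hHG hGq)
    have h3 : 0 ≤ ∑ h ∈ Icc 1 (H n), FF ρ L n (h : ℤ) ^ 2 := sum_nonneg fun _ _ => sq_nonneg _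
    have h4 : (H n : ℝ) * ∑ h ∈ Icc 1 (H n), FF ρ L n (h : ℤ) ^ 2 ≤
        G * ∑ h ∈ Icc 1 (H n), FF ρ L n (h : ℤ) ^ 2 := mul_le_mul_of_nonneg_right hHGr h3
    have h5 : gz ρ L (H n) q n ^ 2 ≤ 1 / ((q : ℝ) - 1) ^ 2 *
      ((1 + 1 / η) * (G * ∑ h ∈ Icc 1 (H n), FF ρ L n (h : ℤ) ^ 2) +
      (1 + η) * ((q : ℝ) ^ 2 * ∑ h ∈ Icc 1 (H n),
        (if (q : ℤ) ∣ (n : ℤ) + (h : ℤ) then FF ρ L n (h : ℤ) ^ 2 else 0))) := by
      refine h2.trans ?_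
      refine mul_le_mul_of_nonneg_left ?_ (by positivity)
      have := mul_le_mul_of_nonneg_left h4 (show 0 ≤ 1 + 1 / η by positivity)
      linarith
    refine (mul_le_mul_of_nonneg_left h5 (sq_nonneg (lam n))).trans (le_of_eq ?_)
    ring
  have h2 : ∑ n ∈ Ioc U V, lam n ^ 2 * ∑ h ∈ Icc 1 (H n), FF ρ L n (h : ℤ) ^ 2 ≤
      M * s + 4 * ((L : ℝ) * K) ^ 2 * Ω := by
    have e := wl_sum hF2 (fun h n => FF ρ L n (h : ℤ) ^ 2)
    rw [e]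
    have h0 : ∀ h ∈ Icc 1 G, om h ^ 2 * ∑ n ∈ Ioc U V,
        wl U V H (fun n => lam n ^ 2) (fun h => om h ^ 2) h n * FF ρ L n (h : ℤ) ^ 2 ≤
        om h ^ 2 * (mass U V (wl U V H (fun n => lam n ^ 2) (fun h => om h ^ 2) h) * s +
          4 * ((L : ℝ) * K) ^ 2) := fun h hh =>
      mul_le_mul_of_nonneg_left (F_sq2 (wl_wt hF2 h hh) hF.UV hρ (h : ℤ)) (sq_nonneg _)
    refine (sum_le_sum h0).trans (le_of_eq ?_)
    simp only [mul_add]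
    rw [sum_add_distrib, ← sum_mul, ← hΩ]
    have : ∑ h ∈ Icc 1 G, om h ^ 2 *
        (mass U V (wl U V H (fun n => lam n ^ 2) (fun h => om h ^ 2) h) * s) =
        (∑ h ∈ Icc 1 G, om h ^ 2 *
          mass U V (wl U V H (fun n => lam n ^ 2) (fun h => om h ^ 2) h)) * s := by
      rw [sum_mul]
      exact sum_congr rfl fun h _ => by ring
    rw [this, hmass]
    ring
  have h3 : ∑ n ∈ Ioc U V, lam n ^ 2 * ∑ h ∈ Icc 1 (H n),
        (if (q : ℤ) ∣ (n : ℤ) + (h : ℤ) then FF ρ L n (h : ℤ) ^ 2 else 0) ≤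
      M * s / q + 4 * ((L : ℝ) * K) ^ 2 * Ω := by
    have e := wl_sum hF2 (fun h n => if (q : ℤ) ∣ (n : ℤ) + (h : ℤ) then FF ρ L n (h : ℤ) ^ 2 else 0)
    rw [e]
    have h0 : ∀ h ∈ Icc 1 G, om h ^ 2 * ∑ n ∈ Ioc U V,
        wl U V H (fun n => lam n ^ 2) (fun h => om h ^ 2) h n *
          (if (q : ℤ) ∣ (n : ℤ) + (h : ℤ) then FF ρ L n (h : ℤ) ^ 2 else 0) ≤
        om h ^ 2 * (mass U V (wl U V H (fun n => lam n ^ 2) (fun h => om h ^ 2) h) * s / q +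
          4 * ((L : ℝ) * K) ^ 2) := by
      intro h hh
      refine mul_le_mul_of_nonneg_left ?_ (sq_nonneg _)
      refine le_trans (le_of_eq ?_) (F_sq_q2 (wl_wt hF2 h hh) hF.UV hρ hq (h : ℤ))
      refine sum_congr rfl fun n _ => ?_
      split_ifs
      · rfl
      · rw [mul_zero]
    refine (sum_le_sum h0).trans (le_of_eq ?_)
    simp only [mul_add]
    rw [sum_add_distrib, ← sum_mul, ← hΩ]
    have : ∑ h ∈ Icc 1 G, om h ^ 2 *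
        (mass U V (wl U V H (fun n => lam n ^ 2) (fun h => om h ^ 2) h) * s / q) =
        (∑ h ∈ Icc 1 G, om h ^ 2 *
          mass U V (wl U V H (fun n => lam n ^ 2) (fun h => om h ^ 2) h)) * s / q := by
      rw [sum_mul, sum_div]
      exact sum_congr rfl fun h _ => by ring
    rw [this, hmass]
    ring
  refine h1.trans ?_
  rw [← hM]
  obtain ⟨E, hE⟩ : ∃ E : ℝ, E = 4 * ((L : ℝ) * K) ^ 2 * Ω := ⟨_, rfl⟩
  have hE0 : 0 ≤ E := by rw [hE]; positivity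
  rw [← hE] at h2 h3
  obtain ⟨W, hWd⟩ : ∃ W : ℝ, W = M * s := ⟨_, rfl⟩
  have hW0 : 0 ≤ W := by rw [hWd]; exact mul_nonneg hM0 hs
  rw [← hWd] at h2 h3
  have h4 : 1 / ((q : ℝ) - 1) ^ 2 *
        ((1 + 1 / η) * (G * ∑ n ∈ Ioc U V, lam n ^ 2 * ∑ h ∈ Icc 1 (H n),
          FF ρ L n (h : ℤ) ^ 2) +
        (1 + η) * ((q : ℝ) ^ 2 * ∑ n ∈ Ioc U V, lam n ^ 2 * ∑ h ∈ Icc 1 (H n),
        (if (q : ℤ) ∣ (n : ℤ) + (h : ℤ) then FF ρ L n (h : ℤ) ^ 2 else 0))) ≤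
      1 / ((q : ℝ) - 1) ^ 2 * ((1 + 1 / η) * (G * (W + E)) +
        (1 + η) * ((q : ℝ) ^ 2 * (W / q + E))) := by
    gcongr
  refine h4.trans ?_
  set u : ℝ := 1 / ((q : ℝ) - 1) with hu
  have hu0 : 0 < u := by positivity
  have huq : u * ((q : ℝ) - 1) = 1 := by rw [hu]; field_simp
  have hv : (q : ℝ) * u = 1 + u := by
    have : (q : ℝ) * u = u * ((q : ℝ) - 1) + u := by ring
    rw [this, huq]
  have hu2 : 1 / ((q : ℝ) - 1) ^ 2 = u ^ 2 := by rw [hu, div_pow, one_pow]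
  have hc1 : (1 + 1 / η) * (G * u) ≤ η / 2 := by
    have h5 : 2 * (1 + 1 / η) * G * u ≤ η * ((q : ℝ) - 1) * u :=
      mul_le_mul_of_nonneg_right hb hu0.le
    have h6 : η * ((q : ℝ) - 1) * u = η := by
      have : η * ((q : ℝ) - 1) * u = η * (u * ((q : ℝ) - 1)) := by ring
      rw [this, huq, mul_one]
    nlinarith
  have hu4 : u ≤ η / 4 := by
    have h5 : 2 * u ≤ (1 + 1 / η) * (G * u) := by
      have h6 : u ≤ G * u := by nlinarith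
      have h7 : 2 * (G * u) ≤ (1 + 1 / η) * (G * u) := by
        apply mul_le_mul_of_nonneg_right _ (by positivity)
        linarith
      linarith
    linarith
  have e3 : 1 / ((q : ℝ) - 1) ^ 2 * ((1 + 1 / η) * (G * (W + E)) +
        (1 + η) * ((q : ℝ) ^ 2 * (W / q + E))) =
      W * u * ((1 + 1 / η) * (G * u) + (1 + η) * (q * u)) +
      E * (u * ((1 + 1 / η) * (G * u)) + (1 + η) * (q * u) ^ 2) := by
    rw [hu2]
    have hq0 : (q : ℝ) ≠ 0 := by linarith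
    field_simp
    ring
  have e5 : E * 5 ≤ 20 * ((L : ℝ) * K) ^ 2 * O2 G om := by
    rw [hE]
    have h0 : 0 ≤ 20 * ((L : ℝ) * K) ^ 2 := by positivity
    have := mul_le_mul_of_nonneg_left hΩ2 h0
    linarith
  have e4 : (1 + 2 * η) * (s / ((q : ℝ) - 1) * M) = W * u * (1 + 2 * η) := by
    rw [hWd, hu]
    ring
  rw [e3, e4, hv]
  have f1 : (1 + 1 / η) * (G * u) + (1 + η) * (1 + u) ≤ 1 + 2 * η := by
    nlinarith
  have f2 : u * ((1 + 1 / η) * (G * u)) + (1 + η) * (1 + u) ^ 2 ≤ 5 := by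
    have g1 : u ≤ 1 / 4 := by linarith
    have g2 : u * ((1 + 1 / η) * (G * u)) ≤ 1 / 4 * (1 / 2) := by
      have : (1 + 1 / η) * (G * u) ≤ 1 / 2 := by linarith
      exact mul_le_mul g1 this (by positivity) (by norm_num)
    have g3 : (1 + u) ^ 2 ≤ (5 / 4) ^ 2 := by
      apply pow_le_pow_left₀ (by linarith)
      linarith
    have g4 : (1 + η) * (1 + u) ^ 2 ≤ 2 * (5 / 4) ^ 2 :=
      mul_le_mul (by linarith) g3 (by positivity) (by norm_num)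
    linarith
  have g5 : 0 ≤ W * u := by positivity
  have g7 := mul_le_mul_of_nonneg_left f1 g5
  have g8 := mul_le_mul_of_nonneg_left f2 hE0
  linarith

theorem gsq3 {U V G D : ℕ} {H : ℕ → ℕ} {lam om : ℕ → ℝ} {ρ : ℕ → ℕ → ℝ} {s : ℕ → ℝ} {K η : ℝ}
    {Q : Finset ℕ} (hF : FW U V G H lam om) (hG : 1 ≤ G) (hη : 0 < η) (hη1 : η ≤ 1)
    (hρ : ∀ q ∈ Q, SV (D / q) q K (s q) (ρ q))
    (hQ : ∀ q ∈ Q, q.Prime ∧ G < q ∧ 2 * (1 + 1 / η) * G ≤ η * ((q : ℝ) - 1)) :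
    ∑ n ∈ Ioc U V, lam n ^ 2 * gg ρ D Q (H n) n ^ 2 ≤
      (1 + 2 * η) * (SS s Q * ∑ n ∈ Ioc U V, lam n ^ 2 * H n) +
        100 * (K * LL D Q) ^ 2 * O2 G om := by
  have hF2 := fw_sq hF
  have hO2 : 0 ≤ O2 G om := by
    unfold O2
    exact sum_nonneg fun m _ => by positivity
  obtain ⟨M, hM⟩ : ∃ M : ℝ, M = ∑ n ∈ Ioc U V, lam n ^ 2 * H n := ⟨_, rfl⟩
  have e1 : ∑ n ∈ Ioc U V, lam n ^ 2 * gg ρ D Q (H n) n ^ 2 =
      ∑ q ∈ Q, ∑ q' ∈ Q, ∑ n ∈ Ioc U V,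
        lam n ^ 2 * (gz (ρ q) (D / q) (H n) q n * gz (ρ q') (D / q') (H n) q' n) := by
    have e2 : ∀ n ∈ Ioc U V, lam n ^ 2 * gg ρ D Q (H n) n ^ 2 =
        ∑ q ∈ Q, ∑ q' ∈ Q,
          lam n ^ 2 * (gz (ρ q) (D / q) (H n) q n * gz (ρ q') (D / q') (H n) q' n) := by
      intro n _
      rw [gg_eq, sq (∑ q ∈ Q, gz (ρ q) (D / q) (H n) q n), sum_mul_sum, mul_sum]
      refine sum_congr rfl fun q _ => ?_
      rw [mul_sum]
    rw [sum_congr rfl e2, sum_comm]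
    refine sum_congr rfl fun q _ => ?_
    rw [sum_comm]
  have e2 : ∀ q ∈ Q, ∀ q' ∈ Q, ∑ n ∈ Ioc U V,
        lam n ^ 2 * (gz (ρ q) (D / q) (H n) q n * gz (ρ q') (D / q') (H n) q' n) ≤
      (if q = q' then (1 + 2 * η) * (s q / ((q : ℝ) - 1) * M) +
        20 * (((D / q : ℕ) : ℝ) * K) ^ 2 * O2 G om else 0) +
        36 * (((D / q : ℕ) : ℝ) * K) * (((D / q' : ℕ) : ℝ) * K) * O2 G om := by
    intro q hq q' hq'
    by_cases hqq : q = q'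
    · subst hqq
      rw [if_pos rfl]
      have h1 := gsq3_diag hF (hρ q hq) hG hη hη1 (hQ q hq).1 (hQ q hq).2.1 (hQ q hq).2.2
      have h2 : ∑ n ∈ Ioc U V,
          lam n ^ 2 * (gz (ρ q) (D / q) (H n) q n * gz (ρ q) (D / q) (H n) q n) =
          ∑ n ∈ Ioc U V, lam n ^ 2 * gz (ρ q) (D / q) (H n) q n ^ 2 := by
        refine sum_congr rfl fun x _ => ?_
        rw [sq (gz (ρ q) (D / q) (H x) q x)]
      rw [h2]
      rw [← hM] at h1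
      have h3 : 0 ≤ 36 * (((D / q : ℕ) : ℝ) * K) * (((D / q : ℕ) : ℝ) * K) * O2 G om := by
        have : 36 * (((D / q : ℕ) : ℝ) * K) * (((D / q : ℕ) : ℝ) * K) * O2 G om =
            36 * (((D / q : ℕ) : ℝ) * K) ^ 2 * O2 G om := by ring
        rw [this]
        positivity
      linarith
    · rw [if_neg hqq, zero_add]
      have hK0 : 0 ≤ K := gsqA2_K (hρ q hq)
      have e3 : ∑ n ∈ Ioc U V,
          lam n ^ 2 * (gz (ρ q) (D / q) (H n) q n * gz (ρ q') (D / q') (H n) q' n) =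
          ∑ h ∈ Icc 1 G, ∑ h' ∈ Icc 1 G, om (max h h') ^ 2 *
            ∑ n ∈ Ioc U V, wl U V H (fun n => lam n ^ 2) (fun h => om h ^ 2) (max h h') n *
              (gk (ρ q) (D / q) q n (h : ℤ) * gk (ρ q') (D / q') q' n (h' : ℤ)) := by
        have e := wl_sum2 hF2 (fun h h' n =>
          gk (ρ q) (D / q) q n (h : ℤ) * gk (ρ q') (D / q') q' n (h' : ℤ))
        rw [← e]
        refine sum_congr rfl fun n _ => ?_
        unfold gz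
        rw [sum_mul_sum]
      rw [e3]
      have h4 : ∀ h ∈ Icc 1 G, ∀ h' ∈ Icc 1 G, om (max h h') ^ 2 *
            ∑ n ∈ Ioc U V, wl U V H (fun n => lam n ^ 2) (fun h => om h ^ 2) (max h h') n *
              (gk (ρ q) (D / q) q n (h : ℤ) * gk (ρ q') (D / q') q' n (h' : ℤ)) ≤
          om (max h h') ^ 2 * (36 * (((D / q : ℕ) : ℝ) * K) * (((D / q' : ℕ) : ℝ) * K)) := by
        intro h hh h' hh'
        have hm : max h h' ∈ Icc 1 G := by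
          rw [mem_Icc] at hh hh' ⊢
          omega
        refine mul_le_mul_of_nonneg_left ?_ (sq_nonneg _)
        exact (le_abs_self _).trans (gk_orth3 (wl_wt hF2 _ hm) hF.UV (hρ q hq) (hρ q' hq')
          (hQ q hq).1 (hQ q' hq').1 hqq (h : ℤ) (h' : ℤ))
      refine (sum_le_sum fun h hh => sum_le_sum fun h' hh' => h4 h hh h' hh').trans ?_
      exact gsq3_om hF.om0 _ (by positivity)
  rw [e1]
  refine (sum_le_sum fun q hq => sum_le_sum fun q' hq' => e2 q hq q' hq').trans ?_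
  have e3 : ∑ q ∈ Q, ∑ q' ∈ Q,
      ((if q = q' then (1 + 2 * η) * (s q / ((q : ℝ) - 1) * M) +
        20 * (((D / q : ℕ) : ℝ) * K) ^ 2 * O2 G om else 0) +
        36 * (((D / q : ℕ) : ℝ) * K) * (((D / q' : ℕ) : ℝ) * K) * O2 G om) =
      (1 + 2 * η) * (SS s Q * M) +
        20 * K ^ 2 * O2 G om * (∑ q ∈ Q, ((D / q : ℕ) : ℝ) ^ 2) +
        36 * K ^ 2 * O2 G om * LL D Q ^ 2 := by
    have h1 : ∀ q ∈ Q, ∑ q' ∈ Q,
        ((if q = q' then (1 + 2 * η) * (s q / ((q : ℝ) - 1) * M) +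
          20 * (((D / q : ℕ) : ℝ) * K) ^ 2 * O2 G om else 0) +
          36 * (((D / q : ℕ) : ℝ) * K) * (((D / q' : ℕ) : ℝ) * K) * O2 G om) =
        (1 + 2 * η) * M * (s q / ((q : ℝ) - 1)) +
          20 * K ^ 2 * O2 G om * ((D / q : ℕ) : ℝ) ^ 2 +
            36 * K ^ 2 * O2 G om * LL D Q * ((D / q : ℕ) : ℝ) := by
      intro q hq
      have a1 : ∑ q' ∈ Q, 36 * (((D / q : ℕ) : ℝ) * K) * (((D / q' : ℕ) : ℝ) * K) * O2 G om =
          36 * K ^ 2 * O2 G om * LL D Q * ((D / q : ℕ) : ℝ) := by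
        unfold LL
        rw [mul_sum, sum_mul]
        exact sum_congr rfl fun q' _ => by ring
      rw [sum_add_distrib, sum_ite_eq, if_pos hq, a1]
      ring
    rw [sum_congr rfl h1, sum_add_distrib, sum_add_distrib, ← mul_sum, ← mul_sum, ← mul_sum]
    unfold SS LL
    ring
  rw [e3, ← hM]
  have h1 : ∑ q ∈ Q, ((D / q : ℕ) : ℝ) ^ 2 ≤ LL D Q ^ 2 := by
    unfold LL
    rw [sq (∑ q ∈ Q, ((D / q : ℕ) : ℝ)), sum_mul]
    refine sum_le_sum fun q hq => ?_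
    rw [sq]
    refine mul_le_mul_of_nonneg_left ?_ (Nat.cast_nonneg _)
    exact single_le_sum (f := fun q => ((D / q : ℕ) : ℝ)) (fun i _ => Nat.cast_nonneg _) hq
  have h2 : (0 : ℝ) ≤ 20 * K ^ 2 * O2 G om := by positivity
  have h3 := mul_le_mul_of_nonneg_left h1 h2
  have h5 : 0 ≤ K ^ 2 * O2 G om * LL D Q ^ 2 := by positivity
  have e5 : 100 * (K * LL D Q) ^ 2 * O2 G om = 100 * (K ^ 2 * O2 G om * LL D Q ^ 2) := by
    ring
  rw [e5]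
  nlinarith

end Pool.Agent.H67.VU
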