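import Pool.Agent.H67.VU.Pv

/-!
[H67 VU KF]  The short character sums with a coprimality condition.

Proof.  `[(k,f) = 1] = ∑_{e ∣ k, e ∣ f} μ(e)`, so
`KS m f χ = ∑_{e ∣ f} μ(e) χ(e) ∑_{1 ≤ l, e l < m} χ(l)`; the inner sum is over an interval `Ioc 0 L` with
`L ≤ m`, so it is `≤ min(m, pv r)` (trivial bound, and `pv_bound`; `c ∈ PC R` means primitive and `r = c.md ≥ 2`).
-/

namespace Pool.Agent.H67.VU

open Finset Pool.Agent.H21.MT

private theorem kf_ind (k f : ℕ) (hf : 1 ≤ f) :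
    (if k.Coprime f then (1 : ℂ) else 0) =
      ∑ e ∈ f.divisors, if e ∣ k then ((ArithmeticFunction.moebius e : ℤ) : ℂ) else 0 := by
  rw [← Finset.sum_filter]
  have h1 : f.divisors.filter (fun e => e ∣ k) = (Nat.gcd k f).divisors := by
    ext e
    rw [mem_filter, Nat.mem_divisors, Nat.mem_divisors, Nat.dvd_gcd_iff]
    have hg : Nat.gcd k f ≠ 0 := Nat.gcd_ne_zero_right (by omega)
    constructor
    · rintro ⟨⟨h1, h2⟩, h3⟩
      exact ⟨⟨h3, h1⟩, hg⟩
    · rintro ⟨⟨h1, h2⟩, h3⟩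
      exact ⟨⟨h2, by omega⟩, h1⟩
  rw [h1]
  have h2 : ∑ d ∈ (Nat.gcd k f).divisors, ArithmeticFunction.moebius d =
      if Nat.gcd k f = 1 then 1 else 0 := by
    rw [← ArithmeticFunction.coe_zeta_mul_apply, ArithmeticFunction.coe_zeta_mul_moebius,
      ArithmeticFunction.one_apply]
  have h3 := congrArg (fun z : ℤ => (z : ℂ)) h2
  simp only [Int.cast_sum, Int.cast_ite, Int.cast_one, Int.cast_zero] at h3
  rw [h3]

theorem KS_le (R : ℕ) (c : Ch R) (hc : c ∈ PC R) (m f : ℕ) (hf : 1 ≤ f) :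
    ‖KS m f c.2‖ ≤ (f.divisors.card : ℝ) * min (m : ℝ) (pv c.md) := by
  classical
  unfold PC at hc
  rw [mem_filter] at hc
  obtain ⟨_, hprim, hmd⟩ := hc
  have hin : ∀ e ∈ f.divisors, ‖∑ k ∈ Ico 1 m,
      (if e ∣ k then ((ArithmeticFunction.moebius e : ℤ) : ℂ) * c.2 (k : ZMod (c.1.val + 1))
        else 0)‖ ≤ min (m : ℝ) (pv c.md) := by
    intro e he
    have he0 : 0 < e := Nat.pos_of_mem_divisors he
    have h1 : ∑ k ∈ Ico 1 m,
        (if e ∣ k then ((ArithmeticFunction.moebius e : ℤ) : ℂ) * c.2 (k : ZMod (c.1.val + 1))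
        else 0) = (((ArithmeticFunction.moebius e : ℤ) : ℂ) * c.2 (e : ZMod (c.1.val + 1))) *
        ∑ l ∈ Ioc 0 ((m - 1) / e), c.2 (l : ZMod (c.1.val + 1)) := by
      rw [← Finset.sum_filter, Finset.mul_sum]
      refine Finset.sum_nbij' (fun k => k / e) (fun l => e * l) ?_ ?_ ?_ ?_ ?_
      · intro k hk
        rw [mem_filter, mem_Ico] at hk
        obtain ⟨⟨h1, h2⟩, h3⟩ := hk
        rw [mem_Ioc]
        refine ⟨Nat.div_pos (Nat.le_of_dvd (by omega) h3) he0, Nat.div_le_div_right (by omega)⟩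
      · intro l hl
        rw [mem_Ioc] at hl
        rw [mem_filter, mem_Ico]
        have h2 : e * l ≤ m - 1 := by
          have := Nat.mul_div_le (m - 1) e
          have h4 : e * l ≤ e * ((m - 1) / e) := Nat.mul_le_mul_left e hl.2
          omega
        have h3 : 0 < e * l := Nat.mul_pos he0 hl.1
        exact ⟨⟨h3, by omega⟩, Dvd.intro l rfl⟩
      · intro k hk
        rw [mem_filter] at hk
        exact Nat.mul_div_cancel' hk.2
      · intro l _
        exact Nat.mul_div_cancel_left l he0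
      · intro k hk
        rw [mem_filter] at hk
        obtain ⟨l, hl⟩ := hk.2
        rw [hl, Nat.mul_div_cancel_left l he0, Nat.cast_mul, map_mul]
        ring
    rw [h1, norm_mul, norm_mul]
    have h2 : ‖((ArithmeticFunction.moebius e : ℤ) : ℂ)‖ ≤ 1 := by
      have h3 := ArithmeticFunction.abs_moebius_le_one (n := e)
      rw [Complex.norm_intCast]
      exact_mod_cast h3
    have h3 : ‖c.2 (e : ZMod (c.1.val + 1))‖ ≤ 1 := DirichletCharacter.norm_le_one _ _
    have h4 : ‖∑ l ∈ Ioc 0 ((m - 1) / e), c.2 (l : ZMod (c.1.val + 1))‖ ≤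
        min (m : ℝ) (pv c.md) := by
      apply le_min
      · calc ‖∑ l ∈ Ioc 0 ((m - 1) / e), c.2 (l : ZMod (c.1.val + 1))‖
            ≤ ∑ l ∈ Ioc 0 ((m - 1) / e), ‖c.2 (l : ZMod (c.1.val + 1))‖ := norm_sum_le _ _
          _ ≤ ∑ _l ∈ Ioc 0 ((m - 1) / e), (1 : ℝ) :=
              Finset.sum_le_sum fun l _ => DirichletCharacter.norm_le_one _ _
          _ = (((m - 1) / e : ℕ) : ℝ) := by simp
          _ ≤ (m : ℝ) := by
              have : (m - 1) / e ≤ m := (Nat.div_le_self _ _).trans (Nat.sub_le _ _)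
              exact_mod_cast this
      · exact pv_bound c.2 hprim hmd 0 _
    have h5 : ‖((ArithmeticFunction.moebius e : ℤ) : ℂ)‖ * ‖c.2 (e : ZMod (c.1.val + 1))‖ ≤ 1 := by
      calc _ ≤ (1 : ℝ) * 1 := mul_le_mul h2 h3 (norm_nonneg _) zero_le_one
        _ = 1 := one_mul 1
    calc _ ≤ 1 * ‖∑ l ∈ Ioc 0 ((m - 1) / e), c.2 (l : ZMod (c.1.val + 1))‖ :=
          mul_le_mul_of_nonneg_right h5 (norm_nonneg _)
      _ ≤ _ := by
          rw [one_mul]
          exact h4
  have hKS : KS m f c.2 = ∑ e ∈ f.divisors, ∑ k ∈ Ico 1 m,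
      (if e ∣ k then ((ArithmeticFunction.moebius e : ℤ) : ℂ) * c.2 (k : ZMod (c.1.val + 1))
        else 0) := by
    rw [Finset.sum_comm]
    unfold KS
    refine Finset.sum_congr rfl fun k _ => ?_
    have h1 := kf_ind k f hf
    have h2 : (if k.Coprime f then c.2 (k : ZMod (c.1.val + 1)) else 0) =
        (if k.Coprime f then (1 : ℂ) else 0) * c.2 (k : ZMod (c.1.val + 1)) := by
      split_ifs
      · rw [one_mul]
      · rw [zero_mul]
    rw [h2, h1, Finset.sum_mul]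
    refine Finset.sum_congr rfl fun e _ => ?_
    split_ifs
    · rfl
    · rw [zero_mul]
  rw [hKS]
  refine (norm_sum_le _ _).trans ?_
  refine (Finset.sum_le_sum hin).trans ?_
  rw [Finset.sum_const, nsmul_eq_mul]

end Pool.Agent.H67.VU
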