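import Pool.Agent.H67.VT.Split
import Pool.Agent.H67.VU.Defs

/-!
[H67 VU SPLIT3]  Off-diagonal terms: reduction to the relative discrepancies `EE`.

Proof.  As `VT.split_bound2` in `Pool/Agent/H67/VT/Split.lean` (copy its private lemmas `sp_sum`, `sp_th`, `sp_harm`; they hold for the
weight `onef` with the same proof: `0 ≤ w ≤ 1` is all that is used): for each `k`
`∑_n pl n bq(n,k) = - ∑_q ∑_d ρ_q(d)/(q-1)^2 th d k - ∑_q ∑_d ρ_q(d) q/(q-1) EE d q k`,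
sum over `k` and `-k`, `1 ≤ k < m`: `2m` values of the first kind (each `≤ K log B B (2 + log B) ∑ 1/(q-1)^2`).
-/

namespace Pool.Agent.H67.VU

open Finset Pool.Agent.H67.VS Pool.Agent.H67.VT

private theorem sp3_dvd {D d q : ℕ} (hd : d ∈ DD D q) (hq : q.Prime)
    (m : ℤ) : (((d * q : ℕ) : ℤ) ∣ m) ↔ ((d : ℤ) ∣ m ∧ (q : ℤ) ∣ m) := by
  unfold DD at hd
  rw [mem_filter, mem_Icc] at hd
  have hcop : Nat.Coprime d q := by
    rw [Nat.coprime_comm, Nat.Prime.coprime_iff_not_dvd hq]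
    intro h
    have := hd.2 q (Nat.mem_primeFactors.2 ⟨hq, h, by omega⟩)
    omega
  constructor
  · intro h
    rw [Nat.cast_mul] at h
    exact ⟨(Dvd.intro _ rfl).trans h, (Dvd.intro_left _ rfl).trans h⟩
  · rintro ⟨h1, h2⟩
    rw [Nat.cast_mul]
    exact IsCoprime.mul_dvd (Nat.isCoprime_iff_coprime.2 hcop) h1 h2

private theorem sp3_FF {D q : ℕ} {K s : ℝ} {ρ : ℕ → ℝ} (hρ : SV (D / q) q K s ρ) (n : ℕ) (k : ℤ) :
    FF ρ (D / q) n k = ∑ d ∈ DD D q, if (d : ℤ) ∣ (n : ℤ) + k then ρ d else 0 := by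
  unfold FF
  symm
  refine Finset.sum_subset ?_ ?_
  · unfold DD
    exact filter_subset _ _
  · intro d hd hd'
    have h0 : ρ d = 0 := by
      by_contra h
      apply hd'
      unfold DD
      rw [mem_filter]
      exact ⟨hd, fun p hp => hρ.small d h p hp⟩
    rw [h0, ite_self]

private theorem sp3_bq {D : ℕ} {ρ : ℕ → ℕ → ℝ} {s : ℕ → ℝ} {K : ℝ} {Q : Finset ℕ}
    (hρ : ∀ q ∈ Q, SV (D / q) q K (s q) (ρ q)) (hQ : ∀ q ∈ Q, q.Prime ∧ q ≤ D)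
    (n : ℕ) (k : ℤ) :
    bq ρ D Q n k = ∑ q ∈ Q, ∑ d ∈ DD D q, ρ q d / ((q : ℝ) - 1) *
      ((if (d : ℤ) ∣ (n : ℤ) + k then (1 : ℝ) else 0) -
        (q : ℝ) * (if ((d * q : ℕ) : ℤ) ∣ (n : ℤ) + k then (1 : ℝ) else 0)) := by
  unfold bq gk
  refine sum_congr rfl fun q hq => ?_
  rw [sp3_FF (hρ q hq), sum_mul]
  refine sum_congr rfl fun d hd => ?_
  have h1 := sp3_dvd hd (hQ q hq).1 ((n : ℤ) + k)
  by_cases hA : (d : ℤ) ∣ (n : ℤ) + k
  · by_cases hB : (q : ℤ) ∣ (n : ℤ) + k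
    · rw [if_pos hA, if_pos hB, if_pos hA, if_pos (h1.2 ⟨hA, hB⟩)]
      ring
    · rw [if_pos hA, if_neg hB, if_pos hA, if_neg (fun h => hB (h1.1 h).2)]
      ring
  · rw [if_neg hA, if_neg hA, if_neg (fun h => hA (h1.1 h).1)]
    ring

private theorem sp3_sum {A B D : ℕ} {w : ℕ → ℝ} {ρ : ℕ → ℕ → ℝ} {s : ℕ → ℝ} {K : ℝ} {Q : Finset ℕ}
    (hρ : ∀ q ∈ Q, SV (D / q) q K (s q) (ρ q)) (hQ : ∀ q ∈ Q, q.Prime ∧ q ≤ D) (k : ℤ) :
    ∑ n ∈ Ioc A B, w n * pl n * bq ρ D Q n k =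
      -(∑ q ∈ Q, ∑ d ∈ DD D q, ρ q d / ((q : ℝ) - 1) ^ 2 * th A B w d k) -
      ∑ q ∈ Q, ∑ d ∈ DD D q, ρ q d * ((q : ℝ) / ((q : ℝ) - 1)) * EE A B w d q k := by
  have h1 : ∑ n ∈ Ioc A B, w n * pl n * bq ρ D Q n k = ∑ q ∈ Q, ∑ d ∈ DD D q,
      ρ q d / ((q : ℝ) - 1) * (th A B w d k - (q : ℝ) * th A B w (d * q) k) := by
    simp only [sp3_bq hρ hQ, mul_sum]
    rw [sum_comm]
    refine sum_congr rfl fun q _ => ?_
    rw [sum_comm]
    refine sum_congr rfl fun d _ => ?_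
    unfold th
    rw [mul_sum, ← sum_sub_distrib, mul_sum]
    refine sum_congr rfl fun n _ => ?_
    split_ifs <;> ring
  rw [h1, ← sum_neg_distrib, ← sum_sub_distrib]
  refine sum_congr rfl fun q hq => ?_
  rw [← sum_neg_distrib, ← sum_sub_distrib]
  refine sum_congr rfl fun d _ => ?_
  have hq' : (2 : ℝ) ≤ q := by exact_mod_cast (hQ q hq).1.two_le
  have hq1 : (q : ℝ) - 1 ≠ 0 := by linarith
  unfold EE
  field_simp
  ring

/-- counting a residue class -/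
private theorem sp3_count {A B d : ℕ} (hAB : A ≤ B) (hd : 1 ≤ d) (k : ℤ) :
    (((Ioc A B).filter (fun n : ℕ => (d : ℤ) ∣ (n : ℤ) + k)).card : ℝ) ≤ (B : ℝ) / d + 1 := by
  have hd0 : (0 : ℤ) < d := by exact_mod_cast hd
  obtain ⟨v, hv⟩ : ∃ v : ℕ, (d : ℤ) ∣ (v : ℤ) + k := by
    refine ⟨((-k) % (d : ℤ)).toNat, ?_⟩
    rw [Int.toNat_of_nonneg (Int.emod_nonneg _ hd0.ne')]
    have h := Int.emod_add_mul_ediv (-k) d
    exact ⟨-((-k) / d), by linarith⟩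
  have h1 : (Ioc A B).filter (fun n : ℕ => (d : ℤ) ∣ (n : ℤ) + k) =
      (Ioc A B).filter (fun n : ℕ => n ≡ v [MOD d]) := by
    refine filter_congr fun n _ => ?_
    rw [Nat.modEq_iff_dvd]
    have e : (v : ℤ) - n = ((v : ℤ) + k) - ((n : ℤ) + k) := by ring
    rw [e]
    exact (dvd_sub_right hv).symm
  rw [h1]
  have h2 := Nat.Ioc_filter_modEq_card A B (show 0 < d by omega) v
  have h3 : (((Ioc A B).filter (fun n : ℕ => n ≡ v [MOD d])).card : ℚ) ≤ (B : ℚ) / d + 1 := by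
    have h4 : (((Ioc A B).filter (fun n : ℕ => n ≡ v [MOD d])).card : ℚ) =
        ((max (⌊((B : ℚ) - v) / d⌋ - ⌊((A : ℚ) - v) / d⌋) 0 : ℤ) : ℚ) := by
      rw [← h2]
      rfl
    rw [h4]
    push_cast
    have hdq : (0 : ℚ) < d := by exact_mod_cast hd
    have hA0 : (0 : ℚ) ≤ (A : ℚ) / d := by positivity
    refine max_le ?_ (by positivity)
    have h5 := Int.floor_le (((B : ℚ) - v) / d)
    have h6 := Int.lt_floor_add_one (((A : ℚ) - v) / d)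
    have h7 : ((B : ℚ) - v) / d - ((A : ℚ) - v) / d = (B : ℚ) / d - (A : ℚ) / d := by ring
    linarith
  have h8 : ((((Ioc A B).filter (fun n : ℕ => n ≡ v [MOD d])).card : ℚ) : ℝ) ≤
      (((B : ℚ) / d + 1 : ℚ) : ℝ) := by exact_mod_cast h3
  push_cast at h8
  exact h8

private theorem sp3_th {A B : ℕ} (hAB : A ≤ B) (hA : 1 ≤ A) {d : ℕ}
    (hd : 1 ≤ d) (k : ℤ) :
    0 ≤ th A B onef d k ∧ th A B onef d k ≤ Real.log B * ((B : ℝ) / d + 1) := by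
  have hw0 : ∀ n, 0 ≤ onef n := fun n => zero_le_one
  have hw1 : ∀ n, onef n ≤ 1 := fun n => le_rfl
  have h0 : ∀ n, 0 ≤ onef n * pl n := fun n => mul_nonneg (hw0 n) (cov_pl_nonneg n)
  have hB1 : (1 : ℝ) ≤ B := by exact_mod_cast (le_trans hA hAB)
  have hlog : 0 ≤ Real.log B := Real.log_nonneg hB1
  unfold th
  constructor
  · refine sum_nonneg fun n _ => ?_
    split_ifs
    · exact h0 n
    · exact le_rfl
  · rw [← sum_filter]
    calc ∑ n ∈ (Ioc A B).filter (fun n : ℕ => (d : ℤ) ∣ (n : ℤ) + k), onef n * pl n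
        ≤ ∑ n ∈ (Ioc A B).filter (fun n : ℕ => (d : ℤ) ∣ (n : ℤ) + k), Real.log B := by
          refine sum_le_sum fun n hn => ?_
          rw [mem_filter, mem_Ioc] at hn
          have h1 : pl n ≤ Real.log B := cov_pl_le (by exact_mod_cast hn.1.2) hB1
          calc onef n * pl n ≤ 1 * Real.log B :=
                mul_le_mul (hw1 n) h1 (cov_pl_nonneg n) zero_le_one
            _ = Real.log B := one_mul _
      _ = ((Ioc A B).filter (fun n : ℕ => (d : ℤ) ∣ (n : ℤ) + k)).card * Real.log B := by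
          rw [sum_const, nsmul_eq_mul]
      _ ≤ ((B : ℝ) / d + 1) * Real.log B := by
          have := sp3_count hAB hd k
          gcongr
      _ = Real.log B * ((B : ℝ) / d + 1) := mul_comm _ _

private theorem sp3_harm {B D q : ℕ} (hq : 1 ≤ q) (hDB : D ≤ B) (hD : 1 ≤ D / q) :
    ∑ d ∈ DD D q, ((B : ℝ) / d + 1) ≤ B * (2 + Real.log B) := by
  have h1 : ∑ d ∈ DD D q, ((B : ℝ) / d + 1) ≤ ∑ d ∈ Icc 1 (D / q), ((B : ℝ) / d + 1) := by
    refine sum_le_sum_of_subset_of_nonneg ?_ fun d _ _ => by positivity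
    unfold DD
    exact filter_subset _ _
  refine h1.trans ?_
  have hDq : D / q ≤ B := (Nat.div_le_self _ _).trans hDB
  have hDqR : ((D / q : ℕ) : ℝ) ≤ B := by exact_mod_cast hDq
  rw [sum_add_distrib, sum_const, Nat.card_Icc, Nat.add_sub_cancel, nsmul_eq_mul, mul_one]
  have h2 : ∑ d ∈ Icc 1 (D / q), (B : ℝ) / d = B * ((harmonic (D / q) : ℚ) : ℝ) := by
    rw [harmonic_eq_sum_Icc]
    push_cast
    rw [mul_sum]
    refine sum_congr rfl fun d _ => ?_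
    rw [div_eq_mul_inv]
  have h3 := harmonic_le_one_add_log (D / q)
  have h4 : Real.log ((D / q : ℕ) : ℝ) ≤ Real.log B :=
    Real.log_le_log (by exact_mod_cast hD) hDqR
  rw [h2]
  have hB0 : (0 : ℝ) ≤ B := Nat.cast_nonneg B
  nlinarith

theorem split_bound3 {A B D m : ℕ} {ρ : ℕ → ℕ → ℝ} {s : ℕ → ℝ} {K : ℝ}
    {Q : Finset ℕ} (hAB : A ≤ B) (hA : 1 ≤ A) (hDA : D ≤ A) (hK : 0 ≤ K)
    (hρ : ∀ q ∈ Q, SV (D / q) q K (s q) (ρ q)) (hQ : ∀ q ∈ Q, q.Prime ∧ q ≤ D) :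
    |∑ k ∈ Ico 1 m, ∑ n ∈ Ioc A B, pl n * (bq ρ D Q n (k : ℤ) + bq ρ D Q n (-(k : ℤ)))| ≤
      2 * m * K * (Real.log B * (B * (2 + Real.log B))) * ∑ q ∈ Q, 1 / ((q : ℝ) - 1) ^ 2 +
      2 * K * ∑ q ∈ Q, ∑ d ∈ DD D q,
        |∑ k ∈ Ico 1 m, (EE A B onef d q (k : ℤ) + EE A B onef d q (-(k : ℤ)))| := by
  have hDB : D ≤ B := hDA.trans hAB
  have hB1 : (1 : ℝ) ≤ B := by exact_mod_cast (le_trans hA hAB)
  have hlog : 0 ≤ Real.log B := Real.log_nonneg hB1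
  have hX : 0 ≤ Real.log B * (B * (2 + Real.log B)) := by positivity
  have h0 : ∀ k : ℤ, ∑ n ∈ Ioc A B, pl n * bq ρ D Q n k =
      -(∑ q ∈ Q, ∑ d ∈ DD D q, ρ q d / ((q : ℝ) - 1) ^ 2 * th A B onef d k) -
      ∑ q ∈ Q, ∑ d ∈ DD D q, ρ q d * ((q : ℝ) / ((q : ℝ) - 1)) * EE A B onef d q k := by
    intro k
    rw [← sp3_sum (A := A) (B := B) (w := onef) hρ hQ k]
    refine sum_congr rfl fun n _ => ?_
    rw [show onef n = 1 from rfl, one_mul]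
  have h1 : ∑ k ∈ Ico 1 m, ∑ n ∈ Ioc A B, pl n * (bq ρ D Q n (k : ℤ) + bq ρ D Q n (-(k : ℤ))) =
      -(∑ k ∈ Ico 1 m, (∑ q ∈ Q, ∑ d ∈ DD D q, ρ q d / ((q : ℝ) - 1) ^ 2 * th A B onef d (k : ℤ) +
        ∑ q ∈ Q, ∑ d ∈ DD D q, ρ q d / ((q : ℝ) - 1) ^ 2 * th A B onef d (-(k : ℤ)))) -
      ∑ q ∈ Q, ∑ d ∈ DD D q, ρ q d * ((q : ℝ) / ((q : ℝ) - 1)) *
        ∑ k ∈ Ico 1 m, (EE A B onef d q (k : ℤ) + EE A B onef d q (-(k : ℤ))) := by
    have e1 : ∀ k ∈ Ico 1 m, ∑ n ∈ Ioc A B, pl n * (bq ρ D Q n (k : ℤ) + bq ρ D Q n (-(k : ℤ))) =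
        -(∑ q ∈ Q, ∑ d ∈ DD D q, ρ q d / ((q : ℝ) - 1) ^ 2 * th A B onef d (k : ℤ) +
        ∑ q ∈ Q, ∑ d ∈ DD D q, ρ q d / ((q : ℝ) - 1) ^ 2 * th A B onef d (-(k : ℤ))) -
        ∑ q ∈ Q, ∑ d ∈ DD D q, ρ q d * ((q : ℝ) / ((q : ℝ) - 1)) *
          (EE A B onef d q (k : ℤ) + EE A B onef d q (-(k : ℤ))) := by
      intro k _
      have e2 : ∑ q ∈ Q, ∑ d ∈ DD D q, ρ q d * ((q : ℝ) / ((q : ℝ) - 1)) *
          (EE A B onef d q (k : ℤ) + EE A B onef d q (-(k : ℤ))) =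
          ∑ q ∈ Q, ∑ d ∈ DD D q, ρ q d * ((q : ℝ) / ((q : ℝ) - 1)) * EE A B onef d q (k : ℤ) +
          ∑ q ∈ Q, ∑ d ∈ DD D q, ρ q d * ((q : ℝ) / ((q : ℝ) - 1)) *
            EE A B onef d q (-(k : ℤ)) := by
        rw [← sum_add_distrib]
        refine sum_congr rfl fun q _ => ?_
        rw [← sum_add_distrib]
        refine sum_congr rfl fun d _ => ?_
        ring
      rw [e2]
      have e3 : ∑ n ∈ Ioc A B, pl n * (bq ρ D Q n (k : ℤ) + bq ρ D Q n (-(k : ℤ))) =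
          ∑ n ∈ Ioc A B, pl n * bq ρ D Q n (k : ℤ) +
          ∑ n ∈ Ioc A B, pl n * bq ρ D Q n (-(k : ℤ)) := by
        rw [← sum_add_distrib]
        exact sum_congr rfl fun n _ => mul_add _ _ _
      rw [e3, h0, h0]
      ring
    rw [sum_congr rfl e1, sum_sub_distrib, sum_neg_distrib]
    congr 1
    rw [sum_comm]
    refine sum_congr rfl fun q _ => ?_
    rw [sum_comm]
    refine sum_congr rfl fun d _ => ?_
    rw [mul_sum]
  rw [h1]
  refine (abs_sub _ _).trans ?_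
  rw [abs_neg]
  refine add_le_add ?_ ?_
  · refine (abs_sum_le_sum_abs _ _).trans ?_
    have h2 : ∀ a : ℤ, |∑ q ∈ Q, ∑ d ∈ DD D q, ρ q d / ((q : ℝ) - 1) ^ 2 *
        th A B onef d a| ≤
        K * (Real.log B * (B * (2 + Real.log B))) * ∑ q ∈ Q, 1 / ((q : ℝ) - 1) ^ 2 := by
      intro a
      rw [mul_sum]
      refine (abs_sum_le_sum_abs _ _).trans (sum_le_sum fun q hq => ?_)
      refine (abs_sum_le_sum_abs _ _).trans ?_
      have hq1 : 1 ≤ q := (hQ q hq).1.one_le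
      have hDq : 1 ≤ D / q := (Nat.one_le_div_iff (hQ q hq).1.pos).2 (hQ q hq).2
      have h3 : ∀ d ∈ DD D q, |ρ q d / ((q : ℝ) - 1) ^ 2 * th A B onef d a| ≤
          K * Real.log B * (1 / ((q : ℝ) - 1) ^ 2) * ((B : ℝ) / d + 1) := by
        intro d hd
        have hd1 : 1 ≤ d := by
          unfold DD at hd
          rw [mem_filter, mem_Icc] at hd
          exact hd.1.1
        obtain ⟨h4, h5⟩ := sp3_th hAB hA hd1 a
        rw [abs_mul, abs_div, abs_of_nonneg h4, abs_of_nonneg (sq_nonneg ((q : ℝ) - 1))]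
        calc |ρ q d| / ((q : ℝ) - 1) ^ 2 * th A B onef d a
            = |ρ q d| * (th A B onef d a * (1 / ((q : ℝ) - 1) ^ 2)) := by ring
          _ ≤ K * ((Real.log B * ((B : ℝ) / d + 1)) * (1 / ((q : ℝ) - 1) ^ 2)) := by
              refine mul_le_mul ((hρ q hq).bd d)
                (mul_le_mul_of_nonneg_right h5 (by positivity)) ?_ hK
              exact mul_nonneg h4 (by positivity)
          _ = _ := by ring
      refine (sum_le_sum h3).trans ?_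
      rw [← mul_sum]
      have h6 := sp3_harm hq1 hDB hDq
      have h7 : 0 ≤ K * Real.log B * (1 / ((q : ℝ) - 1) ^ 2) := by positivity
      calc K * Real.log B * (1 / ((q : ℝ) - 1) ^ 2) * ∑ d ∈ DD D q, ((B : ℝ) / d + 1)
          ≤ K * Real.log B * (1 / ((q : ℝ) - 1) ^ 2) * (B * (2 + Real.log B)) :=
            mul_le_mul_of_nonneg_left h6 h7
        _ = _ := by ring
    have h8 : 0 ≤ K * (Real.log B * (B * (2 + Real.log B))) * ∑ q ∈ Q, 1 / ((q : ℝ) - 1) ^ 2 :=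
      mul_nonneg (mul_nonneg hK hX) (sum_nonneg fun q _ => by positivity)
    obtain ⟨Y, hY⟩ : ∃ Y, Y = K * (Real.log B * (B * (2 + Real.log B))) *
      ∑ q ∈ Q, 1 / ((q : ℝ) - 1) ^ 2 := ⟨_, rfl⟩
    rw [← hY] at h2 h8
    have h9 : ∑ k ∈ Ico 1 m, |∑ q ∈ Q, ∑ d ∈ DD D q, ρ q d / ((q : ℝ) - 1) ^ 2 *
          th A B onef d (k : ℤ) +
        ∑ q ∈ Q, ∑ d ∈ DD D q, ρ q d / ((q : ℝ) - 1) ^ 2 * th A B onef d (-(k : ℤ))| ≤
        ∑ k ∈ Ico 1 m, 2 * Y := by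
      refine sum_le_sum fun k _ => ?_
      refine (abs_add_le _ _).trans ?_
      have a1 := h2 (k : ℤ)
      have a2 := h2 (-(k : ℤ))
      linarith
    refine h9.trans ?_
    rw [sum_const, Nat.card_Ico, nsmul_eq_mul]
    have h10 : ((m - 1 : ℕ) : ℝ) ≤ m := by exact_mod_cast Nat.sub_le m 1
    have h11 : ((m - 1 : ℕ) : ℝ) * (2 * Y) ≤ m * (2 * Y) :=
      mul_le_mul_of_nonneg_right h10 (by linarith)
    refine h11.trans (le_of_eq ?_)
    rw [hY]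
    ring
  · refine (abs_sum_le_sum_abs _ _).trans ?_
    rw [mul_sum]
    refine sum_le_sum fun q hq => ?_
    refine (abs_sum_le_sum_abs _ _).trans ?_
    rw [mul_sum]
    refine sum_le_sum fun d _ => ?_
    have hq' : (2 : ℝ) ≤ q := by exact_mod_cast (hQ q hq).1.two_le
    have hq1 : (0 : ℝ) < (q : ℝ) - 1 := by linarith
    rw [abs_mul]
    refine mul_le_mul_of_nonneg_right ?_ (abs_nonneg _)
    rw [abs_mul, abs_of_nonneg (div_nonneg (by linarith) hq1.le)]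
    have h9 : (q : ℝ) / ((q : ℝ) - 1) ≤ 2 := by
      rw [div_le_iff₀ hq1]
      linarith
    calc |ρ q d| * ((q : ℝ) / ((q : ℝ) - 1)) ≤ K * 2 :=
          mul_le_mul ((hρ q hq).bd d) h9 (div_nonneg (by linarith) hq1.le) hK
      _ = 2 * K := by ring

end Pool.Agent.H67.VU
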