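import Pool.Agent.H67.VU.Dy3
import Pool.Agent.H67.VU.Kf
import Pool.Agent.H67.VU.CharS3
import Pool.Agent.H67.VU.DivS
import Pool.Agent.H67.VU.Split3
import Pool.Agent.H67.VT.Sel
import Pool.Agent.H21.MT.Abel

/-!
[H67 VU KEY3]  The off-diagonal part of the covariance is negligible.

Proof of `key3`.  (See `Pool/Agent/H67/VT/Key.lean`, same procedure.)  `split_bound3` with `A = X`, `B = T`, `ρ = rv D`, `s = sv D`,
`K = KK D`, `D = Dw d X`, `Q = Qw θ κ d X` (`VT.rv_SV`), then `char_sum3` with `Z = Zw θ κ X`, `KS_le`: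
`∑_f 1/φ(f) τ(f) ∑_c 1/φ(c.md) ‖ThC‖ min m (pv c.md) ≤ (2 + 2 log D)^3 X^(1 - 4κ/5)` (`div_sum`, `dyad3` with `G = m`).
First term: `∑ 1/(q-1)^2 ≤ 2/Z ≤ 4 X^(-θ-4κ)` (`VT.sum_inv`), so it is `≤ X^θ * X^(1-θ-4κ) *` powers of the logarithm.
`D ≤ X^d ≤ X` as `d ≤ 1/2`; `m ≤ X^θ < q` for `q ∈ Q`.
Proof of `key3w`.  Abel summation (`H21.MT.abel_le`, `a n = ∑_k pl n (bq n k + bq n (-k))`, `g = w`, `m = X`, `n = 2X`): the partial
sums over `Ioc X T`, `X ≤ T ≤ 2X`, are bounded by `key3` (for `T < X` empty), `|w (2X)| + variation ≤ 4` (`Wt`).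
-/

namespace Pool.Agent.H67.VU

open Finset Filter Pool.Agent.H21.MT Pool.Agent.H67.VS Pool.Agent.H67.VT

theorem key3_log (κ : ℝ) (hκ : 0 < κ) :
    ∀ᶠ X : ℝ in atTop, 3 * (2 + 2 * Real.log X) ≤ X ^ (κ / 20) := by
  have hε' : 0 < κ / 20 := by positivity
  have h1 := (isLittleO_log_rpow_atTop hε').bound (show (0 : ℝ) < 1 / 12 by norm_num)
  have h2 := (tendsto_rpow_atTop hε').eventually_ge_atTop 12
  filter_upwards [h1, h2, eventually_ge_atTop (1 : ℝ)] with X h1 h2 hX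
  have hX0 : 0 < X := by linarith
  rw [Real.norm_eq_abs, Real.norm_eq_abs, abs_of_nonneg (Real.log_nonneg hX),
    abs_of_nonneg (Real.rpow_nonneg hX0.le _)] at h1
  linarith

theorem key3 {θ κ d : ℝ} (hP : Par θ κ d) : ∀ᶠ X : ℕ in atTop, ∀ T m : ℕ,
    X ≤ T → T ≤ 2 * X → 1 ≤ m → (m : ℝ) ≤ (X : ℝ) ^ θ →
    |∑ k ∈ Ico 1 m, ∑ n ∈ Ioc X T, pl n * (bq (rv (Dw d X)) (Dw d X) (Qw θ κ d X) n (k : ℤ) +
        bq (rv (Dw d X)) (Dw d X) (Qw θ κ d X) n (-(k : ℤ)))| ≤ (X : ℝ) ^ (1 - κ / 2) := by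
  classical
  have hθ := hP.θ0
  have hκ := hP.κ0
  have hlow := hP.low
  have hd12 : d ≤ 1 / 2 := by
    rcases hP.up with h | h
    · linarith
    · linarith [h.2]
  have hd0 : 0 < d := by linarith
  have hcast := tendsto_natCast_atTop_atTop (R := ℝ)
  have e0 := hcast.eventually (key3_log κ hκ)
  have e1 := hcast.eventually ((tendsto_rpow_atTop (show (0 : ℝ) < θ + 4 * κ by positivity)).eventually_ge_atTop 2)
  have e2 := hcast.eventually (eventually_ge_atTop (4 : ℝ))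
  filter_upwards [dyad3 hP, e0, e1, e2] with X hdy hlog he1 hX
  intro T m hXT hT2 hm hmX
  have hX0 : (0 : ℝ) < X := by linarith
  have hX1 : (1 : ℝ) ≤ X := by linarith
  have hXn : 1 ≤ X := by exact_mod_cast hX1
  have hmono : ∀ a b : ℝ, a ≤ b → (X : ℝ) ^ a ≤ (X : ℝ) ^ b := fun a b hab =>
    Real.rpow_le_rpow_of_exponent_le hX1 hab
  obtain ⟨D, hDdef⟩ : ∃ D : ℕ, D = Dw d X := ⟨_, rfl⟩
  obtain ⟨Z, hZdef⟩ : ∃ Z : ℕ, Z = Zw θ κ X := ⟨_, rfl⟩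
  obtain ⟨Q, hQdef⟩ : ∃ Q : Finset ℕ, Q = Qw θ κ d X := ⟨_, rfl⟩
  rw [← hDdef, ← hQdef]
  have hdy' := hdy T m hXT hT2 hm hmX
  rw [← hDdef, ← hZdef] at hdy'
  -- sizes
  have hDle : (D : ℝ) ≤ (X : ℝ) ^ d := by
    rw [hDdef]
    exact Nat.floor_le (Real.rpow_nonneg hX0.le _)
  have hDX : (D : ℝ) ≤ X := by
    have h1 := hmono d 1 (by linarith)
    rw [Real.rpow_one] at h1
    exact hDle.trans h1
  have hDXn : D ≤ X := by exact_mod_cast hDX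
  have hD1 : 1 ≤ D := by
    rw [hDdef, Dw]
    refine Nat.le_floor ?_
    rw [Nat.cast_one]
    have := hmono 0 d hd0.le
    rwa [Real.rpow_zero] at this
  have hZle : (X : ℝ) ^ (θ + 4 * κ) / 2 ≤ (Z : ℝ) := by
    have := Nat.lt_floor_add_one ((X : ℝ) ^ (θ + 4 * κ))
    rw [hZdef, Zw]
    linarith
  have hZ1 : 1 ≤ Z := by
    rw [hZdef, Zw]
    refine Nat.le_floor ?_
    rw [Nat.cast_one]
    linarith
  have hQ : ∀ q ∈ Q, q.Prime ∧ (X : ℝ) ^ (θ + 4 * κ) < q ∧ Z < q ∧ q ≤ D := by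
    intro q hq
    rw [hQdef, Qw, Finset.mem_filter, Finset.mem_Ioc] at hq
    rw [hZdef, hDdef]
    exact ⟨hq.2, (Nat.floor_lt (Real.rpow_nonneg hX0.le _)).1 hq.1.1, hq.1.1, hq.1.2⟩
  have hlX : 0 ≤ Real.log X := Real.log_nonneg hX1
  obtain ⟨ℓ, hℓ⟩ : ∃ ℓ : ℝ, ℓ = 2 + 2 * Real.log X := ⟨_, rfl⟩
  rw [← hℓ] at hlog
  have hℓ2 : 2 ≤ ℓ := by rw [hℓ]; linarith
  have hℓ0 : 0 ≤ ℓ := by linarith
  have hlD : 2 + 2 * Real.log D ≤ ℓ := by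
    have : Real.log D ≤ Real.log X := Real.log_le_log (by exact_mod_cast hD1) hDX
    rw [hℓ]; linarith
  have hlD0 : 0 ≤ 2 + 2 * Real.log D := by
    have : 0 ≤ Real.log (D : ℝ) := Real.log_nonneg (by exact_mod_cast hD1)
    linarith
  have hK : KK D ≤ ℓ ^ 3 := by
    unfold KK
    exact pow_le_pow_left₀ hlD0 hlD 3
  have hK0 : 0 ≤ KK D := by
    unfold KK
    positivity
  have hT1 : (1 : ℝ) ≤ T := by exact_mod_cast hXn.trans hXT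
  have hT2' : (T : ℝ) ≤ 2 * X := by exact_mod_cast hT2
  have hlT : Real.log (T : ℝ) ≤ ℓ := by
    have h1 : Real.log (T : ℝ) ≤ Real.log (2 * X) := Real.log_le_log (by linarith) hT2'
    have h2 : Real.log (2 * (X : ℝ)) = Real.log 2 + Real.log X :=
      Real.log_mul (by norm_num) hX0.ne'
    have := Real.log_two_lt_d9
    rw [hℓ]
    linarith
  have hlT0 : 0 ≤ Real.log (T : ℝ) := Real.log_nonneg hT1
  -- the two bounds
  have hsplit := split_bound3 (A := X) (B := T) (D := D) (m := m)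
    (ρ := rv D) (s := sv D) (K := KK D) (Q := Q) hXT hXn hDXn hK0
    (fun q hq => rv_SV D q (hQ q hq).1 (hQ q hq).2.2.2) (fun q hq => ⟨(hQ q hq).1, (hQ q hq).2.2.2⟩)
  have hchar := char_sum3 (A := X) (B := T) (D := D) (Z := Z) (m := m) (w := onef)
    (Q := Q) hDXn (by
      intro q hq
      refine ⟨(hQ q hq).1, (hQ q hq).2.2.1, ?_, (hQ q hq).2.2.2⟩
      have h1 := (hQ q hq).2.1
      have h2 := hmono θ (θ + 4 * κ) (by linarith)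
      have : (m : ℝ) ≤ q := by linarith
      exact_mod_cast this)
  have hinner : ∀ f ∈ Icc 1 D, 1 / (f.totient : ℝ) *
      ∑ c ∈ (PC D).filter (fun c => Z < c.md), 1 / (c.md.totient : ℝ) *
        (‖ThC X T onef c.2‖ * ‖KS m f c.2‖) ≤
      (f.divisors.card : ℝ) / (f.totient : ℝ) * (X : ℝ) ^ (1 - 4 / 5 * κ) := by
    intro f hf
    have hf1 := (Finset.mem_Icc.1 hf).1
    have h1 : ∑ c ∈ (PC D).filter (fun c => Z < c.md), 1 / (c.md.totient : ℝ) *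
        (‖ThC X T onef c.2‖ * ‖KS m f c.2‖) ≤
        (f.divisors.card : ℝ) * ∑ c ∈ (PC D).filter (fun c => Z < c.md), 1 / (c.md.totient : ℝ) *
        (‖ThC X T onef c.2‖ * min (m : ℝ) (pv c.md)) := by
      rw [Finset.mul_sum]
      refine Finset.sum_le_sum fun c hc => ?_
      have h2 := KS_le D c (Finset.mem_filter.1 hc).1 m f hf1
      calc 1 / (c.md.totient : ℝ) * (‖ThC X T onef c.2‖ * ‖KS m f c.2‖)
          ≤ 1 / (c.md.totient : ℝ) * (‖ThC X T onef c.2‖ *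
            ((f.divisors.card : ℝ) * min (m : ℝ) (pv c.md))) :=
            mul_le_mul_of_nonneg_left (mul_le_mul_of_nonneg_left h2 (norm_nonneg _))
              (by positivity)
        _ = _ := by ring
    have h3 : (f.divisors.card : ℝ) * ∑ c ∈ (PC D).filter (fun c => Z < c.md),
        1 / (c.md.totient : ℝ) * (‖ThC X T onef c.2‖ * min (m : ℝ) (pv c.md)) ≤
        (f.divisors.card : ℝ) * (X : ℝ) ^ (1 - 4 / 5 * κ) :=
      mul_le_mul_of_nonneg_left hdy' (Nat.cast_nonneg _)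
    calc _ ≤ 1 / (f.totient : ℝ) * ((f.divisors.card : ℝ) * (X : ℝ) ^ (1 - 4 / 5 * κ)) :=
          mul_le_mul_of_nonneg_left (h1.trans h3) (by positivity)
      _ = _ := by ring
  have hsum2 : ∑ f ∈ Icc 1 D, 1 / (f.totient : ℝ) *
      ∑ c ∈ (PC D).filter (fun c => Z < c.md), 1 / (c.md.totient : ℝ) *
      (‖ThC X T onef c.2‖ * ‖KS m f c.2‖) ≤
      ℓ ^ 3 * (X : ℝ) ^ (1 - 4 / 5 * κ) := by
    refine (Finset.sum_le_sum hinner).trans ?_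
    rw [← Finset.sum_mul]
    refine mul_le_mul_of_nonneg_right ?_ (Real.rpow_nonneg hX0.le _)
    exact (div_sum D hD1).trans (pow_le_pow_left₀ hlD0 hlD 3)
  have hXp : 0 ≤ (X : ℝ) ^ (1 - 4 / 5 * κ) := Real.rpow_nonneg hX0.le _
  have hsecond : 2 * KK D * ∑ q ∈ Q, ∑ d ∈ DD D q,
      |∑ k ∈ Ico 1 m, (EE X T onef d q (k : ℤ) + EE X T onef d q (-(k : ℤ)))| ≤
      4 * ℓ ^ 6 * (X : ℝ) ^ (1 - 4 / 5 * κ) := by
    have h1 : ∑ q ∈ Q, ∑ d ∈ DD D q,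
        |∑ k ∈ Ico 1 m, (EE X T onef d q (k : ℤ) + EE X T onef d q (-(k : ℤ)))| ≤
        2 * (ℓ ^ 3 * (X : ℝ) ^ (1 - 4 / 5 * κ)) :=
      hchar.trans (mul_le_mul_of_nonneg_left hsum2 (by norm_num))
    have h2 : 0 ≤ ℓ ^ 3 * (X : ℝ) ^ (1 - 4 / 5 * κ) := by positivity
    calc _ ≤ 2 * KK D * (2 * (ℓ ^ 3 * (X : ℝ) ^ (1 - 4 / 5 * κ))) :=
          mul_le_mul_of_nonneg_left h1 (by positivity)
      _ ≤ 2 * ℓ ^ 3 * (2 * (ℓ ^ 3 * (X : ℝ) ^ (1 - 4 / 5 * κ))) :=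
          mul_le_mul_of_nonneg_right (by linarith) (by positivity)
      _ = _ := by ring
  have hsq : ∑ q ∈ Q, (1 : ℝ) / ((q : ℝ) - 1) ^ 2 ≤ 4 * (X : ℝ) ^ (-(θ + 4 * κ)) := by
    have h1 : ∑ q ∈ Q, (1 : ℝ) / ((q : ℝ) - 1) ^ 2 ≤ 2 / (Z : ℝ) := by
      rw [hQdef, Qw, ← hZdef, ← hDdef]
      exact sum_inv Z D hZ1
    refine h1.trans ?_
    rw [Real.rpow_neg hX0.le]
    have hp : 0 < (X : ℝ) ^ (θ + 4 * κ) := Real.rpow_pos_of_pos hX0 _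
    have h2 : 2 / (Z : ℝ) ≤ 2 / ((X : ℝ) ^ (θ + 4 * κ) / 2) :=
      div_le_div_of_nonneg_left (by norm_num) (by positivity) hZle
    refine h2.trans (le_of_eq ?_)
    field_simp
    norm_num
  have hsq0 : 0 ≤ ∑ q ∈ Q, (1 : ℝ) / ((q : ℝ) - 1) ^ 2 :=
    Finset.sum_nonneg (fun q _ => by positivity)
  have hfirst : 2 * m * KK D * (Real.log T * (T * (2 + Real.log T))) *
      ∑ q ∈ Q, (1 : ℝ) / ((q : ℝ) - 1) ^ 2 ≤ 32 * ℓ ^ 6 * (X : ℝ) ^ (1 - 4 / 5 * κ) := by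
    have h1 : 2 * (m : ℝ) * KK D ≤ 2 * (X : ℝ) ^ θ * ℓ ^ 3 :=
      mul_le_mul (by linarith) hK hK0 (by positivity)
    have h2 : Real.log T * (T * (2 + Real.log T)) ≤ ℓ * (2 * X * (2 * ℓ)) := by
      refine mul_le_mul hlT ?_ (by positivity) hℓ0
      exact mul_le_mul hT2' (by linarith) (by positivity) (by positivity)
    have h3 : 2 * (m : ℝ) * KK D * (Real.log T * (T * (2 + Real.log T))) ≤
        2 * (X : ℝ) ^ θ * ℓ ^ 3 * (ℓ * (2 * X * (2 * ℓ))) :=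
      mul_le_mul h1 h2 (by positivity) (by positivity)
    have h4 : ℓ ^ 5 ≤ ℓ ^ 6 := pow_le_pow_right₀ (by linarith) (by norm_num)
    calc _ ≤ 2 * (X : ℝ) ^ θ * ℓ ^ 3 * (ℓ * (2 * X * (2 * ℓ))) * (4 * (X : ℝ) ^ (-(θ + 4 * κ))) :=
          mul_le_mul h3 hsq hsq0 (by positivity)
      _ = 32 * ℓ ^ 5 * ((X : ℝ) ^ θ * (X : ℝ) ^ (1 : ℝ) * (X : ℝ) ^ (-(θ + 4 * κ))) := by
          rw [Real.rpow_one]
          ring
      _ = 32 * ℓ ^ 5 * (X : ℝ) ^ (1 - 4 * κ) := by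
          rw [← Real.rpow_add hX0, ← Real.rpow_add hX0]
          congr 2
          ring
      _ ≤ 32 * ℓ ^ 6 * (X : ℝ) ^ (1 - 4 / 5 * κ) := by
          refine mul_le_mul ?_ (hmono _ _ (by linarith)) (by positivity) (by positivity)
          linarith
  refine hsplit.trans ((add_le_add hfirst hsecond).trans ?_)
  have h5 : 36 * ℓ ^ 6 ≤ (X : ℝ) ^ (3 / 10 * κ) := by
    have h1 : (3 * ℓ) ^ 6 ≤ ((X : ℝ) ^ (κ / 20)) ^ 6 := pow_le_pow_left₀ (by positivity) hlog 6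
    have h2 : ((X : ℝ) ^ (κ / 20)) ^ 6 = (X : ℝ) ^ (3 / 10 * κ) := by
      rw [← Real.rpow_natCast, ← Real.rpow_mul hX0.le]
      congr 1
      push_cast; ring
    rw [h2] at h1
    have h3 : 0 ≤ ℓ ^ 6 := by positivity
    have h4 : (3 * ℓ) ^ 6 = 729 * ℓ ^ 6 := by ring
    rw [h4] at h1
    linarith
  have hfin : (X : ℝ) ^ (1 - κ / 2) = (X : ℝ) ^ (3 / 10 * κ) * (X : ℝ) ^ (1 - 4 / 5 * κ) := by
    rw [← Real.rpow_add hX0]
    congr 1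
    ring
  rw [hfin]
  calc 32 * ℓ ^ 6 * (X : ℝ) ^ (1 - 4 / 5 * κ) + 4 * ℓ ^ 6 * (X : ℝ) ^ (1 - 4 / 5 * κ)
      = (36 * ℓ ^ 6) * (X : ℝ) ^ (1 - 4 / 5 * κ) := by ring
    _ ≤ _ := mul_le_mul_of_nonneg_right h5 hXp

theorem key3w {θ κ d : ℝ} (hP : Par θ κ d) : ∀ᶠ X : ℕ in atTop, ∀ m : ℕ,
    1 ≤ m → (m : ℝ) ≤ (X : ℝ) ^ θ → ∀ w : ℕ → ℝ, Wt X (2 * X) w →
    |∑ k ∈ Ico 1 m, ∑ n ∈ Ioc X (2 * X), w n * (pl n *
      (bq (rv (Dw d X)) (Dw d X) (Qw θ κ d X) n (k : ℤ) +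
        bq (rv (Dw d X)) (Dw d X) (Qw θ κ d X) n (-(k : ℤ))))| ≤ 4 * (X : ℝ) ^ (1 - κ / 2) := by
  filter_upwards [key3 hP] with X hkey
  intro m hm hmX w hw
  obtain ⟨b, hb⟩ : ∃ b : ℕ → ℤ → ℝ, b = fun n k => bq (rv (Dw d X)) (Dw d X) (Qw θ κ d X) n k :=
    ⟨_, rfl⟩
  obtain ⟨B, hB⟩ : ∃ B : ℝ, B = (X : ℝ) ^ (1 - κ / 2) := ⟨_, rfl⟩
  have hB0 : 0 ≤ B := by
    rw [hB]
    exact Real.rpow_nonneg (Nat.cast_nonneg _) _
  obtain ⟨a, ha⟩ : ∃ a : ℕ → ℝ, a = fun n => ∑ k ∈ Ico 1 m, pl n * (b n (k : ℤ) + b n (-(k : ℤ))) :=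
    ⟨_, rfl⟩
  have hpart : ∀ k ≤ 2 * X, ‖∑ j ∈ Ioc X k, ((a j : ℝ) : ℂ)‖ ≤ B := by
    intro k hk
    rw [← Complex.ofReal_sum, Complex.norm_real, Real.norm_eq_abs]
    rcases Nat.lt_or_ge k X with h | h
    · rw [Finset.Ioc_eq_empty_of_le h.le, Finset.sum_empty, abs_zero]
      exact hB0
    · have h1 := hkey k m h hk hm hmX
      rw [← hB] at h1
      refine le_trans (le_of_eq ?_) h1
      congr 1
      rw [ha, hb]
      exact Finset.sum_comm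
  have hle := abel_le (fun n => ((a n : ℝ) : ℂ)) w B X (2 * X) hpart hB0 (by omega)
  have hre : ∑ k ∈ Ico 1 m, ∑ n ∈ Ioc X (2 * X), w n * (pl n *
      (bq (rv (Dw d X)) (Dw d X) (Qw θ κ d X) n (k : ℤ) +
        bq (rv (Dw d X)) (Dw d X) (Qw θ κ d X) n (-(k : ℤ)))) =
      ∑ n ∈ Ioc X (2 * X), a n * w n := by
    rw [Finset.sum_comm]
    refine Finset.sum_congr rfl fun n _ => ?_
    rw [ha, hb]
    simp only
    rw [Finset.sum_mul]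
    refine Finset.sum_congr rfl fun k _ => ?_
    ring
  have hnorm : ‖∑ k ∈ Ioc X (2 * X), ((a k : ℝ) : ℂ) * ((w k : ℝ) : ℂ)‖ =
      |∑ n ∈ Ioc X (2 * X), a n * w n| := by
    have : ∑ k ∈ Ioc X (2 * X), ((a k : ℝ) : ℂ) * ((w k : ℝ) : ℂ) =
        ((∑ n ∈ Ioc X (2 * X), a n * w n : ℝ) : ℂ) := by
      push_cast
      rfl
    rw [this, Complex.norm_real, Real.norm_eq_abs]
  rw [hre, ← hnorm, ← hB]
  refine hle.trans ?_
  have h1 : |w (2 * X)| ≤ 1 := by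
    rw [abs_of_nonneg (hw.nonneg _)]
    exact hw.le_one _
  have h2 : ∑ k ∈ Ioo X (2 * X), |w (k + 1) - w k| ≤ 3 := by
    refine le_trans (Finset.sum_le_sum_of_subset_of_nonneg ?_ fun _ _ _ => abs_nonneg _)
      (hw.tv X (2 * X))
    exact Finset.Ioo_subset_Ico_self
  nlinarith

end Pool.Agent.H67.VU
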