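import Pool.Agent.H67.VU.Defs
import Pool.Agent.H67.VT.Phi

/-!
[H67 VU NUMM]  All error terms together.

Proof.  `LL ≤ D (1 + log D)` (`VT.LL_le`), `D ≤ X^d`, so `KK D * LL ≤ (2 + 2 log X)^4 X^d`.  All powers of the logarithm are `≤ X^(κ/8)`
for large `X`, and the exponents are: `1 - κ/2`;  `2θ + d`;  `θ + κ/8 + d`;  `1/2 + κ/4 + d`;  `θ + 2d`.
From `Par`: `d ≤ 1/3 - 4κ`, then `θ ≤ d - 10κ ≤ 1/3 - 14κ` and all of them are `≤ 1 - κ/2` (`2θ + d ≤ 1 - 32κ`,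
`1/2 + κ/4 + d ≤ 5/6`, `θ + 2d ≤ 1 - 22κ`; note `κ ≤ 1/30`), or `θ ≤ 1/6 - 2κ`, `d ≤ 1/2 - θ - 4κ`: `2θ + d ≤ 2/3`,
`θ + d ≤ 1/2`, `1/2 + κ/4 + d ≤ 1 - 3κ`, `θ + 2d ≤ 1 - 8κ`.
-/

namespace Pool.Agent.H67.VU

open Finset Filter Pool.Agent.H67.VT

theorem numM_log (κ : ℝ) (hκ : 0 < κ) : ∀ᶠ X : ℝ in atTop,
    200 * (2 + 2 * Real.log X) ^ 8 ≤ X ^ (κ / 4) := by
  have h1 := isLittleO_log_rpow_rpow_atTop (8 : ℝ) (by positivity : 0 < κ / 4)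
  have h2 := h1.bound (by positivity : (0 : ℝ) < 1 / (200 * 3 ^ 8))
  filter_upwards [h2, eventually_ge_atTop (1 : ℝ), Real.tendsto_log_atTop.eventually_ge_atTop 2]
    with X hX hX1 hL
  have hX0 : 0 < X := by linarith
  have hL0 : 0 ≤ Real.log X := by linarith
  have h3 : ‖Real.log X ^ (8 : ℝ)‖ = Real.log X ^ (8 : ℕ) := by
    rw [Real.norm_of_nonneg (Real.rpow_nonneg hL0 _)]
    exact_mod_cast Real.rpow_natCast (Real.log X) 8
  have h4 : ‖X ^ (κ / 4)‖ = X ^ (κ / 4) := Real.norm_of_nonneg (Real.rpow_nonneg hX0.le _)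
  rw [h3, h4, div_mul_eq_mul_div, one_mul, le_div_iff₀ (by positivity)] at hX
  calc 200 * (2 + 2 * Real.log X) ^ 8 ≤ 200 * (3 * Real.log X) ^ 8 := by
        refine mul_le_mul_of_nonneg_left ?_ (by norm_num)
        exact pow_le_pow_left₀ (by linarith) (by linarith) 8
    _ = Real.log X ^ 8 * (200 * 3 ^ 8) := by ring
    _ ≤ _ := hX

theorem numM {θ κ d : ℝ} (hP : Par θ κ d) : ∀ᶠ X : ℝ in atTop, ∀ G F T : ℝ,
    0 ≤ G → G ≤ X ^ θ → 0 ≤ F → F ≤ X ^ (θ + κ / 8) → 0 ≤ T → T ≤ X ^ (1 / 2 + κ / 4) →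
    (2 + Real.log X) * (4 * X ^ (1 - κ / 2)) +
      3 * G * (Real.log (3 * X) * (KK (Dw d X) * LL (Dw d X) (Qw θ κ d X))) * (2 * G) +
      3 * KK (Dw d X) * LL (Dw d X) (Qw θ κ d X) * (4 * F + T) * (2 + Real.log X) ≤
        X ^ (1 - κ / 4) ∧
    100 * (KK (Dw d X) * LL (Dw d X) (Qw θ κ d X)) ^ 2 * (2 * G) ≤ X ^ (1 - κ / 4) := by
  obtain ⟨hθ0, hκ0, hlow, hup⟩ := hP
  have hd0 : 0 < d := by linarith
  have hd1 : d ≤ 1 := by
    rcases hup with h | h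
    · linarith
    · linarith [h.2]
  have E1 : θ + θ + d ≤ 1 - κ / 2 := by
    rcases hup with h | ⟨h, h'⟩ <;> linarith
  have E2 : θ + κ / 8 + d ≤ 1 - κ / 2 := by
    rcases hup with h | ⟨h, h'⟩ <;> linarith
  have E3 : 1 / 2 + κ / 4 + d ≤ 1 - κ / 2 := by
    rcases hup with h | ⟨h, h'⟩ <;> linarith
  have E4 : d + d + θ ≤ 1 - κ / 2 := by
    rcases hup with h | ⟨h, h'⟩ <;> linarith
  filter_upwards [numM_log κ hκ0, eventually_ge_atTop (3 : ℝ)] with X hX hX3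
  intro G F T hG0 hG hF0 hF hT0 hT
  have hX0 : 0 < X := by linarith
  have hX1 : 1 ≤ X := by linarith
  have hL0 : 0 ≤ Real.log X := Real.log_nonneg hX1
  obtain ⟨l, hl⟩ : ∃ l : ℝ, l = 2 + 2 * Real.log X := ⟨_, rfl⟩
  have hl1 : 1 ≤ l := by rw [hl]; linarith
  have hl0 : 0 ≤ l := by linarith
  rw [← hl] at hX
  obtain ⟨D, hD⟩ : ∃ D : ℕ, D = Dw d X := ⟨_, rfl⟩
  obtain ⟨Q, hQ⟩ : ∃ Q : Finset ℕ, Q = Qw θ κ d X := ⟨_, rfl⟩
  have hXd1 : 1 ≤ X ^ d := Real.one_le_rpow hX1 hd0.le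
  have hD1 : 1 ≤ D := by
    rw [hD]
    exact Nat.le_floor (by simpa using hXd1)
  have hDX : (D : ℝ) ≤ X ^ d := by
    rw [hD]
    exact Nat.floor_le (by positivity)
  have hD0 : (0 : ℝ) < D := by exact_mod_cast hD1
  have hlogD : Real.log D ≤ Real.log X := by
    have h1 : Real.log D ≤ Real.log (X ^ d) := Real.log_le_log hD0 hDX
    rw [Real.log_rpow hX0] at h1
    nlinarith
  have hlogD0 : 0 ≤ Real.log D := Real.log_natCast_nonneg D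
  have hKK0 : 0 ≤ KK D := by
    unfold KK
    positivity
  have hKK : KK D ≤ l ^ 3 := by
    unfold KK
    rw [hl]
    exact pow_le_pow_left₀ (by linarith) (by linarith) 3
  have hLL0 : 0 ≤ LL D Q := by
    unfold LL
    exact sum_nonneg fun q _ => Nat.cast_nonneg _
  have hQs : Q ⊆ Icc 1 D := by
    intro q hq
    rw [hQ, Qw, mem_filter, mem_Ioc] at hq
    rw [mem_Icc, hD]
    omega
  have hLL : LL D Q ≤ X ^ d * l := by
    refine (LL_le D hD1 Q hQs).trans ?_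
    refine mul_le_mul hDX ?_ (by linarith) (by positivity)
    rw [hl]
    linarith
  rw [← hD, ← hQ]
  obtain ⟨P, hPd⟩ : ∃ P : ℝ, P = KK D * LL D Q := ⟨_, rfl⟩
  have hP0 : 0 ≤ P := by
    rw [hPd]
    exact mul_nonneg hKK0 hLL0
  obtain ⟨y, hy⟩ : ∃ y : ℝ, y = X ^ d := ⟨_, rfl⟩
  obtain ⟨g, hg⟩ : ∃ g : ℝ, g = X ^ θ := ⟨_, rfl⟩
  obtain ⟨f, hf⟩ : ∃ f : ℝ, f = X ^ (θ + κ / 8) := ⟨_, rfl⟩
  obtain ⟨t, ht⟩ : ∃ t : ℝ, t = X ^ (1 / 2 + κ / 4) := ⟨_, rfl⟩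
  obtain ⟨B, hB⟩ : ∃ B : ℝ, B = X ^ (1 - κ / 2) := ⟨_, rfl⟩
  have hy0 : 0 ≤ y := by rw [hy]; positivity
  have hg0 : 0 ≤ g := by rw [hg]; positivity
  have hf0 : 0 ≤ f := by rw [hf]; positivity
  have ht0 : 0 ≤ t := by rw [ht]; positivity
  have hB0 : 0 ≤ B := by rw [hB]; positivity
  have hP1 : P ≤ l ^ 4 * y := by
    rw [hPd]
    calc KK D * LL D Q ≤ l ^ 3 * (X ^ d * l) := mul_le_mul hKK hLL hLL0 (by positivity)
      _ = l ^ 4 * y := by rw [hy]; ring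
  have hb1 : g * g * y ≤ B := by
    rw [hg, hy, hB, ← Real.rpow_add hX0, ← Real.rpow_add hX0]
    exact Real.rpow_le_rpow_of_exponent_le hX1 E1
  have hb2 : f * y ≤ B := by
    rw [hf, hy, hB, ← Real.rpow_add hX0]
    exact Real.rpow_le_rpow_of_exponent_le hX1 E2
  have hb3 : t * y ≤ B := by
    rw [ht, hy, hB, ← Real.rpow_add hX0]
    exact Real.rpow_le_rpow_of_exponent_le hX1 E3
  have hb4 : y * y * g ≤ B := by
    rw [hg, hy, hB, ← Real.rpow_add hX0, ← Real.rpow_add hX0]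
    exact Real.rpow_le_rpow_of_exponent_le hX1 E4
  have hAB : X ^ (1 - κ / 4) = X ^ (κ / 4) * B := by
    rw [hB, ← Real.rpow_add hX0]
    congr 1
    ring
  have hlog3 : Real.log (3 * X) ≤ l := by
    rw [Real.log_mul (by norm_num) (by linarith), hl]
    have h3 : Real.log 3 ≤ 3 - 1 := Real.log_le_sub_one_of_pos (by norm_num)
    linarith
  have hlog30 : 0 ≤ Real.log (3 * X) := Real.log_nonneg (by linarith)
  have h2l : 2 + Real.log X ≤ l := by rw [hl]; linarith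
  have h2l0 : 0 ≤ 2 + Real.log X := by linarith
  have hl5 : 0 ≤ l ^ 5 := by positivity
  have hl15 : l ≤ l ^ 5 := by
    calc l = l ^ 1 := (pow_one l).symm
      _ ≤ l ^ 5 := pow_le_pow_right₀ hl1 (by norm_num)
  have hl58 : l ^ 5 ≤ l ^ 8 := pow_le_pow_right₀ hl1 (by norm_num)
  have hfin : 200 * l ^ 8 * B ≤ X ^ (1 - κ / 4) := by
    rw [hAB]
    exact mul_le_mul_of_nonneg_right hX hB0
  rw [← hg] at hG
  rw [← hf] at hF
  rw [← ht] at hT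
  have T1 : (2 + Real.log X) * (4 * X ^ (1 - κ / 2)) ≤ 4 * (l ^ 5 * B) := by
    rw [← hB]
    calc (2 + Real.log X) * (4 * B) ≤ l ^ 5 * (4 * B) :=
          mul_le_mul_of_nonneg_right (h2l.trans hl15) (by positivity)
      _ = _ := by ring
  have T2 : 3 * G * (Real.log (3 * X) * (KK D * LL D Q)) * (2 * G) ≤ 6 * (l ^ 5 * B) := by
    rw [← hPd]
    calc 3 * G * (Real.log (3 * X) * P) * (2 * G) ≤ 3 * g * (l * (l ^ 4 * y)) * (2 * g) := by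
          gcongr
      _ = 6 * (l ^ 5 * (g * g * y)) := by ring
      _ ≤ 6 * (l ^ 5 * B) := by gcongr
  have T3 : 3 * KK D * LL D Q * (4 * F + T) * (2 + Real.log X) ≤ 15 * (l ^ 5 * B) := by
    have e : 3 * KK D * LL D Q * (4 * F + T) * (2 + Real.log X) =
        3 * P * (4 * F + T) * (2 + Real.log X) := by rw [hPd]; ring
    rw [e]
    calc 3 * P * (4 * F + T) * (2 + Real.log X) ≤ 3 * (l ^ 4 * y) * (4 * f + t) * l := by
          gcongr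
      _ = 12 * (l ^ 5 * (f * y)) + 3 * (l ^ 5 * (t * y)) := by ring
      _ ≤ 12 * (l ^ 5 * B) + 3 * (l ^ 5 * B) := by gcongr
      _ = _ := by ring
  have T4 : 100 * (KK D * LL D Q) ^ 2 * (2 * G) ≤ 200 * l ^ 8 * B := by
    rw [← hPd]
    calc 100 * P ^ 2 * (2 * G) ≤ 100 * (l ^ 4 * y) ^ 2 * (2 * g) := by gcongr
      _ = 200 * l ^ 8 * (y * y * g) := by ring
      _ ≤ 200 * l ^ 8 * B := by gcongr
  refine ⟨?_, T4.trans hfin⟩
  have h5 : l ^ 5 * B ≤ l ^ 8 * B := mul_le_mul_of_nonneg_right hl58 hB0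
  have h6 : 0 ≤ l ^ 8 * B := by positivity
  linarith

end Pool.Agent.H67.VU
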