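import Pool.Agent.H67.VU.Defs

/-!
[H67 VU OMG]  The two choices of the weights.

Proofs.  `A`: `lam n = H(U)/H(n)`, `om h = min 1 (H(U)/h)`.  `H n ≥ H U ≥ 1` on `[U,V]`.  `lo`: `h ≤ H n` and `H U ≤ H n`.
* `O0A`: `∑_{h ≤ G} min 1 (H_U/h) ≤ H_U + H_U ∑_{h ≤ G} 1/h` (`harmonic_le_one_add_log`; the `h ≤ H_U` give at most `H_U`,
  the others `H_U/h`).  `O1A`, `O2A`: `h om h ≤ H_U`, `om h ≤ 1`.
* `B`: `lam = om = 1`.
-/

namespace Pool.Agent.H67.VU

open Finset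

/-- first choice of the weight -/
noncomputable def lamA (H : ℕ → ℕ) (U n : ℕ) : ℝ := (H U : ℝ) / H n
/-- first choice of the numbers `om` -/
noncomputable def omA (H : ℕ → ℕ) (U h : ℕ) : ℝ := min 1 ((H U : ℝ) / h)

theorem omg_HU {U V : ℕ} {H : ℕ → ℕ} (hUV : U ≤ V) (hH : MonotoneOn H (Set.Icc U V)) {n : ℕ}
    (hn : n ∈ Set.Icc U V) : H U ≤ H n :=
  hH ⟨le_rfl, hUV⟩ hn hn.1

theorem fwA {U V : ℕ} {H : ℕ → ℕ} (hUV : U ≤ V) (hH : MonotoneOn H (Set.Icc U V)) (h1 : 1 ≤ H U) :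
    FW U V (H V) H (lamA H U) (omA H U) where
  UV := hUV
  mono := hH
  HG := fun n hn => hH hn ⟨hUV, le_rfl⟩ hn.2
  lam0 := fun n _ => by unfold lamA; positivity
  anti := fun a ha b hb hab => by
    unfold lamA
    have ha1 : (0 : ℝ) < H a := by exact_mod_cast h1.trans (omg_HU hUV hH ha)
    have hab' : (H a : ℝ) ≤ H b := by exact_mod_cast hH ha hb hab
    exact div_le_div_of_nonneg_left (Nat.cast_nonneg _) ha1 hab'
  om0 := fun h hh => by
    unfold omA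
    rw [mem_Icc] at hh
    have h2 : (0 : ℝ) < H U := by exact_mod_cast h1
    have h3 : (0 : ℝ) < h := by exact_mod_cast hh.1
    exact lt_min one_pos (div_pos h2 h3)
  lo := fun n hn h hh hle => by
    rw [mem_Icc] at hh
    rw [mem_Ioc] at hn
    have h2 : (0 : ℝ) < H U := by exact_mod_cast h1
    have h3 : (0 : ℝ) < h := by exact_mod_cast hh.1
    have h4 : (H U : ℝ) ≤ H n := by exact_mod_cast omg_HU hUV hH ⟨hn.1.le, hn.2⟩
    have h5 : (h : ℝ) ≤ H n := by exact_mod_cast hle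
    have h6 : (0 : ℝ) < H n := by linarith
    unfold lamA omA
    refine le_min ?_ ?_
    · rw [div_le_one h6]
      exact h4
    · exact div_le_div_of_nonneg_left h2.le h3 h5

theorem fwB {U V : ℕ} {H : ℕ → ℕ} (hUV : U ≤ V) (hH : MonotoneOn H (Set.Icc U V)) :
    FW U V (H V) H (fun _ => 1) (fun _ => 1) where
  UV := hUV
  mono := hH
  HG := fun _ hn => hH hn ⟨hUV, le_rfl⟩ hn.2
  lam0 := fun _ _ => zero_le_one
  anti := fun _ _ _ _ _ => le_rfl
  om0 := fun _ _ => one_pos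
  lo := fun _ _ _ _ _ => le_rfl

theorem omg_nonneg (H : ℕ → ℕ) (U h : ℕ) : 0 ≤ omA H U h := by
  unfold omA
  exact le_min zero_le_one (by positivity)

theorem omg_mul (H : ℕ → ℕ) (U h : ℕ) (hh : 1 ≤ h) : (h : ℝ) * omA H U h ≤ H U := by
  have h3 : (0 : ℝ) < h := by exact_mod_cast hh
  unfold omA
  calc (h : ℝ) * min 1 ((H U : ℝ) / h) ≤ h * ((H U : ℝ) / h) :=
        mul_le_mul_of_nonneg_left (min_le_right _ _) h3.le
    _ = H U := by field_simp

theorem O0A (H : ℕ → ℕ) (U G : ℕ) (hG : 1 ≤ G) : O0 G (omA H U) ≤ H U * (2 + Real.log G) := by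
  have _h := hG
  unfold O0 omA
  have h1 : ∑ h ∈ Icc 1 G, min 1 ((H U : ℝ) / h) ≤ ∑ h ∈ Icc 1 G, (H U : ℝ) * (h : ℝ)⁻¹ :=
    sum_le_sum fun h _ => (min_le_right _ _).trans (le_of_eq (div_eq_mul_inv _ _))
  have h2 : ∑ h ∈ Icc 1 G, ((h : ℝ))⁻¹ ≤ 1 + Real.log G := by
    have h3 := harmonic_le_one_add_log G
    rw [harmonic_eq_sum_Icc] at h3
    push_cast at h3
    exact h3
  rw [← mul_sum] at h1
  refine h1.trans (mul_le_mul_of_nonneg_left ?_ (Nat.cast_nonneg _))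
  linarith

theorem O1A (H : ℕ → ℕ) (U G : ℕ) : O1 G (omA H U) ≤ 2 * H U * G := by
  unfold O1
  calc ∑ h ∈ Icc 1 G, 2 * (h : ℝ) * omA H U h ≤ ∑ _h ∈ Icc 1 G, 2 * (H U : ℝ) := by
        refine sum_le_sum fun h hh => ?_
        rw [mem_Icc] at hh
        have := omg_mul H U h hh.1
        linarith
    _ = 2 * H U * G := by
        rw [sum_const, Nat.card_Icc, nsmul_eq_mul]
        simp only [Nat.add_sub_cancel]
        ring

theorem O2A (H : ℕ → ℕ) (U G : ℕ) : O2 G (omA H U) ≤ 2 * H U * G := by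
  refine le_trans ?_ (O1A H U G)
  unfold O1 O2
  refine sum_le_sum fun h _ => ?_
  have h1 := omg_nonneg H U h
  have h2 : omA H U h ≤ 1 := by
    unfold omA
    exact min_le_left _ _
  have h3 : omA H U h ^ 2 ≤ omA H U h := by nlinarith
  exact mul_le_mul_of_nonneg_left h3 (by positivity)

theorem O0B (G : ℕ) : O0 G (fun _ => 1) = G := by
  unfold O0
  rw [sum_const, Nat.card_Icc, nsmul_eq_mul, mul_one]
  simp

theorem O1B (G : ℕ) : O1 G (fun _ => 1) ≤ 2 * G * G := by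
  unfold O1
  calc ∑ h ∈ Icc 1 G, 2 * (h : ℝ) * 1 ≤ ∑ _h ∈ Icc 1 G, 2 * (G : ℝ) := by
        refine sum_le_sum fun h hh => ?_
        rw [mem_Icc] at hh
        have : (h : ℝ) ≤ G := by exact_mod_cast hh.2
        linarith
    _ = 2 * G * G := by
        rw [sum_const, Nat.card_Icc, nsmul_eq_mul]
        simp only [Nat.add_sub_cancel]
        ring

theorem O2B (G : ℕ) : O2 G (fun _ => 1) ≤ 2 * G * G := by
  have h := O1B G
  unfold O1 at h
  unfold O2
  simpa using h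

/-- the main terms for the first choice -/
theorem lamA_one {U V : ℕ} {H : ℕ → ℕ} (hUV : U ≤ V) (hH : MonotoneOn H (Set.Icc U V))
    (h1 : 1 ≤ H U) (g : ℕ → ℝ) :
    ∑ n ∈ Ioc U V, lamA H U n * (H n * g n) = H U * ∑ n ∈ Ioc U V, g n := by
  rw [mul_sum]
  refine sum_congr rfl fun n hn => ?_
  rw [mem_Ioc] at hn
  have h2 : (0 : ℝ) < H n := by exact_mod_cast h1.trans (omg_HU hUV hH ⟨hn.1.le, hn.2⟩)
  unfold lamA
  field_simp

theorem lamA_two {U V : ℕ} {H : ℕ → ℕ} (hUV : U ≤ V) (hH : MonotoneOn H (Set.Icc U V))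
    (h1 : 1 ≤ H U) :
    ∑ n ∈ Ioc U V, lamA H U n ^ 2 * H n ≤ H U * ((V : ℝ) - U) := by
  calc ∑ n ∈ Ioc U V, lamA H U n ^ 2 * H n ≤ ∑ _n ∈ Ioc U V, (H U : ℝ) := by
        refine sum_le_sum fun n hn => ?_
        rw [mem_Ioc] at hn
        have h3 : (H U : ℝ) ≤ H n := by exact_mod_cast omg_HU hUV hH ⟨hn.1.le, hn.2⟩
        have h4 : (1 : ℝ) ≤ H U := by exact_mod_cast h1
        have h2 : (0 : ℝ) < H n := by linarith
        have h5 : lamA H U n ^ 2 * H n = H U * (H U / H n) := by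
          unfold lamA
          field_simp
        rw [h5]
        have h6 : (H U : ℝ) / H n ≤ 1 := by
          rw [div_le_one h2]
          exact h3
        nlinarith
    _ = H U * ((V : ℝ) - U) := by
        rw [sum_const, Nat.card_Ioc, nsmul_eq_mul, Nat.cast_sub hUV]
        ring

end Pool.Agent.H67.VU
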