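import Pool.Agent.H67.VU.MainA
import Pool.Agent.H67.VU.NumM
import Pool.Agent.H67.VU.Key3
import Pool.Agent.H67.VU.Omg

/-!
[H67 VU MAIN3]  The inequality for all weights.

Proof.  `main_abs` with `U = X`, `V = 2X`, `G = H (2X)`, `D = Dw d X`, `ρ = rv D`, `s = sv D`, `K = KK D`, `Q = Qw θ κ d X` (`VT.rv_SV`),
`E = 4 X^(1-κ/2)` (`key3w`, `wl_wt`, `m ≤ G ≤ X^θ`), `F = X^(θ+κ/8)`, `T = X^(1/2+κ/4)`; `q > Z` gives `q ≥ X^(θ+4κ)`, so
`G < q` and `2 (1+1/η) G ≤ η (q-1)` for large `X`.  `V + G ≤ 3X`.  By the hypotheses on `O0`, `O1`, `O2` (all nonnegative) and `numM`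
the error terms are at most `Y X^(1-κ/4)`.
-/

namespace Pool.Agent.H67.VU

open Finset Filter Pool.Agent.H67.VS Pool.Agent.H67.VT

theorem main3 {θ κ d η : ℝ} (hP : Par θ κ d) (hη : 0 < η) (hη1 : η ≤ 1) :
    ∀ᶠ X : ℕ in atTop, ∀ H : ℕ → ℕ, MonotoneOn H (Set.Icc X (2 * X)) → 1 ≤ H X →
    (H (2 * X) : ℝ) ≤ (X : ℝ) ^ θ → ∀ f : ℕ → ℝ, (∀ n, |f n| ≤ (X : ℝ) ^ (θ + κ / 8)) →
    (∀ m n : ℕ, ∑ k ∈ Ico m n, |f (k + 1) - f k| ≤ (X : ℝ) ^ (1 / 2 + κ / 4)) →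
    ∀ (lam om : ℕ → ℝ) (Y : ℝ), FW X (2 * X) (H (2 * X)) H lam om → 0 ≤ Y →
    O0 (H (2 * X)) om ≤ Y * (2 + Real.log X) → O1 (H (2 * X)) om ≤ 2 * Y * H (2 * X) →
    O2 (H (2 * X)) om ≤ 2 * Y * H (2 * X) →
    (max 0 (Sw θ κ d X * ∑ n ∈ Ioc X (2 * X), lam n * (H n * pl n) -
      Y * (X : ℝ) ^ (1 - κ / 4))) ^ 2 ≤
      (∑ n ∈ Ioc X (2 * X), (PH (H n) n - f n) ^ 2) *
        ((1 + 2 * η) * (Sw θ κ d X * ∑ n ∈ Ioc X (2 * X), lam n ^ 2 * H n) +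
          Y * (X : ℝ) ^ (1 - κ / 4)) := by
  have hθ := hP.θ0
  have hκ := hP.κ0
  have hlow := hP.low
  have hd12 : d ≤ 1 / 2 := by
    rcases hP.up with h | h
    · linarith
    · linarith [h.2]
  have hd0 : 0 < d := by linarith
  have hcast := tendsto_natCast_atTop_atTop (R := ℝ)
  have e1 := hcast.eventually ((tendsto_rpow_atTop (show (0 : ℝ) < 4 * κ by
    positivity)).eventually_ge_atTop (1 + 2 * (1 + 1 / η) / η))
  filter_upwards [hcast.eventually (numM hP), key3w hP, e1,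
    hcast.eventually (eventually_ge_atTop (4 : ℝ))] with X hnum hkey hX4 hX
  intro H hH hH1 hHX f hf hT lam om Y hF hY hO0 hO1 hO2
  have hX0 : (0 : ℝ) < X := by linarith
  have hX1 : (1 : ℝ) ≤ X := by linarith
  have hXn : 1 ≤ X := by exact_mod_cast hX1
  obtain ⟨D, hDdef⟩ : ∃ D : ℕ, D = Dw d X := ⟨_, rfl⟩
  obtain ⟨Q, hQdef⟩ : ∃ Q : Finset ℕ, Q = Qw θ κ d X := ⟨_, rfl⟩
  rw [← hDdef, ← hQdef] at hnum hkey
  have hSw : Sw θ κ d X = SS (sv D) Q := by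
    unfold Sw
    rw [hDdef, hQdef]
  rw [hSw]
  have hDle : (D : ℝ) ≤ (X : ℝ) ^ d := by
    rw [hDdef]
    exact Nat.floor_le (Real.rpow_nonneg hX0.le _)
  have hDX : (D : ℝ) ≤ X := by
    have h1 : (X : ℝ) ^ d ≤ (X : ℝ) ^ (1 : ℝ) :=
      Real.rpow_le_rpow_of_exponent_le hX1 (by linarith)
    rw [Real.rpow_one] at h1
    exact hDle.trans h1
  have hDXn : D ≤ X := by exact_mod_cast hDX
  have hK0 : 0 ≤ KK D := by
    have := Real.log_natCast_nonneg D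
    unfold KK
    positivity
  have hLL0 : 0 ≤ LL D Q := by
    unfold LL
    exact sum_nonneg fun q _ => Nat.cast_nonneg _
  obtain ⟨G, hG⟩ : ∃ G : ℕ, G = H (2 * X) := ⟨_, rfl⟩
  rw [← hG] at hHX hF hO0 hO1 hO2
  have hG1 : 1 ≤ G := by
    rw [hG]
    exact hH1.trans (hH ⟨le_rfl, by omega⟩ ⟨by omega, le_rfl⟩ (by omega))
  have hθX : (X : ℝ) ^ θ ≤ X := by
    have h1 : (X : ℝ) ^ θ ≤ (X : ℝ) ^ (1 : ℝ) :=
      Real.rpow_le_rpow_of_exponent_le hX1 (by linarith)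
    rwa [Real.rpow_one] at h1
  have hGXr : (G : ℝ) ≤ X := hHX.trans hθX
  have hGX : G ≤ X := by exact_mod_cast hGXr
  have hθ1 : (1 : ℝ) ≤ (X : ℝ) ^ θ := Real.one_le_rpow hX1 hθ.le
  have hQ : ∀ q ∈ Q, q.Prime ∧ q ≤ D ∧ G < q ∧ 2 * (1 + 1 / η) * G ≤ η * ((q : ℝ) - 1) := by
    intro q hq
    rw [hQdef, Qw, Finset.mem_filter, Finset.mem_Ioc, ← hDdef] at hq
    have h1 : (X : ℝ) ^ (θ + 4 * κ) < q :=
      (Nat.floor_lt (Real.rpow_nonneg hX0.le _)).1 hq.1.1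
    rw [Real.rpow_add hX0] at h1
    obtain ⟨c, hc⟩ : ∃ c : ℝ, c = 2 * (1 + 1 / η) := ⟨_, rfl⟩
    have hc0 : 0 < c := by rw [hc]; positivity
    rw [← hc] at hX4 ⊢
    obtain ⟨z, hz⟩ : ∃ z : ℝ, z = (X : ℝ) ^ (4 * κ) := ⟨_, rfl⟩
    rw [← hz] at h1 hX4
    obtain ⟨g, hg⟩ : ∃ g : ℝ, g = (X : ℝ) ^ θ := ⟨_, rfl⟩
    rw [← hg] at h1 hHX hθ1
    have h2 : c / η ≤ z - 1 := by linarith
    rw [div_le_iff₀ hη] at h2
    have hz1 : 1 ≤ z := by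
      have : 0 < c / η := by positivity
      linarith
    refine ⟨hq.2, hq.1.2, ?_, ?_⟩
    · have h3 : (G : ℝ) < q := by
        have : g * 1 ≤ g * z := mul_le_mul_of_nonneg_left hz1 (by linarith)
        linarith
      exact_mod_cast h3
    · have h4 : c * g ≤ (z - 1) * η * g := mul_le_mul_of_nonneg_right h2 (by linarith)
      have h5 : c * (G : ℝ) ≤ c * g := mul_le_mul_of_nonneg_left hHX hc0.le
      have h6 : (z - 1) * η * g ≤ η * ((q : ℝ) - 1) := by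
        have : (z - 1) * η * g = η * (g * z - g) := by ring
        rw [this]
        exact mul_le_mul_of_nonneg_left (by linarith) hη.le
      linarith
  have hmain := main_abs (U := X) (V := 2 * X) (G := G) (D := D) (H := H) (lam := lam) (om := om)
    (ρ := rv D) (s := sv D) (K := KK D) (η := η) (E := 4 * (X : ℝ) ^ (1 - κ / 2))
    (F := (X : ℝ) ^ (θ + κ / 8)) (T := (X : ℝ) ^ (1 / 2 + κ / 4)) (Q := Q) hF hXn hDXn hGX hG1 hK0
    hη hη1 (fun q hq => rv_SV D q (hQ q hq).1 (hQ q hq).2.1) hQ (by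
      intro m hm
      have hm' := mem_Icc.1 hm
      have h1 : (m : ℝ) ≤ (X : ℝ) ^ θ := by
        refine le_trans ?_ hHX
        exact_mod_cast hm'.2
      exact hkey m hm'.1 h1 _ (wl_wt hF m hm)) f hf hT
  have hGr : (0 : ℝ) ≤ G := Nat.cast_nonneg _
  obtain ⟨hn1, hn2⟩ := hnum G ((X : ℝ) ^ (θ + κ / 8)) ((X : ℝ) ^ (1 / 2 + κ / 4)) hGr hHX
    (by positivity) le_rfl (by positivity) le_rfl
  obtain ⟨E0, hE0⟩ : ∃ E0 : ℝ, E0 = (X : ℝ) ^ (1 - κ / 2) := ⟨_, rfl⟩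
  obtain ⟨F0, hF0⟩ : ∃ F0 : ℝ, F0 = (X : ℝ) ^ (θ + κ / 8) := ⟨_, rfl⟩
  obtain ⟨T0, hT0⟩ : ∃ T0 : ℝ, T0 = (X : ℝ) ^ (1 / 2 + κ / 4) := ⟨_, rfl⟩
  obtain ⟨W0, hW0⟩ : ∃ W0 : ℝ, W0 = (X : ℝ) ^ (1 - κ / 4) := ⟨_, rfl⟩
  have hE0' : 0 ≤ E0 := by rw [hE0]; positivity
  have hF0' : 0 ≤ F0 := by rw [hF0]; positivity
  have hT0' : 0 ≤ T0 := by rw [hT0]; positivity
  rw [← hE0, ← hF0, ← hT0] at hmain
  rw [← hE0, ← hF0, ← hT0, ← hW0] at hn1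
  rw [← hW0] at hn2
  rw [← hW0]
  obtain ⟨P, hPd⟩ : ∃ P : ℝ, P = KK D * LL D Q := ⟨_, rfl⟩
  have hP0 : 0 ≤ P := by
    rw [hPd]
    exact mul_nonneg hK0 hLL0
  obtain ⟨L3, hL3⟩ : ∃ L3 : ℝ, L3 = Real.log (3 * X) := ⟨_, rfl⟩
  obtain ⟨LV, hLV⟩ : ∃ LV : ℝ, LV = Real.log (((2 * X : ℕ) : ℝ) + G) := ⟨_, rfl⟩
  have hLVL3 : LV ≤ L3 := by
    rw [hLV, hL3]
    apply Real.log_le_log
    · push_cast
      linarith
    · push_cast
      linarith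
  have hLV0 : 0 ≤ LV := by
    rw [hLV]
    apply Real.log_nonneg
    push_cast
    linarith
  have hL30 : 0 ≤ L3 := hLV0.trans hLVL3
  rw [← hLV, ← hPd] at hmain
  rw [← hL3, ← hPd] at hn1
  rw [← hPd] at hn2
  have hl0 : 0 ≤ 2 + Real.log (X : ℝ) := by
    have := Real.log_nonneg hX1
    linarith
  -- the error terms
  have hErr1 : O0 G om * (4 * E0) + 3 * (G : ℝ) * (LV * P) * O1 G om +
      3 * KK D * LL D Q * (4 * F0 + T0) * O0 G om ≤ Y * W0 := by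
    have h1 : O0 G om * (4 * E0) ≤ Y * (2 + Real.log X) * (4 * E0) :=
      mul_le_mul_of_nonneg_right hO0 (by positivity)
    have h2 : 3 * (G : ℝ) * (LV * P) * O1 G om ≤ 3 * (G : ℝ) * (L3 * P) * (2 * Y * G) := by
      refine (mul_le_mul_of_nonneg_left hO1 (by positivity)).trans ?_
      refine mul_le_mul_of_nonneg_right ?_ (by positivity)
      refine mul_le_mul_of_nonneg_left ?_ (by positivity)
      exact mul_le_mul_of_nonneg_right hLVL3 hP0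
    have h3 : 3 * KK D * LL D Q * (4 * F0 + T0) * O0 G om ≤
        3 * KK D * LL D Q * (4 * F0 + T0) * (Y * (2 + Real.log X)) :=
      mul_le_mul_of_nonneg_left hO0 (by positivity)
    have h4 := mul_le_mul_of_nonneg_left hn1 hY
    have h5 : Y * ((2 + Real.log X) * (4 * E0) + 3 * (G : ℝ) * (L3 * P) * (2 * G) +
        3 * KK D * LL D Q * (4 * F0 + T0) * (2 + Real.log X)) =
        Y * (2 + Real.log X) * (4 * E0) + 3 * (G : ℝ) * (L3 * P) * (2 * Y * G) +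
        3 * KK D * LL D Q * (4 * F0 + T0) * (Y * (2 + Real.log X)) := by ring
    linarith
  have hErr2 : 100 * P ^ 2 * O2 G om ≤ Y * W0 := by
    have h1 : 100 * P ^ 2 * O2 G om ≤ 100 * P ^ 2 * (2 * Y * G) :=
      mul_le_mul_of_nonneg_left hO2 (by positivity)
    have h2 := mul_le_mul_of_nonneg_left hn2 hY
    have h3 : Y * (100 * P ^ 2 * (2 * G)) = 100 * P ^ 2 * (2 * Y * G) := by ring
    linarith
  have hV0 : 0 ≤ ∑ n ∈ Ioc X (2 * X), (PH (H n) n - f n) ^ 2 := sum_nonneg fun n _ => sq_nonneg _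
  calc (max 0 (SS (sv D) Q * ∑ n ∈ Ioc X (2 * X), lam n * (H n * pl n) - Y * W0)) ^ 2
      ≤ (max 0 (SS (sv D) Q * ∑ n ∈ Ioc X (2 * X), lam n * (H n * pl n) -
        (O0 G om * (4 * E0) + 3 * (G : ℝ) * (LV * P) * O1 G om +
          3 * KK D * LL D Q * (4 * F0 + T0) * O0 G om))) ^ 2 := by
        refine pow_le_pow_left₀ (le_max_left _ _) ?_ 2
        exact max_le_max le_rfl (by linarith)
    _ ≤ _ := hmain
    _ ≤ _ := by
        refine mul_le_mul_of_nonneg_left ?_ hV0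
        linarith

end Pool.Agent.H67.VU
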