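import Pool.Agent.H67.VU.Cov3
import Pool.Agent.H67.VU.Gsq3
import Pool.Agent.H67.VU.Fp3

/-!
[H67 VU MAINA]  The Cauchy-Schwarz inequality, general form.

Proof.  `Z = ∑ lam (PH - f) gg = ∑ lam PH gg - ∑ lam f gg`.  By `cov3`, the hypothesis `hE` (`|∑_m om m (..)| ≤ E O0`,
`om m > 0`) and `fp3`: `Z ≥ SS ∑ lam (H pl) - E1`.  If `SS ∑ lam (H pl) - E1 > 0` then its square is
`≤ Z^2 = (∑ (PH - f) (lam gg))^2 ≤ ∑ (PH - f)^2 ∑ lam^2 gg^2` and `gsq3`.  Otherwise the left side is `0` and the right side is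
nonnegative.
-/

namespace Pool.Agent.H67.VU

open Finset Pool.Agent.H67.VS Pool.Agent.H67.VT

theorem main_abs {U V G D : ℕ} {H : ℕ → ℕ} {lam om : ℕ → ℝ} {ρ : ℕ → ℕ → ℝ} {s : ℕ → ℝ}
    {K η E F T : ℝ} {Q : Finset ℕ} (hF : FW U V G H lam om) (hU : 1 ≤ U) (hDU : D ≤ U) (hGU : G ≤ U)
    (hG : 1 ≤ G) (hK : 0 ≤ K) (hη : 0 < η) (hη1 : η ≤ 1)
    (hρ : ∀ q ∈ Q, SV (D / q) q K (s q) (ρ q))
    (hQ : ∀ q ∈ Q, q.Prime ∧ q ≤ D ∧ G < q ∧ 2 * (1 + 1 / η) * G ≤ η * ((q : ℝ) - 1))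
    (hE : ∀ m ∈ Icc 1 G, |∑ k ∈ Ico 1 m, ∑ n ∈ Ioc U V, wl U V H lam om m n *
      (pl n * (bq ρ D Q n (k : ℤ) + bq ρ D Q n (-(k : ℤ))))| ≤ E)
    (f : ℕ → ℝ) (hf : ∀ n, |f n| ≤ F) (hT : ∀ m n : ℕ, ∑ k ∈ Ico m n, |f (k + 1) - f k| ≤ T) :
    (max 0 (SS s Q * ∑ n ∈ Ioc U V, lam n * (H n * pl n) -
      (O0 G om * E + 3 * G * (Real.log (V + G) * (K * LL D Q)) * O1 G om +
        3 * K * LL D Q * (4 * F + T) * O0 G om))) ^ 2 ≤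
      (∑ n ∈ Ioc U V, (PH (H n) n - f n) ^ 2) *
        ((1 + 2 * η) * (SS s Q * ∑ n ∈ Ioc U V, lam n ^ 2 * H n) +
          100 * (K * LL D Q) ^ 2 * O2 G om) := by
  have hcov := cov3 hF hU hDU hGU hK hρ (fun q hq => ⟨(hQ q hq).1, (hQ q hq).2.1⟩)
  have hfp := fp3 hF hK hρ (fun q hq => (hQ q hq).1) f hf hT
  have hg := gsq3 hF hG hη hη1 hρ (fun q hq => ⟨(hQ q hq).1, (hQ q hq).2.2.1, (hQ q hq).2.2.2⟩)
  have hR : |∑ m ∈ Icc 1 G, om m * ∑ k ∈ Ico 1 m, ∑ n ∈ Ioc U V, wl U V H lam om m n *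
      (pl n * (bq ρ D Q n (k : ℤ) + bq ρ D Q n (-(k : ℤ))))| ≤ O0 G om * E := by
    refine (abs_sum_le_sum_abs _ _).trans ?_
    unfold O0
    rw [sum_mul]
    refine sum_le_sum fun m hm => ?_
    rw [abs_mul, abs_of_pos (hF.om0 m hm)]
    exact mul_le_mul_of_nonneg_left (hE m hm) (hF.om0 m hm).le
  obtain ⟨S1, hS1⟩ : ∃ S1 : ℝ, S1 = ∑ n ∈ Ioc U V, lam n * (PH (H n) n * gg ρ D Q (H n) n) :=
    ⟨_, rfl⟩
  obtain ⟨S2, hS2⟩ : ∃ S2 : ℝ, S2 = ∑ n ∈ Ioc U V, lam n * (f n * gg ρ D Q (H n) n) := ⟨_, rfl⟩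
  obtain ⟨R, hRR⟩ : ∃ R : ℝ, R = ∑ m ∈ Icc 1 G, om m * ∑ k ∈ Ico 1 m, ∑ n ∈ Ioc U V,
      wl U V H lam om m n * (pl n * (bq ρ D Q n (k : ℤ) + bq ρ D Q n (-(k : ℤ)))) := ⟨_, rfl⟩
  rw [← hS1, ← hRR] at hcov
  rw [← hS2] at hfp
  rw [← hRR] at hR
  have hZ : S1 - S2 = ∑ n ∈ Ioc U V, (PH (H n) n - f n) * (lam n * gg ρ D Q (H n) n) := by
    rw [hS1, hS2, ← sum_sub_distrib]
    refine sum_congr rfl fun n _ => ?_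
    ring
  have hCS : (S1 - S2) ^ 2 ≤ (∑ n ∈ Ioc U V, (PH (H n) n - f n) ^ 2) *
      ∑ n ∈ Ioc U V, lam n ^ 2 * gg ρ D Q (H n) n ^ 2 := by
    rw [hZ]
    refine (sum_mul_sq_le_sq_mul_sq _ _ _).trans (le_of_eq ?_)
    congr 1
    refine sum_congr rfl fun n _ => ?_
    ring
  have hPn : 0 ≤ ∑ n ∈ Ioc U V, (PH (H n) n - f n) ^ 2 := sum_nonneg fun n _ => sq_nonneg _
  have hgn : 0 ≤ ∑ n ∈ Ioc U V, lam n ^ 2 * gg ρ D Q (H n) n ^ 2 :=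
    sum_nonneg fun n _ => mul_nonneg (sq_nonneg _) (sq_nonneg _)
  have hfin := hCS.trans (mul_le_mul_of_nonneg_left hg hPn)
  refine le_trans ?_ hfin
  have hb1 := abs_le.1 hcov
  have hb2 := abs_le.1 hfp
  have hb3 := abs_le.1 hR
  rcases le_total (SS s Q * ∑ n ∈ Ioc U V, lam n * (H n * pl n) -
      (O0 G om * E + 3 * G * (Real.log (V + G) * (K * LL D Q)) * O1 G om +
        3 * K * LL D Q * (4 * F + T) * O0 G om)) 0 with h0 | h0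
  · rw [max_eq_left h0, zero_pow two_ne_zero]
    exact sq_nonneg _
  · rw [max_eq_right h0]
    refine pow_le_pow_left₀ h0 ?_ 2
    linarith [hb1.1, hb1.2, hb2.1, hb2.2, hb3.1, hb3.2]

end Pool.Agent.H67.VU
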