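import Pool.Agent.H67.VU.Defs

/-!
[H67 VU NUM3]  The exponents.

Proof.  `λ ≥ 1` (`R ≥ 1` for large `X`), `X^(2κ) ≥ 1`, so `u ≥ 1`, `λ^2 X^(2κ)/2 ≤ u ≤ λ^2 X^(2κ)`.
* `u^3 ≤ X`: if `d ≤ 1/3 - 4κ`: `λ^2 ≤ R ≤ 2 X^(1/3-4κ)`, `u^3 ≤ 8 X^(1-6κ) ≤ X` for large `X`; otherwise
  `λ^2 ≤ X^(2θ) ≤ X^(1/3-4κ)`, `u^3 ≤ X^(1-6κ)`.
* `(λ/R) 2X ≤ X^θ 2X · 2 X^(-θ-4κ) = 4 X^(1-4κ)`.
* `(λ/R) R 2X/√u ≤ λ 2X √2/(λ X^κ) = 2√2 X^(1-κ)`.
* `(λ/R) R^2 √(2X) = λ R √(2X)`: first case `λ R ≤ R^(3/2) ≤ (2 X^(1/3-4κ))^(3/2) ≤ 3 X^(1/2-6κ)`; second case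
  `λ R ≤ X^θ 2 X^d ≤ 2 X^(1/2-4κ)`.
* `(λ/R) R^2 √R u ≤ λ^3 R^(3/2) X^(2κ)`: first case `λ ≤ √R`: `≤ R^3 X^(2κ) ≤ 8 X^(1-10κ)`; second case
  `≤ X^(3θ) (2 X^(1/2-θ-4κ))^(3/2) X^(2κ) ≤ 3 X^(3/4 + 3θ/2 - 4κ) ≤ 3 X^(1-7κ)` as `θ ≤ 1/6 - 2κ`.
-/

namespace Pool.Agent.H67.VU

open Finset Filter

private theorem num3_core {θ κ d : ℝ} (hP : Par θ κ d) (X R l s u : ℝ) (hX : 1 ≤ X)
    (h8 : 8 ≤ X ^ (6 * κ)) (hR1 : X ^ (θ + 4 * κ) / 2 ≤ R) (hR2 : R ≤ 2 * X ^ d)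
    (hl1 : 1 ≤ l) (hls : l ≤ s) (hlX : l ≤ X ^ θ) (hs : s ^ 2 = R) (hu0 : 0 ≤ u)
    (hu1 : l ^ 2 * X ^ (2 * κ) / 4 ≤ u) (hu2 : u ≤ l ^ 2 * X ^ (2 * κ)) :
    u ^ 3 ≤ X ∧ l / R * (2 * X + R * (2 * X) / Real.sqrt u + R ^ 2 * Real.sqrt (2 * X) +
        R ^ 2 * s * u) ≤ 30 * X ^ (1 - κ) := by
  have hθ := hP.θ0
  have hκ := hP.κ0
  have hX0 : 0 < X := by linarith
  have hs1 : 1 ≤ s := hl1.trans hls
  have hR0 : 0 < R := by rw [← hs]; positivity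
  have hadd : ∀ a b : ℝ, X ^ a * X ^ b = X ^ (a + b) := fun a b => (Real.rpow_add hX0 a b).symm
  have hmono : ∀ {a b : ℝ}, a ≤ b → X ^ a ≤ X ^ b := fun h => Real.rpow_le_rpow_of_exponent_le hX h
  have hpos : ∀ a : ℝ, 0 < X ^ a := fun a => Real.rpow_pos_of_pos hX0 a
  have hX1 : X ^ (1 : ℝ) = X := Real.rpow_one X
  have hcube : ∀ a : ℝ, (X ^ a) ^ 3 = X ^ (3 * a) := by
    intro a
    rw [← Real.rpow_natCast, ← Real.rpow_mul hX0.le]
    congr 1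
    push_cast
    ring
  have hsq : ∀ a : ℝ, (X ^ a) ^ 2 = X ^ (2 * a) := by
    intro a
    rw [← Real.rpow_natCast, ← Real.rpow_mul hX0.le]
    congr 1
    push_cast
    ring
  have hs6 : s ^ 6 = R ^ 3 := by rw [← hs]; ring
  have hR3 : R ^ 3 ≤ 8 * X ^ (3 * d) := by
    calc R ^ 3 ≤ (2 * X ^ d) ^ 3 := by gcongr
      _ = 8 * (X ^ d) ^ 3 := by ring
      _ = 8 * X ^ (3 * d) := by rw [hcube]
  -- R s ≤ 3 X^(3d/2)
  have hRs : R * s ≤ 3 * X ^ (3 / 2 * d) := by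
    refine (pow_le_pow_iff_left₀ (by positivity) (by positivity) two_ne_zero).mp ?_
    calc (R * s) ^ 2 = R ^ 2 * s ^ 2 := by ring
      _ = R ^ 3 := by rw [hs]; ring
      _ ≤ 8 * X ^ (3 * d) := hR3
      _ ≤ 9 * X ^ (3 * d) := by
        have := hpos (3 * d)
        linarith
      _ = (3 * X ^ (3 / 2 * d)) ^ 2 := by
        rw [mul_pow, hsq]
        norm_num
        congr 1
        ring
  have hu3 : u ^ 3 ≤ l ^ 6 * X ^ (6 * κ) := by
    calc u ^ 3 ≤ (l ^ 2 * X ^ (2 * κ)) ^ 3 := by gcongr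
      _ = l ^ 6 * (X ^ (2 * κ)) ^ 3 := by ring
      _ = l ^ 6 * X ^ (6 * κ) := by
        rw [hcube]
        congr 2
        ring
  -- first term
  have hA : l / R * (2 * X) ≤ 4 * X ^ (1 - κ) := by
    have h1 : l / R ≤ 2 * X ^ (-(4 * κ)) := by
      rw [div_le_iff₀ hR0]
      calc l ≤ X ^ θ := hlX
        _ = 2 * X ^ (-(4 * κ)) * (X ^ (θ + 4 * κ) / 2) := by
          rw [show 2 * X ^ (-(4 * κ)) * (X ^ (θ + 4 * κ) / 2) = X ^ (-(4 * κ)) * X ^ (θ + 4 * κ) by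
            ring, hadd]
          congr 1
          ring
        _ ≤ 2 * X ^ (-(4 * κ)) * R := by
          have := hpos (-(4 * κ))
          gcongr
    calc l / R * (2 * X) ≤ 2 * X ^ (-(4 * κ)) * (2 * X) := by gcongr
      _ = 4 * (X ^ (-(4 * κ)) * X ^ (1 : ℝ)) := by rw [hX1]; ring
      _ = 4 * X ^ (-(4 * κ) + 1) := by rw [hadd]
      _ ≤ 4 * X ^ (1 - κ) := by
        have := hmono (show -(4 * κ) + 1 ≤ 1 - κ by linarith)
        linarith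
  -- second term
  have hB : l / R * (R * (2 * X) / Real.sqrt u) ≤ 4 * X ^ (1 - κ) := by
    have h1 : l * X ^ κ / 2 ≤ Real.sqrt u := by
      apply Real.le_sqrt_of_sq_le
      calc (l * X ^ κ / 2) ^ 2 = l ^ 2 * (X ^ κ) ^ 2 / 4 := by ring
        _ = l ^ 2 * X ^ (2 * κ) / 4 := by rw [hsq]
        _ ≤ u := hu1
    have h2 : 0 < l * X ^ κ / 2 := by
      have := hpos κ
      positivity
    calc l / R * (R * (2 * X) / Real.sqrt u) = l * (2 * X) / Real.sqrt u := by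
          field_simp
      _ ≤ l * (2 * X) / (l * X ^ κ / 2) := by gcongr
      _ = 4 * (X / X ^ κ) := by
        have := (hpos κ).ne'
        field_simp
        ring
      _ = 4 * X ^ (1 - κ) := by
        rw [Real.rpow_sub hX0, hX1]
  have hsqX : Real.sqrt (2 * X) ≤ 2 * X ^ (1 / 2 : ℝ) := by
    apply Real.sqrt_le_iff.mpr
    refine ⟨by positivity, ?_⟩
    calc 2 * X ≤ 4 * X := by linarith
      _ = (2 * X ^ (1 / 2 : ℝ)) ^ 2 := by
        rw [mul_pow, hsq, show (2 : ℝ) * (1 / 2) = 1 by norm_num, hX1]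
        norm_num
  have hCeq : l / R * (R ^ 2 * Real.sqrt (2 * X)) = l * R * Real.sqrt (2 * X) := by
    field_simp
  have hDeq : l / R * (R ^ 2 * s * u) = l * (R * s) * u := by
    field_simp
  have hD1 : l * (R * s) * u ≤ l ^ 3 * (R * s) * X ^ (2 * κ) := by
    calc l * (R * s) * u ≤ l * (R * s) * (l ^ 2 * X ^ (2 * κ)) := by gcongr
      _ = l ^ 3 * (R * s) * X ^ (2 * κ) := by ring
  have key : u ^ 3 ≤ X ∧ l * R ≤ 3 * X ^ (1 / 2 - κ) ∧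
      l ^ 3 * (R * s) * X ^ (2 * κ) ≤ 8 * X ^ (1 - κ) := by
    rcases hP.up with h | ⟨h1, h2⟩
    · have hd3 : R ^ 3 ≤ 8 * X ^ (1 - 12 * κ) := by
        refine hR3.trans ?_
        have := hmono (show 3 * d ≤ 1 - 12 * κ by linarith)
        linarith
      have hl6 : l ^ 6 ≤ 8 * X ^ (1 - 12 * κ) := by
        calc l ^ 6 ≤ s ^ 6 := by gcongr
          _ = R ^ 3 := hs6
          _ ≤ _ := hd3
      refine ⟨?_, ?_, ?_⟩
      · calc u ^ 3 ≤ l ^ 6 * X ^ (6 * κ) := hu3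
          _ ≤ 8 * X ^ (1 - 12 * κ) * X ^ (6 * κ) := by
            have := hpos (6 * κ)
            gcongr
          _ = 8 * X ^ (1 - 6 * κ) := by
            rw [mul_assoc, hadd]
            congr 2
            ring
          _ ≤ X ^ (6 * κ) * X ^ (1 - 6 * κ) := by
            have := hpos (1 - 6 * κ)
            gcongr
          _ = X := by
            rw [hadd, show 6 * κ + (1 - 6 * κ) = 1 by ring, hX1]
      · calc l * R ≤ s * R := by gcongr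
          _ = R * s := mul_comm _ _
          _ ≤ 3 * X ^ (3 / 2 * d) := hRs
          _ ≤ 3 * X ^ (1 / 2 - κ) := by
            have := hmono (show 3 / 2 * d ≤ 1 / 2 - κ by linarith)
            linarith
      · calc l ^ 3 * (R * s) * X ^ (2 * κ) ≤ s ^ 3 * (R * s) * X ^ (2 * κ) := by
              have := hpos (2 * κ)
              gcongr
          _ = s ^ 4 * R * X ^ (2 * κ) := by ring
          _ = R ^ 3 * X ^ (2 * κ) := by
            rw [show s ^ 4 = (s ^ 2) ^ 2 by ring, hs]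
            ring
          _ ≤ 8 * X ^ (1 - 12 * κ) * X ^ (2 * κ) := by
              have := hpos (2 * κ)
              gcongr
          _ = 8 * X ^ (1 - 10 * κ) := by
            rw [mul_assoc, hadd]
            congr 2
            ring
          _ ≤ 8 * X ^ (1 - κ) := by
            have := hmono (show 1 - 10 * κ ≤ 1 - κ by linarith)
            linarith
    · refine ⟨?_, ?_, ?_⟩
      · calc u ^ 3 ≤ l ^ 6 * X ^ (6 * κ) := hu3
          _ = (l ^ 3) ^ 2 * X ^ (6 * κ) := by ring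
          _ ≤ ((X ^ θ) ^ 3) ^ 2 * X ^ (6 * κ) := by
            have := hpos (6 * κ)
            gcongr
          _ = X ^ (2 * (3 * θ) + 6 * κ) := by rw [hcube, hsq, hadd]
          _ ≤ X ^ (1 : ℝ) := hmono (by linarith)
          _ = X := hX1
      · calc l * R ≤ X ^ θ * (2 * X ^ d) := by
              have := hpos θ
              gcongr
          _ = 2 * X ^ (θ + d) := by rw [← hadd]; ring
          _ ≤ 3 * X ^ (θ + d) := by
            have := hpos (θ + d)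
            linarith
          _ ≤ 3 * X ^ (1 / 2 - κ) := by
            have := hmono (show θ + d ≤ 1 / 2 - κ by linarith)
            linarith
      · calc l ^ 3 * (R * s) * X ^ (2 * κ) ≤ (X ^ θ) ^ 3 * (3 * X ^ (3 / 2 * d)) * X ^ (2 * κ) := by
              have := hpos (2 * κ)
              have := hpos θ
              gcongr
          _ = 3 * (X ^ (3 * θ) * X ^ (3 / 2 * d) * X ^ (2 * κ)) := by rw [hcube]; ring
          _ = 3 * X ^ (3 * θ + 3 / 2 * d + 2 * κ) := by rw [hadd, hadd]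
          _ ≤ 8 * X ^ (3 * θ + 3 / 2 * d + 2 * κ) := by
            have := hpos (3 * θ + 3 / 2 * d + 2 * κ)
            linarith
          _ ≤ 8 * X ^ (1 - κ) := by
            have := hmono (show 3 * θ + 3 / 2 * d + 2 * κ ≤ 1 - κ by linarith)
            linarith
  obtain ⟨k1, k2, k3⟩ := key
  refine ⟨k1, ?_⟩
  have hC : l * R * Real.sqrt (2 * X) ≤ 6 * X ^ (1 - κ) := by
    calc l * R * Real.sqrt (2 * X) ≤ 3 * X ^ (1 / 2 - κ) * (2 * X ^ (1 / 2 : ℝ)) := by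
          have := hpos (1 / 2 - κ)
          gcongr
      _ = 6 * (X ^ (1 / 2 - κ) * X ^ (1 / 2 : ℝ)) := by ring
      _ = 6 * X ^ (1 - κ) := by
        rw [hadd]
        congr 2
        ring
  rw [mul_add, mul_add, mul_add, hCeq, hDeq]
  have := hpos (1 - κ)
  linarith [hD1.trans k3]

theorem num3 {θ κ d : ℝ} (hP : Par θ κ d) : ∀ᶠ X : ℝ in atTop, ∀ R G : ℝ,
    X ^ (θ + 4 * κ) / 2 ≤ R → R ≤ 2 * X ^ d → 1 ≤ G → G ≤ X ^ θ →
    1 ≤ R ∧ R ≤ X ∧ 1 ≤ ⌊min G (Real.sqrt R) ^ 2 * X ^ (2 * κ)⌋₊ ∧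
    ((⌊min G (Real.sqrt R) ^ 2 * X ^ (2 * κ)⌋₊ : ℕ) : ℝ) ^ 3 ≤ X ∧
    min G (Real.sqrt R) / R * (2 * X +
        R * (2 * X) / Real.sqrt ((⌊min G (Real.sqrt R) ^ 2 * X ^ (2 * κ)⌋₊ : ℕ) : ℝ) +
        R ^ 2 * Real.sqrt (2 * X) +
        R ^ 2 * Real.sqrt R * ((⌊min G (Real.sqrt R) ^ 2 * X ^ (2 * κ)⌋₊ : ℕ) : ℝ)) ≤
      30 * X ^ (1 - κ) := by
  have hθ := hP.θ0
  have hκ := hP.κ0
  have hd1 : d ≤ 1 / 2 := by
    rcases hP.up with h | ⟨h1, h2⟩ <;> linarith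
  have e1 := (tendsto_rpow_atTop (show (0 : ℝ) < 6 * κ by positivity)).eventually_ge_atTop 8
  have e2 := (tendsto_rpow_atTop (show (0 : ℝ) < θ + 4 * κ by positivity)).eventually_ge_atTop 2
  have e3 := (tendsto_rpow_atTop (show (0 : ℝ) < 1 - d by linarith)).eventually_ge_atTop 2
  filter_upwards [e1, e2, e3, eventually_ge_atTop (1 : ℝ)] with X h1 h2 h3 hX
  intro R G hR1 hR2 hG1 hG2
  have hX0 : 0 < X := by linarith
  have hR : 1 ≤ R := by linarith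
  have hs1 : 1 ≤ Real.sqrt R := Real.one_le_sqrt.mpr hR
  have hl1 : 1 ≤ min G (Real.sqrt R) := le_min hG1 hs1
  have hX2 : 1 ≤ X ^ (2 * κ) := Real.one_le_rpow hX (by positivity)
  have hv1 : 1 ≤ min G (Real.sqrt R) ^ 2 * X ^ (2 * κ) := by
    have h4 : 1 ≤ min G (Real.sqrt R) ^ 2 := one_le_pow₀ hl1
    nlinarith
  have hfl : 1 ≤ ⌊min G (Real.sqrt R) ^ 2 * X ^ (2 * κ)⌋₊ := Nat.le_floor (by exact_mod_cast hv1)
  have hfl1 : ((1 : ℕ) : ℝ) ≤ ((⌊min G (Real.sqrt R) ^ 2 * X ^ (2 * κ)⌋₊ : ℕ) : ℝ) := by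
    exact_mod_cast hfl
  have hlt := Nat.lt_floor_add_one (min G (Real.sqrt R) ^ 2 * X ^ (2 * κ))
  have hcore := num3_core hP X R (min G (Real.sqrt R)) (Real.sqrt R)
    ((⌊min G (Real.sqrt R) ^ 2 * X ^ (2 * κ)⌋₊ : ℕ) : ℝ) hX h1 hR1 hR2 hl1 (min_le_right _ _)
    ((min_le_left _ _).trans hG2) (Real.sq_sqrt (by linarith)) (Nat.cast_nonneg _) (by
      push_cast at hfl1
      linarith) (Nat.floor_le (by positivity))
  refine ⟨hR, ?_, hfl, hcore.1, hcore.2⟩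
  refine hR2.trans ?_
  calc 2 * X ^ d ≤ X ^ (1 - d) * X ^ d := by
        have := Real.rpow_pos_of_pos hX0 d
        gcongr
    _ = X := by
      rw [← Real.rpow_add hX0, show 1 - d + d = 1 by ring, Real.rpow_one]

end Pool.Agent.H67.VU
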