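import Pool.Agent.H67.VU.Cut

/-!
[H67 VU TYC]  Sums of type II with a sharp cut-off.

Proof.  (`Pool/Agent/H67/VT/Ty2.lean` has the same dyadic decomposition with smooth weights.)
`a`, `b` are only used for indices `> u ≥ 1`.  If `T < u^2` the sum is empty (`m > u`, `u < k ≤ T/m`).  Otherwise cover
`(u, T/u]` by the blocks `(M, 2M]`, `M = 2^i u`, `i < J` with `2^J ≤ 2T`, `J ≤ 2 (1 + log T)`; `m > T/u` gives an empty
inner sum.  For `m ∈ (M,2M]`, `m ≤ T/u`: the inner sum over `k ∈ (u, T/m]` is the sum over `k ∈ (u, T/M]` with `m k ≤ T`: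
`bil_cut` with `M1 = M`, `M2 = 2M`, `N1 = u`, `N2 = T/M` (`≥ u`), coefficient `a m` set to `0` for `m > T/u`
(or for all `m` in the block: harmless, since `m k ≤ T` and `k > u`), `s ≤ 4 (1 + log T)`.  Bound of the block:
`C s α β √((M + R^2) M) √((T/M + R^2) T/M) ≤ C s α β √T √(T + R^2 M + R^2 T/M + R^4)
≤ C s α β (T + R √(T M) + R T/√M + R^2 √T)`.  Sum over `i`: `∑ √M ≤ 4 √(T/u)`, `∑ 1/√M ≤ 4/√u`.
-/

namespace Pool.Agent.H67.VU

open Finset Pool.Agent.H21.MT

private theorem tyc_blk (f : ℕ → ℂ) (u : ℕ) (hu : 1 ≤ u) (J : ℕ) :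
    ∑ m ∈ Ioc u (2 ^ J * u), f m =
      ∑ i ∈ range J, ∑ m ∈ Ioc (2 ^ i * u) (2 * (2 ^ i * u)), f m := by
  induction J with
  | zero => simp
  | succ J ih =>
    rw [Finset.sum_range_succ, ← ih]
    have e : 2 * (2 ^ J * u) = 2 ^ (J + 1) * u := by ring
    rw [e, Finset.sum_Ioc_consecutive]
    · calc u = 1 * u := (one_mul u).symm
        _ ≤ 2 ^ J * u := Nat.mul_le_mul_right u Nat.one_le_two_pow
    · exact Nat.mul_le_mul_right u (Nat.pow_le_pow_right (by norm_num) (by omega))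

/-- the numerical inequality for one block -/
private theorem tyc_num {M T u R α β : ℝ} (hu : 1 ≤ u) (hM : u ≤ M) (hMT : M * u ≤ T)
    (hR : 0 ≤ R) (hα : 0 ≤ α) (hβ : 0 ≤ β) :
    Real.sqrt ((M + R ^ 2) * (M * α ^ 2)) * Real.sqrt ((T / M + R ^ 2) * (T / M * β ^ 2)) ≤
      2 * α * β * (T + R * T / Real.sqrt u + R ^ 2 * Real.sqrt T) := by
  have hu0 : 0 < u := by linarith
  have hM0 : 0 < M := by linarith
  have hT0 : 0 < T := by
    have : 0 < M * u := by positivity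
    linarith
  have hsu : 0 < Real.sqrt u := Real.sqrt_pos.2 hu0
  have hsu2 : Real.sqrt u ^ 2 = u := Real.sq_sqrt hu0.le
  have hsT2 : Real.sqrt T ^ 2 = T := Real.sq_sqrt hT0.le
  have hsT : 0 ≤ Real.sqrt T := Real.sqrt_nonneg T
  rw [← Real.sqrt_mul (by positivity)]
  have hQ0 : 0 ≤ 2 * α * β * (T + R * T / Real.sqrt u + R ^ 2 * Real.sqrt T) := by positivity
  rw [← Real.sqrt_sq hQ0]
  apply Real.sqrt_le_sqrt
  have h1 : (M + R ^ 2) * (M * α ^ 2) * ((T / M + R ^ 2) * (T / M * β ^ 2)) =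
      (α * β) ^ 2 * (T * (T + R ^ 2 * M + R ^ 2 * (T / M) + R ^ 4)) := by
    field_simp
    ring
  have h2 : M ≤ T / u := by
    rw [le_div_iff₀ hu0]
    exact hMT
  have h3 : T / M ≤ T / u := div_le_div_of_nonneg_left hT0.le hu0 hM
  have h4 : T * (T + R ^ 2 * M + R ^ 2 * (T / M) + R ^ 4) ≤
      T * (T + 2 * R ^ 2 * (T / u) + R ^ 4) := by
    apply mul_le_mul_of_nonneg_left _ hT0.le
    have h5 : R ^ 2 * M ≤ R ^ 2 * (T / u) := mul_le_mul_of_nonneg_left h2 (by positivity)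
    have h6 : R ^ 2 * (T / M) ≤ R ^ 2 * (T / u) := mul_le_mul_of_nonneg_left h3 (by positivity)
    linarith
  have h7 : T * (T + 2 * R ^ 2 * (T / u) + R ^ 4) ≤
      4 * (T + R * T / Real.sqrt u + R ^ 2 * Real.sqrt T) ^ 2 := by
    have g1 : 0 ≤ R * T / Real.sqrt u := by positivity
    have g2 : 0 ≤ R ^ 2 * Real.sqrt T := by positivity
    have g3 : (R * T / Real.sqrt u) ^ 2 = R ^ 2 * T * (T / u) := by
      rw [div_pow, hsu2]
      ring
    have g4 : (R ^ 2 * Real.sqrt T) ^ 2 = R ^ 4 * T := by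
      rw [mul_pow, hsT2]
      ring
    have g5 : 0 ≤ T * (R * T / Real.sqrt u) := by positivity
    have g6 : 0 ≤ T * (R ^ 2 * Real.sqrt T) := by positivity
    have g7 : 0 ≤ (R * T / Real.sqrt u) * (R ^ 2 * Real.sqrt T) := by positivity
    have g8 : (T + R * T / Real.sqrt u + R ^ 2 * Real.sqrt T) ^ 2 =
        T ^ 2 + (R * T / Real.sqrt u) ^ 2 + (R ^ 2 * Real.sqrt T) ^ 2 +
        2 * (T * (R * T / Real.sqrt u)) + 2 * (T * (R ^ 2 * Real.sqrt T)) +
        2 * ((R * T / Real.sqrt u) * (R ^ 2 * Real.sqrt T)) := by ring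
    rw [g8, g3, g4]
    have g9 : 0 ≤ R ^ 4 * T := by positivity
    have g10 : 0 ≤ T ^ 2 := sq_nonneg T
    have g12 : 0 ≤ R ^ 2 * T * (T / u) := by positivity
    have g11 : T * (T + 2 * R ^ 2 * (T / u) + R ^ 4) =
      T ^ 2 + 2 * (R ^ 2 * T * (T / u)) + R ^ 4 * T := by ring
    rw [g11]
    linarith
  rw [h1]
  calc (α * β) ^ 2 * (T * (T + R ^ 2 * M + R ^ 2 * (T / M) + R ^ 4))
      ≤ (α * β) ^ 2 * (4 * (T + R * T / Real.sqrt u + R ^ 2 * Real.sqrt T) ^ 2) :=
        mul_le_mul_of_nonneg_left (h4.trans h7) (by positivity)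
    _ = _ := by ring

private theorem tyc_log {T : ℕ} (hT : 1 ≤ T) :
    ((Nat.log 2 T : ℕ) : ℝ) ≤ 2 * Real.log T := by
  have h1 : 2 ^ Nat.log 2 T ≤ T := Nat.pow_log_le_self 2 (by omega)
  have h2 : ((2 : ℝ) ^ Nat.log 2 T) ≤ T := by exact_mod_cast h1
  have h3 := Real.log_le_log (by positivity) h2
  rw [Real.log_pow] at h3
  have h4 : (0.6931471803 : ℝ) < Real.log 2 := Real.log_two_gt_d9
  have h5 : (0 : ℝ) ≤ (Nat.log 2 T : ℝ) := Nat.cast_nonneg _
  nlinarith

theorem ty_cut : ∃ C : ℝ, 0 < C ∧ ∀ (R u T : ℕ), 1 ≤ u → 1 ≤ T → ∀ (a b : ℕ → ℝ) (α β : ℝ),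
    (∀ m, u < m → m ≤ T → |a m| ≤ α) → (∀ k, u < k → k ≤ T → |b k| ≤ β) → 0 ≤ α → 0 ≤ β →
    ∑ c ∈ PC R, ‖∑ m ∈ Ioc u T, ((a m : ℝ) : ℂ) * ∑ k ∈ Ioc u (T / m), ((b k : ℝ) : ℂ) *
        c.2 ((m * k : ℕ) : ZMod (c.1.val + 1))‖ ≤
      C * α * β * (1 + Real.log T) ^ 2 *
        (T + R * T / Real.sqrt u + (R : ℝ) ^ 2 * Real.sqrt T) := by
  obtain ⟨C, hC, hbil⟩ := bil_cut
  refine ⟨12 * C, by positivity, ?_⟩
  intro R u T hu hT a b α β ha hb hα hβ
  obtain ⟨J, hJ⟩ : ∃ J : ℕ, J = Nat.log 2 T + 1 := ⟨_, rfl⟩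
  have hTJ : T < 2 ^ J := by
    rw [hJ]
    exact Nat.lt_pow_succ_log_self (by norm_num) T
  have hT0 : (0 : ℝ) < T := by exact_mod_cast hT
  have hlogT : 0 ≤ Real.log T := Real.log_nonneg (by exact_mod_cast hT)
  have hJ2 : (J : ℝ) ≤ 2 * (1 + Real.log T) := by
    have := tyc_log hT
    rw [hJ]
    push_cast
    linarith
  obtain ⟨W, hW⟩ : ∃ W : ℝ, W = (T + R * T / Real.sqrt u + (R : ℝ) ^ 2 * Real.sqrt T) := ⟨_, rfl⟩
  have hW0 : 0 ≤ W := by rw [hW]; positivity
  have hblock : ∀ i ∈ range J, ∑ c ∈ PC R, ‖∑ m ∈ Ioc (2 ^ i * u) (2 * (2 ^ i * u)),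
      ((a m : ℝ) : ℂ) * ∑ k ∈ Ioc u (T / m), ((b k : ℝ) : ℂ) *
        c.2 ((m * k : ℕ) : ZMod (c.1.val + 1))‖ ≤ 6 * C * (1 + Real.log T) * (α * β * W) := by
    intro i _
    obtain ⟨M, hM⟩ : ∃ M : ℕ, M = 2 ^ i * u := ⟨_, rfl⟩
    rw [← hM]
    have hMu : u ≤ M := by
      rw [hM]
      calc u = 1 * u := (one_mul u).symm
        _ ≤ 2 ^ i * u := Nat.mul_le_mul_right u Nat.one_le_two_pow
    have hM1 : 1 ≤ M := by omega
    by_cases hMT : M * u ≤ T
    · have hN : u ≤ T / M := by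
        rw [Nat.le_div_iff_mul_le (by omega), mul_comm]
        exact hMT
      have hs : T / M + 1 < 2 ^ (J + 1) := by
        have h1 : T / M ≤ T := Nat.div_le_self T M
        rw [pow_succ]
        omega
      have key := hbil R M (2 * M) u (T / M) T (J + 1) (by omega) hN hs
        (fun m => if m ≤ T then ((a m : ℝ) : ℂ) else 0) (fun k => ((b k : ℝ) : ℂ))
      have e1 : ∀ c : Ch R, (∑ m ∈ Ioc M (2 * M), ∑ k ∈ Ioc u (T / M),
          if m * k ≤ T then (if m ≤ T then ((a m : ℝ) : ℂ) else 0) * ((b k : ℝ) : ℂ) *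
            c.2 ((m * k : ℕ) : ZMod (c.1.val + 1)) else 0) =
          ∑ m ∈ Ioc M (2 * M), ((a m : ℝ) : ℂ) * ∑ k ∈ Ioc u (T / m), ((b k : ℝ) : ℂ) *
            c.2 ((m * k : ℕ) : ZMod (c.1.val + 1)) := by
        intro c
        refine Finset.sum_congr rfl fun m hm => ?_
        rw [mem_Ioc] at hm
        have hm0 : 0 < m := by omega
        rw [Finset.mul_sum, ← Finset.sum_filter]
        have hset : (Ioc u (T / M)).filter (fun k => m * k ≤ T) = Ioc u (T / m) := by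
          ext k
          rw [mem_filter, mem_Ioc, mem_Ioc]
          constructor
          · rintro ⟨h1, h2⟩
            refine ⟨h1.1, ?_⟩
            rw [Nat.le_div_iff_mul_le hm0, mul_comm]
            exact h2
          · rintro ⟨h1, h2⟩
            have h3 : T / m ≤ T / M := Nat.div_le_div_left (by omega) (by omega)
            rw [Nat.le_div_iff_mul_le hm0, mul_comm] at h2
            refine ⟨⟨h1, ?_⟩, h2⟩
            refine le_trans ?_ h3
            rw [Nat.le_div_iff_mul_le hm0, mul_comm]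
            exact h2
        rw [hset]
        refine Finset.sum_congr rfl fun k hk => ?_
        rw [mem_Ioc] at hk
        have hmT : m ≤ T := by
          by_contra hcon
          have : T / m = 0 := Nat.div_eq_of_lt (by omega)
          omega
        rw [if_pos hmT]
        ring
      simp only [e1] at key
      refine key.trans ?_
      have hMr : (1 : ℝ) ≤ M := by exact_mod_cast hM1
      have hur : (1 : ℝ) ≤ u := by exact_mod_cast hu
      have hMur : (u : ℝ) ≤ M := by exact_mod_cast hMu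
      have hMTr : (M : ℝ) * u ≤ T := by exact_mod_cast hMT
      have hR0 : (0 : ℝ) ≤ R := Nat.cast_nonneg R
      have hA : ∑ m ∈ Ioc M (2 * M), ‖(if m ≤ T then ((a m : ℝ) : ℂ) else 0)‖ ^ 2 ≤
          M * α ^ 2 := by
        calc ∑ m ∈ Ioc M (2 * M), ‖(if m ≤ T then ((a m : ℝ) : ℂ) else 0)‖ ^ 2
            ≤ ∑ _m ∈ Ioc M (2 * M), α ^ 2 := by
              refine Finset.sum_le_sum fun m hm => ?_
              rw [mem_Ioc] at hm
              apply pow_le_pow_left₀ (norm_nonneg _)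
              split_ifs with h
              · rw [Complex.norm_real, Real.norm_eq_abs]
                exact ha m (by omega) h
              · rw [norm_zero]
                exact hα
          _ = M * α ^ 2 := by
              rw [Finset.sum_const, Nat.card_Ioc, nsmul_eq_mul]
              congr 2
              omega
      have hB : ∑ k ∈ Ioc u (T / M), ‖((b k : ℝ) : ℂ)‖ ^ 2 ≤ (T : ℝ) / M * β ^ 2 := by
        calc ∑ k ∈ Ioc u (T / M), ‖((b k : ℝ) : ℂ)‖ ^ 2
            ≤ ∑ _k ∈ Ioc u (T / M), β ^ 2 := by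
              refine Finset.sum_le_sum fun k hk => ?_
              rw [mem_Ioc] at hk
              apply pow_le_pow_left₀ (norm_nonneg _)
              rw [Complex.norm_real, Real.norm_eq_abs]
              exact hb k hk.1 (hk.2.trans (Nat.div_le_self T M))
          _ = ((T / M - u : ℕ) : ℝ) * β ^ 2 := by
              rw [Finset.sum_const, Nat.card_Ioc, nsmul_eq_mul]
          _ ≤ (T : ℝ) / M * β ^ 2 := by
              apply mul_le_mul_of_nonneg_right _ (by positivity)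
              have h1 : ((T / M - u : ℕ) : ℝ) ≤ ((T / M : ℕ) : ℝ) := by
                exact_mod_cast Nat.sub_le _ _
              exact h1.trans Nat.cast_div_le
      have hA2 : ((((2 * M : ℕ) : ℝ) - M + (R : ℝ) ^ 2) *
          ∑ m ∈ Ioc M (2 * M), ‖(if m ≤ T then ((a m : ℝ) : ℂ) else 0)‖ ^ 2) ≤
          (M + (R : ℝ) ^ 2) * (M * α ^ 2) := by
        have e : (((2 * M : ℕ) : ℝ) - M + (R : ℝ) ^ 2) = M + (R : ℝ) ^ 2 := by
          push_cast
          ring
        rw [e]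
        exact mul_le_mul_of_nonneg_left hA (by positivity)
      have hB2 : ((((T / M : ℕ) : ℝ) - u + (R : ℝ) ^ 2) *
          ∑ k ∈ Ioc u (T / M), ‖((b k : ℝ) : ℂ)‖ ^ 2) ≤
          ((T : ℝ) / M + (R : ℝ) ^ 2) * ((T : ℝ) / M * β ^ 2) := by
        apply mul_le_mul _ hB (Finset.sum_nonneg fun _ _ => by positivity) (by positivity)
        have h1 : ((T / M : ℕ) : ℝ) ≤ (T : ℝ) / M := Nat.cast_div_le
        linarith
      have hnum := tyc_num hur hMur hMTr hR0 hα hβ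
      rw [← hW] at hnum
      have hs0 : (((J + 1 : ℕ) : ℝ)) ≤ 3 * (1 + Real.log T) := by
        push_cast
        linarith
      calc C * ((J + 1 : ℕ) : ℝ) * (Real.sqrt ((((2 * M : ℕ) : ℝ) - M + (R : ℝ) ^ 2) *
            ∑ m ∈ Ioc M (2 * M), ‖(if m ≤ T then ((a m : ℝ) : ℂ) else 0)‖ ^ 2) *
          Real.sqrt ((((T / M : ℕ) : ℝ) - u + (R : ℝ) ^ 2) *
            ∑ k ∈ Ioc u (T / M), ‖((b k : ℝ) : ℂ)‖ ^ 2))
          ≤ C * (3 * (1 + Real.log T)) * (2 * α * β * W) := by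
            apply mul_le_mul (mul_le_mul_of_nonneg_left hs0 hC.le) _ (by positivity)
              (by positivity)
            refine le_trans ?_ hnum
            exact mul_le_mul (Real.sqrt_le_sqrt hA2) (Real.sqrt_le_sqrt hB2)
              (Real.sqrt_nonneg _) (Real.sqrt_nonneg _)
        _ = 6 * C * (1 + Real.log T) * (α * β * W) := by ring
    · have hz : ∀ c : Ch R, ‖∑ m ∈ Ioc M (2 * M),
          ((a m : ℝ) : ℂ) * ∑ k ∈ Ioc u (T / m), ((b k : ℝ) : ℂ) *
          c.2 ((m * k : ℕ) : ZMod (c.1.val + 1))‖ = 0 := by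
        intro c
        rw [norm_eq_zero]
        apply Finset.sum_eq_zero
        intro m hm
        rw [mem_Ioc] at hm
        have : Ioc u (T / m) = ∅ := by
          rw [Finset.Ioc_eq_empty_iff, not_lt]
          have h1 : T / m ≤ T / M := Nat.div_le_div_left (by omega) (by omega)
          have h2 : T / M < u := by
            rw [Nat.div_lt_iff_lt_mul (by omega), mul_comm]
            omega
          omega
        rw [this, Finset.sum_empty, mul_zero]
      rw [Finset.sum_congr rfl (fun c _ => hz c), Finset.sum_const_zero]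
      positivity
  have hmain : ∀ c ∈ PC R, ‖∑ m ∈ Ioc u T, ((a m : ℝ) : ℂ) *
      ∑ k ∈ Ioc u (T / m), ((b k : ℝ) : ℂ) * c.2 ((m * k : ℕ) : ZMod (c.1.val + 1))‖ ≤
      ∑ i ∈ range J, ‖∑ m ∈ Ioc (2 ^ i * u) (2 * (2 ^ i * u)),
      ((a m : ℝ) : ℂ) * ∑ k ∈ Ioc u (T / m), ((b k : ℝ) : ℂ) *
        c.2 ((m * k : ℕ) : ZMod (c.1.val + 1))‖ := by
    intro c _
    have e1 : ∑ m ∈ Ioc u T, ((a m : ℝ) : ℂ) *
        ∑ k ∈ Ioc u (T / m), ((b k : ℝ) : ℂ) * c.2 ((m * k : ℕ) : ZMod (c.1.val + 1)) =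
        ∑ m ∈ Ioc u (2 ^ J * u), ((a m : ℝ) : ℂ) *
        ∑ k ∈ Ioc u (T / m), ((b k : ℝ) : ℂ) * c.2 ((m * k : ℕ) : ZMod (c.1.val + 1)) := by
      apply Finset.sum_subset
      · apply Finset.Ioc_subset_Ioc_right
        calc T ≤ 2 ^ J := hTJ.le
          _ = 2 ^ J * 1 := (mul_one _).symm
          _ ≤ 2 ^ J * u := Nat.mul_le_mul_left _ hu
      · intro m hm hm2
        rw [mem_Ioc] at hm hm2
        have hmT : T < m := by omega
        rw [Nat.div_eq_of_lt hmT, Finset.Ioc_eq_empty_iff.2 (by omega), Finset.sum_empty, mul_zero]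
    rw [e1, tyc_blk _ u hu J]
    exact norm_sum_le _ _
  refine (Finset.sum_le_sum hmain).trans ?_
  rw [Finset.sum_comm]
  refine (Finset.sum_le_sum hblock).trans ?_
  rw [Finset.sum_const, card_range, nsmul_eq_mul, ← hW]
  calc (J : ℝ) * (6 * C * (1 + Real.log T) * (α * β * W))
      ≤ (2 * (1 + Real.log T)) * (6 * C * (1 + Real.log T) * (α * β * W)) :=
        mul_le_mul_of_nonneg_right hJ2 (by positivity)
    _ = 12 * C * α * β * (1 + Real.log T) ^ 2 * W := by ring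

end Pool.Agent.H67.VU
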